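import Mathlib

/-! Solvable ideals and radicals of Lie subalgebras of a normed space with a continuous bracket. -/

set_option linter.unusedSectionVars false

namespace Pool.Agent.H72.ProLie

variable {E : Type*} [NormedAddCommGroup E] [NormedSpace ℝ E]

/-- The span of the brackets of elements of `a` and `b`. -/
def bs (br : E →L[ℝ] E →L[ℝ] E) (a b : Submodule ℝ E) : Submodule ℝ E :=
  Submodule.span ℝ {z | ∃ x ∈ a, ∃ y ∈ b, z = br x y}

/-- The derived series of a subspace. -/
def dser (br : E →L[ℝ] E →L[ℝ] E) (j : Submodule ℝ E) : ℕ → Submodule ℝ E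
  | 0 => j
  | k + 1 => bs br (dser br j k) (dser br j k)

/-- Solvability: some derived space vanishes. -/
def IsSolv (br : E →L[ℝ] E →L[ℝ] E) (j : Submodule ℝ E) : Prop := ∃ k, dser br j k = ⊥

/-- `j` is an ideal of the Lie algebra `h`. -/
structure IsLieIdl (br : E →L[ℝ] E →L[ℝ] E) (h j : Submodule ℝ E) : Prop where
  le : j ≤ h
  br_mem : ∀ x ∈ h, ∀ y ∈ j, br x y ∈ j

/-- The radical: the supremum of the solvable ideals. -/
def Rad (br : E →L[ℝ] E →L[ℝ] E) (h : Submodule ℝ E) : Submodule ℝ E :=
  sSup {j | IsLieIdl br h j ∧ IsSolv br j}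

/-- A Lie bracket on a normed space. -/
structure LieBr (br : E →L[ℝ] E →L[ℝ] E) : Prop where
  self : ∀ x, br x x = 0
  jac : ∀ x y z, br x (br y z) = br (br x y) z + br y (br x z)

end Pool.Agent.H72.ProLie
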