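import Mathlib

open Filter Topology Set Metric
open scoped Manifold ContDiff

namespace Pool.Agent.H72.ProLie

/-- second difference estimate -/
theorem second_diff {E : Type*} [NormedAddCommGroup E] [NormedSpace ℝ E]
    (M : E × E → E) (hM : ContDiffAt ℝ 2 M (0, 0))
    (h1 : ∀ᶠ x in 𝓝 (0 : E), M (x, 0) = x) (h2 : ∀ᶠ y in 𝓝 (0 : E), M (0, y) = y) :
    ∃ ρ > 0, ∃ C ≥ 0, ∀ x y : E, ‖x‖ < ρ → ‖y‖ < ρ → ‖M (x, y) - x - y‖ ≤ C * ‖x‖ * ‖y‖ := by
  have hd : ContDiffAt ℝ 1 (fderiv ℝ M) (0, 0) := hM.fderiv_right (m := 1) (by norm_num)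
  obtain ⟨K, s, hs, hK⟩ := hd.exists_lipschitzOnWith
  have hdiff : ∀ᶠ p in 𝓝 ((0, 0) : E × E), DifferentiableAt ℝ M p := by
    have := hM.eventually (by simp)
    filter_upwards [this] with p hp
    exact hp.differentiableAt (by simp)
  obtain ⟨r1, hr1, h1'⟩ := Metric.eventually_nhds_iff_ball.1 h1
  obtain ⟨r2, hr2, h2'⟩ := Metric.eventually_nhds_iff_ball.1 h2
  obtain ⟨r3, hr3, h3'⟩ := Metric.eventually_nhds_iff_ball.1 hdiff
  obtain ⟨r4, hr4, h4'⟩ := Metric.mem_nhds_iff.1 hs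
  set ρ := min (min r1 r2) (min r3 r4) with hρ
  have hρ0 : 0 < ρ := by simp [ρ, hr1, hr2, hr3, hr4]
  refine ⟨ρ, hρ0, K, K.2, ?_⟩
  intro x y hx hy
  have hmem : ∀ a b : E, ‖a‖ < ρ → ‖b‖ < ρ → (a, b) ∈ ball ((0, 0) : E × E) ρ := by
    intro a b ha hb
    rw [mem_ball, dist_eq_norm]
    simp only [Prod.mk_sub_mk, sub_zero, Prod.norm_mk]
    exact max_lt ha hb
  have hρ1 : ρ ≤ r1 := (min_le_left _ _).trans (min_le_left _ _)
  have hρ2 : ρ ≤ r2 := (min_le_left _ _).trans (min_le_right _ _)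
  have hρ3 : ρ ≤ r3 := (min_le_right _ _).trans (min_le_left _ _)
  have hρ4 : ρ ≤ r4 := (min_le_right _ _).trans (min_le_right _ _)
  -- h(y) = M(x,y) - M(0,y)
  set h : E → E := fun b => M (x, b) - M (0, b) with hh
  set inr : E →L[ℝ] E × E := ContinuousLinearMap.inr ℝ E E with hinr
  have hder : ∀ b ∈ ball (0 : E) ρ, HasFDerivWithinAt h
      ((fderiv ℝ M (x, b)).comp inr - (fderiv ℝ M (0, b)).comp inr) (ball (0 : E) ρ) b := by
    intro b hb
    rw [mem_ball_zero_iff] at hb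
    have hd1 : DifferentiableAt ℝ M (x, b) := h3' _ (ball_subset_ball hρ3 (hmem x b hx hb))
    have hd2 : DifferentiableAt ℝ M (0, b) :=
      h3' _ (ball_subset_ball hρ3 (hmem 0 b (by simpa using hρ0) hb))
    have e1 : ∀ a : E, HasFDerivAt (fun b : E => (a, b)) inr b := fun a => hasFDerivAt_prodMk_right a b
    have c1 : HasFDerivAt (fun b => M (x, b)) ((fderiv ℝ M (x, b)).comp inr) b :=
      hd1.hasFDerivAt.comp b (e1 x)
    have c2 : HasFDerivAt (fun b => M (0, b)) ((fderiv ℝ M (0, b)).comp inr) b :=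
      hd2.hasFDerivAt.comp b (e1 0)
    exact (c1.sub c2).hasFDerivWithinAt
  have hbound : ∀ b ∈ ball (0 : E) ρ,
      ‖(fderiv ℝ M (x, b)).comp inr - (fderiv ℝ M (0, b)).comp inr‖ ≤ K * ‖x‖ := by
    intro b hb
    rw [mem_ball_zero_iff] at hb
    have m1 := h4' (ball_subset_ball hρ4 (hmem x b hx hb))
    have m2 := h4' (ball_subset_ball hρ4 (hmem 0 b (by simpa using hρ0) hb))
    have := hK.dist_le_mul _ m1 _ m2
    rw [dist_eq_norm, dist_eq_norm] at this
    simp only [Prod.mk_sub_mk, sub_zero, sub_self, Prod.norm_mk, norm_zero] at this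
    rw [max_eq_left (norm_nonneg x)] at this
    rw [← ContinuousLinearMap.sub_comp]
    refine (ContinuousLinearMap.opNorm_comp_le _ _).trans ?_
    have hinr1 : ‖inr‖ ≤ 1 := ContinuousLinearMap.opNorm_le_bound _ zero_le_one (by
      intro v
      simp [hinr])
    calc _ ≤ ‖fderiv ℝ M (x, b) - fderiv ℝ M (0, b)‖ * 1 :=
          mul_le_mul_of_nonneg_left hinr1 (norm_nonneg _)
      _ ≤ _ := by rw [mul_one]; exact this
  have key := (convex_ball (0 : E) ρ).norm_image_sub_le_of_norm_hasFDerivWithin_le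
    (𝕜 := ℝ) hder hbound (mem_ball_self hρ0) (mem_ball_zero_iff.2 hy)
  have e1 : M (x, 0) = x := h1' x (ball_subset_ball hρ1 (mem_ball_zero_iff.2 hx))
  have e2 : M (0, y) = y := h2' y (ball_subset_ball hρ2 (mem_ball_zero_iff.2 hy))
  have e3 : M (0, 0) = 0 := h1' 0 (mem_ball_self hr1)
  have : M (x, y) - x - y = h y - h 0 := by
    simp only [hh, e1, e2, e3]; abel
  rw [this]
  simpa using key

/-- A normalised `C^{1,1}` chart at the identity of a topological group. -/
structure C11 (G : Type*) [Group G] [TopologicalSpace G] (E : Type*) [NormedAddCommGroup E]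
    [NormedSpace ℝ E] where
  /-- the inverse chart -/
  e : E → G
  zero : e 0 = 1
  inj : Set.InjOn e (closedBall 0 9)
  cont : ContinuousOn e (closedBall 0 9)
  nhds : Filter.map e (𝓝 0) = 𝓝 1
  mul : ∀ x y, ‖x‖ ≤ 4 → ‖y‖ ≤ 4 → ∃ z, ‖z - x - y‖ ≤ ‖x‖ * ‖y‖ / 100 ∧ e x * e y = e z
  inv : ∀ x, ‖x‖ ≤ 3 → ∃ y, ‖y‖ ≤ 4 ∧ e y = (e x)⁻¹

theorem exists_C11 (G : Type*) [Group G] [TopologicalSpace G] (E : Type*) [NormedAddCommGroup E]
    [NormedSpace ℝ E] [ChartedSpace E G] [LieGroup 𝓘(ℝ, E) ∞ G] : Nonempty (C11 G E) := by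
  classical
  have : LieGroup 𝓘(ℝ, E) 2 G := LieGroup.of_le (n := ∞) (by norm_cast)
  have : IsTopologicalGroup G := topologicalGroup_of_lieGroup 𝓘(ℝ, E) ∞
  set φ := chartAt E (1 : G) with hφ
  set c0 := φ 1 with hc0
  have h1s : (1 : G) ∈ φ.source := mem_chart_source E 1
  have hc0t : c0 ∈ φ.target := φ.map_source h1s
  set e0 : E → G := fun x => φ.symm (x + c0) with he0
  have he00 : e0 0 = 1 := by simp [he0, hc0, φ.left_inv h1s]
  -- the multiplication in the chart
  set M : E × E → E := fun p => φ (e0 p.1 * e0 p.2) - c0 with hM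
  have hsm : ∀ f : E × E → E, ContDiffAt ℝ 2 f (0, 0) → f (0, 0) = 0 →
      ContMDiffAt 𝓘(ℝ, E × E) 𝓘(ℝ, E) 2 (fun p => e0 (f p)) (0, 0) := by
    intro f hf hf0
    have hs : ContMDiffAt 𝓘(ℝ, E) 𝓘(ℝ, E) 2 φ.symm (f (0, 0) + c0) := by
      rw [hf0, zero_add]
      exact (contMDiffOn_chart_symm (I := 𝓘(ℝ, E)) (n := 2) (x := (1 : G))).contMDiffAt
        (φ.open_target.mem_nhds hc0t)
    have hf' : ContMDiffAt 𝓘(ℝ, E × E) 𝓘(ℝ, E) 2 (fun p => f p + c0) (0, 0) :=
      (hf.add contDiffAt_const).contMDiffAt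
    exact ContMDiffAt.comp (0, 0) hs hf'
  have hMs : ContDiffAt ℝ 2 M (0, 0) := by
    have h1 := hsm (fun p => p.1) contDiffAt_fst rfl
    have h2 := hsm (fun p => p.2) contDiffAt_snd rfl
    have h3 := h1.mul h2
    have hp : ContMDiffAt 𝓘(ℝ, E) 𝓘(ℝ, E) 2 φ (1 : G) :=
      (contMDiffOn_chart (I := 𝓘(ℝ, E)) (n := 2) (x := (1 : G))).contMDiffAt
        (φ.open_source.mem_nhds h1s)
    have h4 : ContMDiffAt 𝓘(ℝ, E × E) 𝓘(ℝ, E) 2
        (fun p : E × E => φ (e0 p.1 * e0 p.2)) (0, 0) := by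
      refine ContMDiffAt.comp (0, 0) (g := φ) ?_ h3
      simpa [he00] using hp
    exact (contMDiffAt_iff_contDiffAt.1 h4).sub contDiffAt_const
  -- the good ball
  have hball : ∀ᶠ x in 𝓝 (0 : E), x + c0 ∈ φ.target := by
    have : Tendsto (fun x : E => x + c0) (𝓝 0) (𝓝 c0) := by
      have h : Continuous (fun x : E => x + c0) := by fun_prop
      simpa using h.tendsto (0 : E)
    exact this.eventually (φ.open_target.mem_nhds hc0t)
  obtain ⟨R, hR, hRb⟩ := Metric.eventually_nhds_iff_ball.1 hball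
  have hφe : ∀ x ∈ ball (0 : E) R, φ (e0 x) = x + c0 := fun x hx => φ.right_inv (hRb x hx)
  have hec : ContinuousOn e0 (ball 0 R) := by
    refine φ.continuousOn_symm.comp (by fun_prop) ?_
    intro x hx
    exact hRb x hx
  have hei : InjOn e0 (ball 0 R) := by
    intro x hx y hy hxy
    have := congrArg φ hxy
    rw [hφe x hx, hφe y hy] at this
    exact add_right_cancel this
  have hen : Filter.map e0 (𝓝 0) = 𝓝 1 := by
    have h1 : Filter.map (fun x : E => x + c0) (𝓝 0) = 𝓝 c0 := by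
      have := (Homeomorph.addRight c0).map_nhds_eq (0 : E)
      simpa using this
    have h2 : Filter.map φ.symm (𝓝 c0) = 𝓝 1 := by
      have := φ.symm.map_nhds_eq (x := c0) (by simpa using hc0t)
      rw [this, hc0, φ.left_inv h1s]
    rw [he0, ← h2, ← h1, Filter.map_map]
    rfl
  have hM1 : ∀ᶠ x in 𝓝 (0 : E), M (x, 0) = x := by
    filter_upwards [ball_mem_nhds (0 : E) hR] with x hx
    simp [hM, he00, hφe x hx]
  have hM2 : ∀ᶠ x in 𝓝 (0 : E), M (0, x) = x := by
    filter_upwards [ball_mem_nhds (0 : E) hR] with x hx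
    simp [hM, he00, hφe x hx]
  obtain ⟨ρ, hρ, C, hC, hest⟩ := second_diff M hMs hM1 hM2
  -- product lands in the source and in the ball
  have hcm : ∀ᶠ p in 𝓝 ((0, 0) : E × E), e0 p.1 * e0 p.2 ∈ φ.source := by
    have hce : ContinuousAt e0 0 := by
      have : Tendsto e0 (𝓝 0) (𝓝 (e0 0)) := by rw [he00, ← hen]; exact tendsto_map
      exact this
    have : ContinuousAt (fun p : E × E => e0 p.1 * e0 p.2) (0, 0) := by
      refine ContinuousAt.mul ?_ ?_
      · exact ContinuousAt.comp (g := e0) (by simpa using hce) continuousAt_fst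
      · exact ContinuousAt.comp (g := e0) (by simpa using hce) continuousAt_snd
    refine this.eventually (φ.open_source.mem_nhds ?_)
    simpa [he00] using h1s
  obtain ⟨r1, hr1, hr1b⟩ := Metric.eventually_nhds_iff_ball.1 hcm
  have hinvev : ∀ᶠ x in 𝓝 (0 : E), ∃ y, ‖y‖ < ρ ∧ e0 y = (e0 x)⁻¹ := by
    have h1 : Tendsto (fun x => (e0 x)⁻¹) (𝓝 0) (𝓝 1) := by
      have : Tendsto e0 (𝓝 0) (𝓝 1) := by rw [← hen]; exact tendsto_map
      simpa using this.inv
    rw [← hen] at h1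
    have h2 : e0 '' ball 0 ρ ∈ Filter.map e0 (𝓝 0) := image_mem_map (ball_mem_nhds _ hρ)
    filter_upwards [h1 h2] with x hx
    obtain ⟨y, hy, hyx⟩ := hx
    exact ⟨y, mem_ball_zero_iff.1 hy, hyx⟩
  obtain ⟨r2, hr2, hr2b⟩ := Metric.eventually_nhds_iff_ball.1 hinvev
  -- choose the scale
  obtain ⟨lam, hlam, hl1, hl2, hl3, hl4, hl5⟩ : ∃ lam : ℝ, 0 < lam ∧ lam * 10 < R ∧ lam * 10 < ρ ∧
      lam * 10 < r1 ∧ lam * 10 < r2 ∧ C * lam ≤ 1 / 100 := by
    refine ⟨min (min (R / 20) (ρ / 20)) (min (min (r1 / 20) (r2 / 20)) (1 / (100 * (C + 1)))),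
      ?_, ?_, ?_, ?_, ?_, ?_⟩
    · have : 0 < C + 1 := by linarith
      positivity
    · have := min_le_left (min (R / 20) (ρ / 20)) (min (min (r1 / 20) (r2 / 20)) (1 / (100 * (C + 1))))
      have h' := min_le_left (R / 20) (ρ / 20)
      nlinarith
    · have := min_le_left (min (R / 20) (ρ / 20)) (min (min (r1 / 20) (r2 / 20)) (1 / (100 * (C + 1))))
      have h' := min_le_right (R / 20) (ρ / 20)
      nlinarith
    · have := min_le_right (min (R / 20) (ρ / 20)) (min (min (r1 / 20) (r2 / 20)) (1 / (100 * (C + 1))))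
      have h' := min_le_left (min (r1 / 20) (r2 / 20)) (1 / (100 * (C + 1)))
      have h'' := min_le_left (r1 / 20) (r2 / 20)
      nlinarith
    · have := min_le_right (min (R / 20) (ρ / 20)) (min (min (r1 / 20) (r2 / 20)) (1 / (100 * (C + 1))))
      have h' := min_le_left (min (r1 / 20) (r2 / 20)) (1 / (100 * (C + 1)))
      have h'' := min_le_right (r1 / 20) (r2 / 20)
      nlinarith
    · have := min_le_right (min (R / 20) (ρ / 20)) (min (min (r1 / 20) (r2 / 20)) (1 / (100 * (C + 1))))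
      have h' := min_le_right (min (r1 / 20) (r2 / 20)) (1 / (100 * (C + 1)))
      have h'' := this.trans h'
      have hC1 : 0 < C + 1 := by linarith
      calc C * _ ≤ C * (1 / (100 * (C + 1))) := mul_le_mul_of_nonneg_left h'' hC
        _ ≤ 1 / 100 := by
          rw [mul_one_div, div_le_div_iff₀ (by positivity) (by norm_num)]
          nlinarith
  have hsmall : ∀ x : E, ‖x‖ ≤ 9 → ‖lam • x‖ < lam * 10 := by
    intro x hx
    rw [norm_smul, Real.norm_of_nonneg hlam.le]
    exact mul_lt_mul_of_pos_left (by linarith) hlam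
  -- inverse scale: refine the choice of the inverse being at most 4 by a continuity argument
  refine ⟨⟨fun x => e0 (lam • x), by simp [he00], ?_, ?_, ?_, ?_, ?_⟩⟩
  · intro x hx y hy hxy
    rw [mem_closedBall_zero_iff] at hx hy
    have := hei (mem_ball_zero_iff.2 ((hsmall x hx).trans hl1))
      (mem_ball_zero_iff.2 ((hsmall y hy).trans hl1)) hxy
    exact smul_right_injective E hlam.ne' this
  · refine hec.comp (by fun_prop) ?_
    intro x hx
    rw [mem_closedBall_zero_iff] at hx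
    exact mem_ball_zero_iff.2 ((hsmall x hx).trans hl1)
  · have h1 : Filter.map (fun x : E => lam • x) (𝓝 0) = 𝓝 0 := by
      have := (Homeomorph.smulOfNeZero lam hlam.ne' : E ≃ₜ E).map_nhds_eq (0 : E)
      simpa using this
    have h2 : Filter.map (fun x => e0 (lam • x)) (𝓝 (0 : E)) =
        Filter.map e0 (Filter.map (fun x : E => lam • x) (𝓝 0)) := by
      rw [Filter.map_map]; rfl
    rw [h2, h1, hen]
  · intro x y hx hy
    have hx' := hsmall x (by linarith)
    have hy' := hsmall y (by linarith)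
    refine ⟨lam⁻¹ • M (lam • x, lam • y), ?_, ?_⟩
    · have hh := hest (lam • x) (lam • y) (hx'.trans hl2) (hy'.trans hl2)
      have heq : lam⁻¹ • M (lam • x, lam • y) - x - y =
          lam⁻¹ • (M (lam • x, lam • y) - lam • x - lam • y) := by
        generalize M (lam • x, lam • y) = q
        rw [smul_sub, smul_sub, inv_smul_smul₀ hlam.ne', inv_smul_smul₀ hlam.ne']
      rw [heq, norm_smul, norm_inv, Real.norm_of_nonneg hlam.le]
      rw [norm_smul, norm_smul, Real.norm_of_nonneg hlam.le] at hh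
      calc lam⁻¹ * ‖M (lam • x, lam • y) - lam • x - lam • y‖
          ≤ lam⁻¹ * (C * (lam * ‖x‖) * (lam * ‖y‖)) :=
            mul_le_mul_of_nonneg_left hh (by positivity)
        _ = (C * lam) * (‖x‖ * ‖y‖) := by field_simp
        _ ≤ (1 / 100) * (‖x‖ * ‖y‖) := mul_le_mul_of_nonneg_right hl5 (by positivity)
        _ = _ := by ring
    · rw [smul_inv_smul₀ hlam.ne']
      have hmem : (lam • x, lam • y) ∈ ball ((0, 0) : E × E) r1 := by
        rw [mem_ball, dist_eq_norm]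
        simp only [Prod.mk_sub_mk, sub_zero, Prod.norm_mk]
        exact max_lt (hx'.trans hl3) (hy'.trans hl3)
      have hsrc := hr1b _ hmem
      simp only [hM, he0, sub_add_cancel]
      exact (φ.left_inv hsrc).symm
  · intro x hx
    have hx' := hsmall x (by linarith)
    obtain ⟨y, hy, hyx⟩ := hr2b _ (mem_ball_zero_iff.2 (hx'.trans hl4))
    -- M (lam x, y) = 0
    have hM0 : M (lam • x, y) = 0 := by
      simp [hM, hyx, hc0]
    have hh := hest (lam • x) y (hx'.trans hl2) hy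
    rw [hM0, norm_smul, Real.norm_of_nonneg hlam.le] at hh
    have hy2 : ‖y‖ ≤ lam * 4 := by
      have h1 : ‖y‖ ≤ ‖(0 : E) - lam • x - y‖ + ‖lam • x‖ := by
        have : y = -((0 : E) - lam • x - y) - lam • x := by abel
        calc ‖y‖ = ‖-((0 : E) - lam • x - y) - lam • x‖ := by rw [← this]
          _ ≤ _ := by
            refine (norm_sub_le _ _).trans ?_
            rw [norm_neg]
      rw [norm_smul, Real.norm_of_nonneg hlam.le] at h1
      have h2 : C * (lam * ‖x‖) * ‖y‖ ≤ (1 / 100) * 3 * ‖y‖ := by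
        have : C * (lam * ‖x‖) ≤ 1 / 100 * 3 := by
          calc C * (lam * ‖x‖) = (C * lam) * ‖x‖ := by ring
            _ ≤ (1 / 100) * 3 := mul_le_mul hl5 hx (norm_nonneg _) (by norm_num)
        exact mul_le_mul_of_nonneg_right this (norm_nonneg _)
      have h3 : lam * ‖x‖ ≤ lam * 3 := mul_le_mul_of_nonneg_left hx hlam.le
      nlinarith [norm_nonneg y]
    refine ⟨lam⁻¹ • y, ?_, ?_⟩
    · rw [norm_smul, norm_inv, Real.norm_of_nonneg hlam.le, inv_mul_le_iff₀ hlam]
      exact hy2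
    · show e0 (lam • lam⁻¹ • y) = (e0 (lam • x))⁻¹
      rw [smul_inv_smul₀ hlam.ne', hyx]

end Pool.Agent.H72.ProLie
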