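import Pool.Agent.H72.ProLie.Sub

open Filter Topology Set Metric

namespace Pool.Agent.H72.ProLie

namespace C11

variable {G : Type*} [Group G] [TopologicalSpace G] {E : Type*} [NormedAddCommGroup E]
  [NormedSpace ℝ E] (c : C11 G E)

theorem star_lip {r : ℝ} (hr : r ≤ 1 / 4) {x y x' y' z z' : E} (hx : ‖x‖ ≤ r) (hy : ‖y‖ ≤ r)
    (hx' : ‖x'‖ ≤ r) (hy' : ‖y'‖ ≤ r) (hz : ‖z‖ ≤ 9) (hz' : ‖z'‖ ≤ 9)
    (h : c.e x * c.e y = c.e z) (h' : c.e x' * c.e y' = c.e z') :
    ‖(z - z') - ((x - x') + (y - y'))‖ ≤ r * (‖x - x'‖ + ‖y - y'‖) := by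
  have hx0 := norm_nonneg x
  have hy0 := norm_nonneg y
  have hx'0 := norm_nonneg x'
  have hy'0 := norm_nonneg y'
  have hr0 : 0 ≤ r := hx0.trans hx
  -- middle point
  obtain ⟨z1, a1, a2, a3⟩ := c.mul_ex (x := x) (y := y') (by linarith) (by linarith)
  obtain ⟨z2, b1, b2, b3⟩ := c.mul_ex (x := x') (y := y') (by linarith) (by linarith)
  have hz1 : ‖z1‖ ≤ 3 * r := by nlinarith
  have hz2 : ‖z2‖ ≤ 3 * r := by nlinarith
  have hzz2 : z' = z2 := c.inj' hz' (by linarith) (by rw [← h', b1])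
  rw [← hzz2] at hz2
  -- first
  obtain ⟨w, w1, w2, w3, w4⟩ := c.diff_ex (x := y') (y := y) (by linarith) (by linarith)
  have e1 : c.e z1 * c.e w = c.e z := by rw [← a1, mul_assoc, w1, h]
  have e2 := c.mul' (by linarith) w3 hz e1
  have f1 : ‖(z - z1) - (y - y')‖ ≤ r * ‖y - y'‖ := by
    have : (z - z1) - (y - y') = (z - z1 - w) + (w - (y - y')) := by abel
    rw [this]
    refine (norm_add_le _ _).trans ?_
    have hw0 := norm_nonneg w
    have g1 : ‖z1‖ * ‖w‖ ≤ 3 * r * ‖w‖ := mul_le_mul_of_nonneg_right hz1 hw0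
    have g2 : ‖y'‖ * ‖w‖ ≤ r * ‖w‖ := mul_le_mul_of_nonneg_right hy' hw0
    have g3 : r * ‖w‖ ≤ r * (102 / 100 * ‖y - y'‖) := mul_le_mul_of_nonneg_left w4 hr0
    have g4 : 0 ≤ r * ‖y - y'‖ := by positivity
    linarith
  -- second
  obtain ⟨xi, xi1, xi2, xi3⟩ := c.inv_ex (x := x') (by linarith)
  obtain ⟨u, u1, u2, u3⟩ := c.mul_ex (x := x) (y := xi) (by linarith) (by linarith)
  have hu : ‖u‖ ≤ 4 := by nlinarith [norm_nonneg xi]
  have u4 : c.e u * c.e x' = c.e x := by rw [← u1, xi1, inv_mul_cancel_right]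
  have u5 := c.mul' hu (by linarith) (by linarith) u4
  have hu0 := norm_nonneg u
  have u6 : ‖u - (x - x')‖ ≤ r * ‖u‖ / 100 := by
    have : u - (x - x') = -(x - u - x') := by abel
    rw [this, norm_neg]
    refine u5.trans ?_
    have := mul_le_mul_of_nonneg_left hx' hu0
    linarith
  have u7 : ‖u‖ ≤ 102 / 100 * ‖x - x'‖ := by
    have : ‖u‖ ≤ ‖u - (x - x')‖ + ‖x - x'‖ := by
      calc ‖u‖ = ‖(u - (x - x')) + (x - x')‖ := by rw [sub_add_cancel]
        _ ≤ _ := norm_add_le _ _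
    nlinarith [norm_nonneg (x - x')]
  have u8 : c.e u * c.e z' = c.e z1 := by rw [← h', ← mul_assoc, u4, a1]
  have u9 := c.mul' hu (by linarith) (by linarith) u8
  have f2 : ‖(z1 - z') - (x - x')‖ ≤ r * ‖x - x'‖ := by
    have : (z1 - z') - (x - x') = (z1 - u - z') + (u - (x - x')) := by abel
    rw [this]
    refine (norm_add_le _ _).trans ?_
    have g1 : ‖u‖ * ‖z'‖ ≤ ‖u‖ * (3 * r) := mul_le_mul_of_nonneg_left hz2 hu0
    have g3 : r * ‖u‖ ≤ r * (102 / 100 * ‖x - x'‖) := mul_le_mul_of_nonneg_left u7 hr0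
    have g4 : 0 ≤ r * ‖x - x'‖ := by positivity
    linarith
  have : (z - z') - ((x - x') + (y - y')) = ((z - z1) - (y - y')) + ((z1 - z') - (x - x')) := by
    abel
  rw [this]
  refine (norm_add_le _ _).trans ?_
  linarith

end C11

namespace ExpData

variable {G : Type*} [Group G] [TopologicalSpace G] {E : Type*} [NormedAddCommGroup E]
  [NormedSpace ℝ E] (D : ExpData G E)

/-- If `P + Q = 1` are continuous linear maps, then every small element is `exp (P v) exp (Q v)`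
with small `v`. -/
theorem split_nhds [CompleteSpace E] (P Q : E →L[ℝ] E) (hPQ : P + Q = 1) (r : ℝ) (hr : 0 < r) :
    ∀ᶠ z in 𝓝 (0 : E), ∃ v, ‖v‖ < r ∧ D.exp (P v) * D.exp (Q v) = D.exp z := by
  set θ : E → E := fun v => D.toC11.lg (D.exp (P v) * D.exp (Q v)) with hθ
  set K : ℝ := ‖P‖ + ‖Q‖ + 1 with hK
  have hK0 : 0 < K := by positivity
  have hPv : ∀ v, ‖P v‖ ≤ K * ‖v‖ := fun v => (P.le_opNorm v).trans
    (mul_le_mul_of_nonneg_right (by rw [hK]; linarith [norm_nonneg Q]) (norm_nonneg _))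
  have hQv : ∀ v, ‖Q v‖ ≤ K * ‖v‖ := fun v => (Q.le_opNorm v).trans
    (mul_le_mul_of_nonneg_right (by rw [hK]; linarith [norm_nonneg P]) (norm_nonneg _))
  have hPQv : ∀ v, P v + Q v = v := fun v => by
    have := congrArg (fun f : E →L[ℝ] E => f v) hPQ
    simpa using this
  have spec : ∀ v, ‖v‖ ≤ 1 / K → D.exp (P v) * D.exp (Q v) = D.exp (θ v) ∧ ‖θ v‖ ≤ 9 := by
    intro v hv
    have hKv : K * ‖v‖ ≤ 1 := by
      have := mul_le_mul_of_nonneg_left hv hK0.le
      rwa [mul_one_div_cancel hK0.ne'] at this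
    obtain ⟨z, h1, h2, h3⟩ := D.toC11.mul_ex (x := P v) (y := Q v) (by linarith [hPv v])
      (by linarith [hQv v])
    have hz9 : ‖z‖ ≤ 9 := by nlinarith [hPv v, hQv v, norm_nonneg (P v), norm_nonneg (Q v)]
    have : θ v = z := by
      rw [hθ]; simp only
      rw [← D.toC11_e, h1, D.toC11.lg_e hz9]
    rw [this]
    exact ⟨h1, hz9⟩
  have hθ0 : θ 0 = 0 := by
    have := spec 0 (by rw [norm_zero]; positivity)
    rw [map_zero, map_zero, D.exp_zero, one_mul] at this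
    exact D.inj' this.2 (by simp) (by rw [← this.1, D.exp_zero])
  have hstrict : HasStrictFDerivAt θ
      ((ContinuousLinearEquiv.refl ℝ E : E ≃L[ℝ] E) : E →L[ℝ] E) 0 := by
    rw [hasStrictFDerivAt_iff_isLittleO, Asymptotics.isLittleO_iff]
    intro ε hε
    set ρ : ℝ := min (1 / (4 * K)) (ε / (2 * K * K)) with hρ
    have hρ0 : 0 < ρ := by positivity
    have h1 : ∀ᶠ p : E × E in 𝓝 (0, 0), ‖p.1‖ < ρ := by
      have : Continuous (fun p : E × E => ‖p.1‖) := by fun_prop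
      exact this.tendsto (0, 0) |>.eventually (gt_mem_nhds (by simpa using hρ0))
    have h2 : ∀ᶠ p : E × E in 𝓝 (0, 0), ‖p.2‖ < ρ := by
      have : Continuous (fun p : E × E => ‖p.2‖) := by fun_prop
      exact this.tendsto (0, 0) |>.eventually (gt_mem_nhds (by simpa using hρ0))
    filter_upwards [h1, h2] with p hp1 hp2
    have hKρ : K * ρ ≤ 1 / 4 := by
      have : ρ ≤ 1 / (4 * K) := min_le_left _ _
      calc K * ρ ≤ K * (1 / (4 * K)) := mul_le_mul_of_nonneg_left this hK0.le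
        _ = 1 / 4 := by field_simp
    have hρK : ρ ≤ 1 / K := by
      refine (min_le_left _ _).trans ?_
      exact one_div_le_one_div_of_le hK0 (by linarith)
    obtain ⟨s1, s2⟩ := spec p.1 (hp1.le.trans hρK)
    obtain ⟨s3, s4⟩ := spec p.2 (hp2.le.trans hρK)
    have b : ∀ (v : E), ‖v‖ < ρ → K * ‖v‖ ≤ K * ρ := fun v hv =>
      mul_le_mul_of_nonneg_left hv.le hK0.le
    have key := D.toC11.star_lip (r := K * ρ) hKρ ((hPv p.1).trans (b _ hp1))
      ((hQv p.1).trans (b _ hp1)) ((hPv p.2).trans (b _ hp2)) ((hQv p.2).trans (b _ hp2))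
      s2 s4 s1 s3
    have e1 : (P p.1 - P p.2) + (Q p.1 - Q p.2) = p.1 - p.2 := by
      have h1 := hPQv p.1
      have h2 := hPQv p.2
      calc _ = (P p.1 + Q p.1) - (P p.2 + Q p.2) := by abel
        _ = _ := by rw [h1, h2]
    rw [e1] at key
    have h3 : ‖P p.1 - P p.2‖ + ‖Q p.1 - Q p.2‖ ≤ 2 * K * ‖p.1 - p.2‖ := by
      rw [← map_sub, ← map_sub]
      have := hPv (p.1 - p.2)
      have := hQv (p.1 - p.2)
      linarith
    have h4 : K * ρ * (2 * K) ≤ ε := by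
      have : ρ ≤ ε / (2 * K * K) := min_le_right _ _
      calc K * ρ * (2 * K) ≤ K * (ε / (2 * K * K)) * (2 * K) := by gcongr
        _ = ε := by field_simp
    have hfin : ‖θ p.1 - θ p.2 - (p.1 - p.2)‖ ≤ ε * ‖p.1 - p.2‖ := by
      refine key.trans ?_
      calc K * ρ * (‖P p.1 - P p.2‖ + ‖Q p.1 - Q p.2‖) ≤ K * ρ * (2 * K * ‖p.1 - p.2‖) :=
            mul_le_mul_of_nonneg_left h3 (by positivity)
        _ = K * ρ * (2 * K) * ‖p.1 - p.2‖ := by ring
        _ ≤ _ := mul_le_mul_of_nonneg_right h4 (norm_nonneg _)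
    exact hfin
  have hmap := hstrict.map_nhds_eq_of_equiv
  rw [hθ0] at hmap
  have hmem : θ '' ball 0 (min r (1 / K)) ∈ 𝓝 (0 : E) := by
    rw [← hmap]
    exact image_mem_map (ball_mem_nhds _ (by positivity))
  filter_upwards [hmem] with z hz
  obtain ⟨v, hv, hvz⟩ := hz
  rw [mem_ball_zero_iff] at hv
  refine ⟨v, hv.trans_le (min_le_left _ _), ?_⟩
  rw [← hvz]
  exact (spec v (hv.le.trans (min_le_right _ _))).1

variable [IsTopologicalGroup G] [T2Space G]

omit [IsTopologicalGroup G] [T2Space G] in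
theorem exp_int_mem (A : Subgroup G) {v : E} (h : D.exp v ∈ A) (m : ℤ) : D.exp ((m : ℝ) • v) ∈ A := by
  obtain ⟨n, rfl | rfl⟩ := m.eq_nat_or_neg
  · have := D.exp_nsmul n v
    simp only [Int.cast_natCast]
    rw [this]; exact A.pow_mem h n
  · have := D.exp_nsmul n v
    simp only [Int.cast_neg, Int.cast_natCast, neg_smul]
    rw [D.exp_neg, this]; exact A.inv_mem (A.pow_mem h n)

/-- The Lie algebra of a closed subgroup. -/
def lie (A : Subgroup G) (hA : IsClosed (A : Set G)) : Submodule ℝ E where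
  carrier := {v | ∀ t : ℝ, D.exp (t • v) ∈ A}
  zero_mem' := fun t => by rw [smul_zero, D.exp_zero]; exact A.one_mem
  add_mem' := by
    intro v w hv hw t
    have h1 := D.trotter (t • v) (t • w)
    rw [← smul_add] at h1
    refine hA.mem_of_tendsto h1 (Eventually.of_forall fun n => ?_)
    refine A.pow_mem (A.mul_mem ?_ ?_) n
    · rw [smul_smul]; exact hv _
    · rw [smul_smul]; exact hw _
  smul_mem' := by
    intro c v hv t
    rw [smul_smul]; exact hv _

variable {A : Subgroup G} {hA : IsClosed (A : Set G)}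

omit [IsTopologicalGroup G] [T2Space G] in
theorem mem_lie_iff [IsTopologicalGroup G] {v : E} : v ∈ D.lie A hA ↔ ∀ t : ℝ, D.exp (t • v) ∈ A := Iff.rfl

theorem exp_mem_of_lie {v : E} (hv : v ∈ D.lie A hA) : D.exp v ∈ A := by
  have := hv 1
  simpa using this

variable [FiniteDimensional ℝ E]

theorem Ad_mem_lie {g : G} (hg : g ∈ A) {v : E} (hv : v ∈ D.lie A hA) : D.Ad g v ∈ D.lie A hA := by
  intro t
  rw [← D.Ad_spec]
  exact A.mul_mem (A.mul_mem hg (hv t)) (A.inv_mem hg)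

/-- derivative principle -/
theorem br_mem_of_Ad (j : Submodule ℝ E) {x v : E}
    (h : ∀ t : ℝ, D.Ad (D.exp (t • x)) v - v ∈ j) : D.br x v ∈ j := by
  obtain ⟨π, hπ, -⟩ := exists_proj j
  have h1 := π.hasFDerivAt.comp_hasDerivAt (0 : ℝ) (D.hasDerivAt_apply x v)
  have h2 : (π ∘ fun t : ℝ => D.Ad (D.exp (t • x)) v) = fun _ => π v := by
    funext t
    have := (hπ _).2 (h t)
    rw [map_sub, sub_eq_zero] at this
    exact this
  rw [h2] at h1
  rw [← hπ]
  exact h1.unique (hasDerivAt_const _ _)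

theorem br_mem_lie {x v : E} (hx : x ∈ D.lie A hA) (hv : v ∈ D.lie A hA) :
    D.br x v ∈ D.lie A hA :=
  D.br_mem_of_Ad _ (fun t => (D.lie A hA).sub_mem (D.Ad_mem_lie (hx t) hv) hv)

/-- The closed subgroup theorem. -/
theorem lie_local (A : Subgroup G) (hA : IsClosed (A : Set G)) :
    ∃ ε > 0, ∀ v : E, ‖v‖ < ε → D.exp v ∈ A → v ∈ D.lie A hA := by
  by_contra hcon
  push Not at hcon
  obtain ⟨π, hπ, hππ⟩ := exists_proj (D.lie A hA)
  set q : E →L[ℝ] E := 1 - π with hq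
  have hqmem : ∀ v, q v ∈ D.lie A hA := by
    intro v
    rw [← hπ, hq]
    simp [hππ]
  -- sequences
  have hseq : ∀ k : ℕ, ∃ c : E, c ≠ 0 ∧ ‖c‖ < 1 / (k + 1) ∧ π c = c ∧ D.exp c ∈ A := by
    intro k
    set r : ℝ := (1 / (k + 1)) / (‖π‖ + ‖q‖ + 1) with hr
    have hr0 : 0 < r := by positivity
    obtain ⟨ε, hε, hεb⟩ := Metric.eventually_nhds_iff_ball.1
      (D.split_nhds q π (by rw [hq]; abel) r hr0)
    obtain ⟨z, hz1, hz2, hz3⟩ := hcon (min ε 1) (by positivity)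
    obtain ⟨v, hv1, hv2⟩ := hεb z (mem_ball_zero_iff.2 (hz1.trans_le (min_le_left _ _)))
    have hbound : ∀ T : E →L[ℝ] E, ‖T‖ ≤ ‖π‖ + ‖q‖ + 1 → ‖T v‖ < 1 / (k + 1) := by
      intro T hT
      calc ‖T v‖ ≤ ‖T‖ * ‖v‖ := T.le_opNorm v
        _ ≤ (‖π‖ + ‖q‖ + 1) * ‖v‖ := mul_le_mul_of_nonneg_right hT (norm_nonneg _)
        _ < (‖π‖ + ‖q‖ + 1) * r := mul_lt_mul_of_pos_left hv1 (by positivity)
        _ = 1 / (k + 1) := by rw [hr]; field_simp
    have hk1 : (1 : ℝ) / (k + 1) ≤ 1 := by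
      rw [div_le_one (by positivity)]; linarith [Nat.cast_nonneg (α := ℝ) k]
    have hπv := hbound π (by linarith [norm_nonneg q])
    have hqv := hbound q (by linarith [norm_nonneg π])
    refine ⟨π v, ?_, hπv, hππ v, ?_⟩
    · intro h0
      rw [h0, D.exp_zero, mul_one] at hv2
      have : q v = z := D.inj' (by linarith) (by linarith [min_le_right ε 1]) hv2
      exact hz3 (this ▸ hqmem v)
    · have h1 : D.exp (π v) = (D.exp (q v))⁻¹ * D.exp z := by rw [← hv2, inv_mul_cancel_left]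
      rw [h1]
      exact A.mul_mem (A.inv_mem (D.exp_mem_of_lie (hqmem v))) hz2
  choose c hc0 hc1 hc2 hc3 using hseq
  -- directions
  set d : ℕ → E := fun k => ‖c k‖⁻¹ • c k with hd
  have hdn : ∀ k, d k ∈ sphere (0 : E) 1 := by
    intro k
    rw [mem_sphere_zero_iff_norm, hd]
    simp only
    rw [norm_smul, norm_inv, norm_norm, inv_mul_cancel₀ (norm_ne_zero_iff.2 (hc0 k))]
  obtain ⟨d0, hd0, φ, hφ, hlim⟩ := (isCompact_sphere (0 : E) 1).tendsto_subseq hdn
  have hcn : Tendsto (fun k => ‖c k‖) atTop (𝓝 0) :=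
    squeeze_zero (fun k => norm_nonneg _) (fun k => (hc1 k).le)
      tendsto_one_div_add_atTop_nhds_zero_nat
  have hd0mem : d0 ∈ D.lie A hA := by
    intro t
    -- m_k = ⌊t / ‖c‖⌋
    have hm : Tendsto (fun k => ((⌊t / ‖c (φ k)‖⌋ : ℤ) : ℝ) * ‖c (φ k)‖) atTop (𝓝 t) := by
      have h1 : Tendsto (fun k => ‖c (φ k)‖) atTop (𝓝 0) := hcn.comp hφ.tendsto_atTop
      rw [tendsto_iff_norm_sub_tendsto_zero]
      refine squeeze_zero (fun _ => norm_nonneg _) (fun k => ?_) h1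
      have hpos : 0 < ‖c (φ k)‖ := norm_pos_iff.2 (hc0 _)
      have h2 := Int.floor_le (t / ‖c (φ k)‖)
      have h3 := Int.lt_floor_add_one (t / ‖c (φ k)‖)
      have h4 : t / ‖c (φ k)‖ * ‖c (φ k)‖ = t := div_mul_cancel₀ _ hpos.ne'
      rw [Real.norm_eq_abs, abs_le]
      constructor <;> nlinarith
    have hE : Tendsto (fun k => D.exp (((⌊t / ‖c (φ k)‖⌋ : ℤ) : ℝ) • c (φ k))) atTop
        (𝓝 (D.exp (t • d0))) := by
      have h1 : Tendsto (fun k => (((⌊t / ‖c (φ k)‖⌋ : ℤ) : ℝ) * ‖c (φ k)‖) • d (φ k)) atTop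
          (𝓝 (t • d0)) := hm.smul hlim
      have h2 := (D.cont.tendsto _).comp h1
      refine h2.congr (fun k => ?_)
      simp only [Function.comp, hd]
      rw [smul_smul, mul_assoc, mul_inv_cancel₀ (norm_ne_zero_iff.2 (hc0 _)), mul_one]
    exact hA.mem_of_tendsto hE (Eventually.of_forall fun k => D.exp_int_mem A (hc3 _) _)
  have hπd : π d0 = d0 := by
    have h1 : Tendsto (fun k => π (d (φ k))) atTop (𝓝 (π d0)) := (π.continuous.tendsto _).comp hlim
    have h2 : (fun k => π (d (φ k))) = fun k => d (φ k) := by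
      funext k; simp only [hd, map_smul, hc2]
    rw [h2] at h1
    exact tendsto_nhds_unique h1 hlim
  have h0 : d0 = 0 := by rw [← hπd]; exact (hπ _).2 hd0mem
  rw [h0, mem_sphere_zero_iff_norm, norm_zero] at hd0
  exact zero_ne_one hd0

end ExpData

end Pool.Agent.H72.ProLie
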