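import Pool.Agent.H72.ProLie.ClosedSub
import Pool.Agent.H72.ProLie.Alg

/-! Closures of analytic subgroups: the Lie algebra of the closure. -/

set_option linter.unusedSectionVars false

open Filter Topology Set Metric

namespace Pool.Agent.H72.ProLie

namespace ExpData

variable {G : Type*} [Group G] [TopologicalSpace G] [IsTopologicalGroup G] [T2Space G]
  {E : Type*} [NormedAddCommGroup E] [NormedSpace ℝ E] [FiniteDimensional ℝ E] (D : ExpData G E)

/-- The analytic subgroup generated by `b`. -/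
def AH (b : Submodule ℝ E) : Subgroup G := Subgroup.closure (D.exp '' (b : Set E))

/-- Its closure. -/
def AHc (b : Submodule ℝ E) : Subgroup G := (D.AH b).topologicalClosure

theorem AHc_closed (b : Submodule ℝ E) : IsClosed (D.AHc b : Set G) :=
  (D.AH b).isClosed_topologicalClosure

theorem AH_le (b : Submodule ℝ E) : D.AH b ≤ D.AHc b := (D.AH b).le_topologicalClosure

theorem exp_mem_AH {b : Submodule ℝ E} {x : E} (hx : x ∈ b) : D.exp x ∈ D.AH b :=
  Subgroup.subset_closure ⟨x, hx, rfl⟩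

theorem exp_mem_AHc {b : Submodule ℝ E} {x : E} (hx : x ∈ b) : D.exp x ∈ D.AHc b :=
  D.AH_le b (D.exp_mem_AH hx)

theorem le_lie_AHc (b : Submodule ℝ E) : b ≤ D.lie (D.AHc b) (D.AHc_closed b) :=
  fun _ hx t => D.exp_mem_AHc (b.smul_mem t hx)

theorem AHc_mono {b c : Submodule ℝ E} (h : b ≤ c) : D.AHc b ≤ D.AHc c := by
  refine Subgroup.topologicalClosure_mono ?_
  exact Subgroup.closure_mono (image_mono h)

theorem AHc_le {b : Submodule ℝ E} {A : Subgroup G} (hA : IsClosed (A : Set G))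
    (h : b ≤ D.lie A hA) : D.AHc b ≤ A := by
  refine Subgroup.topologicalClosure_minimal _ ?_ hA
  rw [AH, Subgroup.closure_le]
  rintro _ ⟨x, hx, rfl⟩
  exact D.exp_mem_of_lie (h hx)

theorem isClosed_Ad_mem (j : Submodule ℝ E) (v : E) : IsClosed {g : G | D.Ad g v ∈ j} := by
  have hj : IsClosed (j : Set E) := j.closed_of_finiteDimensional
  have : Continuous fun g : G => D.Ad g v :=
    (ContinuousLinearMap.apply ℝ E v).continuous.comp D.Ad_continuous
  exact hj.preimage this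

theorem isClosed_Ad_sub_mem (j : Submodule ℝ E) (v : E) : IsClosed {g : G | D.Ad g v - v ∈ j} := by
  have hj : IsClosed (j : Set E) := j.closed_of_finiteDimensional
  have : Continuous fun g : G => D.Ad g v - v :=
    ((ContinuousLinearMap.apply ℝ E v).continuous.comp D.Ad_continuous).sub continuous_const
  exact hj.preimage this

theorem Ad_stable {b j : Submodule ℝ E} (h : ∀ y ∈ b, ∀ v ∈ j, D.br y v ∈ j) {g : G}
    (hg : g ∈ D.AHc b) {v : E} (hv : v ∈ j) : D.Ad g v ∈ j := by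
  have key : ∀ g ∈ D.AH b, (∀ v ∈ j, D.Ad g v ∈ j) ∧ (∀ v ∈ j, D.Ad g⁻¹ v ∈ j) := by
    intro g hg
    induction hg using Subgroup.closure_induction with
    | mem x hx =>
      obtain ⟨y, hy, rfl⟩ := hx
      refine ⟨fun v hv => ?_, fun v hv => ?_⟩
      · have := D.Ad_exp_mem j (h y hy) hv 1
        rwa [one_smul] at this
      · have := D.Ad_exp_mem j (h y hy) hv (-1)
        rwa [neg_smul, one_smul, D.exp_neg] at this
    | one => simp [D.Ad_one]
    | mul x y _ _ hx hy =>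
      refine ⟨fun v hv => ?_, fun v hv => ?_⟩
      · rw [D.Ad_mul]; exact hx.1 _ (hy.1 v hv)
      · rw [mul_inv_rev, D.Ad_mul]; exact hy.2 _ (hx.2 v hv)
    | inv x _ hx =>
      rw [inv_inv]; exact ⟨hx.2, hx.1⟩
  have h1 : D.AHc b ≤ D.AHc b := le_rfl
  have h2 : (D.AHc b : Set G) ⊆ {g : G | D.Ad g v ∈ j} := by
    refine closure_minimal ?_ (D.isClosed_Ad_mem j v)
    intro g hg
    exact (key g hg).1 v hv
  exact h2 hg

theorem Ad_sub_mem {b S c : Submodule ℝ E} (hS : ∀ g ∈ D.AHc b, ∀ x ∈ S, D.Ad g x ∈ S)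
    (h : ∀ y ∈ b, ∀ x ∈ S, D.br y x ∈ c) (hc : ∀ y ∈ b, ∀ v ∈ c, D.br y v ∈ c) {g : G}
    (hg : g ∈ D.AHc b) {x : E} (hx : x ∈ S) : D.Ad g x - x ∈ c := by
  have key : ∀ g ∈ D.AH b, ∀ x ∈ S, D.Ad g x - x ∈ c := by
    intro g hg
    induction hg using Subgroup.closure_induction with
    | mem x hx =>
      obtain ⟨y, hy, rfl⟩ := hx
      intro v hv
      have := D.Ad_exp_sub_mem c (hc y hy) (h y hy v hv) 1
      rwa [one_smul] at this
    | one => intro v hv; simp [D.Ad_one]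
    | mul a b ha hb h1 h2 =>
      intro v hv
      have e : D.Ad (a * b) v - v = (D.Ad a (D.Ad b v) - D.Ad b v) + (D.Ad b v - v) := by
        rw [D.Ad_mul]; show D.Ad a (D.Ad b v) - v = _; abel
      rw [e]
      exact c.add_mem (h1 _ (hS b (D.AH_le _ hb) v hv)) (h2 v hv)
    | inv a ha h1 =>
      intro v hv
      have h2 := h1 _ (hS a⁻¹ (D.AH_le _ (inv_mem ha)) v hv)
      have e : D.Ad a (D.Ad a⁻¹ v) = v := by
        have := congrArg (fun f : E →L[ℝ] E => f v) (D.Ad_mul_inv a)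
        simpa using this
      rw [e] at h2
      have := c.neg_mem h2
      rwa [neg_sub] at this
  have h2 : (D.AHc b : Set G) ⊆ {g : G | D.Ad g x - x ∈ c} := by
    refine closure_minimal ?_ (D.isClosed_Ad_sub_mem c x)
    intro g hg
    exact key g hg x hx
  exact h2 hg

/-- The Lie algebra of the closure of the analytic subgroup. -/
def lieC (b : Submodule ℝ E) : Submodule ℝ E := D.lie (D.AHc b) (D.AHc_closed b)

theorem le_lieC (b : Submodule ℝ E) : b ≤ D.lieC b := D.le_lie_AHc b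

/-- The closure lemma. -/
theorem lieC_br {b c : Submodule ℝ E} (hbb : ∀ x ∈ b, ∀ y ∈ b, D.br x y ∈ c) (hcb : c ≤ b) :
    ∀ x ∈ D.lieC b, ∀ y ∈ D.lieC b, D.br x y ∈ c := by
  have hc : ∀ y ∈ b, ∀ v ∈ c, D.br y v ∈ c := fun y hy v hv => hbb y hy v (hcb hv)
  have hb : ∀ y ∈ b, ∀ v ∈ b, D.br y v ∈ b := fun y hy v hv => hcb (hbb y hy v hv)
  have h1 : ∀ g ∈ D.AHc b, ∀ x ∈ b, D.Ad g x - x ∈ c := fun g hg x hx =>
    D.Ad_sub_mem (fun g hg x hx => D.Ad_stable hb hg hx) hbb hc hg hx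
  have h2 : ∀ x ∈ D.lieC b, ∀ y ∈ b, D.br x y ∈ c := fun x hx y hy =>
    D.br_mem_of_Ad c (fun t => h1 _ (hx t) y hy)
  have h3 : ∀ y ∈ b, ∀ x ∈ D.lieC b, D.br y x ∈ c := fun y hy x hx => by
    rw [D.br_skew]; exact c.neg_mem (h2 x hx y hy)
  have h4 : ∀ g ∈ D.AHc b, ∀ x ∈ D.lieC b, D.Ad g x - x ∈ c := fun g hg x hx =>
    D.Ad_sub_mem (fun g hg x hx => D.Ad_mem_lie hg hx) h3 hc hg hx
  exact fun x hx y hy => D.br_mem_of_Ad c (fun t => h4 _ (hx t) y hy)

end ExpData

end Pool.Agent.H72.ProLie
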