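import Pool.Agent.H72.ProLie.Level

/-! Compatibility of the level theory under quotient maps. -/

set_option linter.unusedSectionVars false
set_option linter.unusedVariables false

open Filter Topology Set Metric
open scoped commutatorElement

namespace Pool.Agent.H72.ProLie

namespace ExpData

variable {G : Type*} [Group G] [TopologicalSpace G] [IsTopologicalGroup G] [T2Space G]
  {E : Type*} [NormedAddCommGroup E] [NormedSpace ℝ E] [FiniteDimensional ℝ E]
variable {G' : Type*} [Group G'] [TopologicalSpace G'] [IsTopologicalGroup G'] [T2Space G']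
  {E' : Type*} [NormedAddCommGroup E'] [NormedSpace ℝ E'] [FiniteDimensional ℝ E']
  {D : ExpData G E} {D' : ExpData G' E'} {f : G →* G'} {T : E →L[ℝ] E'}
  (hT : ∀ (x : E) (t : ℝ), f (D.exp (t • x)) = D'.exp (t • T x))
  {h : Submodule ℝ E} (hh : ∀ x ∈ h, ∀ y ∈ h, D.br x y ∈ h)
  {h' : Submodule ℝ E'} (hh' : ∀ x ∈ h', ∀ y ∈ h', D'.br x y ∈ h')
  (hTh : h.map (T : E →ₗ[ℝ] E') = h')

include hT hh hh' hTh

theorem dmap_VV {X : E} (hX : X ∈ D.VV h) : T X ∈ D'.VV h' := by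
  obtain ⟨h1, k, hk⟩ := hX
  refine ⟨map_rad D.lieBr D'.lieBr hh hh' (T : E →ₗ[ℝ] E') (fun x _ y _ => dmap_br hT x y) hTh X h1,
    k, ?_⟩
  rw [← hTh]
  rintro _ ⟨y, hy, rfl⟩
  have h2 : ∀ m : ℕ, ∀ y, ((D'.br (T X)) ^ m) (T y) = T (((D.br X) ^ m) y) := by
    intro m
    induction m with
    | zero => intro y; rfl
    | succ m ih =>
      intro y
      rw [pow_succ, pow_succ, mul_apply_eq_comp, mul_apply_eq_comp, ← dmap_br hT, ih]
  show ((D'.br (T X)) ^ k) (T y) = 0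
  rw [h2, hk y hy, map_zero]

/-- The level elements are compatible. -/
theorem level_compat (hf : Continuous f) {z y : G} (hz : z ∈ D.AHc h) (hy : y ∈ D.AHc h)
    {X : D.lie (D.AHc h) (D.AHc_closed h)} (hX : (X : E) ∈ D.VV h)
    (hXc : ∀ z' y' : TG (D.AHc h), TG.endp _ z' = z → TG.endp _ y' = y → ⁅z', y'⁆ = D.eT X)
    {X' : D'.lie (D'.AHc h') (D'.AHc_closed h')} (hX' : (X' : E') ∈ D'.VV h')
    (hXc' : ∀ z' y' : TG (D'.AHc h'), TG.endp _ z' = f z → TG.endp _ y' = f y →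
      ⁅z', y'⁆ = D'.eT X') : T X = X' := by
  have hTh1 : ∀ x ∈ h, T x ∈ h' := fun x hx => by rw [← hTh]; exact ⟨x, hx, rfl⟩
  have hAA := dmap_AHc (D := D) (D' := D') hT hf hTh1
  obtain ⟨z0, hz0⟩ := D.endp_surj h hz
  obtain ⟨y0, hy0⟩ := D.endp_surj h hy
  have h1 := hXc z0 y0 hz0 hy0
  have hTX : T X ∈ D'.VV h' := dmap_VV hT hh hh' hTh hX
  have hTX' : T X ∈ D'.lie (D'.AHc h') (D'.AHc_closed h') := D'.le_lieC h' (D'.VV_sub_h hh' hTX)
  have h2 := congrArg (TGmap f hf hAA) h1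
  rw [map_commutatorElement, TGmap_eT hT hf hAA X hTX'] at h2
  have h3 := hXc' (TGmap f hf hAA z0) (TGmap f hf hAA y0) (by rw [endp_TGmap, hz0])
    (by rw [endp_TGmap, hy0])
  rw [h3] at h2
  have h4 := D'.VV_unique hh' hX' (X' := ⟨T X, hTX'⟩) hTX h2
  rw [h4]

end ExpData

end Pool.Agent.H72.ProLie
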