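import Mathlib

open Filter Topology Set Metric
open scoped intervalIntegral

namespace Pool.Agent.H72.ProLie

/-- A continuous one-parameter semigroup in a Banach algebra is an exponential. -/
theorem oneParam_algebra {𝔸 : Type*} [NormedRing 𝔸] [NormedAlgebra ℝ 𝔸] [CompleteSpace 𝔸]
    (A : ℝ → 𝔸) (hc : Continuous A) (h0 : A 0 = 1) (hadd : ∀ s t, A (s + t) = A s * A t) :
    ∃ D : 𝔸, (∀ t, HasDerivAt A (A t * D) t) ∧ ∀ t : ℝ, A t = NormedSpace.exp (t • D) := by
  -- the averages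
  set I : ℝ → 𝔸 := fun δ => ∫ s in (0 : ℝ)..δ, A s with hI
  have hdI : HasDerivAt I (A 0) 0 := intervalIntegral.integral_hasDerivAt_right
    (hc.intervalIntegrable _ _) (hc.stronglyMeasurableAtFilter _ _) hc.continuousAt
  have hI0 : I 0 = 0 := by simp [hI]
  -- find δ with I δ a unit
  obtain ⟨δ, hδ0, hδu⟩ : ∃ δ : ℝ, δ ≠ 0 ∧ IsUnit (I δ) := by
    have h1 : Tendsto (fun δ : ℝ => δ⁻¹ • I δ) (𝓝[≠] 0) (𝓝 1) := by
      have := hdI.tendsto_slope_zero
      rw [h0, hI0] at this
      simpa using this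
    have h2 : ∀ᶠ δ : ℝ in 𝓝[≠] 0, ‖1 - δ⁻¹ • I δ‖ < 1 := by
      have h3 : Tendsto (fun δ : ℝ => ‖1 - δ⁻¹ • I δ‖) (𝓝[≠] 0) (𝓝 0) := by
        have := (tendsto_const_nhds (x := (1 : 𝔸))).sub h1
        simpa using this.norm
      exact h3.eventually (gt_mem_nhds one_pos)
    have h4 : ∀ᶠ δ : ℝ in 𝓝[≠] 0, δ ≠ 0 := eventually_mem_nhdsWithin
    obtain ⟨δ, hδ1, hδ2⟩ := (h2.and h4).exists
    refine ⟨δ, hδ2, ?_⟩
    have hu : IsUnit (δ⁻¹ • I δ) := by
      have := isUnit_one_sub_of_norm_lt_one hδ1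
      simpa using this
    have : I δ = (algebraMap ℝ 𝔸 δ) * (δ⁻¹ • I δ) := by
      rw [← Algebra.smul_def, smul_inv_smul₀ hδ2]
    rw [this]
    exact ((isUnit_iff_ne_zero.2 hδ2).map (algebraMap ℝ 𝔸)).mul hu
  obtain ⟨u, hu⟩ := hδu
  have hshift : ∀ t, A t * (u : 𝔸) = I (t + δ) - I t := by
    intro t
    rw [hu]
    have h1 : A t * I δ = ∫ s in (0 : ℝ)..δ, A t * A s := by
      have := (ContinuousLinearMap.mul ℝ 𝔸 (A t)).intervalIntegral_comp_comm
        (hc.intervalIntegrable (μ := MeasureTheory.volume) 0 δ)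
      simpa using this.symm
    rw [h1]
    have h2 : (fun s => A t * A s) = fun s => A (t + s) := by
      funext s; rw [hadd]
    rw [h2]
    have h3 : (∫ s in (0 : ℝ)..δ, A (t + s)) = ∫ s in t..(t + δ), A s := by
      rw [intervalIntegral.integral_comp_add_left (fun s => A s) t, add_zero]
    rw [h3]
    have h4 := intervalIntegral.integral_interval_sub_left (μ := MeasureTheory.volume)
      (hc.intervalIntegrable 0 (t + δ)) (hc.intervalIntegrable 0 t)
    exact h4.symm
  have hderI : ∀ t, HasDerivAt I (A t) t := fun t => intervalIntegral.integral_hasDerivAt_right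
    (hc.intervalIntegrable _ _) (hc.stronglyMeasurableAtFilter _ _) hc.continuousAt
  set D : 𝔸 := (A δ - 1) * (↑u⁻¹ : 𝔸) with hD
  have hder : ∀ t, HasDerivAt A (A t * D) t := by
    intro t
    have h1 : A = fun t => (I (t + δ) - I t) * (↑u⁻¹ : 𝔸) := by
      funext t
      rw [← hshift, mul_assoc, Units.mul_inv, mul_one]
    have h2 : HasDerivAt (fun t => (I (t + δ) - I t) * (↑u⁻¹ : 𝔸))
        ((A (t + δ) - A t) * (↑u⁻¹ : 𝔸)) t := by
      have h3 : HasDerivAt (fun t => I (t + δ)) (A (t + δ)) t := (hderI (t + δ)).comp_add_const t δ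
      exact (h3.sub (hderI t)).mul_const _
    rw [← h1] at h2
    have h4 : (A (t + δ) - A t) * (↑u⁻¹ : 𝔸) = A t * D := by
      rw [hadd, hD]; noncomm_ring
    rwa [h4] at h2
  refine ⟨D, hder, ?_⟩
  -- uniqueness
  have hexp : ∀ t : ℝ, HasDerivAt (fun t : ℝ => NormedSpace.exp (t • (-D)))
      ((-D) * NormedSpace.exp (t • (-D))) t := fun t => hasDerivAt_exp_smul_const' (-D) t
  have hB : ∀ t, HasDerivAt (fun t => A t * NormedSpace.exp (t • (-D))) 0 t := by
    intro t
    have := (hder t).mul (hexp t)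
    have e : A t * D * NormedSpace.exp (t • -D) + A t * (-D * NormedSpace.exp (t • -D)) = 0 := by
      noncomm_ring
    rwa [e] at this
  have hconst : ∀ t, A t * NormedSpace.exp (t • (-D)) = 1 := by
    intro t
    have := is_const_of_deriv_eq_zero (f := fun t => A t * NormedSpace.exp (t • (-D)))
      (fun t => (hB t).differentiableAt) (fun t => (hB t).deriv) t 0
    rw [this, h0]
    simp
  intro t
  have h1 := hconst t
  have h2 : NormedSpace.exp (t • (-D)) * NormedSpace.exp (t • D) = 1 := by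
    letI : NormedAlgebra ℚ 𝔸 := NormedAlgebra.restrictScalars ℚ ℝ 𝔸
    rw [← NormedSpace.exp_add_of_commute]
    · simp
    · rw [smul_neg]; exact (Commute.refl _).neg_left
  calc A t = A t * (NormedSpace.exp (t • (-D)) * NormedSpace.exp (t • D)) := by rw [h2, mul_one]
    _ = _ := by rw [← mul_assoc, h1, one_mul]

end Pool.Agent.H72.ProLie
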