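import Pool.Agent.H72.ProLie.ExpMap2
import Pool.Agent.H72.ProLie.OneParam

open Filter Topology Set Metric

namespace Pool.Agent.H72.ProLie

namespace ExpData

variable {G : Type*} [Group G] [TopologicalSpace G] {E : Type*} [NormedAddCommGroup E]
  [NormedSpace ℝ E] (D : ExpData G E)

theorem exp_zero : D.exp 0 = 1 := by
  have := D.exp_add 0 0 0
  simpa using this

theorem exp_add' (v : E) (s t : ℝ) : D.exp (s • v + t • v) = D.exp (s • v) * D.exp (t • v) := by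
  rw [← add_smul, D.exp_add]

theorem exp_neg (v : E) : D.exp (-v) = (D.exp v)⁻¹ := by
  have := D.exp_add (-1) 1 v
  rw [neg_add_cancel, zero_smul, D.exp_zero, neg_smul, one_smul] at this
  exact eq_inv_of_mul_eq_one_left this.symm

theorem exp_nsmul (n : ℕ) (v : E) : D.exp ((n : ℝ) • v) = D.exp v ^ n := by
  induction n with
  | zero => simp [D.exp_zero]
  | succ n ih =>
    have := D.exp_add n 1 v
    rw [one_smul, ih] at this
    push_cast
    rw [this, pow_succ]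

theorem exp_comm (v : E) (s t : ℝ) : D.exp (s • v) * D.exp (t • v) = D.exp (t • v) * D.exp (s • v) := by
  rw [← D.exp_add, ← D.exp_add, add_comm]

/-- the underlying chart -/
def toC11 : C11 G E where
  e := D.exp
  zero := D.exp_zero
  inj := D.inj
  cont := D.cont.continuousOn
  nhds := D.nhds
  mul := D.mul
  inv := fun x hx => ⟨-x, by rw [norm_neg]; linarith, D.exp_neg x⟩

@[simp] theorem toC11_e : D.toC11.e = D.exp := rfl

theorem inj' {x y : E} (hx : ‖x‖ ≤ 9) (hy : ‖y‖ ≤ 9) (h : D.exp x = D.exp y) : x = y :=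
  D.toC11.inj' hx hy h

theorem image_mem {r : ℝ} (hr : 0 < r) : D.exp '' ball 0 r ∈ 𝓝 (1 : G) := by
  rw [← D.nhds]
  exact image_mem_map (ball_mem_nhds _ hr)

theorem eventually_small {r : ℝ} (hr : 0 < r) : ∀ᶠ g in 𝓝 (1 : G), ∃ x, ‖x‖ < r ∧ D.exp x = g := by
  filter_upwards [D.image_mem hr] with g hg
  obtain ⟨x, hx, hxg⟩ := hg
  exact ⟨x, mem_ball_zero_iff.1 hx, hxg⟩

theorem tendsto_pow_of {z : ℕ → E} {w : E} (h : Tendsto (fun n : ℕ => (n : ℝ) • z n) atTop (𝓝 w)) :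
    Tendsto (fun n => D.exp (z n) ^ n) atTop (𝓝 (D.exp w)) := by
  have : (fun n => D.exp (z n) ^ n) = fun n : ℕ => D.exp ((n : ℝ) • z n) := by
    funext n; rw [D.exp_nsmul]
  rw [this]
  exact (D.cont.tendsto w).comp h

theorem trotter (x y : E) : Tendsto (fun n : ℕ => (D.exp ((n : ℝ)⁻¹ • x) * D.exp ((n : ℝ)⁻¹ • y)) ^ n)
    atTop (𝓝 (D.exp (x + y))) := by
  obtain ⟨N, hN⟩ := exists_nat_gt (‖x‖ + ‖y‖ + 1)
  have hb : ∀ n : ℕ, N ≤ n → ∀ v : E, ‖v‖ ≤ ‖x‖ + ‖y‖ → ‖(n : ℝ)⁻¹ • v‖ ≤ 4 := by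
    intro n hn v hv
    have h1 : (N : ℝ) ≤ n := by exact_mod_cast hn
    have h2 : (0 : ℝ) < n := by nlinarith [norm_nonneg x, norm_nonneg y]
    rw [norm_smul, norm_inv, Real.norm_of_nonneg h2.le, inv_mul_le_iff₀ h2]
    linarith [norm_nonneg v]
  have h1 : ∀ n : ℕ, ∃ z, N ≤ n → ‖z - (n : ℝ)⁻¹ • x - (n : ℝ)⁻¹ • y‖ ≤
      ‖(n : ℝ)⁻¹ • x‖ * ‖(n : ℝ)⁻¹ • y‖ / 100 ∧
      D.exp ((n : ℝ)⁻¹ • x) * D.exp ((n : ℝ)⁻¹ • y) = D.exp z := by
    intro n
    by_cases hn : N ≤ n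
    · obtain ⟨z, hz⟩ := D.mul ((n : ℝ)⁻¹ • x) ((n : ℝ)⁻¹ • y)
        (hb n hn x (by linarith [norm_nonneg y])) (hb n hn y (by linarith [norm_nonneg x]))
      exact ⟨z, fun _ => hz⟩
    · exact ⟨0, fun h => absurd h hn⟩
  choose z hz using h1
  have h2 : Tendsto (fun n : ℕ => (n : ℝ) • z n) atTop (𝓝 (x + y)) := by
    rw [tendsto_iff_norm_sub_tendsto_zero]
    have h3 : Tendsto (fun n : ℕ => (‖x‖ * ‖y‖ / 100) * (n : ℝ)⁻¹) atTop (𝓝 0) := by
      have := (tendsto_inv_atTop_nhds_zero_nat (𝕜 := ℝ)).const_mul (‖x‖ * ‖y‖ / 100)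
      simpa using this
    refine squeeze_zero' (Eventually.of_forall fun n => norm_nonneg _) ?_ h3
    filter_upwards [eventually_ge_atTop (max N 1)] with n hn
    have hn1 : N ≤ n := (le_max_left _ _).trans hn
    have hn2 : 1 ≤ n := (le_max_right _ _).trans hn
    have hn3 : (0 : ℝ) < n := by exact_mod_cast hn2
    obtain ⟨h4, -⟩ := hz n hn1
    have e : (n : ℝ) • z n - (x + y) = (n : ℝ) • (z n - (n : ℝ)⁻¹ • x - (n : ℝ)⁻¹ • y) := by
      rw [smul_sub, smul_sub, smul_inv_smul₀ hn3.ne', smul_inv_smul₀ hn3.ne']; abel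
    rw [e, norm_smul, Real.norm_of_nonneg hn3.le]
    have h5 := mul_le_mul_of_nonneg_left h4 hn3.le
    refine h5.trans (le_of_eq ?_)
    rw [norm_smul, norm_smul, norm_inv, Real.norm_of_nonneg hn3.le]
    field_simp
  refine (D.tendsto_pow_of h2).congr' ?_
  filter_upwards [eventually_ge_atTop N] with n hn
  rw [(hz n hn).2]

theorem exp_line_unique {v w : E} (h : ∀ᶠ t : ℝ in 𝓝[>] 0, D.exp (t • v) = D.exp (t • w)) : v = w := by
  have h1 : ∀ᶠ t : ℝ in 𝓝[>] 0, ‖t • v‖ ≤ 9 ∧ ‖t • w‖ ≤ 9 := by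
    have hc : ∀ u : E, ∀ᶠ t : ℝ in 𝓝 0, ‖t • u‖ < 9 := by
      intro u
      have : Continuous (fun t : ℝ => ‖t • u‖) := by fun_prop
      exact (this.tendsto 0).eventually (gt_mem_nhds (by simp))
    filter_upwards [nhdsWithin_le_nhds (hc v), nhdsWithin_le_nhds (hc w)] with t h1 h2
    exact ⟨h1.le, h2.le⟩
  have h2 : ∀ᶠ t : ℝ in 𝓝[>] 0, 0 < t := eventually_mem_nhdsWithin
  obtain ⟨t, ht1, ht2, ht3⟩ := (h.and (h1.and h2)).exists
  have := D.inj' ht2.1 ht2.2 ht1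
  exact smul_right_injective E ht3.ne' this

theorem exp_line_unique' {v w : E} (h : ∀ t : ℝ, D.exp (t • v) = D.exp (t • w)) : v = w :=
  D.exp_line_unique (Eventually.of_forall h)

variable [IsTopologicalGroup G] [T2Space G]

omit [IsTopologicalGroup G] in
theorem oneParam (X : ℝ → G) (hc : Continuous X) (hadd : ∀ s t, X (s + t) = X s * X t) :
    ∃ v, ∀ t, X t = D.exp (t • v) := by
  have h0 : X 0 = 1 := by have := hadd 0 0; simpa using this
  have hneg : ∀ t, X (-t) = (X t)⁻¹ := by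
    intro t
    have := hadd (-t) t
    rw [neg_add_cancel, h0] at this
    exact eq_inv_of_mul_eq_one_left this.symm
  have hnat : ∀ (n : ℕ) t, X (n * t) = X t ^ n := by
    intro n t
    induction n with
    | zero => simp [h0]
    | succ n ih => rw [pow_succ, ← ih, ← hadd]; push_cast; ring_nf
  have hsm : ∀ᶠ t in 𝓝 (0 : ℝ), ∃ x, ‖x‖ < 1 ∧ D.exp x = X t := by
    have : Tendsto X (𝓝 0) (𝓝 1) := by rw [← h0]; exact hc.tendsto 0
    exact this.eventually (D.eventually_small one_pos)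
  obtain ⟨δ, hδ, hδb⟩ := Metric.eventually_nhds_iff_ball.1 hsm
  set ε := δ / 2 with hε
  have hε0 : 0 < ε := by positivity
  have hex : ∀ k : ℕ, ∃ x, ‖x‖ < 1 ∧ D.exp x = X (ε * ((2 : ℝ) ^ k)⁻¹) := by
    intro k
    refine hδb _ ?_
    rw [mem_ball_zero_iff, norm_mul, norm_inv, Real.norm_of_nonneg hε0.le,
      Real.norm_of_nonneg (by positivity)]
    have : ((2 : ℝ) ^ k)⁻¹ ≤ 1 := inv_le_one_of_one_le₀ (one_le_pow₀ (by norm_num))
    nlinarith
  choose w hw1 hw2 using hex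
  have hw : ∀ k, w k = ((2 : ℝ) ^ k)⁻¹ • w 0 := by
    intro k
    induction k with
    | zero => simp
    | succ k ih =>
      have h1 : D.exp ((2 : ℕ) • w (k + 1)) = D.exp (w k) := by
        have : (2 : ℕ) • w (k + 1) = ((2 : ℕ) : ℝ) • w (k + 1) := by
          rw [Nat.cast_smul_eq_nsmul]
        rw [this, D.exp_nsmul, hw2, hw2, ← hnat]
        congr 1
        rw [pow_succ]; push_cast; field_simp
      have h2 : (2 : ℕ) • w (k + 1) = w k := by
        refine D.inj' ?_ (by linarith [hw1 k]) h1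
        rw [two_nsmul]
        exact (norm_add_le _ _).trans (by linarith [hw1 (k + 1)])
      have h3 : w (k + 1) = (2 : ℝ)⁻¹ • w k := by
        rw [← h2, ← Nat.cast_smul_eq_nsmul ℝ, Nat.cast_ofNat, inv_smul_smul₀ two_ne_zero]
      rw [h3, ih, smul_smul, pow_succ, mul_inv, mul_comm]
  set v : E := ε⁻¹ • w 0 with hv
  have hwv : ∀ k, w k = (ε * ((2 : ℝ) ^ k)⁻¹) • v := by
    intro k
    rw [hw k, hv, smul_smul]
    congr 1; field_simp
  -- the two functions agree for t ≥ 0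
  have hpos : ∀ t : ℝ, 0 ≤ t → X t = D.exp (t • v) := by
    intro t ht
    have hlim : Tendsto (fun k : ℕ => ((⌊(t / ε) * ((2 : ℝ) ^ k)⌋₊ : ℝ) / ((2 : ℝ) ^ k)) * ε) atTop
        (𝓝 t) := by
      have h1 := (tendsto_nat_floor_mul_div_atTop (a := t / ε) (by positivity)).comp
        (tendsto_pow_atTop_atTop_of_one_lt (r := (2 : ℝ)) one_lt_two)
      have h2 := h1.mul_const ε
      rw [div_mul_cancel₀ _ hε0.ne'] at h2
      exact h2
    have hX := (hc.tendsto t).comp hlim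
    have hE := ((D.cont.comp (by fun_prop : Continuous fun s : ℝ => s • v)).tendsto t).comp hlim
    refine tendsto_nhds_unique hX (hE.congr (fun k => ?_))
    simp only [Function.comp]
    set m := ⌊(t / ε) * ((2 : ℝ) ^ k)⌋₊
    have e1 : ((m : ℝ) / (2 : ℝ) ^ k) * ε = m * (ε * ((2 : ℝ) ^ k)⁻¹) := by ring
    rw [e1, hnat, ← hw2, mul_smul, ← hwv, D.exp_nsmul]
  refine ⟨v, fun t => ?_⟩
  rcases le_total 0 t with ht | ht
  · exact hpos t ht
  · have h1 := hpos (-t) (by linarith)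
    have h2 : X t = (X (-t))⁻¹ := by rw [hneg, inv_inv]
    rw [h2, h1, neg_smul, D.exp_neg, inv_inv]

/-! ### The adjoint representation -/

theorem exists_Ad (g : G) (v : E) : ∃ w, ∀ t : ℝ, g * D.exp (t • v) * g⁻¹ = D.exp (t • w) := by
  obtain ⟨w, hw⟩ := D.oneParam (fun t => g * D.exp (t • v) * g⁻¹)
    (by
      have : Continuous fun t : ℝ => D.exp (t • v) := D.cont.comp (by fun_prop)
      fun_prop)
    (by intro s t; simp only [D.exp_add]; group)
  exact ⟨w, hw⟩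

/-- The adjoint action as a function. -/
noncomputable def AdF (g : G) (v : E) : E := (D.exists_Ad g v).choose

theorem AdF_spec (g : G) (v : E) (t : ℝ) : g * D.exp (t • v) * g⁻¹ = D.exp (t • D.AdF g v) :=
  (D.exists_Ad g v).choose_spec t

theorem AdF_eq {g : G} {v w : E} (h : ∀ t : ℝ, g * D.exp (t • v) * g⁻¹ = D.exp (t • w)) :
    D.AdF g v = w :=
  D.exp_line_unique' (fun t => by rw [← D.AdF_spec, h])

theorem AdF_smul (g : G) (s : ℝ) (v : E) : D.AdF g (s • v) = s • D.AdF g v := by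
  refine D.AdF_eq (fun t => ?_)
  rw [smul_smul, D.AdF_spec, smul_smul]

theorem AdF_add (g : G) (v w : E) : D.AdF g (v + w) = D.AdF g v + D.AdF g w := by
  refine D.AdF_eq (fun t => ?_)
  have h1 := D.trotter (t • v) (t • w)
  have h2 := D.trotter (t • D.AdF g v) (t • D.AdF g w)
  rw [← smul_add] at h1 h2
  have h3 : Tendsto (fun n : ℕ => g * (D.exp ((n : ℝ)⁻¹ • t • v) * D.exp ((n : ℝ)⁻¹ • t • w)) ^ n * g⁻¹)
      atTop (𝓝 (g * D.exp (t • (v + w)) * g⁻¹)) := (h1.const_mul g).mul_const g⁻¹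
  refine tendsto_nhds_unique h3 (h2.congr (fun n => ?_))
  rw [smul_smul, smul_smul, smul_smul, smul_smul, ← D.AdF_spec, ← D.AdF_spec, ← conj_pow]
  congr 1
  group

variable [FiniteDimensional ℝ E]

/-- The adjoint action. -/
noncomputable def Ad (g : G) : E →L[ℝ] E :=
  LinearMap.toContinuousLinearMap
    { toFun := D.AdF g, map_add' := D.AdF_add g, map_smul' := D.AdF_smul g }

theorem Ad_spec (g : G) (v : E) (t : ℝ) : g * D.exp (t • v) * g⁻¹ = D.exp (t • D.Ad g v) :=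
  D.AdF_spec g v t

theorem Ad_spec' (g : G) (v : E) : g * D.exp v * g⁻¹ = D.exp (D.Ad g v) := by
  have := D.Ad_spec g v 1
  simpa using this

theorem Ad_eq {g : G} {v w : E} (h : ∀ t : ℝ, g * D.exp (t • v) * g⁻¹ = D.exp (t • w)) :
    D.Ad g v = w := D.AdF_eq h

theorem Ad_one : D.Ad 1 = 1 := by
  ext v
  exact D.Ad_eq (fun t => by simp)

theorem Ad_mul (g h : G) : D.Ad (g * h) = D.Ad g * D.Ad h := by
  ext v
  refine D.Ad_eq (fun t => ?_)
  rw [mul_apply_eq_comp, ← D.Ad_spec, ← D.Ad_spec]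
  group

theorem Ad_inv_mul (g : G) : D.Ad g⁻¹ * D.Ad g = 1 := by
  rw [← D.Ad_mul, inv_mul_cancel, D.Ad_one]

theorem Ad_mul_inv (g : G) : D.Ad g * D.Ad g⁻¹ = 1 := by
  rw [← D.Ad_mul, mul_inv_cancel, D.Ad_one]

theorem Ad_exp_sub_one {x : E} (hx : ‖x‖ ≤ 1) : ‖D.Ad (D.exp x) - 1‖ ≤ ‖x‖ / 40 := by
  refine ContinuousLinearMap.opNorm_le_bound _ (by positivity) (fun v => ?_)
  -- choose small t
  obtain ⟨t, ht1, ht2, ht3⟩ : ∃ t : ℝ, 0 < t ∧ t * ‖v‖ ≤ 1 ∧ t * ‖D.Ad (D.exp x) v‖ ≤ 9 := by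
    refine ⟨(‖v‖ + ‖D.Ad (D.exp x) v‖ + 1)⁻¹, by positivity, ?_, ?_⟩
    · rw [inv_mul_le_iff₀ (by positivity)]; linarith [norm_nonneg (D.Ad (D.exp x) v)]
    · rw [inv_mul_le_iff₀ (by positivity)]
      linarith [norm_nonneg (D.Ad (D.exp x) v), norm_nonneg v]
  have nrm : ∀ u : E, ‖t • u‖ = t * ‖u‖ := fun u => by rw [norm_smul, Real.norm_of_nonneg ht1.le]
  obtain ⟨w, hw1, hw2, hw3⟩ := D.toC11.conj_ex (x := x) (v := t • v) hx (by rw [nrm]; exact ht2)
  rw [toC11_e, D.Ad_spec] at hw1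
  have hw : t • D.Ad (D.exp x) v = w := by
    refine D.inj' (by rw [nrm]; exact ht3) ?_ hw1
    rw [nrm] at hw3
    linarith
  rw [← hw, ← smul_sub, nrm, nrm] at hw2
  have : t * ‖(D.Ad (D.exp x) - 1) v‖ ≤ t * (‖x‖ / 40 * ‖v‖) := by
    calc _ = t * ‖D.Ad (D.exp x) v - v‖ := rfl
      _ ≤ _ := hw2
      _ = _ := by ring
  exact le_of_mul_le_mul_left this ht1

theorem Ad_continuous : Continuous D.Ad := by
  have h1 : Tendsto D.Ad (𝓝 1) (𝓝 1) := by
    rw [← D.nhds, tendsto_map'_iff, tendsto_iff_norm_sub_tendsto_zero]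
    have h2 : Tendsto (fun x : E => ‖x‖ / 40) (𝓝 0) (𝓝 0) := by
      have : Continuous (fun x : E => ‖x‖ / 40) := by fun_prop
      simpa using this.tendsto 0
    refine squeeze_zero' (Eventually.of_forall fun _ => norm_nonneg _) ?_ h2
    filter_upwards [closedBall_mem_nhds (0 : E) one_pos] with x hx
    exact D.Ad_exp_sub_one (mem_closedBall_zero_iff.1 hx)
  rw [continuous_iff_continuousAt]
  intro g0
  have h2 : Tendsto (fun g => g0⁻¹ * g) (𝓝 g0) (𝓝 1) := by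
    have : Continuous (fun g => g0⁻¹ * g) := by fun_prop
    simpa using this.tendsto g0
  have h3 : Tendsto (fun g => D.Ad g0 * D.Ad (g0⁻¹ * g)) (𝓝 g0) (𝓝 (D.Ad g0 * 1)) :=
    (h1.comp h2).const_mul _
  rw [mul_one] at h3
  refine h3.congr (fun g => ?_)
  rw [← D.Ad_mul, mul_inv_cancel_left]

theorem Ad_line_cont (x : E) : Continuous fun t : ℝ => D.Ad (D.exp (t • x)) :=
  D.Ad_continuous.comp (D.cont.comp (by fun_prop))

/-- The infinitesimal adjoint action as a function. -/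
noncomputable def adF (x : E) : E →L[ℝ] E :=
  (oneParam_algebra (fun t : ℝ => D.Ad (D.exp (t • x))) (D.Ad_line_cont x)
    (by simp [D.exp_zero, D.Ad_one]) (fun s t => by simp only [D.exp_add, D.Ad_mul])).choose

theorem adF_hasDerivAt (x : E) (t : ℝ) :
    HasDerivAt (fun t : ℝ => D.Ad (D.exp (t • x))) (D.Ad (D.exp (t • x)) * D.adF x) t :=
  (oneParam_algebra (fun t : ℝ => D.Ad (D.exp (t • x))) (D.Ad_line_cont x)
    (by simp [D.exp_zero, D.Ad_one]) (fun s t => by simp only [D.exp_add, D.Ad_mul])).choose_spec.1 t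

theorem Ad_exp_adF (x : E) (t : ℝ) : D.Ad (D.exp (t • x)) = NormedSpace.exp (t • D.adF x) :=
  (oneParam_algebra (fun t : ℝ => D.Ad (D.exp (t • x))) (D.Ad_line_cont x)
    (by simp [D.exp_zero, D.Ad_one]) (fun s t => by simp only [D.exp_add, D.Ad_mul])).choose_spec.2 t

theorem adF_hasDerivAt_zero (x : E) :
    HasDerivAt (fun t : ℝ => D.Ad (D.exp (t • x))) (D.adF x) 0 := by
  have := D.adF_hasDerivAt x 0
  simpa [D.exp_zero, D.Ad_one] using this

theorem adF_eq {x : E} {B : E →L[ℝ] E}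
    (h : HasDerivAt (fun t : ℝ => D.Ad (D.exp (t • x))) B 0) : D.adF x = B :=
  (D.adF_hasDerivAt_zero x).unique h

theorem adF_smul (c : ℝ) (x : E) : D.adF (c • x) = c • D.adF x := by
  refine D.adF_eq ?_
  have h1 : HasDerivAt (fun t : ℝ => t * c) c 0 := by
    simpa using (hasDerivAt_id (0 : ℝ)).mul_const c
  have h2 := (D.adF_hasDerivAt_zero x)
  have h3 : HasDerivAt (fun t : ℝ => D.Ad (D.exp (t • x))) (D.adF x) ((0 : ℝ) * c) := by
    simpa using h2
  have h4 := h3.scomp (0 : ℝ) h1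
  simpa [Function.comp_def, mul_smul] using h4

theorem Ad_exp_lip {x y : E} (hx : ‖x‖ ≤ 1) (hy : ‖y‖ ≤ 1) (hxy : ‖x - y‖ ≤ 1 / 2) :
    ‖D.Ad (D.exp x) - D.Ad (D.exp y)‖ ≤ ‖x - y‖ := by
  obtain ⟨w, hw1, -, -, hw4⟩ := D.toC11.diff_ex (x := y) (y := x) (by linarith) (by linarith)
  rw [toC11_e] at hw1
  rw [← hw1, D.Ad_mul]
  have h1 : ‖D.Ad (D.exp w) - 1‖ ≤ ‖w‖ / 40 := D.Ad_exp_sub_one (by linarith)
  have h2 : ‖D.Ad (D.exp y)‖ ≤ 2 := by
    have h3 := D.Ad_exp_sub_one hy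
    have h4 : ‖(1 : E →L[ℝ] E)‖ ≤ 1 := ContinuousLinearMap.norm_id_le
    have h5 : ‖D.Ad (D.exp y)‖ ≤ ‖D.Ad (D.exp y) - 1‖ + ‖(1 : E →L[ℝ] E)‖ := by
      calc _ = ‖(D.Ad (D.exp y) - 1) + 1‖ := by rw [sub_add_cancel]
        _ ≤ _ := norm_add_le _ _
    linarith
  have e : D.Ad (D.exp y) * D.Ad (D.exp w) - D.Ad (D.exp y) =
      D.Ad (D.exp y) * (D.Ad (D.exp w) - 1) := by rw [mul_sub, mul_one]
  rw [e]
  refine (norm_mul_le _ _).trans ?_
  calc _ ≤ 2 * (‖w‖ / 40) := mul_le_mul h2 h1 (norm_nonneg _) (by norm_num)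
    _ ≤ _ := by linarith [norm_nonneg (x - y)]

theorem adF_add (x y : E) : D.adF (x + y) = D.adF x + D.adF y := by
  refine D.adF_eq ?_
  -- the product has the right derivative
  have h1 : HasDerivAt (fun t : ℝ => D.Ad (D.exp (t • x)) * D.Ad (D.exp (t • y)))
      (D.adF x + D.adF y) 0 := by
    have h := (D.adF_hasDerivAt_zero x).mul (D.adF_hasDerivAt_zero y)
    simp only [zero_smul, D.exp_zero, D.Ad_one, mul_one, one_mul] at h
    exact h
  -- the difference is `O(t^2)`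
  have h2 : HasDerivAt (fun t : ℝ => D.Ad (D.exp (t • (x + y))) -
      D.Ad (D.exp (t • x)) * D.Ad (D.exp (t • y))) 0 0 := by
    rw [hasDerivAt_iff_isLittleO_nhds_zero]
    have hO : (fun t : ℝ => D.Ad (D.exp (t • (x + y))) -
        D.Ad (D.exp (t • x)) * D.Ad (D.exp (t • y))) =O[𝓝 0] fun t : ℝ => t ^ 2 := by
      refine Asymptotics.IsBigO.of_bound (‖x‖ * ‖y‖ / 100) ?_
      have hc : ∀ (r : ℝ), 0 < r → ∀ u : E, ∀ᶠ t : ℝ in 𝓝 0, ‖t • u‖ < r := by
        intro r hr u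
        have : Continuous (fun t : ℝ => ‖t • u‖) := by fun_prop
        exact (this.tendsto 0).eventually (gt_mem_nhds (by simpa using hr))
      filter_upwards [hc (1 / 4) (by norm_num) x, hc (1 / 4) (by norm_num) y,
        hc (1 / 4) (by norm_num) (x + y)] with t htx hty htxy
      obtain ⟨z, hz1, hz2⟩ := D.mul (t • x) (t • y) (by linarith) (by linarith)
      have e : z - t • x - t • y = z - t • (x + y) := by rw [smul_add]; abel
      rw [e] at hz1
      have hb : ‖t • x‖ * ‖t • y‖ / 100 ≤ 1 / 4 := by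
        nlinarith [norm_nonneg (t • x), norm_nonneg (t • y)]
      have hz3 : ‖z‖ ≤ 1 := by
        calc ‖z‖ = ‖(z - t • (x + y)) + t • (x + y)‖ := by rw [sub_add_cancel]
          _ ≤ _ := norm_add_le _ _
          _ ≤ _ := by linarith
      rw [← D.Ad_mul, hz2]
      have h3 := D.Ad_exp_lip (x := t • (x + y)) (y := z) (by linarith) hz3
        (by rw [norm_sub_rev]; linarith)
      refine h3.trans ?_
      rw [norm_sub_rev]
      refine hz1.trans (le_of_eq ?_)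
      rw [norm_smul, norm_smul, norm_pow]
      ring
    have h3 : (fun t : ℝ => t ^ 2) =o[𝓝 0] fun t : ℝ => t := by
      have := Asymptotics.isLittleO_pow_pow (𝕜 := ℝ) (m := 1) (n := 2) one_lt_two
      simpa using this
    have h4 := hO.trans_isLittleO h3
    simpa [D.exp_zero, D.Ad_one] using h4
  have h3 := h2.add h1
  rw [zero_add] at h3
  refine h3.congr_of_eventuallyEq (Eventually.of_forall fun t => ?_)
  simp

/-- The Lie bracket. -/
noncomputable def br : E →L[ℝ] E →L[ℝ] E :=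
  LinearMap.toContinuousLinearMap
    { toFun := D.adF, map_add' := D.adF_add, map_smul' := D.adF_smul }

theorem br_hasDerivAt (x : E) : HasDerivAt (fun t : ℝ => D.Ad (D.exp (t • x))) (D.br x) 0 :=
  D.adF_hasDerivAt_zero x

theorem br_hasDerivAt' (x : E) (t : ℝ) :
    HasDerivAt (fun t : ℝ => D.Ad (D.exp (t • x))) (D.Ad (D.exp (t • x)) * D.br x) t :=
  D.adF_hasDerivAt x t

theorem Ad_exp (x : E) (t : ℝ) : D.Ad (D.exp (t • x)) = NormedSpace.exp (t • D.br x) :=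
  D.Ad_exp_adF x t

theorem Ad_exp' (x : E) : D.Ad (D.exp x) = NormedSpace.exp (D.br x) := by
  have := D.Ad_exp x 1
  simpa using this

theorem br_eq {x : E} {B : E →L[ℝ] E}
    (h : HasDerivAt (fun t : ℝ => D.Ad (D.exp (t • x))) B 0) : D.br x = B := D.adF_eq h

theorem hasDerivAt_apply (x v : E) :
    HasDerivAt (fun t : ℝ => D.Ad (D.exp (t • x)) v) (D.br x v) 0 := by
  have h := (ContinuousLinearMap.apply ℝ E v).hasFDerivAt.comp_hasDerivAt (0 : ℝ)
    (D.br_hasDerivAt x)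
  exact h

theorem Ad_exp_self (x : E) (t : ℝ) : D.Ad (D.exp (t • x)) x = x := by
  refine D.Ad_eq (fun s => ?_)
  rw [D.exp_comm x t s, mul_inv_cancel_right]

theorem br_self (x : E) : D.br x x = 0 := by
  have h1 := D.hasDerivAt_apply x x
  have h2 : (fun t : ℝ => D.Ad (D.exp (t • x)) x) = fun _ => x := by
    funext t; exact D.Ad_exp_self x t
  rw [h2] at h1
  exact h1.unique (hasDerivAt_const _ _)

theorem br_skew (x y : E) : D.br x y = - D.br y x := by
  have h := D.br_self (x + y)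
  simp only [map_add, add_apply, D.br_self, zero_add, add_zero] at h
  exact eq_neg_of_add_eq_zero_left (by rw [← h]; abel)

theorem Ad_br (g : G) (x y : E) : D.Ad g (D.br x y) = D.br (D.Ad g x) (D.Ad g y) := by
  have h1 : D.br (D.Ad g x) = D.Ad g * D.br x * D.Ad g⁻¹ := by
    refine D.br_eq ?_
    have h2 := ((D.br_hasDerivAt x).const_mul (D.Ad g)).mul_const (D.Ad g⁻¹)
    refine h2.congr_of_eventuallyEq (Eventually.of_forall fun t => ?_)
    show D.Ad (D.exp (t • (D.Ad g) x)) = D.Ad g * D.Ad (D.exp (t • x)) * D.Ad g⁻¹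
    rw [← D.Ad_spec, D.Ad_mul, D.Ad_mul]
  rw [h1]
  simp only [mul_apply_eq_comp]
  have h3 : D.Ad g⁻¹ (D.Ad g y) = y := by
    have := congrArg (fun f : E →L[ℝ] E => f y) (D.Ad_inv_mul g)
    simpa using this
  rw [h3]

theorem jacobi (z x y : E) :
    D.br z (D.br x y) = D.br (D.br z x) y + D.br x (D.br z y) := by
  have h1 := D.hasDerivAt_apply z (D.br x y)
  have h2 : (fun t : ℝ => D.Ad (D.exp (t • z)) (D.br x y)) =
      fun t : ℝ => D.br (D.Ad (D.exp (t • z)) x) (D.Ad (D.exp (t • z)) y) := by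
    funext t; exact D.Ad_br _ _ _
  rw [h2] at h1
  have h3 : HasDerivAt (fun t : ℝ => D.br (D.Ad (D.exp (t • z)) x)) (D.br (D.br z x)) 0 :=
    D.br.hasFDerivAt.comp_hasDerivAt (0 : ℝ) (D.hasDerivAt_apply z x)
  have h4 := h3.clm_apply (D.hasDerivAt_apply z y)
  have h5 := h1.unique h4
  simpa [D.exp_zero, D.Ad_one] using h5

end ExpData

end Pool.Agent.H72.ProLie
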