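import Mathlib

/-! Pro-Lie groups, their Lie algebras of one-parameter subgroups, and analytic subgroups. -/

open Filter Topology Set
open scoped Manifold ContDiff commutatorElement

namespace Pool.Agent.H72.ProLie

/-- Completeness of a topological group (for its left uniform structure): every filter `F` such
that `x⁻¹ * y → 1` along `F × F` converges. -/
def IsCompleteGroup (G : Type*) [Group G] [TopologicalSpace G] : Prop :=
  ∀ F : Filter G, F.NeBot → Tendsto (fun p : G × G => p.1⁻¹ * p.2) (F ×ˢ F) (𝓝 1) → ∃ g, F ≤ 𝓝 g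

/-- The quotient `G ⧸ N`, with the quotient topology, is a (finite-dimensional, real) Lie group:
it has an atlas modelled on `ℝⁿ` which makes it a smooth manifold with smooth group operations. -/
def IsLieQuotient {G : Type*} [Group G] [TopologicalSpace G] (N : Subgroup G) [N.Normal] : Prop :=
  ∃ (n : ℕ) (_ : ChartedSpace (EuclideanSpace ℝ (Fin n)) (G ⧸ N)), LieGroup (𝓡 n) ∞ (G ⧸ N)

/-- Pro-Lie groups: `G` is Hausdorff and complete, and every neighbourhood of the identity contains
a closed normal subgroup `N` such that `G ⧸ N` is a Lie group. -/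
structure IsProLie (G : Type*) [Group G] [TopologicalSpace G] : Prop where
  hausdorff : T2Space G
  complete : IsCompleteGroup G
  approx : ∀ U ∈ 𝓝 (1 : G), ∃ N : Subgroup G, ∃ _ : N.Normal,
    IsClosed (N : Set G) ∧ (N : Set G) ⊆ U ∧ IsLieQuotient N

/-- The set `L(G) = Hom(ℝ, G)` of continuous one-parameter subgroups, with Mathlib's compact-open
topology. -/
abbrev LG (G : Type*) [Group G] [TopologicalSpace G] := Multiplicative ℝ →ₜ* G

/-- The value of a one-parameter subgroup at time `t`. -/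
def LG.at {G : Type*} [Group G] [TopologicalSpace G] (X : LG G) (t : ℝ) : G :=
  X (Multiplicative.ofAdd t)

/-- `Z = r • X` in `L(G)`: `Z(t) = X(rt)`. -/
def IsSMul {G : Type*} [Group G] [TopologicalSpace G] (r : ℝ) (X Z : LG G) : Prop :=
  ∀ t : ℝ, Z.at t = X.at (r * t)

/-- `Z = X + Y` in `L(G)`: `Z(t) = lim (X(t/n) Y(t/n)) ^ n`. -/
def IsSum {G : Type*} [Group G] [TopologicalSpace G] (X Y Z : LG G) : Prop :=
  ∀ t : ℝ, Tendsto (fun n : ℕ => (X.at (t / n) * Y.at (t / n)) ^ n) atTop (𝓝 (Z.at t))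

/-- `Z = [X, Y]` in `L(G)`: `Z(t²) = lim (X(t/n) Y(t/n) X(t/n)⁻¹ Y(t/n)⁻¹) ^ (n²)`.
(In Mathlib `⁅a, b⁆ = a * b * a⁻¹ * b⁻¹`.) -/
def IsBracket {G : Type*} [Group G] [TopologicalSpace G] (X Y Z : LG G) : Prop :=
  ∀ t : ℝ, Tendsto (fun n : ℕ => (⁅X.at (t / n), Y.at (t / n)⁆) ^ (n ^ 2)) atTop
    (𝓝 (Z.at (t ^ 2)))

/-- Closed Lie subalgebras of `L(G)`: closed subsets (for the compact-open topology) which contain
the zero element (the trivial one-parameter subgroup) and are stable under the scalar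
multiplication, addition and bracket of `L(G)`. -/
structure IsClosedSubalgebra {G : Type*} [Group G] [TopologicalSpace G] (h : Set (LG G)) :
    Prop where
  closed : IsClosed h
  zero : 1 ∈ h
  smul : ∀ (r : ℝ), ∀ X ∈ h, ∀ Z, IsSMul r X Z → Z ∈ h
  add : ∀ X ∈ h, ∀ Y ∈ h, ∀ Z, IsSum X Y Z → Z ∈ h
  bracket : ∀ X ∈ h, ∀ Y ∈ h, ∀ Z, IsBracket X Y Z → Z ∈ h

/-- The analytic subgroup `A(h)`, generated by the elements `exp X = X(1)`, `X ∈ h`. -/
def analyticSubgroup {G : Type*} [Group G] [TopologicalSpace G] (h : Set (LG G)) : Subgroup G :=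
  Subgroup.closure {g | ∃ X ∈ h, X.at 1 = g}

end Pool.Agent.H72.ProLie
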