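import Pool.Agent.H72.ProLie.Mod

set_option linter.unusedSectionVars false

open Filter Topology Set Metric

namespace Pool.Agent.H72.ProLie

/-- The unit square. -/
def Sq : Set (ℝ × ℝ) := Icc (0 : ℝ) 1 ×ˢ Icc (0 : ℝ) 1

theorem Sq_compact : IsCompact Sq := isCompact_Icc.prod isCompact_Icc

theorem smul_mem_Sq {p : ℝ × ℝ} (hp : p ∈ Sq) {s : ℝ} (hs : s ∈ Icc (0 : ℝ) 1) : s • p ∈ Sq := by
  obtain ⟨h1, h2⟩ := hp
  refine ⟨⟨?_, ?_⟩, ⟨?_, ?_⟩⟩
  · exact mul_nonneg hs.1 h1.1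
  · exact mul_le_one₀ hs.2 h1.1 h1.2
  · exact mul_nonneg hs.1 h2.1
  · exact mul_le_one₀ hs.2 h2.1 h2.2

/-- clamp to the square -/
def cl2 (p : ℝ × ℝ) : ℝ × ℝ := (cl p.1, cl p.2)

theorem cl2_cont : Continuous cl2 :=
  (cl_cont.comp continuous_fst).prodMk (cl_cont.comp continuous_snd)

theorem cl2_mem (p : ℝ × ℝ) : cl2 p ∈ Sq := ⟨cl_mem _, cl_mem _⟩

theorem cl2_of_mem {p : ℝ × ℝ} (hp : p ∈ Sq) : cl2 p = p := by
  unfold cl2; rw [cl_of_mem hp.1, cl_of_mem hp.2]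

variable {G : Type*} [Group G] [TopologicalSpace G] [IsTopologicalGroup G]

/-- uniform continuity on the square -/
theorem unif_square (F : ℝ × ℝ → G) (hF : Continuous F) (W : Set G) (hW : W ∈ 𝓝 (1 : G)) :
    ∃ r > 0, ∀ p ∈ Sq, ∀ q : ℝ × ℝ, dist p q < r → (F p)⁻¹ * F q ∈ W := by
  obtain ⟨U, hU1, hU2, hU3⟩ := mem_nhds_iff.1 hW
  set S : Set ((ℝ × ℝ) × (ℝ × ℝ)) := {p | (F p.1)⁻¹ * F p.2 ∈ U} with hS
  have hSo : IsOpen S := by
    have : Continuous (fun p : (ℝ × ℝ) × (ℝ × ℝ) => (F p.1)⁻¹ * F p.2) := by fun_prop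
    exact hU2.preimage this
  have hK : IsCompact ((fun t : ℝ × ℝ => (t, t)) '' Sq) := Sq_compact.image (by fun_prop)
  have hKS : (fun t : ℝ × ℝ => (t, t)) '' Sq ⊆ S := by
    rintro _ ⟨t, -, rfl⟩
    simp [hS, hU3]
  obtain ⟨η, hη, hηS⟩ := hK.exists_thickening_subset_open hSo hKS
  refine ⟨η, hη, fun p hp q hpq => ?_⟩
  have hmem : (p, q) ∈ S := by
    refine hηS ?_
    rw [mem_thickening_iff]
    refine ⟨(p, p), ⟨p, hp, rfl⟩, ?_⟩
    rw [Prod.dist_eq, dist_self, max_eq_right dist_nonneg, dist_comm]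
    exact hpq
  exact hU1 hmem

/-- Chain argument in the square: a property which spreads to close points and holds at the
origin holds everywhere. -/
theorem chain_square (P : ℝ × ℝ → Prop) (h0 : P (0, 0)) {r : ℝ} (hr : 0 < r)
    (h : ∀ p ∈ Sq, ∀ q ∈ Sq, dist p q < r → P p → P q) : ∀ p ∈ Sq, P p := by
  intro p hp
  obtain ⟨n, hn⟩ := exists_nat_gt (‖p‖ / r)
  have hn0 : (0 : ℝ) < n := lt_of_le_of_lt (by positivity) hn
  have hind : ∀ k : ℕ, k ≤ n → P (((k : ℝ) / n) • p) := by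
    intro k
    induction k with
    | zero =>
      intro _
      have e : (((0 : ℕ) : ℝ) / n) • p = (0, 0) := by
        rw [Nat.cast_zero, zero_div, zero_smul]; rfl
      rw [e]; exact h0
    | succ k ih =>
      intro hk
      have h1 := ih (by omega)
      have hk1 : (((k + 1 : ℕ) : ℝ)) / n ≤ 1 := by rw [div_le_one hn0]; exact_mod_cast hk
      have hk2 : ((k : ℝ)) / n ≤ 1 := by
        rw [div_le_one hn0]; exact_mod_cast (by omega : k ≤ n)
      refine h _ (smul_mem_Sq hp ⟨by positivity, hk2⟩) _ (smul_mem_Sq hp ⟨by positivity, hk1⟩) ?_ h1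
      rw [dist_eq_norm, ← sub_smul, norm_smul]
      have : ((k : ℝ)) / n - (((k + 1 : ℕ) : ℝ)) / n = -(1 / n) := by push_cast; ring
      rw [this, norm_neg, Real.norm_of_nonneg (by positivity), one_div, inv_mul_lt_iff₀ hn0]
      rwa [div_lt_iff₀ hr] at hn
  have := hind n le_rfl
  rwa [div_self hn0.ne', one_smul] at this

/-- Chain argument on an interval. -/
theorem chain_interval (P : ℝ → Prop) (h0 : P 0) {r : ℝ} (hr : 0 < r)
    (h : ∀ s ∈ Icc (0 : ℝ) 1, ∀ t ∈ Icc (0 : ℝ) 1, |s - t| < r → P s → P t) :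
    ∀ t ∈ Icc (0 : ℝ) 1, P t := by
  intro t ht
  obtain ⟨n, hn⟩ := exists_nat_gt (1 / r)
  have hn0 : (0 : ℝ) < n := lt_of_le_of_lt (by positivity) hn
  have hind : ∀ k : ℕ, k ≤ n → P (((k : ℝ) / n) * t) := by
    intro k
    induction k with
    | zero => intro _; simpa using h0
    | succ k ih =>
      intro hk
      have h1 := ih (by omega)
      have hk1 : (((k + 1 : ℕ) : ℝ)) / n ≤ 1 := by rw [div_le_one hn0]; exact_mod_cast hk
      have hk2 : ((k : ℝ)) / n ≤ 1 := by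
        rw [div_le_one hn0]; exact_mod_cast (by omega : k ≤ n)
      refine h _ ⟨by have := ht.1; positivity, mul_le_one₀ hk2 ht.1 ht.2⟩ _
        ⟨by have := ht.1; positivity, mul_le_one₀ hk1 ht.1 ht.2⟩ ?_ h1
      have : ((k : ℝ)) / n * t - (((k + 1 : ℕ) : ℝ)) / n * t = -(t / n) := by push_cast; ring
      rw [this, abs_neg, abs_of_nonneg (by have := ht.1; positivity)]
      rw [div_lt_iff₀ hn0]
      rw [div_lt_iff₀ hr] at hn
      linarith [ht.2]
  have := hind n le_rfl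
  rwa [div_self hn0.ne', one_mul] at this

/-- The development of a map of the square along a local homomorphism. -/
theorem develop {L : Type*} [Group L] [TopologicalSpace L] [IsTopologicalGroup L] (A : Subgroup G)
    (W : Set G) (hW : W ∈ 𝓝 (1 : G)) (φ : G → L) (hφc : ContinuousOn φ (W ∩ A))
    (hφ : ∀ a ∈ W, a ∈ A → ∀ b ∈ W, b ∈ A → a * b ∈ W → φ (a * b) = φ a * φ b)
    (F : ℝ × ℝ → G) (hF : Continuous F) (hFA : ∀ p, F p ∈ A)
    (B : Subgroup L) (hB : ∀ a ∈ W, a ∈ A → φ a ∈ B) :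
    ∃ F' : ℝ × ℝ → L, Continuous F' ∧ F' (0, 0) = 1 ∧ (∀ p, F' p ∈ B) ∧ ∃ r > 0, ∀ p ∈ Sq, ∀ q ∈ Sq,
      dist p q < r → (F p)⁻¹ * F q ∈ W ∧ F' q = F' p * φ ((F p)⁻¹ * F q) := by
  have h1W : (1 : G) ∈ W := mem_of_mem_nhds hW
  have hφ1 : φ 1 = 1 := by
    have := hφ 1 h1W A.one_mem 1 h1W A.one_mem (by simpa using h1W)
    rw [mul_one] at this
    simpa using this
  -- a small neighbourhood
  obtain ⟨V, hVo, h1V, hVinv, hVW⟩ : ∃ V : Set G, IsOpen V ∧ (1 : G) ∈ V ∧ (∀ a ∈ V, a⁻¹ ∈ V) ∧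
      (∀ a ∈ V, ∀ b ∈ V, ∀ c ∈ V, a * b * c ∈ W) := by
    have hc : Continuous (fun p : G × G × G => p.1 * p.2.1 * p.2.2) := by fun_prop
    have hm : (fun p : G × G × G => p.1 * p.2.1 * p.2.2) ⁻¹' W ∈ 𝓝 ((1, 1, 1) : G × G × G) := by
      refine hc.continuousAt.preimage_mem_nhds ?_
      simpa using hW
    rw [nhds_prod_eq, nhds_prod_eq, mem_prod_iff] at hm
    obtain ⟨V1, hV1, V2, hV2, hV⟩ := hm
    rw [mem_prod_iff] at hV2
    obtain ⟨V3, hV3, V4, hV4, hV5⟩ := hV2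
    have hV6 : V1 ∩ V3 ∩ V4 ∈ 𝓝 (1 : G) := inter_mem (inter_mem hV1 hV3) hV4
    obtain ⟨U, hU1, hU2, hU3⟩ := mem_nhds_iff.1 hV6
    refine ⟨U ∩ U⁻¹, hU2.inter hU2.inv, ⟨hU3, by simpa using hU3⟩, ?_, ?_⟩
    · rintro a ⟨h1, h2⟩
      exact ⟨h2, by simpa using h1⟩
    · rintro a ⟨ha, -⟩ b ⟨hb, -⟩ c ⟨hc, -⟩
      have : (a, b, c) ∈ V1 ×ˢ V2 := ⟨(hU1 ha).1.1, hV5 ⟨(hU1 hb).1.2, (hU1 hc).2⟩⟩
      exact hV this
  have hVW1 : ∀ a ∈ V, a ∈ W := fun a ha => by
    have := hVW a ha 1 h1V 1 h1V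
    simpa using this
  have hVW2 : ∀ a ∈ V, ∀ b ∈ V, a * b ∈ W := fun a ha b hb => by
    have := hVW a ha b hb 1 h1V
    simpa using this
  have hφinv : ∀ a ∈ V, a ∈ A → φ a⁻¹ = (φ a)⁻¹ := by
    intro a ha haA
    have := hφ a (hVW1 a ha) haA a⁻¹ (hVW1 _ (hVinv a ha)) (A.inv_mem haA)
      (by rw [mul_inv_cancel]; exact h1W)
    rw [mul_inv_cancel, hφ1] at this
    exact (inv_eq_of_mul_eq_one_right this.symm).symm
  have hVn : V ∈ 𝓝 (1 : G) := hVo.mem_nhds h1V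
  obtain ⟨r, hr, hrV⟩ := unif_square F hF V hVn
  -- subdivide
  obtain ⟨n, hn⟩ := exists_nat_gt (1 / r)
  have hn0 : (0 : ℝ) < n := lt_of_le_of_lt (by positivity) hn
  have hnr : 1 / (n : ℝ) < r := by
    rw [div_lt_iff₀ hr] at hn
    rw [div_lt_iff₀ hn0]; linarith
  set c : ℕ → ℝ × ℝ → ℝ × ℝ := fun k p => ((k : ℝ) / n) • cl2 p with hc
  have hcc : ∀ k, Continuous (c k) := fun k => by
    have := cl2_cont
    rw [hc]; fun_prop
  have hcS : ∀ k ≤ n, ∀ p, c k p ∈ Sq := by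
    intro k hk p
    refine smul_mem_Sq (cl2_mem p) ⟨by positivity, ?_⟩
    rw [div_le_one hn0]; exact_mod_cast hk
  have hnorm : ∀ p, ‖cl2 p‖ ≤ 1 := by
    intro p
    obtain ⟨h1, h2⟩ := cl2_mem p
    rw [Prod.norm_def]
    refine max_le ?_ ?_
    · rw [Real.norm_of_nonneg h1.1]; exact h1.2
    · rw [Real.norm_of_nonneg h2.1]; exact h2.2
  have hcd : ∀ k p, dist (c k p) (c (k + 1) p) < r := by
    intro k p
    rw [hc]
    simp only
    rw [dist_eq_norm, ← sub_smul, norm_smul]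
    have : ((k : ℝ)) / n - (((k + 1 : ℕ) : ℝ)) / n = -(1 / n) := by push_cast; ring
    rw [this, norm_neg, Real.norm_of_nonneg (by positivity)]
    calc 1 / (n : ℝ) * ‖cl2 p‖ ≤ 1 / (n : ℝ) * 1 := by gcongr; exact hnorm p
      _ < r := by linarith
  set δ : ℕ → ℝ × ℝ → G := fun k p => (F (c k p))⁻¹ * F (c (k + 1) p) with hδ
  have hδc : ∀ k, Continuous (δ k) := fun k => by
    have h1 := hF.comp (hcc k)
    have h2 := hF.comp (hcc (k + 1))
    exact h1.inv.mul h2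
  have hδV : ∀ k < n, ∀ p, δ k p ∈ V := fun k hk p => hrV _ (hcS k (by omega) p) _ (hcd k p)
  have hδA : ∀ k p, δ k p ∈ A := fun k p => A.mul_mem (A.inv_mem (hFA _)) (hFA _)
  -- the development
  let H : ℕ → ℝ × ℝ → L := fun k p => Nat.rec 1 (fun i x => x * φ (δ i p)) k
  have hH0 : ∀ p, H 0 p = 1 := fun p => rfl
  have hHs : ∀ k p, H (k + 1) p = H k p * φ (δ k p) := fun k p => rfl
  have hHc : ∀ k ≤ n, Continuous (H k) := by
    intro k
    induction k with
    | zero => intro _; exact continuous_const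
    | succ k ih =>
      intro hk
      have h1 := ih (by omega)
      have h2 : Continuous (fun p => φ (δ k p)) := by
        rw [continuous_iff_continuousAt]
        intro p
        have h3 : ContinuousWithinAt φ (W ∩ A) (δ k p) :=
          hφc _ ⟨hVW1 _ (hδV k (by omega) p), hδA k p⟩
        refine (h3.tendsto.comp ?_ : Tendsto (φ ∘ δ k) (𝓝 p) _)
        rw [tendsto_nhdsWithin_iff]
        exact ⟨(hδc k).tendsto p, Eventually.of_forall fun q =>
          ⟨hVW1 _ (hδV k (by omega) q), hδA k q⟩⟩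
      exact h1.mul h2
  have hHB : ∀ k ≤ n, ∀ p, H k p ∈ B := by
    intro k
    induction k with
    | zero => intro _ p; exact B.one_mem
    | succ k ih =>
      intro hk p
      rw [hHs]
      exact B.mul_mem (ih (by omega) p) (hB _ (hVW1 _ (hδV k (by omega) p)) (hδA k p))
  refine ⟨H n, hHc n le_rfl, ?_, hHB n le_rfl, r, hr, ?_⟩
  · have : ∀ k ≤ n, H k (0, 0) = 1 := by
      intro k
      induction k with
      | zero => intro _; rfl
      | succ k ih =>
        intro hk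
        rw [hHs, ih (by omega), one_mul]
        have hcz : ∀ i, c i (0, 0) = (0, 0) := by
          intro i
          rw [hc]
          simp [cl2, cl_zero]
        have : δ k (0, 0) = 1 := by
          rw [hδ]; simp only; rw [hcz, hcz, inv_mul_cancel]
        rw [this, hφ1]
    exact this n le_rfl
  · intro p hp q hq hpq
    have hcz : ∀ i ≤ n, dist (c i p) (c i q) < r := by
      intro i hi
      rw [hc]; simp only
      rw [cl2_of_mem hp, cl2_of_mem hq, dist_eq_norm, ← smul_sub, norm_smul]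
      rw [dist_eq_norm] at hpq
      have h1 : (i : ℝ) / n ≤ 1 := by rw [div_le_one hn0]; exact_mod_cast hi
      rw [Real.norm_of_nonneg (by positivity)]
      calc (i : ℝ) / n * ‖p - q‖ ≤ 1 * ‖p - q‖ := mul_le_mul_of_nonneg_right h1 (norm_nonneg _)
        _ < r := by linarith
    have hη : ∀ k ≤ n, (F (c k p))⁻¹ * F (c k q) ∈ V := fun k hk => hrV _ (hcS k hk p) _ (hcz k hk)
    have key : ∀ k ≤ n, H k q = H k p * φ ((F (c k p))⁻¹ * F (c k q)) := by
      intro k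
      induction k with
      | zero =>
        intro _
        have e1 : ∀ p, c 0 p = 0 := by intro p; rw [hc]; simp
        rw [hH0, hH0, e1, e1, inv_mul_cancel, hφ1, one_mul]
      | succ k ih =>
        intro hk
        have ih' := ih (by omega)
        rw [hHs, hHs, ih']
        have hA1 : (F (c k p))⁻¹ * F (c k q) ∈ A := A.mul_mem (A.inv_mem (hFA _)) (hFA _)
        have e2 : (F (c (k + 1) p))⁻¹ * F (c (k + 1) q) =
            (δ k p)⁻¹ * ((F (c k p))⁻¹ * F (c k q)) * δ k q := by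
          rw [hδ]; simp only; group
        have hVk := hη k (by omega)
        have d1 := hδV k (by omega) p
        have d2 := hδV k (by omega) q
        have a1 := hδA k p
        have a2 := hδA k q
        rw [e2, hφ _ (hVW2 _ (hVinv _ d1) _ hVk) (A.mul_mem (A.inv_mem a1) hA1) _ (hVW1 _ d2) a2
          (hVW _ (hVinv _ d1) _ hVk _ d2), hφ _ (hVW1 _ (hVinv _ d1)) (A.inv_mem a1) _ (hVW1 _ hVk) hA1
          (hVW2 _ (hVinv _ d1) _ hVk), hφinv _ d1 a1]
        group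
    have hfin := key n le_rfl
    have e3 : ∀ p ∈ Sq, c n p = p := by
      intro p hp
      rw [hc]; simp only
      rw [div_self hn0.ne', one_smul, cl2_of_mem hp]
    rw [e3 p hp, e3 q hq] at hfin
    exact ⟨hVW1 _ (hrV p hp q hpq), hfin⟩

end Pool.Agent.H72.ProLie
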