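import Pool.Agent.H72.ProLie.Chart

open Filter Topology Set Metric
open scoped Manifold ContDiff

namespace Pool.Agent.H72.ProLie

namespace C11

variable {G : Type*} [Group G] [TopologicalSpace G] {E : Type*} [NormedAddCommGroup E]
  [NormedSpace ℝ E] (c : C11 G E)

theorem inj' {x y : E} (hx : ‖x‖ ≤ 9) (hy : ‖y‖ ≤ 9) (h : c.e x = c.e y) : x = y :=
  c.inj (mem_closedBall_zero_iff.2 hx) (mem_closedBall_zero_iff.2 hy) h

theorem mul_ex {x y : E} (hx : ‖x‖ ≤ 4) (hy : ‖y‖ ≤ 4) :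
    ∃ z, c.e x * c.e y = c.e z ∧ ‖z - x - y‖ ≤ ‖x‖ * ‖y‖ / 100 ∧
      ‖z‖ ≤ ‖x‖ + ‖y‖ + ‖x‖ * ‖y‖ / 100 := by
  obtain ⟨z, hz, h⟩ := c.mul x y hx hy
  refine ⟨z, h, hz, ?_⟩
  have : z = (z - x - y) + x + y := by abel
  calc ‖z‖ = ‖(z - x - y) + x + y‖ := by rw [← this]
    _ ≤ ‖z - x - y‖ + ‖x‖ + ‖y‖ := norm_add₃_le
    _ ≤ _ := by linarith

theorem mul' {x y z : E} (hx : ‖x‖ ≤ 4) (hy : ‖y‖ ≤ 4) (hz : ‖z‖ ≤ 9)
    (h : c.e x * c.e y = c.e z) : ‖z - x - y‖ ≤ ‖x‖ * ‖y‖ / 100 := by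
  obtain ⟨z', h1, h2, h3⟩ := c.mul_ex hx hy
  have h4 : ‖z'‖ ≤ 9 := by nlinarith [norm_nonneg x, norm_nonneg y]
  have : z = z' := c.inj' hz h4 (by rw [← h, h1])
  rw [this]; exact h2

theorem inv_ex {x : E} (hx : ‖x‖ ≤ 3) :
    ∃ y, c.e y = (c.e x)⁻¹ ∧ ‖y + x‖ ≤ ‖x‖ ^ 2 / 90 ∧ ‖y‖ ≤ 104 / 100 * ‖x‖ := by
  obtain ⟨y, hy, h⟩ := c.inv x hx
  have h1 : c.e x * c.e y = c.e 0 := by rw [h, mul_inv_cancel, c.zero]
  have h2 := c.mul' (by linarith) hy (by simp) h1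
  have h3 : ‖y + x‖ ≤ ‖x‖ * ‖y‖ / 100 := by
    have : (0 : E) - x - y = -(y + x) := by abel
    rwa [this, norm_neg] at h2
  have h4 : ‖y‖ ≤ ‖y + x‖ + ‖x‖ := by
    calc ‖y‖ = ‖(y + x) - x‖ := by rw [add_sub_cancel_right]
      _ ≤ _ := norm_sub_le _ _
  have hy0 := norm_nonneg y
  have hx0 := norm_nonneg x
  have h5 : ‖y‖ ≤ 104 / 100 * ‖x‖ := by nlinarith
  refine ⟨y, h, ?_, h5⟩
  nlinarith

theorem diff_ex {x y : E} (hx : ‖x‖ ≤ 3 / 2) (hy : ‖y‖ ≤ 3 / 2) :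
    ∃ w, c.e x * c.e w = c.e y ∧ ‖w - (y - x)‖ ≤ ‖x‖ * ‖w‖ / 100 ∧ ‖w‖ ≤ 4 ∧
      ‖w‖ ≤ 102 / 100 * ‖y - x‖ := by
  obtain ⟨x', h1, h2, h3⟩ := c.inv_ex (x := x) (by linarith)
  obtain ⟨w, h4, h5, h6⟩ := c.mul_ex (x := x') (y := y) (by linarith) (by linarith)
  have hx0 := norm_nonneg x
  have hx'0 := norm_nonneg x'
  have hy0 := norm_nonneg y
  have hw : ‖w‖ ≤ 4 := by nlinarith
  have h7 : c.e x * c.e w = c.e y := by rw [← h4, h1, mul_inv_cancel_left]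
  have h8 := c.mul' (by linarith) hw (by linarith) h7
  have h9 : ‖w - (y - x)‖ ≤ ‖x‖ * ‖w‖ / 100 := by
    have : w - (y - x) = -(y - x - w) := by abel
    rw [this, norm_neg]; exact h8
  refine ⟨w, h7, h9, hw, ?_⟩
  have h10 : ‖w‖ ≤ ‖w - (y - x)‖ + ‖y - x‖ := by
    calc ‖w‖ = ‖(w - (y - x)) + (y - x)‖ := by rw [sub_add_cancel]
      _ ≤ _ := norm_add_le _ _
  nlinarith [norm_nonneg w, norm_nonneg (y - x)]

theorem conj_ex {x v : E} (hx : ‖x‖ ≤ 1) (hv : ‖v‖ ≤ 1) :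
    ∃ w, c.e x * c.e v * (c.e x)⁻¹ = c.e w ∧ ‖w - v‖ ≤ ‖x‖ * ‖v‖ / 40 ∧
      ‖w‖ ≤ 103 / 100 * ‖v‖ := by
  have hx0 := norm_nonneg x
  have hv0 := norm_nonneg v
  obtain ⟨z, h1, h2, h3⟩ := c.mul_ex (x := x) (y := v) (by linarith) (by linarith)
  obtain ⟨x', h4, h5, h6⟩ := c.inv_ex (x := x) (by linarith)
  have hz : ‖z‖ ≤ 201 / 100 := by nlinarith
  obtain ⟨w, h7, h8, h9⟩ := c.mul_ex (x := z) (y := x') (by linarith) (by linarith)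
  have hw : ‖w‖ ≤ 4 := by nlinarith [norm_nonneg z, norm_nonneg x']
  have h10 : c.e x * c.e v * (c.e x)⁻¹ = c.e w := by rw [← h7, ← h1, h4]
  have h11 : c.e w * c.e x = c.e z := by rw [← h10, inv_mul_cancel_right, h1]
  have h12 := c.mul' hw (by linarith) (by linarith) h11
  have h13 : ‖w - v‖ ≤ ‖x‖ * (‖v‖ + ‖w‖) / 100 := by
    have : w - v = (z - x - v) - (z - w - x) := by abel
    rw [this]
    refine (norm_sub_le _ _).trans ?_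
    nlinarith
  have h14 : ‖w‖ ≤ ‖w - v‖ + ‖v‖ := by
    calc ‖w‖ = ‖(w - v) + v‖ := by rw [sub_add_cancel]
      _ ≤ _ := norm_add_le _ _
  have hw0 := norm_nonneg w
  have h15 : ‖w‖ ≤ 103 / 100 * ‖v‖ := by nlinarith
  refine ⟨w, h10, ?_, h15⟩
  nlinarith

theorem pow_ex {x : E} (n : ℕ) (h : n * ‖x‖ ≤ 1) :
    ∃ z, c.e x ^ n = c.e z ∧ ‖z - (n : ℝ) • x‖ ≤ (n * ‖x‖) ^ 2 / 100 ∧
      ‖z‖ ≤ 101 / 100 * (n * ‖x‖) := by
  induction n with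
  | zero => exact ⟨0, by simp [c.zero], by simp, by simp⟩
  | succ n ih =>
    have hx0 := norm_nonneg x
    push_cast at h
    have hn0 : (0 : ℝ) ≤ n := Nat.cast_nonneg n
    have hnx : (n : ℝ) * ‖x‖ ≤ 1 := by nlinarith
    obtain ⟨z, h1, h2, h3⟩ := ih hnx
    have hx1 : ‖x‖ ≤ 1 := by nlinarith
    obtain ⟨z', h4, h5, h6⟩ := c.mul_ex (x := z) (y := x) (by linarith) (by linarith)
    have hz : ‖z‖ ≤ 101 / 100 * (n * ‖x‖) := h3
    have key : ‖z' - ((n : ℝ) + 1) • x‖ ≤ (((n : ℝ) + 1) * ‖x‖) ^ 2 / 100 := by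
      have : z' - ((n : ℝ) + 1) • x = (z' - z - x) + (z - (n : ℝ) • x) := by
        rw [add_smul, one_smul]; abel
      rw [this]
      refine (norm_add_le _ _).trans ?_
      have hz0 := norm_nonneg z
      have a1 : ‖z‖ * ‖x‖ / 100 ≤ (101 / 100 * (n * ‖x‖)) * ‖x‖ / 100 := by
        have := mul_le_mul_of_nonneg_right hz hx0
        linarith
      have a2 : (0 : ℝ) ≤ n * ‖x‖ * ‖x‖ := by positivity
      have a3 : (0 : ℝ) ≤ ‖x‖ ^ 2 := by positivity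
      nlinarith
    refine ⟨z', by rw [pow_succ, h1, h4], by push_cast; exact key, ?_⟩
    push_cast
    have : ‖z'‖ ≤ ‖z' - ((n : ℝ) + 1) • x‖ + ‖((n : ℝ) + 1) • x‖ := by
      calc ‖z'‖ = ‖(z' - ((n : ℝ) + 1) • x) + ((n : ℝ) + 1) • x‖ := by rw [sub_add_cancel]
        _ ≤ _ := norm_add_le _ _
    rw [norm_smul, Real.norm_of_nonneg (by positivity : (0 : ℝ) ≤ (n : ℝ) + 1)] at this
    have h7 : (((n : ℝ) + 1) * ‖x‖) ^ 2 ≤ ((n : ℝ) + 1) * ‖x‖ := by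
      have : 0 ≤ ((n : ℝ) + 1) * ‖x‖ := by positivity
      nlinarith
    linarith

theorem pow_diff_ex {x y : E} (n : ℕ) (hx : n * ‖x‖ ≤ 1 / 4) (hy : n * ‖y‖ ≤ 1 / 4) :
    ∃ w, c.e x ^ n * c.e w = c.e y ^ n ∧
      ‖w - (n : ℝ) • (y - x)‖ ≤ (n * ‖y - x‖) * (n * (‖x‖ + ‖y‖)) / 20 ∧ ‖w‖ ≤ 4 := by
  rcases Nat.eq_zero_or_pos n with hn | hn
  · subst hn
    exact ⟨0, by simp [c.zero], by simp, by simp⟩
  have hn1 : (1 : ℝ) ≤ n := by exact_mod_cast hn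
  have hx0 := norm_nonneg x
  have hy0 := norm_nonneg y
  have hx1 : ‖x‖ ≤ 1 / 4 := by nlinarith
  have hy1 : ‖y‖ ≤ 1 / 4 := by nlinarith
  obtain ⟨u, hu1, hu2, hu3, hu4⟩ := c.diff_ex (x := x) (y := y) (by linarith) (by linarith)
  have hu0 := norm_nonneg u
  set δ := ‖y - x‖ with hδ
  have hδ0 : 0 ≤ δ := norm_nonneg _
  have hδs : δ ≤ ‖x‖ + ‖y‖ := by rw [hδ, add_comm]; exact norm_sub_le _ _
  have hnδ : n * δ ≤ 1 / 2 := by nlinarith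
  obtain ⟨y', hy'1, hy'2, hy'3⟩ := c.inv_ex (x := y) (by linarith)
  have hy'0 := norm_nonneg y'
  have key : ∀ k : ℕ, k ≤ n → ∃ w, c.e x ^ k * c.e w = c.e y ^ k ∧
      ‖w - (k : ℝ) • u‖ ≤ (k : ℝ) ^ 2 * (‖y‖ + ‖u‖) * ‖u‖ / 60 := by
    intro k
    induction k with
    | zero => intro _; exact ⟨0, by simp [c.zero], by simp⟩
    | succ k ih =>
      intro hk
      obtain ⟨w, hw1, hw2⟩ := ih (by omega)
      have hkn : (k : ℝ) + 1 ≤ n := by exact_mod_cast hk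
      have hk0 : (0 : ℝ) ≤ k := Nat.cast_nonneg k
      have hku : (k : ℝ) * ‖u‖ ≤ 51 / 100 := by
        have : (k : ℝ) * ‖u‖ ≤ n * (102 / 100 * δ) :=
          mul_le_mul (by linarith) hu4 hu0 (by linarith)
        linarith
      have hky : (k : ℝ) * ‖y‖ ≤ 1 / 4 := by nlinarith
      have hw3 : ‖w‖ ≤ 102 / 100 * (k * ‖u‖) := by
        have h1 : ‖w‖ ≤ ‖w - (k : ℝ) • u‖ + ‖(k : ℝ) • u‖ := by
          calc ‖w‖ = ‖(w - (k : ℝ) • u) + (k : ℝ) • u‖ := by rw [sub_add_cancel]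
            _ ≤ _ := norm_add_le _ _
        rw [norm_smul, Real.norm_of_nonneg hk0] at h1
        have h2 : (k : ℝ) ^ 2 * (‖y‖ + ‖u‖) * ‖u‖ = (k * (‖y‖ + ‖u‖)) * (k * ‖u‖) := by ring
        have h3 : (k : ℝ) * (‖y‖ + ‖u‖) ≤ 76 / 100 := by linarith
        have h4 : (k * (‖y‖ + ‖u‖)) * (k * ‖u‖) ≤ (76 / 100) * (k * ‖u‖) :=
          mul_le_mul_of_nonneg_right h3 (by positivity)
        rw [h2] at hw2
        have h5 : 0 ≤ (k : ℝ) * ‖u‖ := by positivity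
        linarith
      have hw4 : ‖w‖ ≤ 1 := by linarith
      obtain ⟨w', hw'1, hw'2, hw'3⟩ := c.conj_ex (x := y') (v := w) (by linarith) hw4
      have hw0 := norm_nonneg w
      have hw'0 := norm_nonneg w'
      have hw'4 : ‖w'‖ ≤ 4 := by linarith
      obtain ⟨w2, hw21, hw22, hw23⟩ := c.mul_ex hu3 hw'4
      refine ⟨w2, ?_, ?_⟩
      · have hyi : (c.e y')⁻¹ = c.e y := by rw [hy'1, inv_inv]
        rw [← hw21, ← hw'1, hyi, hy'1]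
        calc c.e x ^ (k + 1) * (c.e u * ((c.e y)⁻¹ * c.e w * c.e y))
            = c.e x ^ k * (c.e x * c.e u) * (c.e y)⁻¹ * c.e w * c.e y := by
              rw [pow_succ]; group
          _ = c.e x ^ k * c.e w * c.e y := by rw [hu1, mul_inv_cancel_right]
          _ = c.e y ^ (k + 1) := by rw [hw1, pow_succ]
      · push_cast
        have e1 : w2 - ((k : ℝ) + 1) • u = (w2 - u - w') + (w' - w) + (w - (k : ℝ) • u) := by
          rw [add_smul, one_smul]; abel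
        rw [e1]
        refine norm_add₃_le.trans ?_
        have b1 : ‖u‖ * ‖w'‖ / 100 ≤ 106 / 100 * (k * ‖u‖) * ‖u‖ / 100 := by
          have : ‖w'‖ ≤ 106 / 100 * (k * ‖u‖) := by linarith
          have := mul_le_mul_of_nonneg_left this hu0
          nlinarith
        have b2 : ‖y'‖ * ‖w‖ / 40 ≤ 107 / 100 * ‖y‖ * (k * ‖u‖) / 40 := by
          have : ‖y'‖ * ‖w‖ ≤ (104 / 100 * ‖y‖) * (102 / 100 * (k * ‖u‖)) :=
            mul_le_mul hy'3 hw3 hw0 (by positivity)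
          have h0 : 0 ≤ ‖y‖ * (k * ‖u‖) := by positivity
          nlinarith
        have b3 : 0 ≤ (k : ℝ) * ‖u‖ * ‖u‖ := by positivity
        have b4 : 0 ≤ (k : ℝ) * ‖u‖ * ‖y‖ := by positivity
        have b5 : 0 ≤ ‖u‖ * ‖y‖ := by positivity
        have b6 : 0 ≤ ‖u‖ * ‖u‖ := by positivity
        nlinarith
  obtain ⟨w, hw1, hw2⟩ := key n le_rfl
  have hfin : ‖w - (n : ℝ) • (y - x)‖ ≤ (n * δ) * (n * (‖x‖ + ‖y‖)) / 20 := by
    have e1 : w - (n : ℝ) • (y - x) = (w - (n : ℝ) • u) + (n : ℝ) • (u - (y - x)) := by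
      rw [smul_sub (n : ℝ) u]; abel
    rw [e1]
    refine (norm_add_le _ _).trans ?_
    rw [norm_smul, Real.norm_of_nonneg (by linarith)]
    have c1 : (n : ℝ) ^ 2 * (‖y‖ + ‖u‖) * ‖u‖ ≤
        (n : ℝ) ^ 2 * ((202 / 100) * (‖x‖ + ‖y‖)) * (102 / 100 * δ) := by
      have d1 : ‖y‖ + ‖u‖ ≤ (202 / 100) * (‖x‖ + ‖y‖) := by linarith
      have d2 : (n : ℝ) ^ 2 * (‖y‖ + ‖u‖) ≤ (n : ℝ) ^ 2 * ((202 / 100) * (‖x‖ + ‖y‖)) :=
        mul_le_mul_of_nonneg_left d1 (by positivity)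
      exact mul_le_mul d2 hu4 hu0 (by positivity)
    have c2 : (n : ℝ) * ‖u - (y - x)‖ ≤ n * (‖x‖ * (102 / 100 * δ) / 100) := by
      refine mul_le_mul_of_nonneg_left (hu2.trans ?_) (by linarith)
      have := mul_le_mul_of_nonneg_left hu4 hx0
      linarith
    have c3 : (n : ℝ) * (‖x‖ * (102 / 100 * δ) / 100) ≤
        (n : ℝ) ^ 2 * ((‖x‖ + ‖y‖) * (102 / 100 * δ) / 100) := by
      have d1 : ‖x‖ * (102 / 100 * δ) ≤ (‖x‖ + ‖y‖) * (102 / 100 * δ) :=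
        mul_le_mul_of_nonneg_right (by linarith) (by positivity)
      have d2 : (n : ℝ) ≤ (n : ℝ) ^ 2 := by nlinarith
      have d3 : (0 : ℝ) ≤ (‖x‖ + ‖y‖) * (102 / 100 * δ) / 100 := by positivity
      calc _ ≤ (n : ℝ) * ((‖x‖ + ‖y‖) * (102 / 100 * δ) / 100) :=
            mul_le_mul_of_nonneg_left (by linarith) (by linarith)
        _ ≤ _ := mul_le_mul_of_nonneg_right d2 d3
    have c4 : 0 ≤ (n : ℝ) ^ 2 * (‖x‖ + ‖y‖) * δ := by positivity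
    nlinarith
  refine ⟨w, hw1, hfin, ?_⟩
  have h1 : ‖w‖ ≤ ‖w - (n : ℝ) • (y - x)‖ + ‖(n : ℝ) • (y - x)‖ := by
    calc ‖w‖ = ‖(w - (n : ℝ) • (y - x)) + (n : ℝ) • (y - x)‖ := by rw [sub_add_cancel]
      _ ≤ _ := norm_add_le _ _
  rw [norm_smul, Real.norm_of_nonneg (by linarith)] at h1
  have h2 : (n : ℝ) * (‖x‖ + ‖y‖) ≤ 1 / 2 := by linarith
  have h3 : (n * δ) * (n * (‖x‖ + ‖y‖)) ≤ (1 / 2) * (1 / 2) :=
    mul_le_mul hnδ h2 (by positivity) (by norm_num)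
  linarith

theorem pow_coord_diff {x y X Y : E} (n : ℕ) (hx : n * ‖x‖ ≤ 1 / 4) (hy : n * ‖y‖ ≤ 1 / 4)
    (hX : ‖X‖ ≤ 1) (hY : ‖Y‖ ≤ 1) (h1 : c.e x ^ n = c.e X) (h2 : c.e y ^ n = c.e Y) :
    ‖(Y - X) - (n : ℝ) • (y - x)‖ ≤ (n * ‖y - x‖) * (n * (‖x‖ + ‖y‖)) / 16 := by
  obtain ⟨w, hw1, hw2, hw3⟩ := c.pow_diff_ex n hx hy
  obtain ⟨Z, hZ1, -, hZ3⟩ := c.pow_ex (x := x) n (by linarith)
  have hXZ : X = Z := c.inj' (by linarith) (by linarith) (by rw [← h1, hZ1])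
  rw [← hXZ] at hZ3
  have h3 : c.e X * c.e w = c.e Y := by rw [← h1, hw1, h2]
  have h4 := c.mul' (by linarith) hw3 (by linarith) h3
  have hx0 := norm_nonneg x
  have hy0 := norm_nonneg y
  have hn0 : (0 : ℝ) ≤ n := Nat.cast_nonneg n
  set δ := ‖y - x‖ with hδ
  have hδ0 : 0 ≤ δ := norm_nonneg _
  have h5 : ‖w‖ ≤ 103 / 100 * (n * δ) := by
    have h1 : ‖w‖ ≤ ‖w - (n : ℝ) • (y - x)‖ + ‖(n : ℝ) • (y - x)‖ := by
      calc ‖w‖ = ‖(w - (n : ℝ) • (y - x)) + (n : ℝ) • (y - x)‖ := by rw [sub_add_cancel]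
        _ ≤ _ := norm_add_le _ _
    rw [norm_smul, Real.norm_of_nonneg hn0] at h1
    have h2 : (n : ℝ) * (‖x‖ + ‖y‖) ≤ 1 / 2 := by linarith
    have h3 : (n * δ) * (n * (‖x‖ + ‖y‖)) ≤ (n * δ) * (1 / 2) :=
      mul_le_mul_of_nonneg_left h2 (by positivity)
    rw [← hδ] at h1
    have h4' : 0 ≤ (n : ℝ) * δ := by positivity
    linarith
  have e1 : (Y - X) - (n : ℝ) • (y - x) = (Y - X - w) + (w - (n : ℝ) • (y - x)) := by abel
  rw [e1]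
  refine (norm_add_le _ _).trans ?_
  have h6 : ‖X‖ * ‖w‖ ≤ (101 / 100 * (n * ‖x‖)) * (103 / 100 * (n * δ)) :=
    mul_le_mul hZ3 h5 (norm_nonneg _) (by positivity)
  have h7 : 0 ≤ (n * δ) * (n * ‖x‖) := by positivity
  have h8 : 0 ≤ (n * δ) * (n * ‖y‖) := by positivity
  nlinarith

/-- Coordinates. -/
noncomputable def lg (g : G) : E := Function.invFunOn c.e (closedBall 0 9) g

theorem lg_e {x : E} (hx : ‖x‖ ≤ 9) : c.lg (c.e x) = x := by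
  have hm : ∃ a ∈ closedBall (0 : E) 9, c.e a = c.e x := ⟨x, mem_closedBall_zero_iff.2 hx, rfl⟩
  exact c.inj (Function.invFunOn_mem hm) (mem_closedBall_zero_iff.2 hx) (Function.invFunOn_eq hm)

/-- Approximations of the exponential map in the chart. -/
noncomputable def ap (n : ℕ) (v : E) : E := c.lg (c.e (((2 : ℝ) ^ n)⁻¹ • v) ^ (2 ^ n))

theorem norm_half (n : ℕ) (v : E) : ((2 ^ n : ℕ) : ℝ) * ‖((2 : ℝ) ^ n)⁻¹ • v‖ = ‖v‖ := by
  rw [norm_smul, norm_inv, Real.norm_of_nonneg (by positivity)]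
  push_cast
  field_simp

theorem ap_spec {v : E} (hv : ‖v‖ ≤ 1) (n : ℕ) :
    c.e (((2 : ℝ) ^ n)⁻¹ • v) ^ (2 ^ n) = c.e (c.ap n v) ∧ ‖c.ap n v - v‖ ≤ ‖v‖ ^ 2 / 100 ∧
      ‖c.ap n v‖ ≤ 101 / 100 * ‖v‖ := by
  have h := norm_half n v
  obtain ⟨z, hz1, hz2, hz3⟩ := c.pow_ex (x := ((2 : ℝ) ^ n)⁻¹ • v) (2 ^ n) (by rw [h]; exact hv)
  rw [h] at hz2 hz3
  have hz : c.ap n v = z := by
    rw [ap, hz1, c.lg_e (by linarith)]
  rw [hz]
  refine ⟨hz1, ?_, hz3⟩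
  have : (((2 ^ n : ℕ) : ℝ)) • ((2 : ℝ) ^ n)⁻¹ • v = v := by
    push_cast
    exact smul_inv_smul₀ (by positivity) v
  rwa [this] at hz2

theorem ap_zero {v : E} (hv : ‖v‖ ≤ 1) : c.ap 0 v = v := by
  simp only [ap, pow_zero, inv_one, one_smul, pow_one]
  exact c.lg_e (by linarith)

theorem ap_succ {v : E} (hv : ‖v‖ ≤ 1 / 5) (n : ℕ) :
    ‖c.ap (n + 1) v - c.ap n v‖ ≤ (‖v‖ ^ 2 / 300) * (1 / 2) ^ n := by
  obtain ⟨h1, -, h3⟩ := c.ap_spec (v := v) (by linarith) n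
  obtain ⟨h1', -, h3'⟩ := c.ap_spec (v := v) (by linarith) (n + 1)
  set x := ((2 : ℝ) ^ n)⁻¹ • v with hx
  set x2 := ((2 : ℝ) ^ (n + 1))⁻¹ • v with hx2
  have hxx : x = (2 : ℝ) • x2 := by
    rw [hx, hx2, smul_smul]; congr 1; rw [pow_succ]; field_simp
  have hnx : ((2 ^ n : ℕ) : ℝ) * ‖x‖ = ‖v‖ := norm_half n v
  have hx0 := norm_nonneg x
  have h2n : (1 : ℝ) ≤ ((2 ^ n : ℕ) : ℝ) := by exact_mod_cast Nat.one_le_two_pow
  have hxv : ‖x‖ ≤ ‖v‖ := by rw [← hnx]; nlinarith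
  have hx2n : ‖x2‖ = ‖x‖ / 2 := by
    have : ‖x‖ = 2 * ‖x2‖ := by
      calc ‖x‖ = ‖(2 : ℝ) • x2‖ := congrArg _ hxx
        _ = _ := by rw [norm_smul]; simp
    linarith
  obtain ⟨z, hz1, hz2, hz3⟩ := c.mul_ex (x := x2) (y := x2) (by rw [hx2n]; linarith)
    (by rw [hx2n]; linarith)
  have hzx : ‖z - x‖ ≤ ‖x‖ ^ 2 / 400 := by
    have : z - x2 - x2 = z - x := by rw [hxx, two_smul]; abel
    rw [this, hx2n] at hz2
    linarith [hz2, sq_nonneg ‖x‖]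
  have hpz : c.e z ^ (2 ^ n) = c.e (c.ap (n + 1) v) := by
    rw [← h1', ← hz1, ← sq, ← pow_mul, pow_succ, mul_comm]
  set N : ℝ := ((2 ^ n : ℕ) : ℝ) with hN
  have hN0 : 0 < N := by linarith
  have hNz : N * ‖z - x‖ ≤ ‖v‖ * ‖x‖ / 400 := by
    have := mul_le_mul_of_nonneg_left hzx hN0.le
    calc _ ≤ N * (‖x‖ ^ 2 / 400) := this
      _ = (N * ‖x‖) * ‖x‖ / 400 := by ring
      _ = _ := by rw [hnx]
  have hv0 := norm_nonneg v
  have hNz2 : N * ‖z‖ ≤ 1 / 4 := by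
    have : ‖z‖ ≤ ‖z - x‖ + ‖x‖ := by
      calc ‖z‖ = ‖(z - x) + x‖ := by rw [sub_add_cancel]
        _ ≤ _ := norm_add_le _ _
    have h5 := mul_le_mul_of_nonneg_left this hN0.le
    nlinarith
  have key := c.pow_coord_diff (x := x) (y := z) (2 ^ n) (by rw [hnx]; linarith) hNz2
    (by linarith) (by linarith) h1 hpz
  rw [← hN] at key
  have h6 : ‖c.ap (n + 1) v - c.ap n v‖ ≤ N * ‖z - x‖ + N * ‖z - x‖ * (N * (‖x‖ + ‖z‖)) / 16 := by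
    have e : c.ap (n + 1) v - c.ap n v =
        ((c.ap (n + 1) v - c.ap n v) - N • (z - x)) + N • (z - x) := by abel
    rw [e]
    refine (norm_add_le _ _).trans ?_
    rw [norm_smul, Real.norm_of_nonneg hN0.le]
    linarith
  have h7 : N * (‖x‖ + ‖z‖) ≤ 1 / 2 := by rw [mul_add, hnx]; linarith
  have h8 : N * ‖z - x‖ * (N * (‖x‖ + ‖z‖)) ≤ N * ‖z - x‖ * (1 / 2) :=
    mul_le_mul_of_nonneg_left h7 (by positivity)
  have h9 : ‖x‖ = ‖v‖ * (1 / 2) ^ n := by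
    rw [hx, norm_smul, norm_inv, Real.norm_of_nonneg (by positivity), mul_comm]
    congr 1
    rw [one_div, inv_pow]
  have h10 : ‖v‖ * ‖x‖ = ‖v‖ ^ 2 * (1 / 2) ^ n := by rw [h9]; ring
  have h11 : 0 ≤ ‖v‖ ^ 2 * (1 / 2) ^ n := by positivity
  nlinarith

/-- The exponential map in the chart. -/
noncomputable def A (v : E) : E := limUnder atTop (fun n => c.ap n v)

variable [CompleteSpace E]

theorem tendsto_ap {v : E} (hv : ‖v‖ ≤ 1 / 5) : Tendsto (fun n => c.ap n v) atTop (𝓝 (c.A v)) := by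
  have : CauchySeq (fun n => c.ap n v) := by
    refine cauchySeq_of_le_geometric (1 / 2) (‖v‖ ^ 2 / 300) (by norm_num) ?_
    intro n
    rw [dist_eq_norm, norm_sub_rev]
    exact c.ap_succ hv n
  exact this.tendsto_limUnder

theorem A_sub {v : E} (hv : ‖v‖ ≤ 1 / 5) : ‖c.A v - v‖ ≤ ‖v‖ ^ 2 / 100 := by
  have h1 : Tendsto (fun n => ‖c.ap n v - v‖) atTop (𝓝 ‖c.A v - v‖) :=
    ((c.tendsto_ap hv).sub_const v).norm
  exact le_of_tendsto' h1 (fun n => (c.ap_spec (by linarith) n).2.1)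

theorem A_norm {v : E} (hv : ‖v‖ ≤ 1 / 5) : ‖c.A v‖ ≤ 101 / 100 * ‖v‖ := by
  have h1 : Tendsto (fun n => ‖c.ap n v‖) atTop (𝓝 ‖c.A v‖) := (c.tendsto_ap hv).norm
  exact le_of_tendsto' h1 (fun n => (c.ap_spec (by linarith) n).2.2)

theorem A_zero : c.A 0 = 0 := by
  have := c.A_sub (v := 0) (by simp)
  simpa using this

theorem A_lip {v w : E} (hv : ‖v‖ ≤ 1 / 5) (hw : ‖w‖ ≤ 1 / 5) :
    ‖(c.A w - c.A v) - (w - v)‖ ≤ ‖w - v‖ * (‖v‖ + ‖w‖) / 16 := by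
  have h1 : Tendsto (fun n => ‖(c.ap n w - c.ap n v) - (w - v)‖) atTop
      (𝓝 ‖(c.A w - c.A v) - (w - v)‖) :=
    (((c.tendsto_ap hw).sub (c.tendsto_ap hv)).sub_const (w - v)).norm
  refine le_of_tendsto' h1 (fun n => ?_)
  obtain ⟨a1, -, a3⟩ := c.ap_spec (v := v) (by linarith) n
  obtain ⟨b1, -, b3⟩ := c.ap_spec (v := w) (by linarith) n
  have hnv := norm_half n v
  have hnw := norm_half n w
  have key := c.pow_coord_diff (2 ^ n) (by rw [hnv]; linarith) (by rw [hnw]; linarith)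
    (by linarith) (by linarith) a1 b1
  have e1 : ((2 : ℝ) ^ n)⁻¹ • w - ((2 : ℝ) ^ n)⁻¹ • v = ((2 : ℝ) ^ n)⁻¹ • (w - v) := by
    rw [smul_sub]
  rw [e1, norm_half n (w - v), mul_add, hnv, hnw] at key
  have e2 : (((2 ^ n : ℕ) : ℝ)) • ((2 : ℝ) ^ n)⁻¹ • (w - v) = w - v := by
    push_cast
    exact smul_inv_smul₀ (by positivity) _
  rwa [e2] at key

theorem A_inj {v w : E} (hv : ‖v‖ ≤ 1 / 5) (hw : ‖w‖ ≤ 1 / 5) (h : c.A v = c.A w) : v = w := by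
  have := c.A_lip hv hw
  rw [h, sub_self, zero_sub, norm_neg] at this
  have h0 := norm_nonneg (w - v)
  have : ‖w - v‖ = 0 := by nlinarith [norm_nonneg v, norm_nonneg w]
  exact (sub_eq_zero.1 (norm_eq_zero.1 this)).symm

theorem A_continuousOn : ContinuousOn c.A (closedBall 0 (1 / 5)) := by
  have : LipschitzOnWith 2 c.A (closedBall 0 (1 / 5)) := by
    refine LipschitzOnWith.of_dist_le_mul ?_
    intro v hv w hw
    rw [mem_closedBall_zero_iff] at hv hw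
    rw [dist_eq_norm, dist_eq_norm]
    have h1 := c.A_lip hw hv
    have h2 : ‖c.A v - c.A w‖ ≤ ‖(c.A v - c.A w) - (v - w)‖ + ‖v - w‖ := by
      calc _ = ‖((c.A v - c.A w) - (v - w)) + (v - w)‖ := by rw [sub_add_cancel]
        _ ≤ _ := norm_add_le _ _
    have h0 := norm_nonneg (v - w)
    have h3 : ‖v - w‖ * (‖w‖ + ‖v‖) ≤ ‖v - w‖ * 1 := mul_le_mul_of_nonneg_left (by linarith) h0
    simp only [NNReal.coe_ofNat]
    linarith
  exact this.continuousOn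

theorem A_strict : HasStrictFDerivAt c.A ((ContinuousLinearEquiv.refl ℝ E : E ≃L[ℝ] E) : E →L[ℝ] E) 0 := by
  rw [hasStrictFDerivAt_iff_isLittleO, Asymptotics.isLittleO_iff]
  intro ε hε
  have hev : ∀ᶠ p : E × E in 𝓝 (0, 0), ‖p.1‖ ≤ min (1 / 5) ε ∧ ‖p.2‖ ≤ min (1 / 5) ε := by
    have hm : (0 : ℝ) < min (1 / 5) ε := by positivity
    have h1 : ∀ᶠ p : E × E in 𝓝 (0, 0), ‖p.1‖ < min (1 / 5) ε := by
      have : Continuous (fun p : E × E => ‖p.1‖) := by fun_prop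
      exact this.tendsto (0, 0) |>.eventually (gt_mem_nhds (by simpa using hm))
    have h2 : ∀ᶠ p : E × E in 𝓝 (0, 0), ‖p.2‖ < min (1 / 5) ε := by
      have : Continuous (fun p : E × E => ‖p.2‖) := by fun_prop
      exact this.tendsto (0, 0) |>.eventually (gt_mem_nhds (by simpa using hm))
    filter_upwards [h1, h2] with p hp1 hp2
    exact ⟨hp1.le, hp2.le⟩
  filter_upwards [hev] with p hp
  have h1 := c.A_lip (hp.2.trans (min_le_left _ _)) (hp.1.trans (min_le_left _ _))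
  have h2 := hp.1.trans (min_le_right _ _)
  have h3 := hp.2.trans (min_le_right _ _)
  have h0 := norm_nonneg (p.1 - p.2)
  have h4 : ‖p.1 - p.2‖ * (‖p.2‖ + ‖p.1‖) ≤ ‖p.1 - p.2‖ * (2 * ε) :=
    mul_le_mul_of_nonneg_left (by linarith) h0
  simp only [ContinuousLinearEquiv.coe_coe, ContinuousLinearEquiv.refl_apply]
  nlinarith

theorem A_map_nhds : Filter.map c.A (𝓝 0) = 𝓝 0 := by
  have := c.A_strict.map_nhds_eq_of_equiv
  rwa [c.A_zero] at this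

end C11

end Pool.Agent.H72.ProLie
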