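import Pool.Agent.H72.ProLie.ExpMap

open Filter Topology Set Metric
open scoped Manifold ContDiff

namespace Pool.Agent.H72.ProLie

/-- Normalised exponential data of a topological group: a continuous map `exp : E → G` which is a
one-parameter group on every line, a local homeomorphism at `0`, and satisfies a `C^{1,1}`
estimate for the product. -/
structure ExpData (G : Type*) [Group G] [TopologicalSpace G] (E : Type*) [NormedAddCommGroup E]
    [NormedSpace ℝ E] where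
  /-- the exponential map -/
  exp : E → G
  exp_add : ∀ (s t : ℝ) (v : E), exp ((s + t) • v) = exp (s • v) * exp (t • v)
  cont : Continuous exp
  inj : Set.InjOn exp (closedBall 0 9)
  nhds : Filter.map exp (𝓝 0) = 𝓝 1
  mul : ∀ x y, ‖x‖ ≤ 4 → ‖y‖ ≤ 4 → ∃ z, ‖z - x - y‖ ≤ ‖x‖ * ‖y‖ / 100 ∧ exp x * exp y = exp z

namespace C11

variable {G : Type*} [Group G] [TopologicalSpace G] {E : Type*} [NormedAddCommGroup E]
  [NormedSpace ℝ E] (c : C11 G E) [CompleteSpace E] [IsTopologicalGroup G] [T2Space G]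

omit [CompleteSpace E] [IsTopologicalGroup G] [T2Space G] in
theorem cont_at {x : E} (hx : ‖x‖ < 9) : ContinuousAt c.e x := by
  refine c.cont.continuousAt ?_
  exact mem_of_superset (isOpen_ball.mem_nhds (mem_ball_zero_iff.2 hx)) ball_subset_closedBall

/-- local exponential -/
noncomputable def E0 (v : E) : G := c.e (c.A v)

omit [IsTopologicalGroup G] [T2Space G] in
theorem E0_zero : c.E0 0 = 1 := by rw [E0, c.A_zero, c.zero]

omit [IsTopologicalGroup G] [T2Space G] in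
theorem E0_cont : ContinuousOn c.E0 (closedBall 0 (1 / 5)) := by
  refine c.cont.comp c.A_continuousOn ?_
  intro x hx
  rw [mem_closedBall_zero_iff] at *
  have := c.A_norm hx
  linarith

omit [IsTopologicalGroup G] [T2Space G] in
theorem tendsto_pow {v : E} (hv : ‖v‖ ≤ 1 / 5) (z : ℕ → E)
    (hz : ∀ n, ((2 ^ n : ℕ) : ℝ) * ‖z n‖ ≤ 1 / 4)
    (h : Tendsto (fun n => ((2 ^ n : ℕ) : ℝ) * ‖z n - ((2 : ℝ) ^ n)⁻¹ • v‖) atTop (𝓝 0)) :
    Tendsto (fun n => c.e (z n) ^ (2 ^ n)) atTop (𝓝 (c.E0 v)) := by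
  have h1 : ∀ n, ∃ b, c.e (z n) ^ (2 ^ n) = c.e b ∧ ‖b‖ ≤ 1 := by
    intro n
    obtain ⟨b, hb1, -, hb3⟩ := c.pow_ex (x := z n) (2 ^ n) (by linarith [hz n])
    exact ⟨b, hb1, by linarith [hz n]⟩
  choose b hb1 hb2 using h1
  have hb : Tendsto b atTop (𝓝 (c.A v)) := by
    have h2 : Tendsto (fun n => b n - c.ap n v) atTop (𝓝 0) := by
      rw [tendsto_zero_iff_norm_tendsto_zero]
      refine squeeze_zero (fun n => norm_nonneg _)
        (g := fun n => 2 * (((2 ^ n : ℕ) : ℝ) * ‖z n - ((2 : ℝ) ^ n)⁻¹ • v‖)) ?_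
        (by simpa using h.const_mul 2)
      intro n
      obtain ⟨a1, -, a3⟩ := c.ap_spec (v := v) (by linarith) n
      have hnv := norm_half n v
      have key := c.pow_coord_diff (2 ^ n) (by rw [hnv]; linarith) (hz n)
        (by linarith) (hb2 n) a1 (hb1 n)
      set N : ℝ := ((2 ^ n : ℕ) : ℝ) with hN
      have hN0 : 0 ≤ N := Nat.cast_nonneg _
      set x := ((2 : ℝ) ^ n)⁻¹ • v with hx
      have e : b n - c.ap n v = ((b n - c.ap n v) - N • (z n - x)) + N • (z n - x) := by abel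
      rw [e]
      refine (norm_add_le _ _).trans ?_
      rw [norm_smul, Real.norm_of_nonneg hN0]
      have h7 : N * (‖x‖ + ‖z n‖) ≤ 1 := by rw [mul_add, hnv]; linarith [hz n]
      have h8 : N * ‖z n - x‖ * (N * (‖x‖ + ‖z n‖)) ≤ N * ‖z n - x‖ * 1 :=
        mul_le_mul_of_nonneg_left h7 (by positivity)
      have h9 : 0 ≤ N * ‖z n - x‖ := by positivity
      linarith
    have h3 := h2.add (c.tendsto_ap hv)
    simpa using h3
  have h4 : (fun n => c.e (z n) ^ (2 ^ n)) = fun n => c.e (b n) := funext hb1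
  rw [h4]
  have h5 : ‖c.A v‖ < 9 := by have := c.A_norm hv; linarith
  exact (c.cont_at h5).tendsto.comp hb

omit [IsTopologicalGroup G] [T2Space G] in
theorem tendsto_ap_pow {v : E} (hv : ‖v‖ ≤ 1 / 5) :
    Tendsto (fun n => c.e (((2 : ℝ) ^ n)⁻¹ • v) ^ (2 ^ n)) atTop (𝓝 (c.E0 v)) := by
  refine c.tendsto_pow hv _ ?_ ?_
  · intro n; rw [norm_half]; linarith
  · simp

theorem two_pow_inv_tendsto (a : ℝ) : Tendsto (fun n : ℕ => a * ((2 : ℝ) ^ n)⁻¹) atTop (𝓝 0) := by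
  have h := tendsto_pow_atTop_nhds_zero_of_lt_one (r := (1 / 2 : ℝ)) (by norm_num) (by norm_num)
  have := h.const_mul a
  simpa [one_div, inv_pow] using this

theorem E0_nsmul {v : E} (k : ℕ) (hk : k * ‖v‖ ≤ 1 / 5) : c.E0 ((k : ℝ) • v) = c.E0 v ^ k := by
  rcases Nat.eq_zero_or_pos k with h0 | hpos
  · subst h0; simp [c.E0_zero]
  have hk1 : (1 : ℝ) ≤ k := by exact_mod_cast hpos
  have hv0 := norm_nonneg v
  have hv : ‖v‖ ≤ 1 / 5 := by nlinarith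
  have hkv : ‖(k : ℝ) • v‖ ≤ 1 / 5 := by
    rw [norm_smul, Real.norm_of_nonneg (by linarith)]; exact hk
  have hx : ∀ n : ℕ, k * ‖((2 : ℝ) ^ n)⁻¹ • v‖ = (k * ‖v‖) * ((2 : ℝ) ^ n)⁻¹ := by
    intro n
    rw [norm_smul, norm_inv, Real.norm_of_nonneg (by positivity)]; ring
  have hle : ∀ n : ℕ, ((2 : ℝ) ^ n)⁻¹ ≤ 1 := by
    intro n
    exact inv_le_one_of_one_le₀ (one_le_pow₀ (by norm_num))
  have h1 : ∀ n : ℕ, ∃ z, c.e (((2 : ℝ) ^ n)⁻¹ • v) ^ k = c.e z ∧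
      ‖z - (k : ℝ) • ((2 : ℝ) ^ n)⁻¹ • v‖ ≤ ((k * ‖v‖) * ((2 : ℝ) ^ n)⁻¹) ^ 2 / 100 ∧
      ‖z‖ ≤ 101 / 100 * ((k * ‖v‖) * ((2 : ℝ) ^ n)⁻¹) := by
    intro n
    have hh : (k : ℝ) * ‖((2 : ℝ) ^ n)⁻¹ • v‖ ≤ 1 := by
      rw [hx]
      have := hle n
      have h0 : 0 < ((2 : ℝ) ^ n)⁻¹ := by positivity
      nlinarith
    obtain ⟨z, h1, h2, h3⟩ := c.pow_ex k hh
    rw [hx] at h2 h3
    exact ⟨z, h1, h2, h3⟩
  choose z hz1 hz2 hz3 using h1
  have hN : ∀ n : ℕ, ((2 ^ n : ℕ) : ℝ) * ((2 : ℝ) ^ n)⁻¹ = 1 := by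
    intro n; push_cast; exact mul_inv_cancel₀ (by positivity)
  have ha : Tendsto (fun n => c.e (z n) ^ (2 ^ n)) atTop (𝓝 (c.E0 ((k : ℝ) • v))) := by
    refine c.tendsto_pow hkv z ?_ ?_
    · intro n
      have h2 := mul_le_mul_of_nonneg_left (hz3 n) (Nat.cast_nonneg (α := ℝ) (2 ^ n))
      have h3 : ((2 ^ n : ℕ) : ℝ) * (101 / 100 * ((k * ‖v‖) * ((2 : ℝ) ^ n)⁻¹)) =
          101 / 100 * (k * ‖v‖) := by
        calc _ = 101 / 100 * (k * ‖v‖) * (((2 ^ n : ℕ) : ℝ) * ((2 : ℝ) ^ n)⁻¹) := by ring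
          _ = _ := by rw [hN, mul_one]
      rw [h3] at h2
      linarith
    · refine squeeze_zero (fun n => by positivity) ?_
        (two_pow_inv_tendsto ((k * ‖v‖) ^ 2 / 100))
      intro n
      have e1 : ((2 : ℝ) ^ n)⁻¹ • (k : ℝ) • v = (k : ℝ) • ((2 : ℝ) ^ n)⁻¹ • v := smul_comm _ _ _
      rw [e1]
      have h2 := mul_le_mul_of_nonneg_left (hz2 n) (Nat.cast_nonneg (α := ℝ) (2 ^ n))
      refine h2.trans (le_of_eq ?_)
      calc _ = (k * ‖v‖) ^ 2 / 100 * (((2 ^ n : ℕ) : ℝ) * ((2 : ℝ) ^ n)⁻¹) * ((2 : ℝ) ^ n)⁻¹ := by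
            ring
        _ = _ := by rw [hN, mul_one]
  have hb : Tendsto (fun n => c.e (z n) ^ (2 ^ n)) atTop (𝓝 (c.E0 v ^ k)) := by
    have := (c.tendsto_ap_pow hv).pow k
    refine this.congr (fun n => ?_)
    rw [← hz1, ← pow_mul, ← pow_mul, mul_comm]
  exact tendsto_nhds_unique ha hb

theorem E0_neg {v : E} (hv : ‖v‖ ≤ 1 / 5) : c.E0 (-v) = (c.E0 v)⁻¹ := by
  have hv0 := norm_nonneg v
  have hx : ∀ n : ℕ, ‖((2 : ℝ) ^ n)⁻¹ • v‖ = ‖v‖ * ((2 : ℝ) ^ n)⁻¹ := by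
    intro n
    rw [norm_smul, norm_inv, Real.norm_of_nonneg (by positivity)]; ring
  have hle : ∀ n : ℕ, ((2 : ℝ) ^ n)⁻¹ ≤ 1 := by
    intro n
    exact inv_le_one_of_one_le₀ (one_le_pow₀ (by norm_num))
  have h1 : ∀ n : ℕ, ∃ z, c.e z = (c.e (((2 : ℝ) ^ n)⁻¹ • v))⁻¹ ∧
      ‖z + ((2 : ℝ) ^ n)⁻¹ • v‖ ≤ (‖v‖ * ((2 : ℝ) ^ n)⁻¹) ^ 2 / 90 ∧
      ‖z‖ ≤ 104 / 100 * (‖v‖ * ((2 : ℝ) ^ n)⁻¹) := by
    intro n
    have hh : ‖((2 : ℝ) ^ n)⁻¹ • v‖ ≤ 3 := by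
      rw [hx]
      have := hle n
      have h0 : 0 < ((2 : ℝ) ^ n)⁻¹ := by positivity
      nlinarith
    obtain ⟨z, h1, h2, h3⟩ := c.inv_ex hh
    rw [hx] at h2 h3
    exact ⟨z, h1, h2, h3⟩
  choose z hz1 hz2 hz3 using h1
  have hN : ∀ n : ℕ, ((2 ^ n : ℕ) : ℝ) * ((2 : ℝ) ^ n)⁻¹ = 1 := by
    intro n; push_cast; exact mul_inv_cancel₀ (by positivity)
  have ha : Tendsto (fun n => c.e (z n) ^ (2 ^ n)) atTop (𝓝 (c.E0 (-v))) := by
    refine c.tendsto_pow (by rw [norm_neg]; exact hv) z ?_ ?_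
    · intro n
      have h2 := mul_le_mul_of_nonneg_left (hz3 n) (Nat.cast_nonneg (α := ℝ) (2 ^ n))
      have h3 : ((2 ^ n : ℕ) : ℝ) * (104 / 100 * (‖v‖ * ((2 : ℝ) ^ n)⁻¹)) =
          104 / 100 * ‖v‖ := by
        calc _ = 104 / 100 * ‖v‖ * (((2 ^ n : ℕ) : ℝ) * ((2 : ℝ) ^ n)⁻¹) := by ring
          _ = _ := by rw [hN, mul_one]
      rw [h3] at h2
      linarith
    · refine squeeze_zero (fun n => by positivity) ?_
        (two_pow_inv_tendsto (‖v‖ ^ 2 / 90))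
      intro n
      have e1 : z n - ((2 : ℝ) ^ n)⁻¹ • (-v) = z n + ((2 : ℝ) ^ n)⁻¹ • v := by
        rw [smul_neg, sub_neg_eq_add]
      rw [e1]
      have h2 := mul_le_mul_of_nonneg_left (hz2 n) (Nat.cast_nonneg (α := ℝ) (2 ^ n))
      refine h2.trans (le_of_eq ?_)
      calc _ = ‖v‖ ^ 2 / 90 * (((2 ^ n : ℕ) : ℝ) * ((2 : ℝ) ^ n)⁻¹) * ((2 : ℝ) ^ n)⁻¹ := by
            ring
        _ = _ := by rw [hN, mul_one]
  have hb : Tendsto (fun n => c.e (z n) ^ (2 ^ n)) atTop (𝓝 (c.E0 v)⁻¹) := by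
    have := (c.tendsto_ap_pow hv).inv
    refine this.congr (fun n => ?_)
    rw [hz1, inv_pow]
  exact tendsto_nhds_unique ha hb

theorem E0_add_nonneg {v : E} {s t : ℝ} (hs : 0 ≤ s) (ht : 0 ≤ t) (h : (s + t) * ‖v‖ ≤ 1 / 5) :
    c.E0 ((s + t) • v) = c.E0 (s • v) * c.E0 (t • v) := by
  have hv0 := norm_nonneg v
  have lim : ∀ a : ℝ, 0 ≤ a → Tendsto (fun q : ℕ => ((⌊a * (q : ℝ)⌋₊ : ℝ) / (q : ℝ))) atTop (𝓝 a) := by
    intro a ha
    exact (tendsto_nat_floor_mul_div_atTop ha).comp tendsto_natCast_atTop_atTop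
  have hfl : ∀ (a : ℝ), 0 ≤ a → ∀ q : ℕ, ((⌊a * (q : ℝ)⌋₊ : ℝ) / (q : ℝ)) ≤ a := by
    intro a ha q
    rcases Nat.eq_zero_or_pos q with h0 | h0
    · subst h0; simpa using ha
    · rw [div_le_iff₀ (by exact_mod_cast h0)]
      exact Nat.floor_le (by positivity)
  have tE : ∀ (f : ℕ → ℝ) (a : ℝ), Tendsto f atTop (𝓝 a) → (∀ q, 0 ≤ f q) → (∀ q, f q ≤ a) →
      a * ‖v‖ ≤ 1 / 5 → Tendsto (fun q => c.E0 (f q • v)) atTop (𝓝 (c.E0 (a • v))) := by
    intro f a hf h0 h1 h2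
    have ha : 0 ≤ a := (h0 0).trans (h1 0)
    have hmem : a • v ∈ closedBall (0 : E) (1 / 5) := by
      rw [mem_closedBall_zero_iff, norm_smul, Real.norm_of_nonneg ha]; exact h2
    refine (c.E0_cont _ hmem).tendsto.comp ?_
    rw [tendsto_nhdsWithin_iff]
    refine ⟨hf.smul_const v, Eventually.of_forall (fun q => ?_)⟩
    rw [mem_closedBall_zero_iff, norm_smul, Real.norm_of_nonneg (h0 q)]
    exact (mul_le_mul_of_nonneg_right (h1 q) hv0).trans h2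
  have hs1 : s * ‖v‖ ≤ 1 / 5 := by nlinarith
  have ht1 : t * ‖v‖ ≤ 1 / 5 := by nlinarith
  have T1 := tE _ s (lim s hs) (fun q => by positivity) (hfl s hs) hs1
  have T2 := tE _ t (lim t ht) (fun q => by positivity) (hfl t ht) ht1
  have T3 := tE (fun q : ℕ => ((⌊s * (q : ℝ)⌋₊ : ℝ) / (q : ℝ)) + ((⌊t * (q : ℝ)⌋₊ : ℝ) / (q : ℝ)))
    (s + t) ((lim s hs).add (lim t ht)) (fun q => by positivity)
    (fun q => add_le_add (hfl s hs q) (hfl t ht q)) h
  refine tendsto_nhds_unique T3 ((T1.mul T2).congr (fun q => ?_))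
  rcases Nat.eq_zero_or_pos q with h0 | h0
  · subst h0; simp [c.E0_zero]
  have hq : (0 : ℝ) < q := by exact_mod_cast h0
  set k := ⌊s * (q : ℝ)⌋₊ with hk
  set l := ⌊t * (q : ℝ)⌋₊ with hl
  have hkl : ((k : ℝ) / q + (l : ℝ) / q) * ‖v‖ ≤ 1 / 5 :=
    (mul_le_mul_of_nonneg_right (add_le_add (hfl s hs q) (hfl t ht q)) hv0).trans h
  set w := (q : ℝ)⁻¹ • v with hw
  have hnw : ‖w‖ = ‖v‖ / q := by
    rw [hw, norm_smul, norm_inv, Real.norm_of_nonneg hq.le]; field_simp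
  have e1 : ((k : ℝ) / q) • v = (k : ℝ) • w := by rw [hw, smul_smul]; rfl
  have e2 : ((l : ℝ) / q) • v = (l : ℝ) • w := by rw [hw, smul_smul]; rfl
  have e3 : ((k : ℝ) / q + (l : ℝ) / q) • v = ((k + l : ℕ) : ℝ) • w := by
    rw [add_smul, e1, e2, ← add_smul]; push_cast; rfl
  have hkl' : ((k : ℝ) + l) * ‖w‖ ≤ 1 / 5 := by
    rw [hnw]
    calc _ = ((k : ℝ) / q + (l : ℝ) / q) * ‖v‖ := by field_simp
      _ ≤ _ := hkl
  have hw0 := norm_nonneg w
  have hk0 : (0 : ℝ) ≤ k := Nat.cast_nonneg k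
  have hl0 : (0 : ℝ) ≤ l := Nat.cast_nonneg l
  rw [e1, e2, e3, c.E0_nsmul k (by nlinarith), c.E0_nsmul l (by nlinarith),
    c.E0_nsmul (k + l) (by push_cast; exact hkl'), pow_add]

theorem E0_add {v : E} {s t : ℝ} (hs : |s| * ‖v‖ ≤ 1 / 10) (ht : |t| * ‖v‖ ≤ 1 / 10) :
    c.E0 ((s + t) • v) = c.E0 (s • v) * c.E0 (t • v) := by
  have hv0 := norm_nonneg v
  have negl : ∀ a : ℝ, |a| * ‖v‖ ≤ 1 / 5 → c.E0 ((-a) • v) = (c.E0 (a • v))⁻¹ := by
    intro a ha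
    rw [neg_smul, c.E0_neg]
    rw [norm_smul, Real.norm_eq_abs]; exact ha
  -- nonpositive version
  have addneg : ∀ a b : ℝ, a ≤ 0 → b ≤ 0 → (-(a + b)) * ‖v‖ ≤ 1 / 5 →
      c.E0 ((a + b) • v) = c.E0 (a • v) * c.E0 (b • v) := by
    intro a b ha hb hab
    have := c.E0_add_nonneg (v := -v) (s := -a) (t := -b) (by linarith) (by linarith)
      (by rw [norm_neg]; linarith)
    have e1 : (-a + -b) • (-v) = (a + b) • v := by module
    have e2 : (-a) • (-v) = a • v := by module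
    have e3 : (-b) • (-v) = b • v := by module
    rwa [e1, e2, e3] at this
  rcases le_total 0 s with h1 | h1 <;> rcases le_total 0 t with h2 | h2
  · rw [abs_of_nonneg h1] at hs
    rw [abs_of_nonneg h2] at ht
    exact c.E0_add_nonneg h1 h2 (by linarith)
  · rw [abs_of_nonneg h1] at hs
    rw [abs_of_nonpos h2] at ht
    rcases le_total 0 (s + t) with h3 | h3
    · have := c.E0_add_nonneg (v := v) (s := s + t) (t := -t) h3 (by linarith) (by linarith)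
      rw [add_neg_cancel_right, negl t (by rw [abs_of_nonpos h2]; linarith)] at this
      rw [this, inv_mul_cancel_right]
    · have := addneg (-s) (s + t) (by linarith) h3 (by linarith)
      rw [neg_add_cancel_left, negl s (by rw [abs_of_nonneg h1]; linarith)] at this
      rw [this, mul_inv_cancel_left]
  · rw [abs_of_nonpos h1] at hs
    rw [abs_of_nonneg h2] at ht
    rcases le_total 0 (s + t) with h3 | h3
    · have := c.E0_add_nonneg (v := v) (s := -s) (t := s + t) (by linarith) h3 (by linarith)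
      rw [neg_add_cancel_left, negl s (by rw [abs_of_nonpos h1]; linarith)] at this
      rw [this, mul_inv_cancel_left]
    · have := addneg (s + t) (-t) h3 (by linarith) (by linarith)
      rw [add_neg_cancel_right, negl t (by rw [abs_of_nonneg h2]; linarith)] at this
      rw [this, inv_mul_cancel_right]
  · rw [abs_of_nonpos h1] at hs
    rw [abs_of_nonpos h2] at ht
    exact addneg s t h1 h2 (by linarith)

/-- the global exponential -/
noncomputable def gexp (v : E) : G :=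
  c.E0 (((⌈5 * ‖v‖⌉₊ + 1 : ℕ) : ℝ)⁻¹ • v) ^ (⌈5 * ‖v‖⌉₊ + 1)

theorem E0_pow_eq {v : E} {m n : ℕ} (hm : 0 < m) (hn : 0 < n) (h : ‖v‖ ≤ m / 5) :
    c.E0 ((m : ℝ)⁻¹ • v) ^ m = c.E0 (((m * n : ℕ) : ℝ)⁻¹ • v) ^ (m * n) := by
  have hm' : (0 : ℝ) < m := by exact_mod_cast hm
  have hn' : (0 : ℝ) < n := by exact_mod_cast hn
  have e : (m : ℝ)⁻¹ • v = (n : ℝ) • ((m * n : ℕ) : ℝ)⁻¹ • v := by
    rw [smul_smul]; congr 1; push_cast; field_simp
  have hb : (n : ℝ) * ‖((m * n : ℕ) : ℝ)⁻¹ • v‖ ≤ 1 / 5 := by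
    rw [norm_smul, norm_inv, Real.norm_of_nonneg (by positivity)]
    push_cast
    have : (n : ℝ) * ((m * n : ℝ)⁻¹ * ‖v‖) = ‖v‖ / m := by field_simp
    rw [this, div_le_iff₀ hm']; linarith
  rw [e, c.E0_nsmul n hb, ← pow_mul, mul_comm n m]

theorem gexp_eq {v : E} {m : ℕ} (hm : 0 < m) (h : ‖v‖ ≤ m / 5) :
    c.gexp v = c.E0 ((m : ℝ)⁻¹ • v) ^ m := by
  have hN : ‖v‖ ≤ ((⌈5 * ‖v‖⌉₊ + 1 : ℕ) : ℝ) / 5 := by
    have := Nat.le_ceil (5 * ‖v‖)
    push_cast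
    linarith
  rw [gexp, c.E0_pow_eq (n := m) (Nat.succ_pos _) hm hN,
    c.E0_pow_eq (n := ⌈5 * ‖v‖⌉₊ + 1) hm (Nat.succ_pos _) h, mul_comm m]

theorem gexp_local {v : E} (h : ‖v‖ ≤ 1 / 5) : c.gexp v = c.E0 v := by
  rw [c.gexp_eq (m := 1) one_pos (by simpa using h)]; simp

theorem gexp_add (s t : ℝ) (v : E) : c.gexp ((s + t) • v) = c.gexp (s • v) * c.gexp (t • v) := by
  obtain ⟨m, hm⟩ := exists_nat_gt (10 * ((|s| + |t|) * ‖v‖))
  have hv0 := norm_nonneg v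
  have hs0 := abs_nonneg s
  have ht0 := abs_nonneg t
  have h0 : 0 ≤ 10 * ((|s| + |t|) * ‖v‖) := by positivity
  have hm' : (0 : ℝ) < m := by linarith
  have hm0 : 0 < m := by exact_mod_cast hm'
  have hsv : |s| * ‖v‖ ≤ m / 10 := by nlinarith
  have htv : |t| * ‖v‖ ≤ m / 10 := by nlinarith
  have hstv : |s + t| * ‖v‖ ≤ m / 5 := by
    have := abs_add_le s t
    nlinarith
  have nrm : ∀ a : ℝ, ‖a • v‖ = |a| * ‖v‖ := fun a => by rw [norm_smul, Real.norm_eq_abs]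
  rw [c.gexp_eq hm0 (by rw [nrm]; exact hstv), c.gexp_eq hm0 (by rw [nrm]; linarith),
    c.gexp_eq hm0 (by rw [nrm]; linarith)]
  have sm : ∀ a : ℝ, (m : ℝ)⁻¹ • a • v = (a / m) • v := by
    intro a; rw [smul_smul]; congr 1; field_simp
  have ab : ∀ a : ℝ, |a| * ‖v‖ ≤ m / 10 → |a / m| * ‖v‖ ≤ 1 / 10 := by
    intro a ha
    rw [abs_div, abs_of_pos hm']
    have : |a| / m * ‖v‖ = (|a| * ‖v‖) / m := by ring
    rw [this, div_le_iff₀ hm']
    linarith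
  rw [sm, sm, sm, add_div, c.E0_add (ab s hsv) (ab t htv)]
  have hc : Commute (c.E0 ((s / m) • v)) (c.E0 ((t / m) • v)) := by
    show _ * _ = _ * _
    rw [← c.E0_add (ab s hsv) (ab t htv), ← c.E0_add (ab t htv) (ab s hsv), add_comm]
  exact hc.mul_pow m

theorem gexp_cont : Continuous c.gexp := by
  rw [continuous_iff_continuousAt]
  intro v0
  obtain ⟨m, hm⟩ := exists_nat_gt (5 * (‖v0‖ + 1))
  have hv0 := norm_nonneg v0
  have hm' : (0 : ℝ) < m := by linarith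
  have hm0 : 0 < m := by exact_mod_cast hm'
  have hev : ∀ᶠ v in 𝓝 v0, c.E0 ((m : ℝ)⁻¹ • v) ^ m = c.gexp v := by
    have : ∀ᶠ v in 𝓝 v0, ‖v‖ < ‖v0‖ + 1 :=
      (continuous_norm.tendsto v0).eventually (gt_mem_nhds (by linarith))
    filter_upwards [this] with v hv
    rw [c.gexp_eq hm0 (by linarith)]
  refine ContinuousAt.congr ?_ hev
  refine ContinuousAt.pow ?_ m
  have h1 : ContinuousAt c.E0 ((m : ℝ)⁻¹ • v0) := by
    refine c.E0_cont.continuousAt ?_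
    have hmem : (m : ℝ)⁻¹ • v0 ∈ ball (0 : E) (1 / 5) := ?_
    · exact mem_of_superset (isOpen_ball.mem_nhds hmem) ball_subset_closedBall
    rw [mem_ball_zero_iff, norm_smul, norm_inv, Real.norm_of_nonneg hm'.le, inv_mul_lt_iff₀ hm']
    linarith
  exact ContinuousAt.comp (g := c.E0) h1 (by fun_prop)

theorem gexp_mul : ∃ ρ > 0, ρ ≤ 1 / 10 ∧ ∀ x y : E, ‖x‖ ≤ ρ → ‖y‖ ≤ ρ →
    ∃ z, ‖z‖ ≤ 1 / 5 ∧ ‖z - x - y‖ ≤ ‖x‖ * ‖y‖ ∧ c.gexp x * c.gexp y = c.gexp z := by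
  have h1 : c.A '' ball 0 (1 / 5) ∈ 𝓝 (0 : E) := by
    rw [← c.A_map_nhds]
    exact image_mem_map (ball_mem_nhds _ (by norm_num))
  obtain ⟨r, hr, hrb⟩ := Metric.mem_nhds_iff.1 h1
  refine ⟨min (r / 4) (1 / 20), by positivity, (min_le_right _ _).trans (by norm_num), ?_⟩
  intro x y hx hy
  have hx1 : ‖x‖ ≤ r / 4 := hx.trans (min_le_left _ _)
  have hx2 : ‖x‖ ≤ 1 / 20 := hx.trans (min_le_right _ _)
  have hy1 : ‖y‖ ≤ r / 4 := hy.trans (min_le_left _ _)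
  have hy2 : ‖y‖ ≤ 1 / 20 := hy.trans (min_le_right _ _)
  have hx0 := norm_nonneg x
  have hy0 := norm_nonneg y
  have hAx := c.A_norm (v := x) (by linarith)
  have hAy := c.A_norm (v := y) (by linarith)
  have hAx0 := norm_nonneg (c.A x)
  have hAy0 := norm_nonneg (c.A y)
  obtain ⟨z', hz1, hz2, hz3⟩ := c.mul_ex (x := c.A x) (y := c.A y) (by linarith) (by linarith)
  have hz4 : ‖z'‖ < r := by
    have : ‖c.A x‖ * ‖c.A y‖ ≤ 1 * ‖c.A y‖ := mul_le_mul_of_nonneg_right (by linarith) hAy0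
    have hr' : 0 < r := hr
    linarith
  obtain ⟨z, hz5, hz6⟩ := hrb (mem_ball_zero_iff.2 hz4)
  rw [mem_ball_zero_iff] at hz5
  refine ⟨z, hz5.le, ?_, ?_⟩
  · have hxy : ‖x + y‖ ≤ 1 / 10 := (norm_add_le _ _).trans (by linarith)
    have l1 := c.A_lip (v := x + y) (w := z) (by linarith) hz5.le
    have hzn := norm_nonneg (z - (x + y))
    have l2 : ‖z - (x + y)‖ * (‖x + y‖ + ‖z‖) ≤ ‖z - (x + y)‖ * (3 / 10) :=
      mul_le_mul_of_nonneg_left (by linarith) hzn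
    have l3 : ‖z - (x + y)‖ ≤ ‖c.A z - c.A (x + y)‖ +
        ‖(c.A z - c.A (x + y)) - (z - (x + y))‖ := by
      calc _ = ‖(c.A z - c.A (x + y)) - ((c.A z - c.A (x + y)) - (z - (x + y)))‖ := by
            rw [sub_sub_cancel]
        _ ≤ _ := norm_sub_le _ _
    have main : ∀ a b : E, ‖a‖ ≤ ‖b‖ → ‖a‖ ≤ 1 / 20 → ‖b‖ ≤ 1 / 20 →
        ‖c.A (a + b) - c.A a - c.A b‖ ≤ ‖a‖ * ‖b‖ / 4 := by
      intro a b hab ha hb
      have ha0 := norm_nonneg a
      have hb0 := norm_nonneg b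
      have hab' : ‖a + b‖ ≤ ‖a‖ + ‖b‖ := norm_add_le _ _
      have m1 := c.A_lip (v := b) (w := a + b) (by linarith) (by linarith)
      have m2 := c.A_sub (v := a) (by linarith)
      have e : c.A (a + b) - c.A a - c.A b =
          ((c.A (a + b) - c.A b) - (a + b - b)) - (c.A a - a) := by
        rw [add_sub_cancel_right]; abel
      rw [e]
      refine (norm_sub_le _ _).trans ?_
      rw [add_sub_cancel_right] at m1 ⊢
      have m3 : ‖a‖ * (‖b‖ + ‖a + b‖) ≤ ‖a‖ * (3 * ‖b‖) :=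
        mul_le_mul_of_nonneg_left (by linarith) ha0
      have m4 : ‖a‖ * ‖a‖ ≤ ‖a‖ * ‖b‖ := mul_le_mul_of_nonneg_left hab ha0
      nlinarith
    have l4 : ‖c.A (x + y) - c.A x - c.A y‖ ≤ ‖x‖ * ‖y‖ / 4 := by
      rcases le_total ‖x‖ ‖y‖ with h | h
      · exact main x y h hx2 hy2
      · have := main y x h hy2 hx2
        rw [add_comm y x] at this
        have e : c.A (x + y) - c.A y - c.A x = c.A (x + y) - c.A x - c.A y := by abel
        rw [e] at this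
        linarith
    have l5 : ‖c.A z - c.A (x + y)‖ ≤ ‖c.A x‖ * ‖c.A y‖ / 100 + ‖x‖ * ‖y‖ / 4 := by
      have e : c.A z - c.A (x + y) = (z' - c.A x - c.A y) - (c.A (x + y) - c.A x - c.A y) := by
        rw [hz6]; abel
      rw [e]
      exact (norm_sub_le _ _).trans (add_le_add hz2 l4)
    have l6 : ‖c.A x‖ * ‖c.A y‖ ≤ (101 / 100 * ‖x‖) * (101 / 100 * ‖y‖) :=
      mul_le_mul hAx hAy hAy0 (by positivity)
    have e : z - x - y = z - (x + y) := by abel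
    rw [e]
    have : 0 ≤ ‖x‖ * ‖y‖ := by positivity
    linarith
  · rw [c.gexp_local (by linarith), c.gexp_local (by linarith), c.gexp_local hz5.le,
      E0, E0, E0, hz6, hz1]

include c in
theorem exists_expData : Nonempty (ExpData G E) := by
  obtain ⟨ρ, hρ, hρ1, hmul⟩ := c.gexp_mul
  set lam : ℝ := min (ρ / 4) (1 / 100) with hlam
  have hl0 : 0 < lam := by positivity
  have hl1 : lam ≤ ρ / 4 := min_le_left _ _
  have hl2 : lam ≤ 1 / 100 := min_le_right _ _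
  have nrm : ∀ x : E, ‖lam • x‖ = lam * ‖x‖ := fun x => by
    rw [norm_smul, Real.norm_of_nonneg hl0.le]
  refine ⟨⟨fun x => c.gexp (lam • x), ?_, ?_, ?_, ?_, ?_⟩⟩
  · intro s t v
    have e : ∀ a : ℝ, lam • a • v = a • lam • v := fun a => smul_comm _ _ _
    rw [e, e, e, c.gexp_add]
  · exact c.gexp_cont.comp (by fun_prop)
  · intro x hx y hy hxy
    rw [mem_closedBall_zero_iff] at hx hy
    have hx' : ‖lam • x‖ ≤ 1 / 5 := by rw [nrm]; nlinarith [norm_nonneg x]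
    have hy' : ‖lam • y‖ ≤ 1 / 5 := by rw [nrm]; nlinarith [norm_nonneg y]
    simp only at hxy
    rw [c.gexp_local hx', c.gexp_local hy', E0, E0] at hxy
    have h1 := c.A_norm hx'
    have h2 := c.A_norm hy'
    have h3 := c.inj' (by linarith) (by linarith) hxy
    exact smul_right_injective E hl0.ne' (c.A_inj hx' hy' h3)
  · have h1 : Filter.map (fun x : E => lam • x) (𝓝 0) = 𝓝 0 := by
      have := (Homeomorph.smulOfNeZero lam hl0.ne' : E ≃ₜ E).map_nhds_eq (0 : E)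
      simpa using this
    have h2 : Filter.map (fun x => c.gexp (lam • x)) (𝓝 (0 : E)) =
        Filter.map c.gexp (Filter.map (fun x : E => lam • x) (𝓝 0)) := by
      rw [Filter.map_map]; rfl
    have h3 : Filter.map c.gexp (𝓝 0) = Filter.map c.e (Filter.map c.A (𝓝 0)) := by
      rw [Filter.map_map]
      refine Filter.map_congr ?_
      filter_upwards [closedBall_mem_nhds (0 : E) (ε := 1 / 5) (by norm_num)] with x hx
      rw [mem_closedBall_zero_iff] at hx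
      exact c.gexp_local hx
    rw [h2, h1, h3, c.A_map_nhds, c.nhds]
  · intro x y hx hy
    obtain ⟨z, -, hz2, hz3⟩ := hmul (lam • x) (lam • y) (by rw [nrm]; nlinarith [norm_nonneg x])
      (by rw [nrm]; nlinarith [norm_nonneg y])
    refine ⟨lam⁻¹ • z, ?_, ?_⟩
    · have e : lam⁻¹ • z - x - y = lam⁻¹ • (z - lam • x - lam • y) := by
        rw [smul_sub, smul_sub, inv_smul_smul₀ hl0.ne', inv_smul_smul₀ hl0.ne']
      rw [e, norm_smul, norm_inv, Real.norm_of_nonneg hl0.le, inv_mul_le_iff₀ hl0]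
      rw [nrm, nrm] at hz2
      have h0 : 0 ≤ ‖x‖ * ‖y‖ := by positivity
      have h5 : lam * (‖x‖ * ‖y‖) ≤ 1 / 100 * (‖x‖ * ‖y‖) := mul_le_mul_of_nonneg_right hl2 h0
      calc _ ≤ _ := hz2
        _ = lam * (lam * (‖x‖ * ‖y‖)) := by ring
        _ ≤ lam * (1 / 100 * (‖x‖ * ‖y‖)) := mul_le_mul_of_nonneg_left h5 hl0.le
        _ = _ := by ring
    · rw [smul_inv_smul₀ hl0.ne', hz3]

end C11

/-- Every Lie group has exponential data. -/
theorem exists_expData_of_lieGroup (G : Type*) [Group G] [TopologicalSpace G] [T2Space G]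
    (E : Type*) [NormedAddCommGroup E] [NormedSpace ℝ E] [CompleteSpace E] [ChartedSpace E G]
    [LieGroup 𝓘(ℝ, E) ∞ G] : Nonempty (ExpData G E) := by
  have : IsTopologicalGroup G := topologicalGroup_of_lieGroup 𝓘(ℝ, E) ∞
  obtain ⟨c⟩ := exists_C11 G E
  exact c.exists_expData

end Pool.Agent.H72.ProLie
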