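import Pool.Agent.H72.ProLie.Sys

/-! The main theorem in coordinates. -/

set_option linter.unusedSectionVars false
set_option linter.unusedVariables false

open Filter Topology Set
open scoped commutatorElement

namespace Pool.Agent.H72.ProLie

section Final

variable {G : Type*} [Group G] [TopologicalSpace G] [IsTopologicalGroup G] [T2Space G]
  {ι : Type*} {N : ι → Subgroup G} [hNn : ∀ i, (N i).Normal] [hNc : ∀ i, IsClosed (N i : Set G)]
  {E : ι → Type*} [∀ i, NormedAddCommGroup (E i)] [∀ i, NormedSpace ℝ (E i)]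
  [∀ i, FiniteDimensional ℝ (E i)] (D : ∀ i, ExpData (G ⧸ N i) (E i))
  (hsmall : ∀ U ∈ 𝓝 (1 : G), ∃ i, (N i : Set G) ⊆ U) (hcomp : IsCompleteGroup G)
  {h : Set (LG G)} (hh : IsClosedSubalgebra h)

/-- The family of coordinates of elements of `h`. -/
def WW : Submodule ℝ (∀ i, E i) where
  carrier := {x | ∃ X ∈ h, IsCoord D X x}
  zero_mem' := ⟨1, hh.zero, fun i t => by
    rw [Pi.zero_apply, smul_zero, (D i).exp_zero]; rfl⟩
  add_mem' := by
    rintro x y ⟨X, hX, hx⟩ ⟨Y, hY, hy⟩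
    obtain ⟨Z, hZ⟩ := exists_of_coord D hsmall hcomp (x + y) (fun i j hij T hT => by
      rw [Pi.add_apply, map_add, hx.tr D hij hT, hy.tr D hij hT, Pi.add_apply])
    exact ⟨Z, hh.add X hX Y hY Z (isSum_of_coord D hsmall hx hy hZ), hZ⟩
  smul_mem' := by
    rintro c x ⟨X, hX, hx⟩
    obtain ⟨Z, hZ⟩ := exists_of_coord D hsmall hcomp (c • x) (fun i j hij T hT => by
      rw [Pi.smul_apply, map_smul, hx.tr D hij hT, Pi.smul_apply])
    refine ⟨Z, hh.smul c X hX Z (fun t => ?_), hZ⟩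
    refine eq_of_quot (N := N) hsmall (fun i => ?_)
    rw [hZ i t, hx i (c * t), Pi.smul_apply, smul_smul, mul_comm]


theorem mem_W {x : ∀ i, E i} : x ∈ (WW D hsmall hcomp hh) ↔ ∃ X ∈ h, IsCoord D X x := Iff.rfl

theorem W_tr {x : ∀ i, E i} (hx : x ∈ (WW D hsmall hcomp hh)) {i j : ι} (hij : N i ≤ N j) {T : E i →L[ℝ] E j}
    (hT : IsTr D hij T) : T (x i) = x j := by
  obtain ⟨X, -, hX⟩ := hx
  exact hX.tr D hij hT

theorem W_fin (x : ∀ i, E i) (hx : ∀ F : Finset ι, ∃ y ∈ (WW D hsmall hcomp hh), ∀ i ∈ F, y i = x i) : x ∈ (WW D hsmall hcomp hh) := by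
  classical
  obtain ⟨X, hX⟩ := exists_of_coord D hsmall hcomp x (fun i j hij T hT => by
    obtain ⟨y, hy, hy'⟩ := hx {i, j}
    rw [← hy' i (by simp), ← hy' j (by simp)]
    exact W_tr D hsmall hcomp hh hy hij hT)
  refine ⟨X, ?_, hX⟩
  refine mem_of_closed (N := N) hsmall h hh.closed X (fun i => ?_)
  obtain ⟨y, ⟨Y, hY, hYy⟩, hy⟩ := hx {i}
  refine ⟨Y, hY, fun t => ?_⟩
  have e1 := hYy i t.toAdd
  have e2 := hX i t.toAdd
  rw [hy i (by simp)] at e1
  show ((Y.at t.toAdd : G) : G ⧸ N i) = ((X.at t.toAdd : G) : G ⧸ N i)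
  rw [e1, e2]

theorem W_br (x : ∀ i, E i) (hx : x ∈ (WW D hsmall hcomp hh)) (y : ∀ i, E i) (hy : y ∈ (WW D hsmall hcomp hh)) :
    (fun i => (D i).br (x i) (y i)) ∈ (WW D hsmall hcomp hh) := by
  obtain ⟨X, hX, hXx⟩ := hx
  obtain ⟨Y, hY, hYy⟩ := hy
  obtain ⟨Z, hZ⟩ := exists_of_coord D hsmall hcomp (fun i => (D i).br (x i) (y i))
    (fun i j hij T hT => by rw [ExpData.dmap_br hT, hXx.tr D hij hT, hYy.tr D hij hT])
  exact ⟨Z, hh.bracket X hX Y hY Z (isBracket_of_coord D hsmall hXx hYy hZ), hZ⟩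

/-- The Lie algebra at level `i`. -/
def hi (i : ι) : Submodule ℝ (E i) := (WW D hsmall hcomp hh).map (LinearMap.proj i)


theorem mem_hi {i : ι} {x : E i} : x ∈ hi D hsmall hcomp hh i ↔ ∃ w ∈ (WW D hsmall hcomp hh), w i = x := Iff.rfl

theorem hi_br (i : ι) : ∀ x ∈ hi D hsmall hcomp hh i, ∀ y ∈ hi D hsmall hcomp hh i, (D i).br x y ∈ hi D hsmall hcomp hh i := by
  rintro _ ⟨x, hx, rfl⟩ _ ⟨y, hy, rfl⟩
  exact ⟨_, W_br D hsmall hcomp hh x hx y hy, rfl⟩

theorem hi_map {i j : ι} (hij : N i ≤ N j) {T : E i →L[ℝ] E j} (hT : IsTr D hij T) :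
    (hi D hsmall hcomp hh i).map (T : E i →ₗ[ℝ] E j) = hi D hsmall hcomp hh j := by
  ext y
  constructor
  · rintro ⟨_, ⟨x, hx, rfl⟩, rfl⟩
    exact ⟨x, hx, (W_tr D hsmall hcomp hh hx hij hT).symm⟩
  · rintro ⟨x, hx, rfl⟩
    exact ⟨x i, ⟨x, hx, rfl⟩, W_tr D hsmall hcomp hh hx hij hT⟩

include D hsmall in
theorem exists_lower (F : Finset ι) : ∃ k, ∀ i ∈ F, N k ≤ N i := by
  classical
  induction F using Finset.induction_on with
  | empty =>
    obtain ⟨k, -⟩ := hsmall univ univ_mem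
    exact ⟨k, by simp⟩
  | insert a F _ ih =>
    obtain ⟨k, hk⟩ := ih
    obtain ⟨l, h1, h2⟩ := directed D hsmall k a
    refine ⟨l, fun i hi => ?_⟩
    rcases Finset.mem_insert.1 hi with rfl | hi
    · exact h2
    · exact h1.trans (hk i hi)

/-- Compatible families in the levels are in `(WW D hsmall hcomp hh)`. -/
theorem W_of_compat (x : ∀ i, E i) (hx : ∀ i, x i ∈ hi D hsmall hcomp hh i)
    (hc : ∀ i j, ∀ hij : N i ≤ N j, ∀ T : E i →L[ℝ] E j, IsTr D hij T → T (x i) = x j) :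
    x ∈ (WW D hsmall hcomp hh) := by
  refine W_fin D hsmall hcomp hh x (fun F => ?_)
  obtain ⟨k, hk⟩ := exists_lower D hsmall F
  obtain ⟨y, hy, hyk⟩ := hx k
  refine ⟨y, hy, fun i hi => ?_⟩
  obtain ⟨T, hT⟩ := exists_tr D (hk i hi)
  rw [← W_tr D hsmall hcomp hh hy (hk i hi) hT, ← hc k i (hk i hi) T hT]
  congr 1

/-- Elements of the analytic subgroup. -/
theorem at_mem {X : LG G} (hX : X ∈ h) : X.at 1 ∈ analyticSubgroup h :=
  Subgroup.subset_closure ⟨X, hX, rfl⟩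

theorem level_mem_AH {g : G} (hg : g ∈ analyticSubgroup h) (i : ι) :
    (g : G ⧸ N i) ∈ (D i).AH (hi D hsmall hcomp hh i) := by
  induction hg using Subgroup.closure_induction with
  | mem g hg =>
    obtain ⟨X, hX, rfl⟩ := hg
    obtain ⟨x, hx⟩ := exists_isCoord D X
    have := hx i 1
    rw [one_smul] at this
    rw [this]
    exact (D i).exp_mem_AH ⟨x, ⟨X, hX, hx⟩, rfl⟩
  | one => exact Subgroup.one_mem _
  | mul x y _ _ hx hy => exact Subgroup.mul_mem _ hx hy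
  | inv x _ hx => exact Subgroup.inv_mem _ hx

/-- The closure of the analytic subgroup. -/
abbrev KK (h : Set (LG G)) : Subgroup G := (analyticSubgroup h).topologicalClosure

theorem level_mem {g : G} (hg : g ∈ KK h) (i : ι) : (g : G ⧸ N i) ∈ (D i).AHc (hi D hsmall hcomp hh i) := by
  have h1 : Continuous (fun g : G => (g : G ⧸ N i)) := QuotientGroup.continuous_mk
  exact map_mem_closure h1 hg (fun g hg => level_mem_AH D hsmall hcomp hh hg i)

theorem W_Ad {g : G} (hg : g ∈ KK h) {x : ∀ i, E i} (hx : x ∈ (WW D hsmall hcomp hh)) :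
    (fun i => (D i).Ad (g : G ⧸ N i) (x i)) ∈ (WW D hsmall hcomp hh) := by
  refine W_of_compat D hsmall hcomp hh _ (fun i => ?_) (fun i j hij T hT => ?_)
  · exact (D i).Ad_stable (b := hi D hsmall hcomp hh i) (j := hi D hsmall hcomp hh i) (hi_br D hsmall hcomp hh i)
      (level_mem D hsmall hcomp hh hg i) ⟨x, hx, rfl⟩
  · rw [ExpData.dmap_Ad hT, trq_mk, W_tr D hsmall hcomp hh hx hij hT]

/-- Adjoint operators as products of exponentials. -/
theorem Ad_prod {i : ι} {g : G ⧸ N i} (hg : g ∈ (D i).AH (hi D hsmall hcomp hh i)) :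
    ∃ l : List (E i), (∀ x ∈ l, ∃ w ∈ (WW D hsmall hcomp hh), w i = x) ∧
      (D i).Ad g = (l.map (fun x => NormedSpace.exp ((D i).br x))).prod := by
  have key : (∃ l : List (E i), (∀ x ∈ l, ∃ w ∈ (WW D hsmall hcomp hh), w i = x) ∧
      (D i).Ad g = (l.map (fun x => NormedSpace.exp ((D i).br x))).prod) ∧
      (∃ l : List (E i), (∀ x ∈ l, ∃ w ∈ (WW D hsmall hcomp hh), w i = x) ∧
      (D i).Ad g⁻¹ = (l.map (fun x => NormedSpace.exp ((D i).br x))).prod) := by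
    induction hg using Subgroup.closure_induction with
    | mem g hg =>
      obtain ⟨x, ⟨w, hw, hwx⟩, rfl⟩ := hg
      refine ⟨⟨[x], ?_, ?_⟩, ⟨[-x], ?_, ?_⟩⟩
      · intro y hy
        rw [List.mem_singleton] at hy
        exact ⟨w, hw, by rw [hy]; exact hwx⟩
      · simp [(D i).Ad_exp']
      · intro y hy
        rw [List.mem_singleton] at hy
        exact ⟨-w, (WW D hsmall hcomp hh).neg_mem hw, by rw [hy, Pi.neg_apply]; exact congrArg _ hwx⟩
      · rw [← (D i).exp_neg, (D i).Ad_exp']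
        simp
    | one =>
      refine ⟨⟨[], by simp, by simp [(D i).Ad_one]⟩, ⟨[], by simp, by simp [(D i).Ad_one]⟩⟩
    | mul a b _ _ ha hb =>
      obtain ⟨⟨l1, h1, e1⟩, ⟨l2, h2, e2⟩⟩ := ha
      obtain ⟨⟨l3, h3, e3⟩, ⟨l4, h4, e4⟩⟩ := hb
      refine ⟨⟨l1 ++ l3, ?_, ?_⟩, ⟨l4 ++ l2, ?_, ?_⟩⟩
      · intro x hx
        rcases List.mem_append.1 hx with hx | hx
        · exact h1 x hx
        · exact h3 x hx
      · rw [(D i).Ad_mul, e1, e3, List.map_append, List.prod_append]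
      · intro x hx
        rcases List.mem_append.1 hx with hx | hx
        · exact h4 x hx
        · exact h2 x hx
      · rw [mul_inv_rev, (D i).Ad_mul, e2, e4, List.map_append, List.prod_append]
    | inv a _ ha =>
      rw [inv_inv]
      exact ⟨ha.2, ha.1⟩
  exact key.1

/-- The semisimple step. -/
theorem split_off {g : G} (hg : g ∈ KK h) : ∃ a ∈ analyticSubgroup h, ∀ i, ∀ x ∈ hi D hsmall hcomp hh i,
    (D i).Ad ((a⁻¹ * g : G) : G ⧸ N i) x - x ∈ Rad (D i).br (hi D hsmall hcomp hh i) := by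
  obtain ⟨x1, h1, x2, h2, hx⟩ := Pool.Agent.ProLieAlg.glue (fun i => (D i).br)
    (fun i => (D i).lieBr) (WW D hsmall hcomp hh) (W_fin D hsmall hcomp hh) (W_br D hsmall hcomp hh)
    (fun i => (D i).Ad (g : G ⧸ N i)) (fun x hx => W_Ad D hsmall hcomp hh hg hx)
    (fun i => by
      refine map_mem_closure (D i).Ad_continuous (level_mem D hsmall hcomp hh hg i) ?_
      intro a ha
      exact Ad_prod D hsmall hcomp hh ha)
  obtain ⟨X1, hX1, c1⟩ := h1
  obtain ⟨X2, hX2, c2⟩ := h2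
  have hxW1 : x1 ∈ (WW D hsmall hcomp hh) := ⟨X1, hX1, c1⟩
  have hxW2 : x2 ∈ (WW D hsmall hcomp hh) := ⟨X2, hX2, c2⟩
  have ha : X1.at 1 * X2.at 1 ∈ analyticSubgroup h := Subgroup.mul_mem _ (at_mem hX1) (at_mem hX2)
  refine ⟨X1.at 1 * X2.at 1, ha, ?_⟩
  rintro i _ ⟨w, hw, rfl⟩
  show (D i).Ad (((X1.at 1 * X2.at 1)⁻¹ * g : G) : G ⧸ N i) (w i) - w i ∈ _
  set a : G := X1.at 1 * X2.at 1 with hadef
  have e1 : (D i).Ad (a : G ⧸ N i) (w i) =
      NormedSpace.exp ((D i).br (x1 i)) (NormedSpace.exp ((D i).br (x2 i)) (w i)) := by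
    rw [hadef, QuotientGroup.mk_mul, c1 i 1, c2 i 1, one_smul, one_smul, (D i).Ad_mul, (D i).Ad_exp',
      (D i).Ad_exp']
    rfl
  have h3 := hx i w hw
  rw [← e1] at h3
  have hai : ((a⁻¹ : G) : G ⧸ N i) ∈ (D i).AHc (hi D hsmall hcomp hh i) :=
    (D i).AH_le _ (level_mem_AH D hsmall hcomp hh (Subgroup.inv_mem _ ha) i)
  have h4 := (D i).Ad_stable (b := hi D hsmall hcomp hh i) (j := Rad (D i).br (hi D hsmall hcomp hh i))
    (fun y hy v hv => (rad_idl (D i).lieBr (hi_br D hsmall hcomp hh i)).br_mem y hy v hv) hai h3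
  rw [map_sub] at h4
  have e2 : (D i).Ad ((a⁻¹ : G) : G ⧸ N i) ((D i).Ad (a : G ⧸ N i) (w i)) = w i := by
    have := congrArg (fun f : E i →L[ℝ] E i => f (w i)) ((D i).Ad_inv_mul (a : G ⧸ N i))
    simpa using this
  have e3 : (D i).Ad ((a⁻¹ * g : G) : G ⧸ N i) (w i) =
      (D i).Ad ((a⁻¹ : G) : G ⧸ N i) ((D i).Ad (g : G ⧸ N i) (w i)) := by
    rw [QuotientGroup.mk_mul, (D i).Ad_mul]; rfl
  rw [e3]
  rw [e2] at h4
  exact h4

/-- The commutator step. -/
theorem comm_mem {z y : G} (hz : z ∈ KK h) (hy : y ∈ KK h)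
    (hz1 : ∀ i, ∀ x ∈ hi D hsmall hcomp hh i, (D i).Ad (z : G ⧸ N i) x - x ∈ Rad (D i).br (hi D hsmall hcomp hh i)) :
    ⁅z, y⁆ ∈ analyticSubgroup h := by
  have hlev := fun i => (D i).level_main (hi_br D hsmall hcomp hh i)
    (level_mem D hsmall hcomp hh hz i) (hz1 i) (level_mem D hsmall hcomp hh hy i)
  choose X hX1 hX2 using hlev
  have hmem : (fun i => (X i : E i)) ∈ (WW D hsmall hcomp hh) := by
    refine W_of_compat D hsmall hcomp hh _ (fun i => ?_) (fun i j hij T hT => ?_)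
    · exact (D i).VV_sub_h (hi_br D hsmall hcomp hh i) (hX1 i)
    · exact ExpData.level_compat (D := D i) (D' := D j) (f := trq hij) hT
        (hi_br D hsmall hcomp hh i) (hi_br D hsmall hcomp hh j)
        (hi_map D hsmall hcomp hh hij hT) (trq_cont hij)
        (level_mem D hsmall hcomp hh hz i) (level_mem D hsmall hcomp hh hy i) (hX1 i) (hX2 i)
        (hX1 j) (hX2 j)
  obtain ⟨Y, hY, hYx⟩ := hmem
  have he : Y.at 1 = ⁅z, y⁆ := by
    refine eq_of_quot (N := N) hsmall (fun i => ?_)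
    rw [hYx i 1, one_smul]
    obtain ⟨z', hz'⟩ := (D i).endp_surj (hi D hsmall hcomp hh i) (level_mem D hsmall hcomp hh hz i)
    obtain ⟨y', hy'⟩ := (D i).endp_surj (hi D hsmall hcomp hh i) (level_mem D hsmall hcomp hh hy i)
    have h1 := congrArg (TG.endp _) (hX2 i z' y' hz' hy')
    rw [map_commutatorElement, hz', hy', (D i).endp_eT] at h1
    exact h1.symm
  rw [← he]
  exact at_mem hY

include D hsmall hcomp hh in
/-- Normality. -/
theorem conj_mem {g a : G} (hg : g ∈ KK h) (ha : a ∈ analyticSubgroup h) :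
    g * a * g⁻¹ ∈ analyticSubgroup h := by
  induction ha using Subgroup.closure_induction with
  | mem a ha =>
    obtain ⟨X, hX, rfl⟩ := ha
    obtain ⟨x, hx⟩ := exists_isCoord D X
    obtain ⟨Y, hY, hYx⟩ := W_Ad D hsmall hcomp hh hg ⟨X, hX, hx⟩
    have he : Y.at 1 = g * X.at 1 * g⁻¹ := by
      refine eq_of_quot (N := N) hsmall (fun i => ?_)
      rw [hYx i 1, one_smul, QuotientGroup.mk_mul, QuotientGroup.mk_mul, QuotientGroup.mk_inv,
        hx i 1, one_smul, (D i).Ad_spec']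
    rw [← he]
    exact at_mem hY
  | one => simp
  | mul x y _ _ hx hy =>
    have : g * (x * y) * g⁻¹ = (g * x * g⁻¹) * (g * y * g⁻¹) := by group
    rw [this]; exact Subgroup.mul_mem _ hx hy
  | inv x _ hx =>
    have : g * x⁻¹ * g⁻¹ = (g * x * g⁻¹)⁻¹ := by group
    rw [this]; exact Subgroup.inv_mem _ hx

include D hsmall hcomp hh in
/-- The main theorem. -/
theorem main_sys : (∀ g ∈ KK h, ∀ a ∈ analyticSubgroup h, g * a * g⁻¹ ∈ analyticSubgroup h) ∧
    ∀ g ∈ KK h, ∀ g' ∈ KK h, ⁅g, g'⁆ ∈ analyticSubgroup h := by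
  have hn : ∀ g ∈ KK h, ∀ a ∈ analyticSubgroup h, g * a * g⁻¹ ∈ analyticSubgroup h :=
    fun g hg a ha => conj_mem D hsmall hcomp hh hg ha
  refine ⟨hn, ?_⟩
  intro g hg g' hg'
  obtain ⟨a, ha, hz⟩ := split_off D hsmall hcomp hh hg
  have haK : a ∈ KK h := Subgroup.le_topologicalClosure _ ha
  have hzK : a⁻¹ * g ∈ KK h := Subgroup.mul_mem _ (Subgroup.inv_mem _ haK) hg
  have h1 := comm_mem D hsmall hcomp hh hzK hg' hz
  have e : ⁅g, g'⁆ = (a * ⁅a⁻¹ * g, g'⁆ * a⁻¹) * (a * (g' * a⁻¹ * g'⁻¹)) := by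
    simp only [commutatorElement_def]; group
  rw [e]
  exact Subgroup.mul_mem _ (Subgroup.mul_mem _ (Subgroup.mul_mem _ ha h1) (Subgroup.inv_mem _ ha))
    (Subgroup.mul_mem _ ha (hn g' hg' _ (Subgroup.inv_mem _ ha)))

end Final

end Pool.Agent.H72.ProLie
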