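import Pool.Agent.H72.ProLie.Mod
import Pool.Agent.H72.ProLie.Closure

/-! Functoriality of exponential data and of path-homotopy groups. -/

set_option linter.unusedSectionVars false

open Filter Topology Set Metric

namespace Pool.Agent.H72.ProLie

section TGmap

variable {G : Type*} [Group G] [TopologicalSpace G] [IsTopologicalGroup G]
variable {G' : Type*} [Group G'] [TopologicalSpace G'] [IsTopologicalGroup G']
variable (f : G →* G') (hf : Continuous f) {A : Subgroup G} {A' : Subgroup G'}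
  (hAA : ∀ a ∈ A, f a ∈ A')

/-- Functoriality of path groups. -/
def PGmap : PG A →* PG A' where
  toFun γ := ⟨fun t => f (γ.1 t), hf.comp (PG.cont γ), by show f (γ.1 0) = 1; rw [PG.zero, map_one],
    fun t => hAA _ (PG.mem γ t)⟩
  map_one' := by
    ext t
    show f 1 = 1
    exact map_one f
  map_mul' γ δ := by
    ext t
    show f (γ.1 t * δ.1 t) = f (γ.1 t) * f (δ.1 t)
    exact map_mul f _ _

/-- Functoriality of path-homotopy groups. -/
def TGmap : TG A →* TG A' :=
  QuotientGroup.map (NullG A) (NullG A') (PGmap f hf hAA) (by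
    rintro γ ⟨F, f1, f2, f3, f4, f5, f6⟩
    refine ⟨fun p => f (F p), hf.comp f1, fun p => hAA _ (f2 p), ?_, ?_, ?_, ?_⟩
    · intro t ht; simp only; rw [f3 t ht]; rfl
    · intro t ht; simp only; rw [f4 t ht, map_one]
    · intro t ht; simp only; rw [f5 t ht, map_one]
    · intro t ht; simp only; rw [f6 t ht, map_one])

@[simp] theorem TGmap_mk (γ : PG A) : TGmap f hf hAA (γ : TG A) = ((PGmap f hf hAA γ : PG A') : TG A') :=
  rfl

theorem endp_TGmap (g : TG A) : TG.endp A' (TGmap f hf hAA g) = f (TG.endp A g) := by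
  obtain ⟨γ, rfl⟩ := QuotientGroup.mk_surjective g
  rfl

end TGmap

namespace ExpData

variable {G : Type*} [Group G] [TopologicalSpace G] [IsTopologicalGroup G] [T2Space G]
  {E : Type*} [NormedAddCommGroup E] [NormedSpace ℝ E] [FiniteDimensional ℝ E]
variable {G' : Type*} [Group G'] [TopologicalSpace G'] [IsTopologicalGroup G'] [T2Space G']
  {E' : Type*} [NormedAddCommGroup E'] [NormedSpace ℝ E'] [FiniteDimensional ℝ E']
  (D : ExpData G E) (D' : ExpData G' E') (f : G →* G') (hf : Continuous f)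

include hf in
theorem exists_dmap : ∃ T : E →L[ℝ] E', ∀ (x : E) (t : ℝ), f (D.exp (t • x)) = D'.exp (t • T x) := by
  have h1 : ∀ x : E, ∃ w : E', ∀ t : ℝ, f (D.exp (t • x)) = D'.exp (t • w) := by
    intro x
    obtain ⟨w, hw⟩ := D'.oneParam (fun t => f (D.exp (t • x)))
      (hf.comp (D.cont.comp (by fun_prop))) (fun s t => by rw [D.exp_add, map_mul])
    exact ⟨w, hw⟩
  choose T hT using h1
  have hadd : ∀ x y, T (x + y) = T x + T y := by
    intro x y
    refine D'.exp_line_unique' (fun t => ?_)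
    rw [← hT]
    have h2 := D.trotter (t • x) (t • y)
    have h3 := (hf.tendsto _).comp h2
    have h4 := D'.trotter (t • T x) (t • T y)
    rw [← smul_add] at h3 h4
    refine tendsto_nhds_unique h3 (h4.congr fun n => ?_)
    simp only [Function.comp_apply, map_pow, map_mul]
    rw [smul_smul, smul_smul, smul_smul, smul_smul, hT, hT]
  have hsmul : ∀ (c : ℝ) x, T (c • x) = c • T x := by
    intro c x
    refine D'.exp_line_unique' (fun t => ?_)
    rw [← hT, smul_smul, smul_smul, hT]
  exact ⟨LinearMap.toContinuousLinearMap { toFun := T, map_add' := hadd, map_smul' := hsmul }, hT⟩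

variable {D D' f} {T : E →L[ℝ] E'}
  (hT : ∀ (x : E) (t : ℝ), f (D.exp (t • x)) = D'.exp (t • T x))

include hT

theorem dmap_exp (x : E) : f (D.exp x) = D'.exp (T x) := by
  have := hT x 1
  rwa [one_smul, one_smul] at this

theorem dmap_Ad (g : G) (x : E) : T (D.Ad g x) = D'.Ad (f g) (T x) := by
  symm
  refine D'.Ad_eq (fun t => ?_)
  rw [← hT, ← hT, ← D.Ad_spec, map_mul, map_mul, map_inv]

theorem dmap_br (x y : E) : T (D.br x y) = D'.br (T x) (T y) := by
  have h1 := D'.hasDerivAt_apply (T x) (T y)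
  have h2 : (fun t : ℝ => D'.Ad (D'.exp (t • T x)) (T y)) = fun t : ℝ => T (D.Ad (D.exp (t • x)) y) := by
    funext t
    rw [← hT, dmap_Ad hT]
  rw [h2] at h1
  exact (T.hasFDerivAt.comp_hasDerivAt (0 : ℝ) (D.hasDerivAt_apply x y)).unique h1

theorem dmap_AHc {h : Submodule ℝ E} {h' : Submodule ℝ E'} (hf : Continuous f)
    (hh : ∀ x ∈ h, T x ∈ h') : ∀ a ∈ D.AHc h, f a ∈ D'.AHc h' := by
  have hc : IsClosed {a : G | f a ∈ D'.AHc h'} := (D'.AHc_closed h').preimage hf
  intro a ha
  refine closure_minimal (s := (D.AH h : Set G)) ?_ hc ha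
  intro a ha
  induction ha using Subgroup.closure_induction with
  | mem x hx =>
    obtain ⟨v, hv, rfl⟩ := hx
    show f (D.exp v) ∈ D'.AHc h'
    rw [dmap_exp hT]
    exact D'.exp_mem_AHc (hh v hv)
  | one => show f 1 ∈ D'.AHc h'; rw [map_one]; exact Subgroup.one_mem _
  | mul x y _ _ hx hy =>
    show f (x * y) ∈ D'.AHc h'
    rw [map_mul]; exact Subgroup.mul_mem _ hx hy
  | inv x _ hx =>
    show f x⁻¹ ∈ D'.AHc h'
    rw [map_inv]; exact Subgroup.inv_mem _ hx

theorem TGmap_eT {A : Subgroup G} {hA : IsClosed (A : Set G)} {A' : Subgroup G'}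
    {hA' : IsClosed (A' : Set G')} (hf : Continuous f) (hAA : ∀ a ∈ A, f a ∈ A')
    (v : D.lie A hA) (hv : T v ∈ D'.lie A' hA') :
    TGmap f hf hAA (D.eT v) = D'.eT ⟨T v, hv⟩ := by
  rw [eT, TGmap_mk]
  refine TG.eq_of (fun t _ => ?_)
  exact hT v t

end ExpData

end Pool.Agent.H72.ProLie
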