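import Mathlib

/-! Exponentials of nilpotent operators determine the operators. -/

open Filter Topology Set

set_option linter.unusedSectionVars false

namespace Pool.Agent.H72.ProLie

variable {E : Type*} [NormedAddCommGroup E] [NormedSpace ℝ E] [FiniteDimensional ℝ E]

theorem pow_zero_of_le (N : E →L[ℝ] E) {y : E} {k i : ℕ} (h : (N ^ k) y = 0) (hi : k ≤ i) :
    (N ^ i) y = 0 := by
  obtain ⟨m, rfl⟩ := Nat.exists_eq_add_of_le hi
  rw [add_comm, pow_add, mul_apply_eq_comp, h, map_zero]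

theorem exp_nilp_sum (N : E →L[ℝ] E) (y : E) (k : ℕ) (h : (N ^ k) y = 0) (n : ℕ) :
    (NormedSpace.exp N ^ n) y =
      ∑ i ∈ Finset.range k, ((n : ℝ) ^ i * ((i.factorial : ℝ)⁻¹)) • (N ^ i) y := by
  have : CompleteSpace E := FiniteDimensional.complete ℝ E
  have h0 : NormedSpace.exp N ^ n = NormedSpace.exp ((n : ℝ) • N) := by
    let _ : NormedAlgebra ℚ (E →L[ℝ] E) := NormedAlgebra.restrictScalars ℚ ℝ (E →L[ℝ] E)
    rw [Nat.cast_smul_eq_nsmul ℝ n N]
    exact (NormedSpace.exp_nsmul n N).symm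
  rw [h0]
  have h1 : HasSum (fun i : ℕ => ((i.factorial : ℝ)⁻¹) • ((n : ℝ) • N) ^ i)
      (NormedSpace.exp ((n : ℝ) • N)) :=
    NormedSpace.exp_series_hasSum_exp' (𝕂 := ℝ) ((n : ℝ) • N)
  have h2 : HasSum (fun i : ℕ => (((i.factorial : ℝ)⁻¹) • ((n : ℝ) • N) ^ i) y)
      (NormedSpace.exp ((n : ℝ) • N) y) := (ContinuousLinearMap.apply ℝ E y).hasSum h1
  have h3 : ∀ i : ℕ, (((i.factorial : ℝ)⁻¹) • ((n : ℝ) • N) ^ i) y =
      ((n : ℝ) ^ i * ((i.factorial : ℝ)⁻¹)) • (N ^ i) y := by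
    intro i
    rw [smul_pow, smul_smul, mul_comm]
    exact smul_apply _ _ _
  simp_rw [h3] at h2
  have h4 : ∀ i ∉ Finset.range k, ((n : ℝ) ^ i * ((i.factorial : ℝ)⁻¹)) • (N ^ i) y = 0 := by
    intro i hi
    rw [Finset.mem_range, not_lt] at hi
    rw [pow_zero_of_le N h hi, smul_zero]
  have h5 : HasSum (fun i : ℕ => ((n : ℝ) ^ i * ((i.factorial : ℝ)⁻¹)) • (N ^ i) y)
      (∑ i ∈ Finset.range k, ((n : ℝ) ^ i * ((i.factorial : ℝ)⁻¹)) • (N ^ i) y) :=
    hasSum_sum_of_ne_finset_zero h4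
  exact h2.unique h5

theorem exp_nilp_inj (N M : E →L[ℝ] E) (y : E) (k l : ℕ) (hN : (N ^ k) y = 0) (hM : (M ^ l) y = 0)
    (he : NormedSpace.exp N = NormedSpace.exp M) : N y = M y := by
  set K := k + l + 2 with hK
  have hN' : (N ^ K) y = 0 := pow_zero_of_le N hN (by omega)
  have hM' : (M ^ K) y = 0 := pow_zero_of_le M hM (by omega)
  have key : ∀ n : ℕ, ∑ i ∈ Finset.range K, ((n : ℝ) ^ i * ((i.factorial : ℝ)⁻¹)) •
      ((N ^ i) y - (M ^ i) y) = 0 := by
    intro n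
    simp_rw [smul_sub]
    rw [Finset.sum_sub_distrib, ← exp_nilp_sum N y K hN' n, ← exp_nilp_sum M y K hM' n, he, sub_self]
  rw [← sub_eq_zero, ← Module.forall_dual_apply_eq_zero_iff ℝ]
  intro φ
  set p : Polynomial ℝ := ∑ i ∈ Finset.range K,
    Polynomial.monomial i (((i.factorial : ℝ)⁻¹) * φ ((N ^ i) y - (M ^ i) y)) with hp
  have hev : ∀ n : ℕ, p.eval (n : ℝ) = 0 := by
    intro n
    have h1 := congrArg φ (key n)
    rw [map_sum, map_zero] at h1
    have h2 : p.eval (n : ℝ) = ∑ i ∈ Finset.range K, φ (((n : ℝ) ^ i * ((i.factorial : ℝ)⁻¹)) •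
        ((N ^ i) y - (M ^ i) y)) := by
      rw [hp, Polynomial.eval_finsetSum]
      have h3 : ∀ i : ℕ, (Polynomial.monomial i
          (((i.factorial : ℝ)⁻¹) * φ ((N ^ i) y - (M ^ i) y))).eval (n : ℝ) =
          φ (((n : ℝ) ^ i * ((i.factorial : ℝ)⁻¹)) • ((N ^ i) y - (M ^ i) y)) := by
        intro i
        rw [Polynomial.eval_monomial, map_smul, smul_eq_mul]
        ring
      simp_rw [h3]
    rw [h2, h1]
  have hp0 : p = 0 := by
    have hinf : (Set.range (fun n : ℕ => (n : ℝ))).Infinite :=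
      Set.infinite_range_of_injective Nat.cast_injective
    have hsub : Set.range (fun n : ℕ => (n : ℝ)) ⊆ {x | p.IsRoot x} := by
      rintro _ ⟨n, rfl⟩
      exact hev n
    exact Polynomial.eq_zero_of_infinite_isRoot p (hinf.mono hsub)
  have h1 : p.coeff 1 = φ (N y - M y) := by
    rw [hp, Polynomial.finsetSum_coeff]
    rw [Finset.sum_eq_single 1]
    · simp
    · intro i _ hi
      rw [Polynomial.coeff_monomial, if_neg hi]
    · intro h; exact absurd (Finset.mem_range.2 (by omega)) h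
  rw [← h1, hp0, Polynomial.coeff_zero]

end Pool.Agent.H72.ProLie
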