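import Pool.Agent.H72.ProLie.Radical
import Pool.Agent.H72.ProLie.Func
import Pool.Agent.H72.ProLie.NilExp

/-! The level theory: commutators in the closure of an analytic subgroup of a Lie group. -/

set_option linter.unusedSectionVars false
set_option linter.unusedVariables false

open Filter Topology Set Metric
open scoped commutatorElement

namespace Pool.Agent.H72.ProLie

namespace ExpData

variable {G : Type*} [Group G] [TopologicalSpace G] [IsTopologicalGroup G] [T2Space G]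
  {E : Type*} [NormedAddCommGroup E] [NormedSpace ℝ E] [FiniteDimensional ℝ E] (D : ExpData G E)

theorem lieBr : LieBr D.br := ⟨D.br_self, fun x y z => D.jacobi x y z⟩

/-- Elements of the closure of an analytic subgroup are end points of paths. -/
theorem endp_surj (b : Submodule ℝ E) {g : G} (hg : g ∈ D.AHc b) :
    ∃ γ : TG (D.AHc b), TG.endp _ γ = g := by
  have hA := D.AHc_closed b
  set A := D.AHc b with hAdef
  set S : Subgroup G := (TG.endp A).range with hS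
  have hSexp : ∀ v ∈ D.lie A hA, D.exp v ∈ S := fun v hv => ⟨D.eT ⟨v, hv⟩, D.endp_eT _⟩
  have hSA : S ≤ A := by rintro _ ⟨γ, rfl⟩; exact endp_mem γ
  obtain ⟨ε, hε, hloc⟩ := D.lie_local A hA
  have hScl : IsClosed (S : Set G) := by
    refine isClosed_of_closure_subset ?_
    intro g hg
    have hgA : g ∈ A := closure_minimal hSA hA hg
    have h1 : ∀ᶠ s in 𝓝 g, ∃ x, ‖x‖ < ε ∧ D.exp x = s⁻¹ * g := by
      have hc : Continuous fun s : G => s⁻¹ * g := by fun_prop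
      have h2 : Tendsto (fun s : G => s⁻¹ * g) (𝓝 g) (𝓝 1) := by
        simpa using hc.tendsto g
      exact h2.eventually (D.eventually_small hε)
    obtain ⟨s, hs1, hs2⟩ := ((mem_closure_iff_frequently.1 hg).and_eventually h1).exists
    obtain ⟨x, hx1, hx2⟩ := hs2
    have hxA : D.exp x ∈ A := by
      rw [hx2]; exact A.mul_mem (A.inv_mem (hSA hs1)) hgA
    have := S.mul_mem hs1 (hSexp x (hloc x hx1 hxA))
    rw [hx2, mul_inv_cancel_left] at this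
    exact this
  have h2 : D.AHc b ≤ S := by
    refine Subgroup.topologicalClosure_minimal _ ?_ hScl
    rw [AH, Subgroup.closure_le]
    rintro _ ⟨x, hx, rfl⟩
    exact hSexp x (D.le_lieC b hx)
  exact h2 hg

/-- The nilradical-type ideal `[a, rad a]` of the Lie algebra `a` of the closure. -/
noncomputable def nn (h : Submodule ℝ E) : Submodule ℝ E := bs D.br (D.lieC h) (Rad D.br (D.lieC h))

/-- Elements of the radical of `h` which are ad-nilpotent on `h`. -/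
def VV (h : Submodule ℝ E) : Set E := {X | X ∈ Rad D.br h ∧ ∃ k : ℕ, ∀ y ∈ h, ((D.br X) ^ k) y = 0}

section level

variable {h : Submodule ℝ E} (hh : ∀ x ∈ h, ∀ y ∈ h, D.br x y ∈ h)

include hh

theorem lieC_br_mem : ∀ x ∈ D.lieC h, ∀ y ∈ D.lieC h, D.br x y ∈ h :=
  D.lieC_br hh le_rfl

theorem lieC_br_mem' : ∀ x ∈ D.lieC h, ∀ y ∈ D.lieC h, D.br x y ∈ D.lieC h :=
  fun x hx y hy => D.br_mem_lie hx hy

theorem rad_le_rad : Rad D.br h ≤ Rad D.br (D.lieC h) := by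
  have hi := rad_idl D.lieBr hh
  refine le_sSup ⟨⟨hi.le.trans (D.le_lieC h), ?_⟩, rad_solv D.lieBr hh⟩
  intro x hx y hy
  refine D.br_mem_of_Ad _ (fun t => (Rad D.br h).sub_mem ?_ hy)
  exact D.Ad_stable (b := h) (fun y hy v hv => hi.br_mem y hy v hv) (hx t) hy

theorem radC_idl : IsLieIdl D.br (D.lieC h) (Rad D.br (D.lieC h)) :=
  rad_idl D.lieBr (D.lieC_br_mem' hh)

theorem nn_le_radC : D.nn h ≤ Rad D.br (D.lieC h) :=
  bs_le _ (fun x hx y hy => (D.radC_idl hh).br_mem x hx y hy)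

theorem nn_idl : IsLieIdl D.br (D.lieC h) (D.nn h) :=
  { le := (D.nn_le_radC hh).trans (D.radC_idl hh).le
    br_mem := fun x hx y hy => bs_mem _ hx (D.nn_le_radC hh hy) }

theorem nn_le_h : D.nn h ≤ h :=
  bs_le _ (fun x hx y hy => D.lieC_br_mem hh x hx y ((D.radC_idl hh).le hy))

theorem nn_le_rad : D.nn h ≤ Rad D.br h := by
  refine le_sSup ⟨⟨D.nn_le_h hh, ?_⟩, ?_⟩
  · intro x hx y hy
    exact (D.nn_idl hh).br_mem x (D.le_lieC h hx) y hy
  · obtain ⟨k, hk⟩ := rad_solv D.lieBr (D.lieC_br_mem' hh)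
    exact ⟨k, le_bot_iff.1 (hk ▸ dser_mono _ (D.nn_le_radC hh) k)⟩

theorem nn_sub_VV {X : E} (hX : X ∈ D.nn h) : X ∈ D.VV h := by
  refine ⟨D.nn_le_rad hh hX, ?_⟩
  obtain ⟨k, hk⟩ := ad_nil D.lieBr (D.lieC_br_mem' hh) X hX
  exact ⟨k, fun y hy => hk y (D.le_lieC h hy)⟩

theorem VV_sub_h {X : E} (hX : X ∈ D.VV h) : X ∈ h := (rad_idl D.lieBr hh).le hX.1

theorem lieC_le_sup : D.lieC h ≤ h ⊔ Rad D.br (D.lieC h) := by
  refine (h_le D.lieBr (D.lieC_br_mem' hh)).trans (sup_le_sup_right ?_ _)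
  exact bs_le _ (D.lieC_br_mem hh)

theorem Ad_radC {g : G} (hg : g ∈ D.AHc h) {x : E} (hx : x ∈ Rad D.br (D.lieC h)) :
    D.Ad g x ∈ Rad D.br (D.lieC h) :=
  D.Ad_stable (b := h) (fun y hy v hv => (D.radC_idl hh).br_mem y (D.le_lieC h hy) v hv) hg hx

theorem Ad_sub_rad {z : G} (hz : z ∈ D.AHc h) (hz1 : ∀ x ∈ h, D.Ad z x - x ∈ Rad D.br h) :
    ∀ x ∈ D.lieC h, D.Ad z x - x ∈ Rad D.br (D.lieC h) := by
  intro x hx
  obtain ⟨y, hy, r, hr, rfl⟩ := Submodule.mem_sup.1 (D.lieC_le_sup hh hx)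
  have e : D.Ad z (y + r) - (y + r) = (D.Ad z y - y) + (D.Ad z r - r) := by rw [map_add]; abel
  rw [e]
  exact Submodule.add_mem _ (D.rad_le_rad hh (hz1 y hy))
    (Submodule.sub_mem _ (D.Ad_radC hh hz hr) hr)

theorem Ad_sub_nn {z : G} (hz : z ∈ D.AHc h) (hz1 : ∀ x ∈ h, D.Ad z x - x ∈ Rad D.br h) :
    ∀ x ∈ D.lieC h, D.Ad z x - x ∈ D.nn h := by
  have h1 := D.Ad_sub_rad hh hz hz1
  have hAdL : ∀ x ∈ D.lieC h, D.Ad z x ∈ D.lieC h := fun x hx => D.Ad_mem_lie hz hx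
  -- on brackets
  have h2 : ∀ x ∈ D.lieC h, ∀ y ∈ D.lieC h, D.Ad z (D.br x y) - D.br x y ∈ D.nn h := by
    intro x hx y hy
    have e : D.Ad z (D.br x y) - D.br x y =
        D.br x (D.Ad z y - y) - D.br (D.Ad z y) (D.Ad z x - x) := by
      rw [D.Ad_br, map_sub, map_sub, D.br_skew (D.Ad z y) (D.Ad z x), D.br_skew (D.Ad z y) x]
      abel
    rw [e]
    exact Submodule.sub_mem _ (bs_mem _ hx (h1 y hy)) (bs_mem _ (hAdL y hy) (h1 x hx))
  have h3 : ∀ x ∈ Rad D.br (D.lieC h), D.Ad z x - x ∈ D.nn h := by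
    intro x hx
    refine D.Ad_sub_mem (b := h) (S := Rad D.br (D.lieC h)) (c := D.nn h) ?_ ?_ ?_ hz hx
    · exact fun g hg x hx => D.Ad_radC hh hg hx
    · exact fun y hy x hx => bs_mem _ (D.le_lieC h hy) hx
    · exact fun y hy v hv => (D.nn_idl hh).br_mem y (D.le_lieC h hy) v hv
  -- everything
  have h4 : bs D.br (D.lieC h) (D.lieC h) ≤
      (D.nn h).comap ((D.Ad z : E →ₗ[ℝ] E) - LinearMap.id) := by
    refine bs_le _ (fun x hx y hy => ?_)
    exact h2 x hx y hy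
  intro x hx
  obtain ⟨y, hy, r, hr, rfl⟩ := Submodule.mem_sup.1 (h_le D.lieBr (D.lieC_br_mem' hh) hx)
  have e : D.Ad z (y + r) - (y + r) = (D.Ad z y - y) + (D.Ad z r - r) := by rw [map_add]; abel
  rw [e]
  exact Submodule.add_mem _ (h4 hy) (h3 r hr)

theorem nn_isIdl : D.IsIdl (D.AHc_closed h) (D.nn h) :=
  { le := (D.nn_idl hh).le, br_mem := (D.nn_idl hh).br_mem }

theorem comm_mem_NJ (z y : TG (D.AHc h))
    (hz : ∀ x ∈ D.lieC h, D.Ad (TG.endp _ z) x - x ∈ D.nn h) :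
    ⁅z, y⁆ ∈ D.NJ (D.AHc_closed h) (D.nn h) := by
  have hn := (D.nn_isIdl hh).normal
  set N := D.NJ (D.AHc_closed h) (D.nn h) with hN
  -- the centraliser of `z` modulo `N`
  have hgen : ∀ x : D.lie (D.AHc h) (D.AHc_closed h), ⁅z, D.eT x⁆ ∈ N := by
    intro x
    have hW : D.Ad (TG.endp _ z) (x : E) - x ∈ D.nn h := hz _ x.2
    have h1 := (D.nn_isIdl hh).eT_add x
      ⟨D.Ad (TG.endp _ z) (x : E) - x, (D.nn_idl hh).le hW⟩ hW
    have h2 : x + ⟨D.Ad (TG.endp _ z) (x : E) - x, (D.nn_idl hh).le hW⟩ =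
        (⟨D.Ad (TG.endp _ z) x, D.Ad_mem_lie (endp_mem z) x.2⟩ : D.lie (D.AHc h) (D.AHc_closed h)) := by
      ext; show (x : E) + (D.Ad (TG.endp _ z) (x : E) - x) = _; abel
    rw [h2, ← D.eT_conj] at h1
    have h3 := hn.conj_mem _ h1 (D.eT x)
    have h4 : D.eT x * ((D.eT x)⁻¹ * (z * D.eT x * z⁻¹)) * (D.eT x)⁻¹ = ⁅z, D.eT x⁆ := by
      rw [commutatorElement_def]; group
    rw [h4] at h3
    exact h3
  have hall : ∀ g ∈ Subgroup.closure (Set.range (D.eT : D.lie (D.AHc h) (D.AHc_closed h) → _)),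
      ⁅z, g⁆ ∈ N := by
    intro g hg
    induction hg using Subgroup.closure_induction with
    | mem x hx => obtain ⟨v, rfl⟩ := hx; exact hgen v
    | one => simp [N.one_mem]
    | mul a b _ _ ha hb =>
      have e : ⁅z, a * b⁆ = ⁅z, a⁆ * (a * ⁅z, b⁆ * a⁻¹) := by
        simp only [commutatorElement_def]; group
      rw [e]; exact N.mul_mem ha (hn.conj_mem _ hb a)
    | inv a _ ha =>
      have e : ⁅z, a⁻¹⁆ = a⁻¹ * (⁅z, a⁆)⁻¹ * (a⁻¹)⁻¹ := by
        simp only [commutatorElement_def]; group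
      rw [e]; exact hn.conj_mem _ (N.inv_mem ha) a⁻¹
  exact hall y (by rw [D.TG_gen]; trivial)

theorem comm_eq_eT (z y : TG (D.AHc h))
    (hz : ∀ x ∈ D.lieC h, D.Ad (TG.endp _ z) x - x ∈ D.nn h) :
    ∃ X : D.lie (D.AHc h) (D.AHc_closed h), (X : E) ∈ D.nn h ∧ ⁅z, y⁆ = D.eT X := by
  have h1 := D.comm_mem_NJ hh z y hz
  obtain ⟨n, n0, n1, n2, n3, k, hk⟩ := nil_series D.lieBr (D.lieC_br_mem' hh)
  have h2 : n 0 = D.nn h := n0
  rw [← h2] at h1 ⊢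
  exact nilp_exp (D := D) n (fun i => { le := (n1 i).le, br_mem := (n1 i).br_mem }) n2 n3 k hk h1

theorem NJ_bot {A : Subgroup G} (hA : IsClosed (A : Set G)) : D.NJ hA (⊥ : Submodule ℝ E) = ⊥ := by
  rw [NJ, Subgroup.closure_eq_bot_iff]
  rintro _ ⟨v, hv, rfl⟩
  have : v = 0 := by
    ext; exact (Submodule.mem_bot ℝ).1 hv
  rw [this, D.eT_zero]; rfl

theorem VV_unique {X X' : D.lie (D.AHc h) (D.AHc_closed h)} (hX : (X : E) ∈ D.VV h)
    (hX' : (X' : E) ∈ D.VV h) (he : D.eT X = D.eT X') : X = X' := by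
  have hA := D.AHc_closed h
  have hXh := D.VV_sub_h hh hX
  have hXh' := D.VV_sub_h hh hX'
  obtain ⟨hXr, k, hk⟩ := hX
  obtain ⟨hXr', k', hk'⟩ := hX'
  have h1 : D.exp (X : E) = D.exp (X' : E) := by rw [← D.endp_eT, ← D.endp_eT, he]
  have h2 : NormedSpace.exp (D.br X) = NormedSpace.exp (D.br X') := by
    rw [← D.Ad_exp', ← D.Ad_exp', h1]
  have h3 : ∀ y ∈ h, D.br X y = D.br X' y := fun y hy =>
    exp_nilp_inj _ _ y k k' (hk y hy) (hk' y hy) h2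
  have h4 : D.br (X : E) ((-X' : D.lie (D.AHc h) (D.AHc_closed h)) : E) ∈ (⊥ : Submodule ℝ E) := by
    rw [Submodule.mem_bot]
    show D.br (X : E) (-(X' : E)) = 0
    rw [map_neg, h3 _ hXh', D.br_self, neg_zero]
  have hid : D.IsIdl hA (⊥ : Submodule ℝ E) :=
    { le := bot_le, br_mem := fun x _ v hv => by
        rw [(Submodule.mem_bot ℝ).1 hv, map_zero]; exact Submodule.zero_mem _ }
  have h5 := hid.eT_mul X (-X') h4
  rw [D.NJ_bot hh hA, Subgroup.mem_bot, inv_mul_eq_one, D.eT_neg, he, mul_inv_cancel] at h5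
  obtain ⟨π, p1, p2, p3, p4⟩ := levi' D.lieBr (D.lieC_br_mem' hh)
  have hr : ((X + -X' : D.lie (D.AHc h) (D.AHc_closed h)) : E) ∈ Rad D.br (D.lieC h) :=
    Submodule.add_mem _ (D.rad_le_rad hh hXr) (Submodule.neg_mem _ (D.rad_le_rad hh hXr'))
  have h6 := D.null_rad (D.AHc h) hA _ (D.radC_idl hh) (rad_solv D.lieBr (D.lieC_br_mem' hh)) π
    p1 p2 p3 p4 (X + -X') hr h5.symm
  ext
  have h7 : (X : E) + -(X' : E) = 0 := h6
  rw [← sub_eq_add_neg] at h7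
  exact sub_eq_zero.1 h7

/-- The main statement at one level. -/
theorem level_main {z y : G} (hz : z ∈ D.AHc h) (hz1 : ∀ x ∈ h, D.Ad z x - x ∈ Rad D.br h)
    (hy : y ∈ D.AHc h) : ∃ X : D.lie (D.AHc h) (D.AHc_closed h), (X : E) ∈ D.VV h ∧
      ∀ z' y' : TG (D.AHc h), TG.endp _ z' = z → TG.endp _ y' = y → ⁅z', y'⁆ = D.eT X := by
  have hz2 := D.Ad_sub_nn hh hz hz1
  obtain ⟨z0, rfl⟩ := D.endp_surj h hz
  obtain ⟨y0, rfl⟩ := D.endp_surj h hy
  obtain ⟨X, hX1, hX2⟩ := D.comm_eq_eT hh z0 y0 hz2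
  refine ⟨X, D.nn_sub_VV hh hX1, ?_⟩
  intro z' y' hz' hy'
  rw [← hX2]
  -- loops are central
  have c1 : TG.endp _ (z0⁻¹ * z') = 1 := by rw [map_mul, map_inv, hz', inv_mul_cancel]
  have c2 : TG.endp _ (y0⁻¹ * y') = 1 := by rw [map_mul, map_inv, hy', inv_mul_cancel]
  obtain ⟨l, hl⟩ : ∃ l, l = z0⁻¹ * z' := ⟨_, rfl⟩
  obtain ⟨m, hm⟩ : ∃ m, m = y0⁻¹ * y' := ⟨_, rfl⟩
  rw [← hl] at c1
  rw [← hm] at c2
  have e1 : z' = z0 * l := by rw [hl]; group
  have e2 : y' = y0 * m := by rw [hm]; group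
  have k1 := TG.loop_central c1
  have k2 := TG.loop_central c2
  have k1' : ∀ g, l⁻¹ * g = g * l⁻¹ := fun g => by
    rw [inv_mul_eq_iff_eq_mul, ← mul_assoc, k1, mul_inv_cancel_right]
  have k2' : ∀ g, m⁻¹ * g = g * m⁻¹ := fun g => by
    rw [inv_mul_eq_iff_eq_mul, ← mul_assoc, k2, mul_inv_cancel_right]
  rw [e1, e2, commutatorElement_def, commutatorElement_def]
  calc z0 * l * (y0 * m) * (z0 * l)⁻¹ * (y0 * m)⁻¹
      = z0 * (l * (y0 * m)) * (l⁻¹ * z0⁻¹) * (m⁻¹ * y0⁻¹) := by group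
    _ = z0 * ((y0 * m) * l) * (l⁻¹ * z0⁻¹) * (m⁻¹ * y0⁻¹) := by rw [k1]
    _ = z0 * y0 * (m * (z0⁻¹ * m⁻¹)) * y0⁻¹ := by group
    _ = z0 * y0 * (m * (m⁻¹ * z0⁻¹)) * y0⁻¹ := by rw [k2']
    _ = z0 * y0 * z0⁻¹ * y0⁻¹ := by group

end level

end ExpData

end Pool.Agent.H72.ProLie
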