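import Pool.Agent.H72.ProLie.Path

set_option linter.unusedSectionVars false

open Filter Topology Set Metric

namespace Pool.Agent.H72.ProLie

namespace ExpData

variable {G : Type*} [Group G] [TopologicalSpace G] [IsTopologicalGroup G] {A : Subgroup G}
variable {E : Type*} [NormedAddCommGroup E] [NormedSpace ℝ E] (D : ExpData G E)
variable {hA : IsClosed (A : Set G)} [T2Space G] [FiniteDimensional ℝ E]

theorem eT_mul_small (A : Subgroup G) (hA : IsClosed (A : Set G)) :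
    ∃ η > 0, η ≤ 1 / 10 ∧ ∀ x y : D.lie A hA, ‖(x : E)‖ ≤ η → ‖(y : E)‖ ≤ η → ∀ z : E, ‖z‖ ≤ 9 →
      D.exp (x : E) * D.exp (y : E) = D.exp z → ∃ hz : z ∈ D.lie A hA, D.eT x * D.eT y = D.eT ⟨z, hz⟩ := by
  obtain ⟨ε0, hε0, hloc0⟩ := D.lie_local A hA
  set ε := min ε0 1 with hε
  have hεp : 0 < ε := by positivity
  have hε1 : ε ≤ 1 := min_le_right _ _
  have hloc : ∀ v : E, ‖v‖ < ε → D.exp v ∈ A → v ∈ D.lie A hA :=
    fun v hv => hloc0 v (hv.trans_le (min_le_left _ _))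
  refine ⟨ε / 10, by positivity, by linarith, ?_⟩
  intro x y hx hy z hz hxyz
  have small : ∀ a b c : E, ‖a‖ ≤ ε / 10 → ‖b‖ ≤ ε / 10 → ‖c‖ ≤ 9 →
      D.exp a * D.exp b = D.exp c → ‖c‖ < ε := by
    intro a b c ha hb hc h
    have h1 := D.toC11.mul' (x := a) (y := b) (z := c) (by linarith) (by linarith) hc h
    have h2 : ‖c‖ ≤ ‖c - a - b‖ + ‖a‖ + ‖b‖ := by
      have : c = (c - a - b) + a + b := by abel
      calc ‖c‖ = ‖(c - a - b) + a + b‖ := by rw [← this]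
        _ ≤ _ := norm_add₃_le
    nlinarith [norm_nonneg a, norm_nonneg b]
  have hzs := small x y z hx hy hz hxyz
  have hzA : z ∈ D.lie A hA := hloc z hzs (by
    rw [← hxyz]; exact A.mul_mem (D.exp_mem_of_lie x.2) (D.exp_mem_of_lie y.2))
  refine ⟨hzA, ?_⟩
  have h1 : D.eT x * D.eT y = ((D.ep x * D.ep y : PG A) : TG A) := rfl
  rw [h1]
  refine D.small_path (hA := hA) hε1 hloc _ ?_ ⟨z, hzA⟩ hzs ?_
  · intro t ht
    have hs : ∀ v : E, ‖v‖ ≤ ε / 10 → ‖t • v‖ ≤ ε / 10 := by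
      intro v hv
      rw [norm_smul, Real.norm_of_nonneg ht.1]
      nlinarith [ht.2, norm_nonneg v]
    obtain ⟨c, hc1, hc2, hc3⟩ := D.toC11.mul_ex (x := t • (x : E)) (y := t • (y : E))
      (by linarith [hs x hx]) (by linarith [hs y hy])
    have hc9 : ‖c‖ ≤ 9 := by
      nlinarith [hs x hx, hs y hy, norm_nonneg (t • (x : E)), norm_nonneg (t • (y : E))]
    exact ⟨c, small _ _ c (hs x hx) (hs y hy) hc9 hc1, hc1.symm⟩
  · show D.exp z = D.exp ((1 : ℝ) • (x : E)) * D.exp ((1 : ℝ) • (y : E))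
    rw [one_smul, one_smul, hxyz]

/-- Ideals of the Lie algebra of `A`. -/
structure IsIdl (hA : IsClosed (A : Set G)) (j : Submodule ℝ E) : Prop where
  le : j ≤ D.lie A hA
  br_mem : ∀ a ∈ D.lie A hA, ∀ v ∈ j, D.br a v ∈ j

/-- The subgroup of the path-homotopy group generated by the exponentials of `j`. -/
def NJ (hA : IsClosed (A : Set G)) (j : Submodule ℝ E) : Subgroup (TG A) :=
  Subgroup.closure {g | ∃ v : D.lie A hA, (v : E) ∈ j ∧ g = D.eT v}

variable {D}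

theorem mem_NJ {j : Submodule ℝ E} {v : D.lie A hA} (hv : (v : E) ∈ j) : D.eT v ∈ D.NJ hA j :=
  Subgroup.subset_closure ⟨v, hv, rfl⟩

theorem IsIdl.Ad_mem {j : Submodule ℝ E} (hj : D.IsIdl hA j) (g : TG A) :
    (∀ w ∈ j, D.Ad (TG.endp A g) w ∈ j) := by
  suffices h : ∀ g : TG A, g ∈ Subgroup.closure (Set.range (D.eT : D.lie A hA → TG A)) →
      (∀ w ∈ j, D.Ad (TG.endp A g) w ∈ j) ∧ (∀ w ∈ j, D.Ad (TG.endp A g)⁻¹ w ∈ j) by
    exact (h g (by rw [D.TG_gen A hA]; trivial)).1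
  intro g hg
  induction hg using Subgroup.closure_induction with
  | mem x hx =>
    obtain ⟨v, rfl⟩ := hx
    have key : ∀ v : D.lie A hA, ∀ w ∈ j, D.Ad (D.exp (v : E)) w ∈ j := by
      intro v w hw
      have := D.Ad_exp_mem j (b := (v : E)) (fun u hu => hj.br_mem _ v.2 u hu) hw 1
      rwa [one_smul] at this
    refine ⟨fun w hw => ?_, fun w hw => ?_⟩
    · rw [D.endp_eT]; exact key v w hw
    · rw [D.endp_eT, ← D.exp_neg]; exact key (-v) w hw
  | one =>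
    refine ⟨fun w hw => ?_, fun w hw => ?_⟩ <;> simp [D.Ad_one, hw]
  | mul x y _ _ hx hy =>
    refine ⟨fun w hw => ?_, fun w hw => ?_⟩
    · rw [map_mul, D.Ad_mul]; exact hx.1 _ (hy.1 w hw)
    · rw [map_mul, mul_inv_rev, D.Ad_mul]; exact hy.2 _ (hx.2 w hw)
  | inv x _ hx =>
    refine ⟨fun w hw => ?_, fun w hw => ?_⟩
    · rw [map_inv]; exact hx.2 w hw
    · rw [map_inv, inv_inv]; exact hx.1 w hw

theorem IsIdl.normal {j : Submodule ℝ E} (hj : D.IsIdl hA j) : (D.NJ hA j).Normal := by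
  constructor
  intro n hn g
  induction hn using Subgroup.closure_induction with
  | mem x hx =>
    obtain ⟨v, hv, rfl⟩ := hx
    rw [D.eT_conj]
    exact mem_NJ (hj.Ad_mem g v hv)
  | one => simpa using Subgroup.one_mem _
  | mul x y _ _ hx hy =>
    have : g * (x * y) * g⁻¹ = (g * x * g⁻¹) * (g * y * g⁻¹) := by group
    rw [this]; exact Subgroup.mul_mem _ hx hy
  | inv x _ hx =>
    have : g * x⁻¹ * g⁻¹ = (g * x * g⁻¹)⁻¹ := by group
    rw [this]; exact Subgroup.inv_mem _ hx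

variable (D)

theorem exists_nat_small (a b : E) {η : ℝ} (hη : 0 < η) :
    ∃ n : ℕ, 0 < n ∧ ‖(n : ℝ)⁻¹ • a‖ ≤ η ∧ ‖(n : ℝ)⁻¹ • b‖ ≤ η := by
  obtain ⟨n, hn⟩ := exists_nat_gt ((‖a‖ + ‖b‖) / η + 1)
  have h0 : 0 ≤ (‖a‖ + ‖b‖) / η := by positivity
  have hn0 : (0 : ℝ) < n := by linarith
  have h1 : ‖a‖ + ‖b‖ ≤ n * η := by
    have : (‖a‖ + ‖b‖) / η ≤ n := by linarith
    rwa [div_le_iff₀ hη] at this
  refine ⟨n, by exact_mod_cast hn0, ?_, ?_⟩
  · rw [norm_smul, norm_inv, Real.norm_of_nonneg hn0.le, inv_mul_le_iff₀ hn0]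
    linarith [norm_nonneg b]
  · rw [norm_smul, norm_inv, Real.norm_of_nonneg hn0.le, inv_mul_le_iff₀ hn0]
    linarith [norm_nonneg a]

variable {D}

/-- (L): modulo the normal subgroup generated by the exponentials of an ideal. -/
theorem IsIdl.eT_add {j : Submodule ℝ E} (hj : D.IsIdl hA j) (Y W : D.lie A hA) (hW : (W : E) ∈ j) :
    (D.eT Y)⁻¹ * D.eT (Y + W) ∈ D.NJ hA j := by
  have := hj.normal
  obtain ⟨η, hη, hη1, hmul⟩ := D.eT_mul_small A hA
  obtain ⟨ε, hε, hε1, hsub⟩ := D.mod_sub j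
  obtain ⟨n, hn, hn1, hn2⟩ := exists_nat_small ((Y : E)) ((Y + W : D.lie A hA) : E)
    (η := min η ε) (by positivity)
  have hn0 : (n : ℝ) ≠ 0 := by exact_mod_cast hn.ne'
  set y : D.lie A hA := (n : ℝ)⁻¹ • Y with hy
  set w : D.lie A hA := (n : ℝ)⁻¹ • (Y + W) with hw
  have hyn : ‖(y : E)‖ ≤ min η ε := hn1
  have hwn : ‖(w : E)‖ ≤ min η ε := hn2
  have hyY : (n : ℝ) • y = Y := by rw [hy, smul_inv_smul₀ hn0]
  have hwY : (n : ℝ) • w = Y + W := by rw [hw, smul_inv_smul₀ hn0]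
  obtain ⟨z, hz1, hz2, hz3⟩ := D.toC11.mul_ex (x := -(y : E)) (y := (w : E))
    (by rw [norm_neg]; linarith [min_le_right η ε]) (by linarith [min_le_right η ε])
  have hz9 : ‖z‖ ≤ 9 := by
    rw [norm_neg] at hz3
    nlinarith [min_le_right η ε, norm_nonneg (y : E), norm_nonneg (w : E)]
  have hyj : ∀ v ∈ j, D.br (-(y : E)) v ∈ j := by
    intro v hv
    rw [map_neg]; exact j.neg_mem (hj.br_mem _ y.2 v hv)
  have hwj : ∀ v ∈ j, D.br (w : E) v ∈ j := fun v hv => hj.br_mem _ w.2 v hv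
  have hwy : (w : E) - (y : E) ∈ j := by
    have : (w : E) - (y : E) = (n : ℝ)⁻¹ • (W : E) := by
      rw [hw, hy]; push_cast; rw [← smul_sub]; congr 1; abel
    rw [this]; exact j.smul_mem _ hW
  have hbr : D.br (-(y : E)) (w : E) ∈ j := by
    have h1 : D.br (-(y : E)) (w : E) = D.br (-(y : E)) ((w : E) - (y : E)) := by
      rw [map_sub, map_neg]
      simp [D.br_self]
    rw [h1]; exact hyj _ hwy
  have hzj : z ∈ j := by
    have h1 := hsub (-(y : E)) (w : E) z (by rw [norm_neg]; exact hyn.trans (min_le_right _ _))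
      (hwn.trans (min_le_right _ _)) hyj hwj (fun u hu v hv => hj.br_mem _ (hj.le hu) v hv) hbr
      hz9 hz1
    have h2 : z = (z - -(y : E) - (w : E)) + ((w : E) - (y : E)) := by abel
    rw [h2]; exact j.add_mem h1 hwy
  obtain ⟨hzA, hz⟩ := hmul (-y) w (by
    show ‖-(y : E)‖ ≤ η
    rw [norm_neg]; exact hyn.trans (min_le_left _ _)) (hwn.trans (min_le_left _ _)) z hz9 hz1
  rw [D.eT_neg] at hz
  have hwz : D.eT w = D.eT y * D.eT ⟨z, hzA⟩ := by rw [← hz, mul_inv_cancel_left]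
  have hzN : D.eT (⟨z, hzA⟩ : D.lie A hA) ∈ D.NJ hA j := mem_NJ hzj
  rw [← QuotientGroup.eq, ← hyY, D.eT_nsmul]
  have : Y + W = (n : ℝ) • w := hwY.symm
  rw [hyY, this, D.eT_nsmul, hwz, QuotientGroup.mk_pow, QuotientGroup.mk_pow, QuotientGroup.mk_mul,
    (QuotientGroup.eq_one_iff _).2 hzN, mul_one]

/-- (L2): exponentials multiply additively modulo an ideal containing the bracket. -/
theorem IsIdl.eT_mul {j : Submodule ℝ E} (hj : D.IsIdl hA j) (a b : D.lie A hA)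
    (hab : D.br (a : E) (b : E) ∈ j) : (D.eT a * D.eT b)⁻¹ * D.eT (a + b) ∈ D.NJ hA j := by
  have := hj.normal
  obtain ⟨η, hη, hη1, hmul⟩ := D.eT_mul_small A hA
  obtain ⟨ε, hε, hε1, hsub⟩ := D.mod_sub j
  obtain ⟨n, hn, hn1, hn2⟩ := exists_nat_small (a : E) (b : E) (η := min η ε) (by positivity)
  have hn0 : (n : ℝ) ≠ 0 := by exact_mod_cast hn.ne'
  have key : ∀ x y : D.lie A hA, ‖(x : E)‖ ≤ min η ε → ‖(y : E)‖ ≤ min η ε →
      D.br (x : E) (y : E) ∈ j → ((D.eT x : TG A) : TG A ⧸ D.NJ hA j) * ((D.eT y : TG A) : TG A ⧸ D.NJ hA j)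
        = ((D.eT (x + y) : TG A) : TG A ⧸ D.NJ hA j) := by
    intro x y hx hy hxy
    obtain ⟨z, hz1, hz2, hz3⟩ := D.toC11.mul_ex (x := (x : E)) (y := (y : E))
      (by linarith [min_le_right η ε]) (by linarith [min_le_right η ε])
    have hz9 : ‖z‖ ≤ 9 := by
      nlinarith [min_le_right η ε, norm_nonneg (x : E), norm_nonneg (y : E)]
    have hzj := hsub (x : E) (y : E) z (hx.trans (min_le_right _ _)) (hy.trans (min_le_right _ _))
      (fun v hv => hj.br_mem _ x.2 v hv) (fun v hv => hj.br_mem _ y.2 v hv)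
      (fun u hu v hv => hj.br_mem _ (hj.le hu) v hv) hxy hz9 hz1
    obtain ⟨hzA, hz⟩ := hmul x y (hx.trans (min_le_left _ _)) (hy.trans (min_le_left _ _)) z hz9 hz1
    have hzx : z - x - y ∈ D.lie A hA := hj.le hzj
    have h1 := hj.eT_add (x + y) ⟨z - x - y, hzx⟩ hzj
    have h2 : x + y + ⟨z - x - y, hzx⟩ = (⟨z, hzA⟩ : D.lie A hA) := by
      ext; show (x : E) + y + (z - x - y) = z; abel
    rw [h2, ← hz] at h1
    rw [← QuotientGroup.mk_mul]
    exact (QuotientGroup.eq.2 h1).symm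
  set x : D.lie A hA := (n : ℝ)⁻¹ • a with hx
  set y : D.lie A hA := (n : ℝ)⁻¹ • b with hy
  have hxa : (n : ℝ) • x = a := by rw [hx, smul_inv_smul₀ hn0]
  have hyb : (n : ℝ) • y = b := by rw [hy, smul_inv_smul₀ hn0]
  have hxy : D.br (x : E) (y : E) ∈ j := by
    have : D.br (x : E) (y : E) = (n : ℝ)⁻¹ • (n : ℝ)⁻¹ • D.br (a : E) (b : E) := by
      rw [hx, hy]; simp
    rw [this]; exact j.smul_mem _ (j.smul_mem _ hab)
  have hyx : D.br (y : E) (x : E) ∈ j := by rw [D.br_skew]; exact j.neg_mem hxy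
  have k1 := key x y hn1 hn2 hxy
  have k2 := key y x hn2 hn1 hyx
  have hc : Commute ((D.eT x : TG A) : TG A ⧸ D.NJ hA j) ((D.eT y : TG A) : TG A ⧸ D.NJ hA j) := by
    show _ * _ = _ * _
    rw [k1, k2, add_comm]
  rw [← QuotientGroup.eq, QuotientGroup.mk_mul]
  have e1 : a + b = (n : ℝ) • (x + y) := by rw [smul_add, hxa, hyb]
  rw [e1, ← hxa, ← hyb, D.eT_nsmul, D.eT_nsmul, D.eT_nsmul, QuotientGroup.mk_pow,
    QuotientGroup.mk_pow, QuotientGroup.mk_pow, ← k1, hc.mul_pow]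

/-- The subgroup generated by the exponentials of a nilpotent ideal consists of exponentials. -/
theorem nilp_exp (n : ℕ → Submodule ℝ E) (hn : ∀ i, D.IsIdl hA (n i))
    (hbr : ∀ i, ∀ u ∈ n 0, ∀ v ∈ n i, D.br u v ∈ n (i + 1)) (hle : ∀ i, n (i + 1) ≤ n i) (k : ℕ)
    (hk : n k = ⊥) {g : TG A} (hg : g ∈ D.NJ hA (n 0)) :
    ∃ X : D.lie A hA, (X : E) ∈ n 0 ∧ g = D.eT X := by
  have hle0 : ∀ i, n i ≤ n 0 := by
    intro i
    induction i with
    | zero => exact le_rfl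
    | succ i ih => exact (hle i).trans ih
  -- one level
  have lev : ∀ i, ∀ u ∈ D.NJ hA (n i), ∃ W : D.lie A hA, (W : E) ∈ n i ∧
      (D.eT W)⁻¹ * u ∈ D.NJ hA (n (i + 1)) := by
    intro i u hu
    have hN := (hn (i + 1)).normal
    induction hu using Subgroup.closure_induction with
    | mem x hx =>
      obtain ⟨v, hv, rfl⟩ := hx
      exact ⟨v, hv, by rw [inv_mul_cancel]; exact Subgroup.one_mem _⟩
    | one => exact ⟨0, (n i).zero_mem, by rw [D.eT_zero]; simpa using Subgroup.one_mem _⟩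
    | mul x y _ _ hx hy =>
      obtain ⟨W1, h1, h2⟩ := hx
      obtain ⟨W2, h3, h4⟩ := hy
      refine ⟨W1 + W2, (n i).add_mem h1 h3, ?_⟩
      have h5 := (hn (i + 1)).eT_mul W1 W2 (hbr i _ (hle0 i h1) _ h3)
      rw [← QuotientGroup.eq] at h2 h4 h5 ⊢
      rw [← h5, QuotientGroup.mk_mul, QuotientGroup.mk_mul, h2, h4]
    | inv x _ hx =>
      obtain ⟨W1, h1, h2⟩ := hx
      refine ⟨-W1, (n i).neg_mem h1, ?_⟩
      rw [← QuotientGroup.eq] at h2 ⊢
      rw [D.eT_neg, QuotientGroup.mk_inv, QuotientGroup.mk_inv, h2]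
  have main : ∀ i, ∃ X : D.lie A hA, (X : E) ∈ n 0 ∧ (D.eT X)⁻¹ * g ∈ D.NJ hA (n i) := by
    intro i
    induction i with
    | zero => exact ⟨0, (n 0).zero_mem, by rw [D.eT_zero]; simpa using hg⟩
    | succ i ih =>
      obtain ⟨X, h1, h2⟩ := ih
      obtain ⟨W, h3, h4⟩ := lev i _ h2
      have hN := (hn (i + 1)).normal
      refine ⟨X + W, (n 0).add_mem h1 (hle0 i h3), ?_⟩
      have h5 := (hn (i + 1)).eT_mul X W (hbr i _ h1 _ h3)
      rw [← QuotientGroup.eq] at h4 h5 ⊢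
      rw [← h5, QuotientGroup.mk_mul, h4, QuotientGroup.mk_mul, QuotientGroup.mk_inv,
        mul_inv_cancel_left]
  obtain ⟨X, h1, h2⟩ := main k
  refine ⟨X, h1, ?_⟩
  have hbot : D.NJ hA (n k) = ⊥ := by
    rw [hk, NJ, Subgroup.closure_eq_bot_iff]
    rintro _ ⟨v, hv, rfl⟩
    have : v = 0 := by
      ext; exact (Submodule.mem_bot ℝ).1 hv
    rw [this, D.eT_zero]; rfl
  rw [hbot, Subgroup.mem_bot] at h2
  exact (inv_mul_eq_one.1 h2).symm

end ExpData

end Pool.Agent.H72.ProLie
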