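import Pool.Agent.H72.ProLie.Sub

/-! Products of exponential data and local homomorphisms from Lie homomorphisms. -/

set_option linter.unusedSectionVars false

open Filter Topology Set Metric

namespace Pool.Agent.H72.ProLie

namespace ExpData

variable {G : Type*} [Group G] [TopologicalSpace G] {E : Type*} [NormedAddCommGroup E]
  [NormedSpace ℝ E] {G' : Type*} [Group G'] [TopologicalSpace G'] {E' : Type*}
  [NormedAddCommGroup E'] [NormedSpace ℝ E']

/-- The product of two exponential data. -/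
def prod (D : ExpData G E) (D' : ExpData G' E') : ExpData (G × G') (E × E') where
  exp p := (D.exp p.1, D'.exp p.2)
  exp_add s t v := by
    simp only [Prod.smul_fst, Prod.smul_snd, D.exp_add, D'.exp_add, Prod.mk_mul_mk]
  cont := (D.cont.comp continuous_fst).prodMk (D'.cont.comp continuous_snd)
  inj := by
    intro p hp q hq h
    rw [mem_closedBall_zero_iff] at hp hq
    have h1 := congrArg Prod.fst h
    have h2 := congrArg Prod.snd h
    simp only at h1 h2
    have e1 := D.inj' ((norm_fst_le p).trans hp) ((norm_fst_le q).trans hq) h1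
    have e2 := D'.inj' ((norm_snd_le p).trans hp) ((norm_snd_le q).trans hq) h2
    exact Prod.ext e1 e2
  nhds := by
    have h1 : (𝓝 (0 : E × E')) = 𝓝 (0 : E) ×ˢ 𝓝 (0 : E') := nhds_prod_eq
    have h2 : (𝓝 (1 : G × G')) = 𝓝 (1 : G) ×ˢ 𝓝 (1 : G') := nhds_prod_eq
    rw [h1, h2, ← D.nhds, ← D'.nhds, Filter.prod_map_map_eq]
  mul := by
    intro x y hx hy
    obtain ⟨z1, h1, h2⟩ := D.mul x.1 y.1 ((norm_fst_le x).trans hx) ((norm_fst_le y).trans hy)
    obtain ⟨z2, h3, h4⟩ := D'.mul x.2 y.2 ((norm_snd_le x).trans hx) ((norm_snd_le y).trans hy)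
    refine ⟨(z1, z2), ?_, ?_⟩
    · rw [Prod.norm_def]
      refine max_le (h1.trans ?_) (h3.trans ?_)
      · gcongr
        · exact norm_fst_le x
        · exact norm_fst_le y
      · gcongr
        · exact norm_snd_le x
        · exact norm_snd_le y
    · rw [Prod.mk_mul_mk, h2, h4]

@[simp] theorem prod_exp (D : ExpData G E) (D' : ExpData G' E') (p : E × E') :
    (D.prod D').exp p = (D.exp p.1, D'.exp p.2) := rfl

variable [IsTopologicalGroup G] [T2Space G] [IsTopologicalGroup G'] [T2Space G']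
  [FiniteDimensional ℝ E] [FiniteDimensional ℝ E']

theorem prod_Ad (D : ExpData G E) (D' : ExpData G' E') (g : G × G') (v : E × E') :
    (D.prod D').Ad g v = (D.Ad g.1 v.1, D'.Ad g.2 v.2) := by
  refine (D.prod D').Ad_eq (fun t => ?_)
  refine Prod.ext ?_ ?_
  · exact D.Ad_spec g.1 v.1 t
  · exact D'.Ad_spec g.2 v.2 t

theorem prod_br (D : ExpData G E) (D' : ExpData G' E') (x v : E × E') :
    (D.prod D').br x v = (D.br x.1 v.1, D'.br x.2 v.2) := by
  have h1 := (D.prod D').hasDerivAt_apply x v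
  have h2 : HasDerivAt (fun t : ℝ => (D.prod D').Ad ((D.prod D').exp (t • x)) v)
      (D.br x.1 v.1, D'.br x.2 v.2) 0 := by
    have h3 := (D.hasDerivAt_apply x.1 v.1).prodMk (D'.hasDerivAt_apply x.2 v.2)
    exact h3.congr_of_eventuallyEq (Eventually.of_forall fun t => prod_Ad D D' _ _)
  exact h1.unique h2

/-- A Lie algebra homomorphism gives a local homomorphism. -/
theorem hom_local (D : ExpData G E) (D' : ExpData G' E') (a : Submodule ℝ E)
    (ha : ∀ x ∈ a, ∀ y ∈ a, D.br x y ∈ a) (π : E →L[ℝ] E')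
    (hπ : ∀ x ∈ a, ∀ y ∈ a, π (D.br x y) = D'.br (π x) (π y)) :
    ∃ ε > 0, ε ≤ 1 / 100 ∧ ∀ x ∈ a, ∀ y ∈ a, ‖x‖ ≤ ε → ‖y‖ ≤ ε → ∀ z, ‖z‖ ≤ 9 →
      D.exp x * D.exp y = D.exp z → z ∈ a ∧ D'.exp (π x) * D'.exp (π y) = D'.exp (π z) := by
  set j : Submodule ℝ (E × E') := a.map ((LinearMap.id : E →ₗ[ℝ] E).prod (π : E →ₗ[ℝ] E')) with hj
  have hjm : ∀ x ∈ a, (x, π x) ∈ j := fun x hx => ⟨x, hx, rfl⟩
  have hjm' : ∀ p ∈ j, p.1 ∈ a ∧ p.2 = π p.1 := by
    rintro _ ⟨x, hx, rfl⟩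
    exact ⟨hx, rfl⟩
  obtain ⟨ε, hε, hε1, hmod⟩ := (D.prod D').mod_sub j
  set δ : ℝ := ε / (1 + ‖π‖) with hδ
  have h1π : 0 < 1 + ‖π‖ := by positivity
  have hδε : δ ≤ ε := by
    rw [hδ, div_le_iff₀ h1π]; nlinarith [norm_nonneg π]
  have hπb : ∀ x, ‖x‖ ≤ δ → ‖π x‖ ≤ ε := by
    intro x hx
    calc ‖π x‖ ≤ ‖π‖ * ‖x‖ := π.le_opNorm x
      _ ≤ (1 + ‖π‖) * δ := by
        refine mul_le_mul (by linarith) hx (norm_nonneg _) h1π.le
      _ = ε := by rw [hδ]; field_simp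
  have hclosed : ∀ u ∈ j, ∀ v ∈ j, (D.prod D').br u v ∈ j := by
    intro u hu v hv
    obtain ⟨u1, u2⟩ := hjm' u hu
    obtain ⟨v1, v2⟩ := hjm' v hv
    rw [prod_br, u2, v2, ← hπ _ u1 _ v1]
    exact hjm _ (ha _ u1 _ v1)
  refine ⟨δ, by positivity, hδε.trans hε1, ?_⟩
  intro x hx y hy hxδ hyδ z hz9 hz
  obtain ⟨w, hw1, hw2, hw3⟩ := D'.toC11.mul_ex (x := π x) (y := π y)
    (by linarith [hπb x hxδ]) (by linarith [hπb y hyδ])
  rw [toC11_e] at hw1
  have hw9 : ‖w‖ ≤ 9 := by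
    have e1 := hπb x hxδ
    have e2 := hπb y hyδ
    have : ‖w‖ ≤ ‖w - π x - π y‖ + ‖π x‖ + ‖π y‖ := by
      calc ‖w‖ = ‖(w - π x - π y) + π x + π y‖ := by congr 1; abel
        _ ≤ _ := (norm_add_le _ _).trans (by gcongr; exact norm_add_le _ _)
    nlinarith [norm_nonneg (π x), norm_nonneg (π y)]
  have key := hmod (x, π x) (y, π y) (z, w)
    (by rw [Prod.norm_def]; exact max_le (hxδ.trans hδε) (hπb x hxδ))
    (by rw [Prod.norm_def]; exact max_le (hyδ.trans hδε) (hπb y hyδ))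
    (fun v hv => hclosed _ (hjm x hx) v hv) (fun v hv => hclosed _ (hjm y hy) v hv)
    hclosed (hclosed _ (hjm x hx) _ (hjm y hy))
    (by rw [Prod.norm_def]; exact max_le hz9 hw9)
    (by rw [prod_exp, prod_exp, prod_exp, Prod.mk_mul_mk, hz, hw1])
  obtain ⟨k1, k2⟩ := hjm' _ key
  simp only [Prod.fst_sub, Prod.snd_sub] at k1 k2
  have hza : z ∈ a := by
    have : z = (z - x - y) + x + y := by abel
    rw [this]; exact a.add_mem (a.add_mem k1 hx) hy
  refine ⟨hza, ?_⟩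
  rw [map_sub, map_sub] at k2
  have : w = π z := by
    have := congrArg (fun e => e + π x + π y) k2
    simpa using this
  rw [← this]; exact hw1

end ExpData

end Pool.Agent.H72.ProLie
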