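import Pool.Agent.H72.ProLie.Develop
import Pool.Agent.H72.ProLie.Prod
import Pool.Agent.H72.ProLie.Closure

/-! No null-homotopic one-parameter loops in the radical. -/

set_option linter.unusedSectionVars false

open Filter Topology Set Metric

namespace Pool.Agent.H72.ProLie

section alg

variable {E : Type*} [NormedAddCommGroup E] [NormedSpace ℝ E] (br : E →L[ℝ] E →L[ℝ] E)

theorem bs_mem {a b : Submodule ℝ E} {x y : E} (hx : x ∈ a) (hy : y ∈ b) : br x y ∈ bs br a b :=
  Submodule.subset_span ⟨x, hx, y, hy, rfl⟩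

theorem bs_le {a b c : Submodule ℝ E} (h : ∀ x ∈ a, ∀ y ∈ b, br x y ∈ c) : bs br a b ≤ c := by
  refine Submodule.span_le.2 ?_
  rintro _ ⟨x, hx, y, hy, rfl⟩
  exact h x hx y hy

theorem bs_mono {a b c d : Submodule ℝ E} (h1 : a ≤ c) (h2 : b ≤ d) : bs br a b ≤ bs br c d :=
  bs_le br (fun _ hx _ hy => bs_mem br (h1 hx) (h2 hy))

theorem dser_mono {a b : Submodule ℝ E} (h : a ≤ b) (k : ℕ) : dser br a k ≤ dser br b k := by
  induction k with
  | zero => exact h
  | succ k ih => exact bs_mono br ih ih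

theorem dser_add (a : Submodule ℝ E) (m k : ℕ) : dser br (dser br a m) k = dser br a (m + k) := by
  induction k with
  | zero => rfl
  | succ k ih => rw [← Nat.add_assoc]; show bs br _ _ = bs br _ _; rw [ih]

end alg

namespace ExpData

variable {G : Type*} [Group G] [TopologicalSpace G] [IsTopologicalGroup G] [T2Space G]
  {E : Type*} [NormedAddCommGroup E] [NormedSpace ℝ E] [FiniteDimensional ℝ E] (D : ExpData G E)

theorem lieC_bot : D.lieC (⊥ : Submodule ℝ E) = ⊥ := by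
  rw [eq_bot_iff]
  intro v hv
  have h1 : D.AHc (⊥ : Submodule ℝ E) = ⊥ := by
    have : D.AH (⊥ : Submodule ℝ E) = ⊥ := by
      rw [AH, Subgroup.closure_eq_bot_iff]
      rintro _ ⟨x, hx, rfl⟩
      have : x = 0 := (Submodule.mem_bot ℝ).1 hx
      rw [this, D.exp_zero]; rfl
    rw [AHc, this, eq_bot_iff]
    exact Subgroup.topologicalClosure_minimal _ le_rfl (by
      rw [Subgroup.coe_bot]; exact isClosed_singleton)
  have h2 : ∀ t : ℝ, D.exp (t • v) = D.exp (t • (0 : E)) := by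
    intro t
    have := hv t
    rw [h1, Subgroup.mem_bot] at this
    rw [this, smul_zero, D.exp_zero]
  exact (Submodule.mem_bot ℝ).2 (D.exp_line_unique' h2)

/-- solvability passes to the Lie algebra of the closure -/
theorem dser_lieC (b : Submodule ℝ E) (hb : ∀ x ∈ b, ∀ y ∈ b, D.br x y ∈ b) (k : ℕ) :
    dser D.br (D.lieC b) (k + 1) ≤ dser D.br b (k + 1) := by
  have h1 : dser D.br (D.lieC b) 1 ≤ dser D.br b 1 := by
    refine bs_le _ (fun x hx y hy => ?_)
    exact D.lieC_br (c := bs D.br b b) (fun x hx y hy => bs_mem _ hx hy) (bs_le _ hb) x hx y hy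
  have := dser_mono D.br h1 k
  rw [dser_add, dser_add, add_comm 1 k] at this
  exact this

theorem endp_NJ_mem {A : Subgroup G} {hA : IsClosed (A : Set G)} {j : Submodule ℝ E}
    {B : Subgroup G} (hB : ∀ x ∈ j, D.exp x ∈ B) {g : TG A} (hg : g ∈ D.NJ hA j) :
    TG.endp A g ∈ B := by
  induction hg using Subgroup.closure_induction with
  | mem x hx =>
    obtain ⟨v, hv, rfl⟩ := hx
    rw [D.endp_eT]; exact hB _ hv
  | one => rw [map_one]; exact B.one_mem
  | mul x y _ _ hx hy => rw [map_mul]; exact B.mul_mem hx hy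
  | inv x _ hx => rw [map_inv]; exact B.inv_mem hx

/-- Chain on the edges. -/
theorem edges {L : Type*} [Group L] (W : Set G) (φ : G → L) (hφ1 : φ 1 = 1)
    (F : ℝ × ℝ → G) (F' : ℝ × ℝ → L) {r : ℝ} (hr : 0 < r) (h0 : F' (0, 0) = 1)
    (hF' : ∀ p ∈ Sq, ∀ q ∈ Sq, dist p q < r → (F p)⁻¹ * F q ∈ W ∧ F' q = F' p * φ ((F p)⁻¹ * F q))
    (f4 : ∀ t ∈ Icc (0 : ℝ) 1, F (1, t) = 1) (f5 : ∀ s ∈ Icc (0 : ℝ) 1, F (s, 0) = 1)
    (f6 : ∀ s ∈ Icc (0 : ℝ) 1, F (s, 1) = 1) :
    (∀ t ∈ Icc (0 : ℝ) 1, F' (1, t) = 1) ∧ (∀ s ∈ Icc (0 : ℝ) 1, F' (s, 0) = 1) ∧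
      (∀ s ∈ Icc (0 : ℝ) 1, F' (s, 1) = 1) := by
  have e1 : ∀ s ∈ Icc (0 : ℝ) 1, F' (s, 0) = 1 := by
    refine chain_interval (fun s => F' (s, 0) = 1) h0 hr ?_
    intro s hs t ht hst hP
    have := (hF' (s, 0) ⟨hs, zero_mem_I⟩ (t, 0) ⟨ht, zero_mem_I⟩ (by
      rw [Prod.dist_eq, dist_self, max_eq_left dist_nonneg, Real.dist_eq]; exact hst)).2
    rw [f5 s hs, f5 t ht, inv_one, one_mul, hφ1, mul_one] at this
    rw [this]; exact hP
  have e2 : ∀ t ∈ Icc (0 : ℝ) 1, F' (1, t) = 1 := by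
    refine chain_interval (fun t => F' (1, t) = 1) (e1 1 one_mem_I) hr ?_
    intro s hs t ht hst hP
    have := (hF' (1, s) ⟨one_mem_I, hs⟩ (1, t) ⟨one_mem_I, ht⟩ (by
      rw [Prod.dist_eq, dist_self, max_eq_right dist_nonneg, Real.dist_eq]; exact hst)).2
    rw [f4 s hs, f4 t ht, inv_one, one_mul, hφ1, mul_one] at this
    rw [this]; exact hP
  refine ⟨e2, e1, ?_⟩
  have e3 : ∀ s ∈ Icc (0 : ℝ) 1, F' (1 - s, 1) = 1 := by
    refine chain_interval (fun s => F' (1 - s, 1) = 1) (by simpa using e2 1 one_mem_I) hr ?_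
    intro s hs t ht hst hP
    have hs' : 1 - s ∈ Icc (0 : ℝ) 1 := ⟨by linarith [hs.2], by linarith [hs.1]⟩
    have ht' : 1 - t ∈ Icc (0 : ℝ) 1 := ⟨by linarith [ht.2], by linarith [ht.1]⟩
    have := (hF' (1 - s, 1) ⟨hs', one_mem_I⟩ (1 - t, 1) ⟨ht', one_mem_I⟩ (by
      rw [Prod.dist_eq, dist_self, max_eq_left dist_nonneg, Real.dist_eq]
      have : (1 - s) - (1 - t) = -(s - t) := by ring
      simp only
      rw [this, abs_neg]; exact hst)).2
    rw [f6 _ hs', f6 _ ht', inv_one, one_mul, hφ1, mul_one] at this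
    rw [this]; exact hP
  intro s hs
  have := e3 (1 - s) ⟨by linarith [hs.2], by linarith [hs.1]⟩
  rwa [sub_sub_cancel] at this

theorem lg_contOn {ε : ℝ} (hε : ε ≤ 1) (S : Set G) : ContinuousOn D.lg ((D.exp '' ball 0 ε) ∩ S) := by
  rintro _ ⟨⟨v, hv, rfl⟩, -⟩
  rw [mem_ball_zero_iff] at hv
  exact (D.lg_continuousAt (hv.trans_le hε)).continuousWithinAt

/-- The solvable case. -/
theorem solv_null (k : ℕ) : ∀ (R : Subgroup G) (hR : IsClosed (R : Set G)),
    dser D.br (D.lie R hR) k = ⊥ → ∀ v : D.lie R hR, D.eT v = 1 → (v : E) = 0 := by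
  induction k with
  | zero =>
    intro R hR h v _
    have h2 : (v : E) ∈ dser D.br (D.lie R hR) 0 := v.2
    rw [h] at h2
    exact (Submodule.mem_bot ℝ).1 h2
  | succ k ih =>
    rintro R hR hk ⟨v, hvr⟩ hv
    obtain ⟨F, f1, f2, f3', f4, f5, f6⟩ := (QuotientGroup.eq_one_iff _).1 hv
    have f3 : ∀ t ∈ Icc (0 : ℝ) 1, F (0, t) = D.exp (t • v) := f3'
    clear f3' hv
    show v = 0
    set r := D.lie R hR with hr
    set b := bs D.br r r with hb
    have hbr : b ≤ r := bs_le _ (fun x hx y hy => D.br_mem_lie hx hy)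
    have hR1c := D.AHc_closed b
    set R1 := D.AHc b with hR1
    have hR1R : R1 ≤ R := D.AHc_le hR hbr
    set r1 := D.lieC b with hr1
    have hbr1 : b ≤ r1 := D.le_lieC b
    have hr1r : r1 ≤ r := fun x hx t => hR1R (hx t)
    have hr1s : dser D.br r1 k = ⊥ := by
      rcases k with _ | k
      · have h0 : b = ⊥ := hk
        show r1 = ⊥
        rw [hr1, h0]; exact D.lieC_bot
      · have h1 := D.dser_lieC b (fun x hx y hy => bs_mem _ (hbr hx) (hbr hy)) k
        have h2 : dser D.br b (k + 1) = dser D.br r (k + 1 + 1) := by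
          have := dser_add D.br r 1 (k + 1)
          rw [add_comm 1 (k + 1)] at this
          exact this
        rw [h2, hk] at h1
        exact le_bot_iff.1 h1
    have hidl : D.IsIdl hR r1 :=
      { le := hr1r, br_mem := fun x hx v hv => hbr1 (bs_mem _ hx (hr1r hv)) }
    obtain ⟨π, hπ, hππ⟩ := exists_proj r1
    have hπsub : ∀ x, x - π x ∈ r1 := by
      intro x; rw [← hπ, map_sub, hππ, sub_self]
    have hπr : ∀ x ∈ r, π x ∈ r := by
      intro x hx
      have := r.sub_mem hx (hr1r (hπsub x))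
      rwa [sub_sub_cancel] at this
    obtain ⟨ε1, hε1, hloc⟩ := D.lie_local R hR
    obtain ⟨ε2, hε2, hε2', hmod⟩ := D.mod_sub r1
    set ε := min ε1 ε2 with hε
    have hεp : 0 < ε := by positivity
    have hεl : ε ≤ 1 := (min_le_right _ _).trans (by linarith)
    set W : Set G := D.exp '' ball 0 ε with hW
    have hWn : W ∈ 𝓝 (1 : G) := D.image_mem hεp
    have hlg : ∀ a ∈ W, a ∈ R → D.lg a ∈ r ∧ ‖D.lg a‖ < ε ∧ D.exp (D.lg a) = a := by
      rintro _ ⟨x, hx, rfl⟩ haR
      rw [mem_ball_zero_iff] at hx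
      rw [D.lg_exp (by linarith)]
      exact ⟨hloc x (hx.trans_le (min_le_left _ _)) haR, hx, rfl⟩
    set φ : G → Multiplicative E := fun g => Multiplicative.ofAdd (π (D.lg g)) with hφ
    have hφ1 : φ 1 = 1 := by
      rw [hφ]; simp only
      rw [← D.exp_zero, D.lg_exp (by simp), map_zero]; rfl
    set B : Subgroup (Multiplicative E) := AddSubgroup.toSubgroup r.toAddSubgroup with hB
    have hBm : ∀ x : E, Multiplicative.ofAdd x ∈ B ↔ x ∈ r := fun x => Iff.rfl
    obtain ⟨F', c1, c2, c3, ρ, hρ, c4⟩ := develop (L := Multiplicative E) R W hWn φ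
      (by
        have h1 := D.lg_contOn hεl (R : Set G)
        have h2 := π.continuous.comp_continuousOn h1
        exact continuous_ofAdd.comp_continuousOn h2)
      (by
        intro a ha haR b' hb' hbR hab
        obtain ⟨a1, a2, a3⟩ := hlg a ha haR
        obtain ⟨b1, b2, b3⟩ := hlg b' hb' hbR
        obtain ⟨d1, d2, d3⟩ := hlg _ hab (R.mul_mem haR hbR)
        have h1 := hmod (D.lg a) (D.lg b') (D.lg (a * b'))
          (a2.le.trans (min_le_right _ _)) (b2.le.trans (min_le_right _ _))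
          (fun v hv => hidl.br_mem _ a1 v hv) (fun v hv => hidl.br_mem _ b1 v hv)
          (fun u hu v hv => hidl.br_mem _ (hr1r hu) v hv) (hbr1 (bs_mem _ a1 b1))
          (by linarith) (by rw [a3, b3, d3])
        rw [← hπ, map_sub, map_sub, sub_sub, sub_eq_zero] at h1
        show Multiplicative.ofAdd _ = Multiplicative.ofAdd _ * Multiplicative.ofAdd _
        rw [← ofAdd_add, h1])
      F f1 f2 B (by
        intro a ha haR
        obtain ⟨a1, a2, a3⟩ := hlg a ha haR
        exact (hBm _).2 (hπr _ a1))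
    obtain ⟨e1, e2, e3⟩ := edges W φ hφ1 F F' hρ c2 c4 f4 f5 f6
    -- the edge of v
    have hρ' : 0 < min ρ (1 / (‖v‖ + 1)) := by positivity
    have e4 : ∀ t ∈ Icc (0 : ℝ) 1, F' (0, t) = Multiplicative.ofAdd (t • π v) := by
      refine chain_interval (fun t => F' (0, t) = Multiplicative.ofAdd (t • π v))
        (by rw [c2, zero_smul]; rfl) hρ' ?_
      intro s hs t ht hst hP
      have h1 := c4 (0, s) ⟨zero_mem_I, hs⟩ (0, t) ⟨zero_mem_I, ht⟩ (by
        rw [Prod.dist_eq, dist_self, max_eq_right dist_nonneg, Real.dist_eq]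
        exact hst.trans_le (min_le_left _ _))
      have h2 : (F (0, s))⁻¹ * F (0, t) = D.exp ((t - s) • v) := by
        rw [f3 s hs, f3 t ht, ← D.exp_neg, ← neg_smul, ← D.exp_add]
        congr 2; ring
      have h3 : ‖(t - s) • v‖ ≤ 9 := by
        rw [norm_smul, Real.norm_eq_abs, abs_sub_comm]
        have h4 : |s - t| ≤ 1 / (‖v‖ + 1) := (hst.trans_le (min_le_right _ _)).le
        have h5 : (0 : ℝ) < ‖v‖ + 1 := by positivity
        rw [le_div_iff₀ h5] at h4
        nlinarith [abs_nonneg (s - t), norm_nonneg v]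
      rw [h1.2, h2, hP]
      show Multiplicative.ofAdd _ * Multiplicative.ofAdd _ = _
      rw [D.lg_exp h3, ← ofAdd_add, map_smul, ← add_smul, add_sub_cancel]
    have hπv : π v = 0 := by
      have h1 := e4 1 one_mem_I
      rw [e3 0 zero_mem_I, one_smul] at h1
      exact (Multiplicative.ofAdd.injective h1.symm : _)
    have hv1 : v ∈ r1 := (hπ _).1 hπv
    -- multiplication modulo R1
    have hmul : ∀ a ∈ r, ∀ b' ∈ r, (D.exp a * D.exp b')⁻¹ * D.exp (a + b') ∈ R1 := by
      intro a ha b' hb'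
      have h1 := hidl.eT_mul ⟨a, ha⟩ ⟨b', hb'⟩ (hbr1 (bs_mem _ ha hb'))
      have h2 := D.endp_NJ_mem (B := R1) (fun x hx => D.exp_mem_of_lie (hA := hR1c) hx) h1
      rw [map_mul, map_inv, map_mul, D.endp_eT, D.endp_eT, D.endp_eT] at h2
      exact h2
    have hP : ∀ p ∈ Sq, F p * D.exp (-(Multiplicative.toAdd (F' p))) ∈ R1 := by
      refine chain_square (fun p => F p * D.exp (-(Multiplicative.toAdd (F' p))) ∈ R1) ?_ hρ ?_
      · rw [c2, f5 0 zero_mem_I]
        simp [D.exp_zero, R1.one_mem]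
      · intro p hp q hq hpq hPp
        obtain ⟨g1, g2⟩ := c4 p hp q hq hpq
        obtain ⟨x1, x2, x3⟩ := hlg _ g1 (R.mul_mem (R.inv_mem (f2 p)) (f2 q))
        set x := D.lg ((F p)⁻¹ * F q) with hx
        set u := Multiplicative.toAdd (F' p) with hu
        have hur : u ∈ r := c3 p
        have hFq : F q = F p * D.exp x := by rw [x3]; group
        have hF'q : Multiplicative.toAdd (F' q) = u + π x := by rw [g2]; rfl
        have hxπ := hπsub x
        have m1 := hmul (-x) (r.neg_mem x1) (-u) (r.neg_mem hur)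
        have m2 := hmul (-x + -u) (r.add_mem (r.neg_mem x1) (r.neg_mem hur)) (x - π x) (hr1r hxπ)
        have m3 : D.exp (x - π x) ∈ R1 := D.exp_mem_of_lie (hA := hR1c) hxπ
        have e5 : -x + -u + (x - π x) = -(u + π x) := by abel
        rw [e5] at m2
        have e6 : F q * D.exp (-(u + π x)) = (F p * D.exp (-u)) *
            (((D.exp (-x) * D.exp (-u))⁻¹ * D.exp (-x + -u)) * D.exp (x - π x) *
            ((D.exp (-x + -u) * D.exp (x - π x))⁻¹ * D.exp (-(u + π x)))) := by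
          rw [hFq]
          have e7 : D.exp (-x) = (D.exp x)⁻¹ := D.exp_neg x
          rw [e7]
          group
        show F q * D.exp (-(Multiplicative.toAdd (F' q))) ∈ R1
        rw [hF'q, e6]
        exact R1.mul_mem hPp (R1.mul_mem (R1.mul_mem m1 m3) m2)
    have := ih R1 hR1c hr1s ⟨v, hv1⟩ ?_
    · exact this
    refine (QuotientGroup.eq_one_iff _).2 ⟨fun p => F (cl2 p) * D.exp (-(Multiplicative.toAdd (F' (cl2 p)))), ?_, fun p => hP _ (cl2_mem p), ?_, ?_, ?_, ?_⟩
    · have h1 : Continuous fun p => Multiplicative.toAdd (F' (cl2 p)) :=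
        continuous_toAdd.comp (c1.comp cl2_cont)
      exact (f1.comp cl2_cont).mul (D.cont.comp h1.neg)
    · intro t ht
      have hm : ((0 : ℝ), t) ∈ Sq := ⟨zero_mem_I, ht⟩
      show F (cl2 (0, t)) * D.exp (-(Multiplicative.toAdd (F' (cl2 (0, t))))) = _
      rw [cl2_of_mem hm, f3 t ht, e4 t ht, hπv, smul_zero]
      simp [D.exp_zero, ep_apply]
    · intro t ht
      have hm : ((1 : ℝ), t) ∈ Sq := ⟨one_mem_I, ht⟩
      show F (cl2 (1, t)) * D.exp (-(Multiplicative.toAdd (F' (cl2 (1, t))))) = _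
      rw [cl2_of_mem hm, f4 t ht, e1 t ht]
      simp [D.exp_zero]
    · intro s hs
      have hm : (s, (0 : ℝ)) ∈ Sq := ⟨hs, zero_mem_I⟩
      show F (cl2 (s, 0)) * D.exp (-(Multiplicative.toAdd (F' (cl2 (s, 0))))) = _
      rw [cl2_of_mem hm, f5 s hs, e2 s hs]
      simp [D.exp_zero]
    · intro s hs
      have hm : (s, (1 : ℝ)) ∈ Sq := ⟨hs, one_mem_I⟩
      show F (cl2 (s, 1)) * D.exp (-(Multiplicative.toAdd (F' (cl2 (s, 1))))) = _
      rw [cl2_of_mem hm, f6 s hs, e3 s hs]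
      simp [D.exp_zero]

end ExpData

end Pool.Agent.H72.ProLie
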