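import Pool.Agent.H72.ProLie.NoCircle

/-! Lemma D: no null-homotopic one-parameter loops in the radical (general case). -/

set_option linter.unusedSectionVars false

open Filter Topology Set Metric

namespace Pool.Agent.H72.ProLie

namespace ExpData

variable {G : Type*} [Group G] [TopologicalSpace G] [IsTopologicalGroup G] [T2Space G]
  {E : Type*} [NormedAddCommGroup E] [NormedSpace ℝ E] [FiniteDimensional ℝ E] (D : ExpData G E)

/-- Lemma D. -/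
theorem null_rad (A : Subgroup G) (hA : IsClosed (A : Set G)) (j : Submodule ℝ E)
    (hj : IsLieIdl D.br (D.lie A hA) j) (hs : IsSolv D.br j) (π : E →L[ℝ] E)
    (hπ1 : ∀ x ∈ D.lie A hA, π x ∈ D.lie A hA)
    (hπ2 : ∀ x ∈ D.lie A hA, ∀ y ∈ D.lie A hA, π (D.br x y) = D.br (π x) (π y))
    (hπ3 : ∀ x ∈ D.lie A hA, π (π x) = π x) (hπ4 : ∀ x ∈ D.lie A hA, π x = 0 ↔ x ∈ j)
    (v : D.lie A hA) (hv : (v : E) ∈ j) (h : D.eT v = 1) : (v : E) = 0 := by
  obtain ⟨v, hva⟩ := v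
  replace hv : v ∈ j := hv
  obtain ⟨F, f1, f2, f3', f4, f5, f6⟩ := (QuotientGroup.eq_one_iff _).1 h
  have f3 : ∀ t ∈ Icc (0 : ℝ) 1, F (0, t) = D.exp (t • v) := f3'
  clear f3' h
  show v = 0
  set a := D.lie A hA with ha
  have hbra : ∀ x ∈ a, ∀ y ∈ a, D.br x y ∈ a := fun x hx y hy => D.br_mem_lie hx hy
  have hjj : ∀ x ∈ j, ∀ y ∈ j, D.br x y ∈ j := fun x hx y hy => hj.br_mem x (hj.le hx) y hy
  -- the closed group of the radical
  set R := D.AHc j with hR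
  have hRc := D.AHc_closed j
  have hRs : ∃ k, dser D.br (D.lie R hRc) k = ⊥ := by
    obtain ⟨k, hk⟩ := hs
    have h1 := D.dser_lieC j hjj k
    have h2 : dser D.br j (k + 1) = ⊥ := by
      show bs D.br _ _ = ⊥
      rw [hk, eq_bot_iff]
      refine bs_le _ (fun x hx y _ => ?_)
      rw [(Submodule.mem_bot ℝ).1 hx]; simp
    rw [h2] at h1
    exact ⟨k + 1, le_bot_iff.1 h1⟩
  obtain ⟨k, hk⟩ := hRs
  have hvR : v ∈ D.lie R hRc := D.le_lie_AHc j hv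
  suffices hT : D.eT (⟨v, hvR⟩ : D.lie R hRc) = 1 by
    have := D.solv_null k R hRc hk ⟨v, hvR⟩ hT
    exact this
  -- the local homomorphism
  obtain ⟨ε1, hε1, hloc⟩ := D.lie_local A hA
  obtain ⟨ε2, hε2, hε2', hhom⟩ := D.hom_local D a hbra π hπ2
  obtain ⟨ε3, hε3, hε3', hmod⟩ := D.mod_sub j
  set ε := min (min ε1 ε2) (ε3 / (1 + ‖π‖)) with hε
  have h1π : 0 < 1 + ‖π‖ := by positivity
  have hεp : 0 < ε := by positivity
  have hε_1 : ε ≤ ε1 := (min_le_left _ _).trans (min_le_left _ _)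
  have hε_2 : ε ≤ ε2 := (min_le_left _ _).trans (min_le_right _ _)
  have hε_3 : (1 + ‖π‖) * ε ≤ ε3 := by
    have : ε ≤ ε3 / (1 + ‖π‖) := min_le_right _ _
    rwa [le_div_iff₀ h1π, mul_comm] at this
  have hεl : ε ≤ 1 := hε_2.trans (by linarith)
  set W : Set G := D.exp '' ball 0 ε with hW
  have hWn : W ∈ 𝓝 (1 : G) := D.image_mem hεp
  have hlg : ∀ g ∈ W, g ∈ A → D.lg g ∈ a ∧ ‖D.lg g‖ < ε ∧ D.exp (D.lg g) = g := by
    rintro _ ⟨x, hx, rfl⟩ haR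
    rw [mem_ball_zero_iff] at hx
    rw [D.lg_exp (by linarith)]
    exact ⟨hloc x (hx.trans_le hε_1) haR, hx, rfl⟩
  set φ : G → G := fun g => D.exp (π (D.lg g)) with hφ
  have hφ1 : φ 1 = 1 := by
    rw [hφ]; simp only
    rw [← D.exp_zero, D.lg_exp (by simp), map_zero]
  obtain ⟨F', c1, c2, c3, ρ, hρ, c4⟩ := develop A W hWn φ
    (by
      have h1 := D.lg_contOn hεl (A : Set G)
      have h2 := π.continuous.comp_continuousOn h1
      exact D.cont.comp_continuousOn h2)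
    (by
      intro g hg hgA g' hg' hgA' hab
      obtain ⟨a1, a2, a3⟩ := hlg g hg hgA
      obtain ⟨b1, b2, b3⟩ := hlg g' hg' hgA'
      obtain ⟨d1, d2, d3⟩ := hlg _ hab (A.mul_mem hgA hgA')
      exact (hhom _ a1 _ b1 (a2.le.trans hε_2) (b2.le.trans hε_2) _ (by linarith)
        (by rw [a3, b3, d3])).2.symm)
    F f1 f2 (D.AHc a) (by
      intro g hg hgA
      obtain ⟨a1, a2, a3⟩ := hlg g hg hgA
      exact D.exp_mem_AHc (hπ1 _ a1))
  obtain ⟨e1, e2, e3⟩ := edges W φ hφ1 F F' hρ c2 c4 f4 f5 f6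
  have hπv : π v = 0 := (hπ4 v hva).2 hv
  have hρ' : 0 < min ρ (1 / (‖v‖ + 1)) := by positivity
  have e4 : ∀ t ∈ Icc (0 : ℝ) 1, F' (0, t) = 1 := by
    refine chain_interval (fun t => F' (0, t) = 1) c2 hρ' ?_
    intro s hs t ht hst hP
    have h1 := c4 (0, s) ⟨zero_mem_I, hs⟩ (0, t) ⟨zero_mem_I, ht⟩ (by
      rw [Prod.dist_eq, dist_self, max_eq_right dist_nonneg, Real.dist_eq]
      exact hst.trans_le (min_le_left _ _))
    have h2 : (F (0, s))⁻¹ * F (0, t) = D.exp ((t - s) • v) := by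
      rw [f3 s hs, f3 t ht, ← D.exp_neg, ← neg_smul, ← D.exp_add]
      congr 2; ring
    have h3 : ‖(t - s) • v‖ ≤ 9 := by
      rw [norm_smul, Real.norm_eq_abs, abs_sub_comm]
      have h4 : |s - t| ≤ 1 / (‖v‖ + 1) := (hst.trans_le (min_le_right _ _)).le
      have h5 : (0 : ℝ) < ‖v‖ + 1 := by positivity
      rw [le_div_iff₀ h5] at h4
      nlinarith [abs_nonneg (s - t), norm_nonneg v]
    rw [h1.2, h2, hP, one_mul]
    show D.exp (π (D.lg _)) = 1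
    rw [D.lg_exp h3, map_smul, hπv, smul_zero, D.exp_zero]
  -- the small commutation
  have hsm : ∀ x ∈ a, ‖x‖ < ε → D.exp x * (D.exp (π x))⁻¹ ∈ D.exp '' (j : Set E) := by
    intro x hx hxε
    have hx3 : ‖x‖ ≤ ε3 := by nlinarith [norm_nonneg π, norm_nonneg x]
    have hπ3' : ‖-π x‖ ≤ ε3 := by
      rw [norm_neg]
      calc ‖π x‖ ≤ ‖π‖ * ‖x‖ := π.le_opNorm x
        _ ≤ (1 + ‖π‖) * ε := by
          refine mul_le_mul (by linarith) hxε.le (norm_nonneg _) h1π.le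
        _ ≤ ε3 := hε_3
    obtain ⟨z, hz1, hz2, hz3⟩ := D.toC11.mul_ex (x := x) (y := -π x) (by linarith) (by linarith)
    rw [toC11_e] at hz1
    have hz9 : ‖z‖ ≤ 9 := by
      have : ‖z‖ ≤ ‖z - x - -π x‖ + ‖x‖ + ‖-π x‖ := by
        calc ‖z‖ = ‖(z - x - -π x) + x + -π x‖ := by congr 1; abel
          _ ≤ _ := (norm_add_le _ _).trans (by gcongr; exact norm_add_le _ _)
      nlinarith [norm_nonneg x, norm_nonneg (-π x)]
    have hbrj : D.br x (-π x) ∈ j := by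
      rw [map_neg]
      refine j.neg_mem ((hπ4 _ (hbra _ hx _ (hπ1 x hx))).1 ?_)
      rw [hπ2 _ hx _ (hπ1 x hx), hπ3 x hx, D.br_self]
    have hzj := hmod x (-π x) z hx3 hπ3' (fun v hv => hj.br_mem _ hx v hv)
      (fun v hv => hj.br_mem _ (a.neg_mem (hπ1 x hx)) v hv) hjj hbrj hz9 hz1
    have hxj : x - π x ∈ j := by
      refine (hπ4 _ (a.sub_mem hx (hπ1 x hx))).1 ?_
      rw [map_sub, hπ3 x hx, sub_self]
    have hzj' : z ∈ j := by
      have : z = (z - x - -π x) + (x - π x) := by abel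
      rw [this]; exact j.add_mem hzj hxj
    exact ⟨z, hzj', by rw [← D.exp_neg, hz1]⟩
  have hP : ∀ p ∈ Sq, F p * (F' p)⁻¹ ∈ R := by
    refine chain_square (fun p => F p * (F' p)⁻¹ ∈ R) ?_ hρ ?_
    · rw [c2, f5 0 zero_mem_I]
      simp [R.one_mem]
    · intro p hp q hq hpq hPp
      obtain ⟨g1, g2⟩ := c4 p hp q hq hpq
      obtain ⟨x1, x2, x3⟩ := hlg _ g1 (A.mul_mem (A.inv_mem (f2 p)) (f2 q))
      set x := D.lg ((F p)⁻¹ * F q) with hx
      obtain ⟨z, hz, hz'⟩ := hsm x x1 x2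
      have hFq : F q = F p * D.exp x := by rw [x3]; group
      have hF'q : F' q = F' p * D.exp (π x) := g2
      have e6 : F q * (F' q)⁻¹ = (F p * (F' p)⁻¹) * (F' p * (D.exp x * (D.exp (π x))⁻¹) * (F' p)⁻¹) := by
        rw [hFq, hF'q]; group
      rw [e6, ← hz', D.Ad_spec']
      refine R.mul_mem hPp (D.exp_mem_AHc ?_)
      exact D.Ad_stable (b := a) (j := j) (fun y hy v hv => hj.br_mem y hy v hv) (c3 p) hz
  refine (QuotientGroup.eq_one_iff _).2 ⟨fun p => F (cl2 p) * (F' (cl2 p))⁻¹, ?_,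
    fun p => hP _ (cl2_mem p), ?_, ?_, ?_, ?_⟩
  · exact (f1.comp cl2_cont).mul (c1.comp cl2_cont).inv
  · intro t ht
    have hm : ((0 : ℝ), t) ∈ Sq := ⟨zero_mem_I, ht⟩
    show F (cl2 (0, t)) * (F' (cl2 (0, t)))⁻¹ = _
    rw [cl2_of_mem hm, f3 t ht, e4 t ht, inv_one, mul_one]
    rfl
  · intro t ht
    have hm : ((1 : ℝ), t) ∈ Sq := ⟨one_mem_I, ht⟩
    show F (cl2 (1, t)) * (F' (cl2 (1, t)))⁻¹ = _
    rw [cl2_of_mem hm, f4 t ht, e1 t ht, inv_one, mul_one]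
  · intro s hs
    have hm : (s, (0 : ℝ)) ∈ Sq := ⟨hs, zero_mem_I⟩
    show F (cl2 (s, 0)) * (F' (cl2 (s, 0)))⁻¹ = _
    rw [cl2_of_mem hm, f5 s hs, e2 s hs, inv_one, mul_one]
  · intro s hs
    have hm : (s, (1 : ℝ)) ∈ Sq := ⟨hs, one_mem_I⟩
    show F (cl2 (s, 1)) * (F' (cl2 (s, 1)))⁻¹ = _
    rw [cl2_of_mem hm, f6 s hs, e3 s hs, inv_one, mul_one]

end ExpData

end Pool.Agent.H72.ProLie
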