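import Pool.Agent.H72.ProLie.ClosedSub

set_option linter.unusedSectionVars false

open Filter Topology Set Metric

namespace Pool.Agent.H72.ProLie

/-- clamping to the unit interval -/
def cl (t : ℝ) : ℝ := max 0 (min 1 t)

theorem cl_cont : Continuous cl := by unfold cl; fun_prop

theorem cl_mem (t : ℝ) : cl t ∈ Icc (0 : ℝ) 1 :=
  ⟨le_max_left _ _, max_le zero_le_one (min_le_left _ _)⟩

theorem cl_of_mem {t : ℝ} (ht : t ∈ Icc (0 : ℝ) 1) : cl t = t := by
  unfold cl; rw [min_eq_right ht.2, max_eq_right ht.1]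

theorem cl_zero : cl 0 = 0 := cl_of_mem ⟨le_rfl, zero_le_one⟩
theorem cl_one : cl 1 = 1 := cl_of_mem ⟨zero_le_one, le_rfl⟩

theorem zero_mem_I : (0 : ℝ) ∈ Icc (0 : ℝ) 1 := ⟨le_rfl, zero_le_one⟩
theorem one_mem_I : (1 : ℝ) ∈ Icc (0 : ℝ) 1 := ⟨zero_le_one, le_rfl⟩

variable {G : Type*} [Group G] [TopologicalSpace G] [IsTopologicalGroup G]

/-- Paths in the subgroup `A` starting at `1`. -/
def PG (A : Subgroup G) : Subgroup (ℝ → G) where
  carrier := {γ | Continuous γ ∧ γ 0 = 1 ∧ ∀ t, γ t ∈ A}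
  one_mem' := ⟨continuous_const, rfl, fun _ => A.one_mem⟩
  mul_mem' := by
    rintro a b ⟨a1, a2, a3⟩ ⟨b1, b2, b3⟩
    exact ⟨a1.mul b1, by simp [a2, b2], fun t => A.mul_mem (a3 t) (b3 t)⟩
  inv_mem' := by
    rintro a ⟨a1, a2, a3⟩
    exact ⟨a1.inv, by simp [a2], fun t => A.inv_mem (a3 t)⟩

variable {A : Subgroup G}

theorem PG.cont (γ : PG A) : Continuous γ.1 := γ.2.1
theorem PG.zero (γ : PG A) : γ.1 0 = 1 := γ.2.2.1
theorem PG.mem (γ : PG A) (t : ℝ) : γ.1 t ∈ A := γ.2.2.2 t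

/-- `F` is a null-homotopy of `γ`. -/
def IsNull (A : Subgroup G) (γ : ℝ → G) (F : ℝ × ℝ → G) : Prop :=
  Continuous F ∧ (∀ p, F p ∈ A) ∧ (∀ t ∈ Icc (0 : ℝ) 1, F (0, t) = γ t) ∧
    (∀ t ∈ Icc (0 : ℝ) 1, F (1, t) = 1) ∧ (∀ s ∈ Icc (0 : ℝ) 1, F (s, 0) = 1) ∧
    (∀ s ∈ Icc (0 : ℝ) 1, F (s, 1) = 1)

/-- Null-homotopic loops. -/
def NullG (A : Subgroup G) : Subgroup (PG A) where
  carrier := {γ | ∃ F, IsNull A γ.1 F}
  one_mem' := ⟨fun _ => 1, continuous_const, fun _ => A.one_mem, fun _ _ => rfl, fun _ _ => rfl,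
    fun _ _ => rfl, fun _ _ => rfl⟩
  mul_mem' := by
    rintro a b ⟨F, f1, f2, f3, f4, f5, f6⟩ ⟨F', f1', f2', f3', f4', f5', f6'⟩
    refine ⟨fun p => F p * F' p, f1.mul f1', fun p => A.mul_mem (f2 p) (f2' p), ?_, ?_, ?_, ?_⟩
    · intro t ht; simp [f3 t ht, f3' t ht]
    · intro t ht; simp [f4 t ht, f4' t ht]
    · intro t ht; simp [f5 t ht, f5' t ht]
    · intro t ht; simp [f6 t ht, f6' t ht]
  inv_mem' := by
    rintro a ⟨F, f1, f2, f3, f4, f5, f6⟩
    refine ⟨fun p => (F p)⁻¹, f1.inv, fun p => A.inv_mem (f2 p), ?_, ?_, ?_, ?_⟩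
    · intro t ht; simp [f3 t ht]
    · intro t ht; simp [f4 t ht]
    · intro t ht; simp [f5 t ht]
    · intro t ht; simp [f6 t ht]

instance : (NullG A).Normal := by
  constructor
  rintro γ ⟨F, f1, f2, f3, f4, f5, f6⟩ δ
  refine ⟨fun p => δ.1 p.2 * F p * (δ.1 p.2)⁻¹, ?_, ?_, ?_, ?_, ?_, ?_⟩
  · have := PG.cont δ
    fun_prop
  · intro p; exact A.mul_mem (A.mul_mem (PG.mem δ _) (f2 p)) (A.inv_mem (PG.mem δ _))
  · intro t ht; simp [f3 t ht]
  · intro t ht; simp [f4 t ht]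
  · intro t ht; simp [f5 t ht]
  · intro t ht; simp [f6 t ht]

/-- The path-homotopy group. -/
abbrev TG (A : Subgroup G) := PG A ⧸ NullG A

theorem NullG.of_eq_one {γ : PG A} (h : ∀ t ∈ Icc (0 : ℝ) 1, γ.1 t = 1) : γ ∈ NullG A :=
  ⟨fun _ => 1, continuous_const, fun _ => A.one_mem, fun t ht => (h t ht).symm, fun _ _ => rfl,
    fun _ _ => rfl, fun _ _ => rfl⟩

theorem NullG.end_eq {γ : PG A} (h : γ ∈ NullG A) : γ.1 1 = 1 := by
  obtain ⟨F, -, -, f3, -, -, f6⟩ := h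
  rw [← f3 1 one_mem_I, f6 0 zero_mem_I]

theorem TG.eq_of {γ δ : PG A} (h : ∀ t ∈ Icc (0 : ℝ) 1, γ.1 t = δ.1 t) :
    (γ : TG A) = (δ : TG A) := by
  rw [QuotientGroup.eq]
  refine NullG.of_eq_one (fun t ht => ?_)
  simp [h t ht]

/-- end point -/
def TG.endp (A : Subgroup G) : TG A →* G :=
  QuotientGroup.lift (NullG A)
    { toFun := fun γ => γ.1 1, map_one' := rfl, map_mul' := fun _ _ => rfl }
    (fun _ hγ => NullG.end_eq hγ)

@[simp] theorem TG.endp_mk (γ : PG A) : TG.endp A (γ : TG A) = γ.1 1 := rfl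

/-- Loops are central. -/
theorem TG.loop_central {l : TG A} (hl : TG.endp A l = 1) (g : TG A) : l * g = g * l := by
  obtain ⟨lam, rfl⟩ := QuotientGroup.mk_surjective l
  obtain ⟨γ, rfl⟩ := QuotientGroup.mk_surjective g
  rw [TG.endp_mk] at hl
  rw [← QuotientGroup.mk_mul, ← QuotientGroup.mk_mul, QuotientGroup.eq]
  have hlc := PG.cont lam
  have hγc := PG.cont γ
  -- F(s,t) = (λ(a) γ(b))⁻¹ (γ(b) λ(a))
  refine ⟨fun p => (lam.1 ((1 - p.1) * p.2 + p.1 * min (2 * p.2) 1) *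
      γ.1 ((1 - p.1) * p.2 + p.1 * max (2 * p.2 - 1) 0))⁻¹ *
      (γ.1 ((1 - p.1) * p.2 + p.1 * max (2 * p.2 - 1) 0) *
        lam.1 ((1 - p.1) * p.2 + p.1 * min (2 * p.2) 1)), ?_, ?_, ?_, ?_, ?_, ?_⟩
  · fun_prop
  · intro p
    exact A.mul_mem (A.inv_mem (A.mul_mem (PG.mem _ _) (PG.mem _ _)))
      (A.mul_mem (PG.mem _ _) (PG.mem _ _))
  · intro t ht
    simp
  · intro t ht
    rcases le_total t (1 / 2) with h | h
    · have h1 : max (2 * t - 1) 0 = 0 := max_eq_right (by linarith)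
      simp [h1, PG.zero]
    · have h1 : min (2 * t) 1 = 1 := min_eq_right (by linarith)
      simp [h1, hl]
  · intro s hs
    simp [PG.zero]
  · intro s hs
    have h1 : min ((2 : ℝ) * 1) 1 = 1 := min_eq_right (by norm_num)
    simp only [h1]
    have h2 : (1 - s) * 1 + s * 1 = (1 : ℝ) := by ring
    rw [h2, hl]; simp

/-- Equality via homotopy. -/
theorem TG.eq_of_homotopy {γ δ : PG A} (F : ℝ × ℝ → G) (h : IsNull A (fun t => (γ.1 t)⁻¹ * δ.1 t) F) :
    (γ : TG A) = (δ : TG A) := by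
  rw [QuotientGroup.eq]
  exact ⟨F, h⟩

namespace ExpData

variable {E : Type*} [NormedAddCommGroup E] [NormedSpace ℝ E] (D : ExpData G E)

/-- coordinates -/
noncomputable def lg (g : G) : E := D.toC11.lg g

omit [IsTopologicalGroup G] in
theorem lg_exp {x : E} (hx : ‖x‖ ≤ 9) : D.lg (D.exp x) = x := D.toC11.lg_e hx

theorem near_exp {x0 : E} (hx0 : ‖x0‖ < 1) {η : ℝ} (hη : 0 < η) :
    ∀ᶠ g in 𝓝 (D.exp x0), ∃ x, D.exp x = g ∧ ‖x - x0‖ < η := by
  have h1 : Tendsto (fun g => (D.exp x0)⁻¹ * g) (𝓝 (D.exp x0)) (𝓝 1) := by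
    have : Continuous (fun g => (D.exp x0)⁻¹ * g) := by fun_prop
    simpa using this.tendsto (D.exp x0)
  filter_upwards [h1.eventually (D.eventually_small (r := min (η / 2) 1) (by positivity))] with g hg
  obtain ⟨w, hw1, hw2⟩ := hg
  have hwη : ‖w‖ < η / 2 := hw1.trans_le (min_le_left _ _)
  have hw3 : ‖w‖ < 1 := hw1.trans_le (min_le_right _ _)
  obtain ⟨x, hx1, hx2, -⟩ := D.toC11.mul_ex (x := x0) (y := w) (by linarith) (by linarith)
  rw [toC11_e] at hx1
  refine ⟨x, ?_, ?_⟩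
  · rw [← hx1, hw2, mul_inv_cancel_left]
  · have : x - x0 = (x - x0 - w) + w := by abel
    rw [this]
    refine (norm_add_le _ _).trans_lt ?_
    nlinarith [norm_nonneg x0, norm_nonneg w]

theorem lg_continuousAt {x0 : E} (hx0 : ‖x0‖ < 1) : ContinuousAt D.lg (D.exp x0) := by
  rw [Metric.continuousAt_iff']
  intro η hη
  filter_upwards [D.near_exp hx0 (η := min η 1) (by positivity)] with g hg
  obtain ⟨x, hx1, hx2⟩ := hg
  have h1 : ‖x‖ ≤ 9 := by
    have : ‖x‖ ≤ ‖x - x0‖ + ‖x0‖ := by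
      calc ‖x‖ = ‖(x - x0) + x0‖ := by rw [sub_add_cancel]
        _ ≤ _ := norm_add_le _ _
    linarith [hx2.trans_le (min_le_right _ _)]
  rw [← hx1, D.lg_exp h1, D.lg_exp (by linarith), dist_eq_norm]
  exact hx2.trans_le (min_le_left _ _)

theorem lg_comp_cont {X : Type*} [TopologicalSpace X] {f : X → G} (hf : Continuous f)
    (h : ∀ x, ∃ v, ‖v‖ < 1 ∧ D.exp v = f x) : Continuous fun x => D.lg (f x) := by
  rw [continuous_iff_continuousAt]
  intro x
  obtain ⟨v, hv1, hv2⟩ := h x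
  refine ContinuousAt.comp ?_ hf.continuousAt
  rw [← hv2]
  exact D.lg_continuousAt hv1

variable {hA : IsClosed (A : Set G)} [T2Space G]

/-- The one-parameter path. -/
def ep (v : D.lie A hA) : PG A :=
  ⟨fun t => D.exp (t • (v : E)), D.cont.comp (by fun_prop), by simp [D.exp_zero], fun t => v.2 t⟩

theorem ep_apply (v : D.lie A hA) (t : ℝ) : (D.ep v).1 t = D.exp (t • (v : E)) := rfl

/-- The exponential into the path-homotopy group. -/
def eT (v : D.lie A hA) : TG A := (D.ep v : TG A)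

@[simp] theorem endp_eT (v : D.lie A hA) : TG.endp A (D.eT v) = D.exp (v : E) := by
  simp [eT, ep_apply]

theorem ep_add_smul (v : D.lie A hA) (s t : ℝ) : D.ep ((s + t) • v) = D.ep (s • v) * D.ep (t • v) := by
  ext r
  show D.exp (r • ((s + t) • (v : E))) = D.exp (r • (s • (v : E))) * D.exp (r • (t • (v : E)))
  rw [smul_smul, smul_smul, smul_smul, ← D.exp_add, mul_add]

theorem eT_add_smul (v : D.lie A hA) (s t : ℝ) : D.eT ((s + t) • v) = D.eT (s • v) * D.eT (t • v) := by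
  rw [eT, ep_add_smul]; rfl

theorem eT_zero : D.eT (0 : D.lie A hA) = 1 := by
  have := D.eT_add_smul (0 : D.lie A hA) 0 0
  simpa using this

theorem eT_neg (v : D.lie A hA) : D.eT (-v) = (D.eT v)⁻¹ := by
  have := D.eT_add_smul v (-1) 1
  rw [neg_add_cancel, zero_smul, D.eT_zero, neg_smul, one_smul] at this
  exact eq_inv_of_mul_eq_one_left this.symm

theorem eT_nsmul (n : ℕ) (v : D.lie A hA) : D.eT ((n : ℝ) • v) = D.eT v ^ n := by
  induction n with
  | zero => simp [D.eT_zero]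
  | succ n ih =>
    have := D.eT_add_smul v n 1
    rw [one_smul, ih] at this
    push_cast
    rw [this, pow_succ]

variable [FiniteDimensional ℝ E]

theorem endp_mem (g : TG A) : TG.endp A g ∈ A := by
  obtain ⟨γ, rfl⟩ := QuotientGroup.mk_surjective g
  exact PG.mem γ 1

/-- Conjugation formula. -/
theorem eT_conj (g : TG A) (v : D.lie A hA) :
    g * D.eT v * g⁻¹ = D.eT ⟨D.Ad (TG.endp A g) v, D.Ad_mem_lie (endp_mem g) v.2⟩ := by
  obtain ⟨γ, rfl⟩ := QuotientGroup.mk_surjective g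
  rw [eT, eT, ← QuotientGroup.mk_inv, ← QuotientGroup.mk_mul, ← QuotientGroup.mk_mul]
  have hγc := PG.cont γ
  have hE : Continuous (fun p : ℝ × ℝ => D.exp (p.2 • (v : E))) := D.cont.comp (by fun_prop)
  refine TG.eq_of_homotopy (fun p => (γ.1 (p.1 + (1 - p.1) * p.2) * D.exp (p.2 • (v : E)) *
    (γ.1 (p.1 + (1 - p.1) * p.2))⁻¹)⁻¹ * (γ.1 1 * D.exp (p.2 • (v : E)) * (γ.1 1)⁻¹)) ⟨?_, ?_, ?_, ?_, ?_, ?_⟩
  · fun_prop
  · intro p
    exact A.mul_mem (A.inv_mem (A.mul_mem (A.mul_mem (PG.mem _ _) (v.2 _)) (A.inv_mem (PG.mem _ _))))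
      (A.mul_mem (A.mul_mem (PG.mem _ _) (v.2 _)) (A.inv_mem (PG.mem _ _)))
  · intro t ht
    simp only [zero_add, sub_zero, one_mul]
    show _ = (γ.1 t * (D.ep v).1 t * (γ.1 t)⁻¹)⁻¹ * D.exp (t • D.Ad (γ.1 1) (v : E))
    rw [← D.Ad_spec]; rfl
  · intro t ht
    simp only [sub_self, zero_mul, add_zero]
    group
  · intro s hs
    simp [D.exp_zero]
  · intro s hs
    have h2 : s + (1 - s) * 1 = (1 : ℝ) := by ring
    simp only [h2]
    group

/-- Small paths are homotopic to one-parameter paths. -/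
theorem small_path {ε : ℝ} (hε1 : ε ≤ 1) (hloc : ∀ v : E, ‖v‖ < ε → D.exp v ∈ A → v ∈ D.lie A hA)
    (δ : PG A) (h : ∀ t ∈ Icc (0 : ℝ) 1, ∃ v, ‖v‖ < ε ∧ D.exp v = δ.1 t) (X : D.lie A hA)
    (hX : ‖(X : E)‖ < ε) (hX1 : D.exp (X : E) = δ.1 1) : (δ : TG A) = D.eT X := by
  symm
  -- the logarithm
  set x : ℝ → E := fun t => D.lg (δ.1 (cl t)) with hx
  have hxc : Continuous x := by
    refine D.lg_comp_cont ((PG.cont δ).comp cl_cont) (fun t => ?_)
    obtain ⟨v, hv1, hv2⟩ := h (cl t) (cl_mem t)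
    exact ⟨v, hv1.trans_le hε1, hv2⟩
  have hxs : ∀ t, D.exp (x t) = δ.1 (cl t) ∧ x t ∈ D.lie A hA := by
    intro t
    obtain ⟨v, hv1, hv2⟩ := h (cl t) (cl_mem t)
    have : x t = v := by
      rw [hx]; simp only; rw [← hv2, D.lg_exp (by linarith)]
    rw [this]
    refine ⟨hv2, hloc v hv1 ?_⟩
    rw [hv2]; exact PG.mem δ _
  have hx0 : x 0 = 0 := by
    rw [hx]; simp only; rw [cl_zero, PG.zero, ← D.exp_zero, D.lg_exp (by simp)]
  have hx1 : x 1 = X := by
    rw [hx]; simp only; rw [cl_one, ← hX1, D.lg_exp (by linarith)]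
  refine TG.eq_of_homotopy (fun p => (D.exp (cl p.2 • (X : E)))⁻¹ *
    D.exp ((1 - cl p.1) • x p.2 + (cl p.1 * cl p.2) • (X : E))) ⟨?_, ?_, ?_, ?_, ?_, ?_⟩
  · have c1 : Continuous (fun p : ℝ × ℝ => D.exp (cl p.2 • (X : E))) :=
      D.cont.comp ((cl_cont.comp continuous_snd).smul continuous_const)
    have c2 : Continuous (fun p : ℝ × ℝ => D.exp ((1 - cl p.1) • x p.2 +
        (cl p.1 * cl p.2) • (X : E))) := by
      refine D.cont.comp ?_
      have k1 := cl_cont.comp (continuous_fst (X := ℝ) (Y := ℝ))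
      have k2 := cl_cont.comp (continuous_snd (X := ℝ) (Y := ℝ))
      have k3 := hxc.comp (continuous_snd (X := ℝ) (Y := ℝ))
      exact ((continuous_const.sub k1).smul k3).add ((k1.mul k2).smul continuous_const)
    exact c1.inv.mul c2
  · intro p
    refine A.mul_mem (A.inv_mem (X.2 _)) (D.exp_mem_of_lie (hA := hA) ?_)
    exact (D.lie A hA).add_mem ((D.lie A hA).smul_mem _ (hxs _).2) ((D.lie A hA).smul_mem _ X.2)
  · intro t ht
    simp only [cl_zero, sub_zero, one_smul, zero_mul, zero_smul, add_zero, cl_of_mem ht]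
    rw [(hxs t).1, cl_of_mem ht]; rfl
  · intro t ht
    simp [cl_one]
  · intro s hs
    simp [cl_zero, hx0, D.exp_zero]
  · intro s hs
    simp only [cl_one, one_smul, mul_one, hx1]
    rw [← add_smul, sub_add_cancel, one_smul, inv_mul_cancel]

/-- The path-homotopy group is generated by exponentials. -/
theorem TG_gen (A : Subgroup G) (hA : IsClosed (A : Set G)) :
    Subgroup.closure (Set.range (D.eT : D.lie A hA → TG A)) = ⊤ := by
  obtain ⟨ε0, hε0, hloc0⟩ := D.lie_local A hA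
  set ε := min ε0 1 with hε
  have hεp : 0 < ε := by positivity
  have hloc : ∀ v : E, ‖v‖ < ε → D.exp v ∈ A → v ∈ D.lie A hA :=
    fun v hv => hloc0 v (hv.trans_le (min_le_left _ _))
  rw [eq_top_iff]
  intro g _
  obtain ⟨γ, rfl⟩ := QuotientGroup.mk_surjective g
  -- uniform continuity
  have huc : ∃ n : ℕ, 0 < n ∧ ∀ s ∈ Icc (0 : ℝ) 1, ∀ t ∈ Icc (0 : ℝ) 1, |s - t| ≤ 1 / n →
      ∃ v, ‖v‖ < ε ∧ D.exp v = (γ.1 s)⁻¹ * γ.1 t := by
    obtain ⟨U, hU1, hU2, hU3⟩ := mem_nhds_iff.1 (D.image_mem hεp)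
    set S : Set (ℝ × ℝ) := {p | (γ.1 p.1)⁻¹ * γ.1 p.2 ∈ U} with hS
    have hSo : IsOpen S := by
      have hγc := PG.cont γ
      have : Continuous (fun p : ℝ × ℝ => (γ.1 p.1)⁻¹ * γ.1 p.2) := by fun_prop
      exact hU2.preimage this
    have hK : IsCompact ((fun t : ℝ => (t, t)) '' Icc (0 : ℝ) 1) :=
      isCompact_Icc.image (by fun_prop)
    have hKS : (fun t : ℝ => (t, t)) '' Icc (0 : ℝ) 1 ⊆ S := by
      rintro _ ⟨t, -, rfl⟩
      simp [hS, hU3]
    obtain ⟨η, hη, hηS⟩ := hK.exists_thickening_subset_open hSo hKS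
    obtain ⟨n, hn⟩ := exists_nat_one_div_lt hη
    refine ⟨n + 1, Nat.succ_pos n, fun s hs t ht hst => ?_⟩
    have hmem : (s, t) ∈ S := by
      refine hηS ?_
      rw [mem_thickening_iff]
      refine ⟨(s, s), ⟨s, hs, rfl⟩, ?_⟩
      rw [Prod.dist_eq, dist_self, max_eq_right dist_nonneg, dist_comm, Real.dist_eq]
      push_cast at hst
      exact lt_of_le_of_lt hst hn
    obtain ⟨v, hv1, hv2⟩ := hU1 hmem
    exact ⟨v, mem_ball_zero_iff.1 hv1, hv2⟩
  obtain ⟨n, hn, hsmall⟩ := huc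
  have hn' : (0 : ℝ) < n := by exact_mod_cast hn
  -- truncated paths
  let tr : ℕ → PG A := fun k => ⟨fun t => γ.1 (min (cl t) ((k : ℝ) / n)),
    (PG.cont γ).comp (cl_cont.min continuous_const), by
      simp only [cl_zero]
      rw [min_eq_left (by positivity), PG.zero], fun t => PG.mem γ _⟩
  have htr : ∀ k t, (tr k).1 t = γ.1 (min (cl t) ((k : ℝ) / n)) := fun _ _ => rfl
  have hind : ∀ k : ℕ, k ≤ n → ((tr k : PG A) : TG A) ∈
      Subgroup.closure (Set.range (D.eT : D.lie A hA → TG A)) := by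
    intro k
    induction k with
    | zero =>
      intro _
      have : ((tr 0 : PG A) : TG A) = 1 := by
        rw [QuotientGroup.eq_one_iff]
        refine NullG.of_eq_one (fun t ht => ?_)
        rw [htr, Nat.cast_zero, zero_div, min_eq_right (cl_mem t).1, PG.zero]
      rw [this]
      exact Subgroup.one_mem _
    | succ k ih =>
      intro hk
      have h1 := ih (by omega)
      set δ : PG A := (tr k)⁻¹ * tr (k + 1) with hδ
      have hδt : ∀ t, δ.1 t = (γ.1 (min (cl t) ((k : ℝ) / n)))⁻¹ *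
          γ.1 (min (cl t) (((k + 1 : ℕ) : ℝ) / n)) := fun _ => rfl
      have hk1 : (((k + 1 : ℕ) : ℝ)) / n ≤ 1 := by
        rw [div_le_one hn']; exact_mod_cast hk
      have hk0 : ((k : ℝ)) / n ≤ ((k + 1 : ℕ) : ℝ) / n := by
        push_cast; gcongr; linarith
      have hd : ((k + 1 : ℕ) : ℝ) / n - (k : ℝ) / n = 1 / n := by push_cast; ring
      have hsm : ∀ t, ∃ v, ‖v‖ < ε ∧ D.exp v = δ.1 t := by
        intro t
        rw [hδt]
        refine hsmall _ ⟨?_, ?_⟩ _ ⟨?_, ?_⟩ ?_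
        · exact le_min (cl_mem t).1 (by positivity)
        · exact (min_le_left _ _).trans (cl_mem t).2
        · exact le_min (cl_mem t).1 (by positivity)
        · exact (min_le_left _ _).trans (cl_mem t).2
        · have h5 : min (cl t) ((k : ℝ) / n) ≤ min (cl t) (((k + 1 : ℕ) : ℝ) / n) :=
            min_le_min le_rfl hk0
          have h6 : min (cl t) (((k + 1 : ℕ) : ℝ) / n) ≤ min (cl t) ((k : ℝ) / n) + 1 / n := by
            rw [← hd]
            rcases le_total (cl t) ((k : ℝ) / n) with h | h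
            · rw [min_eq_left h]
              refine (min_le_left _ _).trans ?_
              linarith
            · rw [min_eq_right h]
              refine (min_le_right _ _).trans ?_
              linarith
          rw [abs_le]; constructor <;> linarith
      obtain ⟨v, hv1, hv2⟩ := hsm 1
      have hvA : v ∈ D.lie A hA := hloc v hv1 (by rw [hv2]; exact PG.mem δ _)
      have h2 := D.small_path (hA := hA) (min_le_right _ _) hloc δ (fun t _ => hsm t) ⟨v, hvA⟩ hv1 hv2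
      have h3 : ((tr (k + 1) : PG A) : TG A) = ((tr k : PG A) : TG A) * (δ : TG A) := by
        rw [← QuotientGroup.mk_mul, hδ, mul_inv_cancel_left]
      rw [h3, h2]
      exact Subgroup.mul_mem _ h1 (Subgroup.subset_closure ⟨_, rfl⟩)
  have hlast := hind n le_rfl
  have : ((tr n : PG A) : TG A) = (γ : TG A) := by
    refine TG.eq_of (fun t ht => ?_)
    rw [htr, div_self hn'.ne', cl_of_mem ht, min_eq_left ht.2]
  rw [← this]
  exact hlast

end ExpData

end Pool.Agent.H72.ProLie
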