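import Pool.Agent.H72.ProLie.Data

open Filter Topology Set Metric

namespace Pool.Agent.H72.ProLie

theorem riemann_sum {F : Type*} [NormedAddCommGroup F] [NormedSpace ℝ F] [CompleteSpace F]
    (f : ℝ → F) (hf : Continuous f) (L : ℝ) (hL0 : 0 ≤ L)
    (hL : ∀ s ∈ Icc (0 : ℝ) 1, ∀ s' ∈ Icc (0 : ℝ) 1, ‖f s - f s'‖ ≤ L * |s - s'|)
    (n : ℕ) (hn : 0 < n) :
    ‖(∫ s in (0 : ℝ)..1, f s) - (n : ℝ)⁻¹ • ∑ j ∈ Finset.range n, f ((j : ℝ) / n)‖ ≤ L / n := by
  have hn' : (0 : ℝ) < n := by exact_mod_cast hn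
  have hsum : (∫ s in (0 : ℝ)..1, f s) =
      ∑ j ∈ Finset.range n, ∫ s in ((j : ℝ) / n)..(((j + 1 : ℕ) : ℝ) / n), f s := by
    have := intervalIntegral.sum_integral_adjacent_intervals (μ := MeasureTheory.volume) (f := f)
      (a := fun j : ℕ => (j : ℝ) / n) (n := n) (fun k _ => hf.intervalIntegrable _ _)
    rw [this]
    simp [hn'.ne']
  have hlen : ∀ j : ℕ, (((j + 1 : ℕ) : ℝ) / n) - ((j : ℝ) / n) = (n : ℝ)⁻¹ := by
    intro j; push_cast; field_simp; ring
  have hconst : ∀ j : ℕ, (n : ℝ)⁻¹ • f ((j : ℝ) / n) =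
      ∫ _s in ((j : ℝ) / n)..(((j + 1 : ℕ) : ℝ) / n), f ((j : ℝ) / n) := by
    intro j
    rw [intervalIntegral.integral_const, hlen]
  rw [hsum, Finset.smul_sum, Finset.sum_congr rfl (fun j _ => hconst j), ← Finset.sum_sub_distrib]
  have hterm : ∀ j ∈ Finset.range n,
      ‖(∫ s in ((j : ℝ) / n)..(((j + 1 : ℕ) : ℝ) / n), f s) -
        ∫ _s in ((j : ℝ) / n)..(((j + 1 : ℕ) : ℝ) / n), f ((j : ℝ) / n)‖ ≤
        (L / n) * (n : ℝ)⁻¹ := by
    intro j hj
    rw [Finset.mem_range] at hj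
    rw [← intervalIntegral.integral_sub (hf.intervalIntegrable _ _)
      (continuous_const.intervalIntegrable _ _)]
    have hjn : ((j : ℝ) / n) ≤ (((j + 1 : ℕ) : ℝ) / n) := by
      have := hlen j
      have h0 : (0 : ℝ) < (n : ℝ)⁻¹ := by positivity
      linarith
    have h1 := intervalIntegral.norm_integral_le_of_norm_le_const (a := ((j : ℝ) / n))
      (b := (((j + 1 : ℕ) : ℝ) / n)) (f := fun s => f s - f ((j : ℝ) / n)) (C := L / n) (by
        intro s hs
        rw [uIoc_of_le hjn] at hs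
        have hj1 : (((j + 1 : ℕ) : ℝ) / n) ≤ 1 := by
          rw [div_le_one hn']; exact_mod_cast hj
        have hj0 : (0 : ℝ) ≤ (j : ℝ) / n := by positivity
        have h2 := hL s ⟨by linarith [hs.1], by linarith [hs.2]⟩ ((j : ℝ) / n)
          ⟨hj0, by linarith⟩
        refine h2.trans ?_
        have h3 : |s - (j : ℝ) / n| ≤ (n : ℝ)⁻¹ := by
          rw [abs_of_nonneg (by linarith [hs.1])]
          have := hlen j
          linarith [hs.2]
        calc L * |s - (j : ℝ) / n| ≤ L * (n : ℝ)⁻¹ := mul_le_mul_of_nonneg_left h3 hL0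
          _ = L / n := by rw [div_eq_mul_inv])
    rwa [hlen, abs_of_pos (by positivity)] at h1
  refine (norm_sum_le _ _).trans ((Finset.sum_le_sum hterm).trans (le_of_eq ?_))
  rw [Finset.sum_const, Finset.card_range, nsmul_eq_mul]
  field_simp

namespace ExpData

variable {G : Type*} [Group G] [TopologicalSpace G] {E : Type*} [NormedAddCommGroup E]
  [NormedSpace ℝ E] (D : ExpData G E) [IsTopologicalGroup G] [T2Space G] [FiniteDimensional ℝ E]

/-- The operator `∫₀¹ e^{-s ad x} ds`. -/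
noncomputable def Phi (x : E) : E →L[ℝ] E := ∫ s in (0 : ℝ)..1, D.Ad (D.exp (s • (-x)))

theorem Ad_pow (g : G) (n : ℕ) : D.Ad (g ^ n) = D.Ad g ^ n := by
  induction n with
  | zero => simp [D.Ad_one]
  | succ n ih => rw [pow_succ, pow_succ, D.Ad_mul, ih]

theorem Ad_norm_le {x : E} (hx : ‖x‖ ≤ 1) : ‖D.Ad (D.exp x)‖ ≤ 1 + ‖x‖ / 40 := by
  have h3 := D.Ad_exp_sub_one hx
  have h4 : ‖(1 : E →L[ℝ] E)‖ ≤ 1 := ContinuousLinearMap.norm_id_le
  calc ‖D.Ad (D.exp x)‖ = ‖(D.Ad (D.exp x) - 1) + 1‖ := by rw [sub_add_cancel]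
    _ ≤ ‖D.Ad (D.exp x) - 1‖ + ‖(1 : E →L[ℝ] E)‖ := norm_add_le _ _
    _ ≤ _ := by linarith

theorem Ad_lip_line {x : E} (hx : ‖x‖ ≤ 1 / 2) : ∀ s ∈ Icc (0 : ℝ) 1, ∀ s' ∈ Icc (0 : ℝ) 1,
    ‖D.Ad (D.exp (s • (-x))) - D.Ad (D.exp (s' • (-x)))‖ ≤ ‖x‖ * |s - s'| := by
  intro s hs s' hs'
  have hn : ∀ a ∈ Icc (0 : ℝ) 1, ‖a • (-x)‖ ≤ 1 / 2 := by
    intro a ha
    rw [norm_smul, norm_neg, Real.norm_of_nonneg ha.1]
    nlinarith [ha.1, ha.2, norm_nonneg x]
  have e : s • (-x) - s' • (-x) = (s - s') • (-x) := by rw [sub_smul]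
  have h1 := D.Ad_exp_lip (x := s • (-x)) (y := s' • (-x)) (by linarith [hn s hs])
    (by linarith [hn s' hs']) (by
      rw [e, norm_smul, norm_neg]
      have : ‖s - s'‖ ≤ 1 := by
        rw [Real.norm_eq_abs, abs_le]; constructor <;> linarith [hs.1, hs.2, hs'.1, hs'.2]
      nlinarith [norm_nonneg x, norm_nonneg (s - s')])
  rw [e, norm_smul, norm_neg, Real.norm_eq_abs] at h1
  linarith [mul_comm |s - s'| ‖x‖]

theorem Phi_sub_one {x : E} (hx : ‖x‖ ≤ 1) : ‖D.Phi x - 1‖ ≤ ‖x‖ / 40 := by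
  have hcont : Continuous fun s : ℝ => D.Ad (D.exp (s • (-x))) := D.Ad_line_cont (-x)
  have h1 : D.Phi x - 1 = ∫ s in (0 : ℝ)..1, (D.Ad (D.exp (s • (-x))) - 1) := by
    rw [intervalIntegral.integral_sub (hcont.intervalIntegrable _ _)
      (continuous_const.intervalIntegrable _ _)]
    simp [Phi]
  rw [h1]
  have := intervalIntegral.norm_integral_le_of_norm_le_const (a := (0 : ℝ)) (b := 1)
    (f := fun s : ℝ => D.Ad (D.exp (s • (-x))) - 1) (C := ‖x‖ / 40) (by
      intro s hs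
      rw [uIoc_of_le zero_le_one] at hs
      have hn : ‖s • (-x)‖ ≤ ‖x‖ := by
        rw [norm_smul, norm_neg, Real.norm_of_nonneg hs.1.le]
        nlinarith [hs.2, norm_nonneg x]
      exact (D.Ad_exp_sub_one (hn.trans hx)).trans (by linarith))
  simpa using this

theorem Phi_lip {x y : E} (hx : ‖x‖ ≤ 1 / 4) (hy : ‖y‖ ≤ 1 / 4) : ‖D.Phi x - D.Phi y‖ ≤ ‖x - y‖ := by
  have hcont : ∀ x : E, Continuous fun s : ℝ => D.Ad (D.exp (s • (-x))) :=
    fun x => D.Ad_line_cont (-x)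
  have h1 : D.Phi x - D.Phi y =
      ∫ s in (0 : ℝ)..1, (D.Ad (D.exp (s • (-x))) - D.Ad (D.exp (s • (-y)))) := by
    rw [intervalIntegral.integral_sub ((hcont x).intervalIntegrable _ _)
      ((hcont y).intervalIntegrable _ _)]
    rfl
  rw [h1]
  have := intervalIntegral.norm_integral_le_of_norm_le_const (a := (0 : ℝ)) (b := 1)
    (f := fun s : ℝ => D.Ad (D.exp (s • (-x))) - D.Ad (D.exp (s • (-y)))) (C := ‖x - y‖) (by
      intro s hs
      rw [uIoc_of_le zero_le_one] at hs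
      have hn : ∀ x : E, ‖s • (-x)‖ ≤ ‖x‖ := by
        intro x
        rw [norm_smul, norm_neg, Real.norm_of_nonneg hs.1.le]
        nlinarith [hs.2, norm_nonneg x]
      have e : s • (-x) - s • (-y) = s • (-(x - y)) := by rw [← smul_sub]; congr 1; abel
      have h2 : ‖s • (-x) - s • (-y)‖ ≤ ‖x - y‖ := by rw [e]; exact hn _
      have h3 : ‖x - y‖ ≤ 1 / 2 := (norm_sub_le _ _).trans (by linarith)
      exact (D.Ad_exp_lip ((hn x).trans (by linarith)) ((hn y).trans (by linarith))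
        (h2.trans h3)).trans h2)
  simpa using this

theorem phi_formula {x v p : E} (hx : ‖x‖ ≤ 1 / 4) (hv : ‖v‖ ≤ 1 / 4) (hp : ‖p‖ ≤ 9)
    (h : D.exp (-x) * D.exp (x + v) = D.exp p) : ‖p - D.Phi x v‖ ≤ ‖v‖ ^ 2 / 10 := by
  have hx0 := norm_nonneg x
  have hv0 := norm_nonneg v
  -- the discrete estimate
  have main : ∀ n : ℕ, 0 < n → ∃ w : E, ‖w - (n : ℝ)⁻¹ • v‖ ≤ (1 / (n : ℝ)) ^ 2 ∧
      ‖p - ∑ j ∈ Finset.range n, D.Ad (D.exp (((j : ℝ) / n) • (-x))) w‖ ≤ ‖v‖ ^ 2 / 10 := by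
    intro n hn
    have hn' : (0 : ℝ) < n := by exact_mod_cast hn
    have hn1 : (1 : ℝ) ≤ n := by exact_mod_cast hn
    set h' : ℝ := (n : ℝ)⁻¹ with hh'
    have hh0 : 0 < h' := by positivity
    have hh1 : h' ≤ 1 := inv_le_one_of_one_le₀ hn1
    have hnh : (n : ℝ) * h' = 1 := mul_inv_cancel₀ hn'.ne'
    have nrm : ∀ u : E, ‖h' • u‖ = h' * ‖u‖ := fun u => by
      rw [norm_smul, Real.norm_of_nonneg hh0.le]
    have hxv : ‖x + v‖ ≤ 1 / 2 := (norm_add_le _ _).trans (by linarith)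
    have hhx : h' * ‖x‖ ≤ 1 / 4 := by nlinarith
    have hhv : h' * ‖v‖ ≤ 1 / 4 := by nlinarith
    have hhxv : h' * ‖x + v‖ ≤ 1 / 2 := by nlinarith [norm_nonneg (x + v)]
    obtain ⟨w, hw1, hw2, hw3, hw4⟩ := D.toC11.diff_ex (x := h' • x) (y := h' • (x + v))
      (by rw [nrm]; linarith) (by rw [nrm]; linarith)
    rw [toC11_e] at hw1
    have e1 : h' • (x + v) - h' • x = h' • v := by rw [← smul_sub]; congr 1; abel
    rw [e1] at hw2 hw4
    rw [nrm] at hw2 hw4
    have hw0 := norm_nonneg w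
    refine ⟨w, ?_, ?_⟩
    · refine hw2.trans ?_
      have h1 : ‖w‖ ≤ h' := by nlinarith
      have h2 : h' * ‖x‖ ≤ h' := by nlinarith
      have h3 : (1 / (n : ℝ)) ^ 2 = h' * h' := by rw [hh', one_div, sq]
      rw [h3]
      have : h' * ‖x‖ * ‖w‖ ≤ h' * h' := mul_le_mul h2 h1 hw0 hh0.le
      have : 0 ≤ h' * h' := by positivity
      linarith
    set c : ℝ := 1 + h' * ‖x‖ / 40 with hc
    have hc1 : 1 ≤ c := by rw [hc]; have : 0 ≤ h' * ‖x‖ := by positivity
                           linarith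
    have hcpow : ∀ m : ℕ, m ≤ n → c ^ m ≤ 2 := by
      intro m hm
      have h1 : c ^ m ≤ c ^ n := pow_le_pow_right₀ hc1 hm
      have h2 : c ≤ Real.exp (h' * ‖x‖ / 40) := by
        rw [hc, add_comm]; exact Real.add_one_le_exp _
      have h3 : c ^ n ≤ Real.exp (h' * ‖x‖ / 40) ^ n := pow_le_pow_left₀ (by linarith) h2 n
      rw [← Real.exp_nat_mul] at h3
      have h4 : (n : ℝ) * (h' * ‖x‖ / 40) = ‖x‖ / 40 := by
        rw [← mul_div_assoc, ← mul_assoc, hnh, one_mul]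
      rw [h4] at h3
      have h5 : Real.exp (‖x‖ / 40) ≤ 1 / (1 - ‖x‖ / 40) :=
        Real.exp_bound_div_one_sub_of_interval (by positivity) (by linarith)
      have h6 : 1 / (1 - ‖x‖ / 40) ≤ 2 := by
        rw [div_le_iff₀ (by linarith)]; linarith
      linarith
    set Q : E →L[ℝ] E := D.Ad (D.exp (h' • (-x))) with hQ
    have hQn : ‖Q‖ ≤ c := by
      have hn2 : ‖h' • (-x)‖ = h' * ‖x‖ := by rw [nrm, norm_neg]
      have := D.Ad_norm_le (x := h' • (-x)) (by rw [hn2]; linarith)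
      rw [hn2] at this
      exact this
    have hQpow : ∀ j : ℕ, Q ^ j = D.Ad (D.exp (((j : ℝ) / n) • (-x))) := by
      intro j
      rw [hQ, ← D.Ad_pow, ← D.exp_nsmul, smul_smul]
      congr 3
    have hQjn : ∀ j : ℕ, ‖Q ^ j‖ ≤ c ^ j := by
      intro j
      induction j with
      | zero => simp only [pow_zero]; exact ContinuousLinearMap.norm_id_le
      | succ j ih =>
        rw [pow_succ, pow_succ]
        exact (norm_mul_le _ _).trans (mul_le_mul ih hQn (norm_nonneg _) (by positivity))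
    have hnw : (n : ℝ) * ‖w‖ ≤ 102 / 100 * ‖v‖ := by
      calc (n : ℝ) * ‖w‖ ≤ n * (102 / 100 * (h' * ‖v‖)) := mul_le_mul_of_nonneg_left hw4 hn'.le
        _ = 102 / 100 * ‖v‖ * (n * h') := by ring
        _ = _ := by rw [hnh, mul_one]
    have rec' : ∀ m : ℕ, m ≤ n → ∃ q : E, D.exp q =
        D.exp (((m : ℝ) * h') • (-x)) * (D.exp (h' • x) * D.exp w) ^ m ∧
        ‖q - ∑ j ∈ Finset.range m, (Q ^ j) w‖ ≤ c ^ m * (m * ‖w‖) ^ 2 / 50 := by
      intro m
      induction m with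
      | zero => intro _; exact ⟨0, by simp [D.exp_zero], by simp⟩
      | succ m ih =>
        intro hm
        obtain ⟨q, hq1, hq2⟩ := ih (by omega)
        have hcm := hcpow m (by omega)
        have hcm1 := hcpow (m + 1) hm
        have hcm0 : 0 ≤ c ^ m := by positivity
        have hmn : (m : ℝ) * ‖w‖ ≤ 102 / 100 * ‖v‖ := by
          refine le_trans (mul_le_mul_of_nonneg_right ?_ hw0) hnw
          exact_mod_cast (by omega : m ≤ n)
        have hm0 : 0 ≤ (m : ℝ) * ‖w‖ := by positivity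
        have hsum : ‖∑ j ∈ Finset.range m, (Q ^ j) w‖ ≤ c ^ m * (m * ‖w‖) := by
          refine (norm_sum_le _ _).trans ?_
          have : ∀ j ∈ Finset.range m, ‖(Q ^ j) w‖ ≤ c ^ m * ‖w‖ := by
            intro j hj
            rw [Finset.mem_range] at hj
            refine ((Q ^ j).le_opNorm w).trans (mul_le_mul_of_nonneg_right ?_ hw0)
            exact (hQjn j).trans (pow_le_pow_right₀ hc1 hj.le)
          refine (Finset.sum_le_sum this).trans (le_of_eq ?_)
          rw [Finset.sum_const, Finset.card_range, nsmul_eq_mul]; ring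
        have hqn : ‖q‖ ≤ c ^ m * (m * ‖w‖) * (51 / 50) := by
          have h1 : ‖q‖ ≤ ‖q - ∑ j ∈ Finset.range m, (Q ^ j) w‖ +
              ‖∑ j ∈ Finset.range m, (Q ^ j) w‖ := by
            calc ‖q‖ = ‖(q - ∑ j ∈ Finset.range m, (Q ^ j) w) + ∑ j ∈ Finset.range m, (Q ^ j) w‖ := by
                  rw [sub_add_cancel]
              _ ≤ _ := norm_add_le _ _
          have h2 : c ^ m * (m * ‖w‖) ^ 2 ≤ c ^ m * (m * ‖w‖) := by
            refine mul_le_mul_of_nonneg_left ?_ hcm0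
            nlinarith
          linarith
        have hqn2 : ‖q‖ ≤ 1 := by nlinarith
        have hQq : ‖Q q‖ ≤ c * ‖q‖ := (Q.le_opNorm q).trans
          (mul_le_mul_of_nonneg_right hQn (norm_nonneg _))
        have hc2 : c ≤ 2 := by
          have := hcpow 1 hn
          simpa using this
        have hQq2 : ‖Q q‖ ≤ 4 := by nlinarith [norm_nonneg q]
        obtain ⟨q', hq'1, hq'2⟩ := D.mul (Q q) w hQq2 hw3
        refine ⟨q', ?_, ?_⟩
        · rw [← hq'2, hQ, ← D.Ad_spec', hq1]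
          have e2 : (((m + 1 : ℕ) : ℝ) * h') • (-x) = h' • (-x) + ((m : ℝ) * h') • (-x) := by
            push_cast; rw [add_mul, one_mul, add_smul, add_comm]
          rw [e2, D.exp_add']
          have e3 : (D.exp (h' • (-x)))⁻¹ = D.exp (h' • x) := by
            rw [← D.exp_neg]; congr 1; rw [smul_neg, neg_neg]
          rw [e3, pow_succ]
          group
        · rw [Finset.sum_range_succ']
          have e4 : ∑ j ∈ Finset.range m, (Q ^ (j + 1)) w = Q (∑ j ∈ Finset.range m, (Q ^ j) w) := by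
            rw [map_sum]
            refine Finset.sum_congr rfl (fun j _ => ?_)
            rw [pow_succ']; rfl
          rw [e4]
          have e5 : q' - (Q (∑ j ∈ Finset.range m, (Q ^ j) w) + (Q ^ 0) w) =
              (q' - Q q - w) + Q (q - ∑ j ∈ Finset.range m, (Q ^ j) w) := by
            rw [map_sub]; simp only [pow_zero, one_apply_eq_self]; abel
          rw [e5]
          refine (norm_add_le _ _).trans ?_
          have h1 : ‖Q (q - ∑ j ∈ Finset.range m, (Q ^ j) w)‖ ≤ c * (c ^ m * (m * ‖w‖) ^ 2 / 50) :=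
            (Q.le_opNorm _).trans (mul_le_mul hQn hq2 (norm_nonneg _) (by linarith))
          have h2 : ‖Q q‖ * ‖w‖ / 100 ≤ c * (c ^ m * (m * ‖w‖) * (51 / 50)) * ‖w‖ / 100 := by
            have h3 : ‖Q q‖ ≤ c * (c ^ m * (m * ‖w‖) * (51 / 50)) :=
              hQq.trans (mul_le_mul_of_nonneg_left hqn (by linarith))
            have := mul_le_mul_of_nonneg_right h3 hw0
            linarith
          have h4 : c * (c ^ m * (m * ‖w‖) ^ 2 / 50) +
              c * (c ^ m * (m * ‖w‖) * (51 / 50)) * ‖w‖ / 100 ≤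
              c ^ (m + 1) * (((m + 1 : ℕ) : ℝ) * ‖w‖) ^ 2 / 50 := by
            rw [pow_succ c m]; push_cast
            have h5 : 0 ≤ c ^ m * c := by positivity
            have h6 : 0 ≤ (m : ℝ) * ‖w‖ ^ 2 := by positivity
            have h7 : 0 ≤ ‖w‖ ^ 2 := by positivity
            have e6 : c * (c ^ m * (m * ‖w‖) ^ 2 / 50) +
              c * (c ^ m * (m * ‖w‖) * (51 / 50)) * ‖w‖ / 100 =
              (c ^ m * c) * ((m * ‖w‖) ^ 2 / 50 + (m * ‖w‖ ^ 2) * (51 / 5000)) := by ring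
            have e7 : c ^ m * c * (((m : ℝ) + 1) * ‖w‖) ^ 2 / 50 =
              (c ^ m * c) * ((m * ‖w‖) ^ 2 / 50 + (m * ‖w‖ ^ 2) / 25 + ‖w‖ ^ 2 / 50) := by ring
            rw [e6, e7]
            refine mul_le_mul_of_nonneg_left ?_ h5
            linarith
          linarith
    obtain ⟨q, hq1, hq2⟩ := rec' n le_rfl
    have e2 : (D.exp (h' • x) * D.exp w) ^ n = D.exp (x + v) := by
      rw [hw1, ← D.exp_nsmul, smul_smul, hnh, one_smul]
    rw [hnh, one_smul, e2, h] at hq1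
    have hc2 := hcpow n le_rfl
    have hnw0 : 0 ≤ (n : ℝ) * ‖w‖ := by positivity
    have hb : c ^ n * (n * ‖w‖) ^ 2 / 50 ≤ ‖v‖ ^ 2 / 10 := by
      have h1 : (n * ‖w‖) ^ 2 ≤ (102 / 100 * ‖v‖) ^ 2 := pow_le_pow_left₀ hnw0 hnw 2
      have h2 : c ^ n * (n * ‖w‖) ^ 2 ≤ 2 * (102 / 100 * ‖v‖) ^ 2 :=
        mul_le_mul hc2 h1 (by positivity) (by norm_num)
      nlinarith [sq_nonneg ‖v‖]
    have hsumn : ‖∑ j ∈ Finset.range n, (Q ^ j) w‖ ≤ 2 * (n * ‖w‖) := by
      refine (norm_sum_le _ _).trans ?_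
      have : ∀ j ∈ Finset.range n, ‖(Q ^ j) w‖ ≤ 2 * ‖w‖ := by
        intro j hj
        rw [Finset.mem_range] at hj
        refine ((Q ^ j).le_opNorm w).trans (mul_le_mul_of_nonneg_right ?_ hw0)
        exact (hQjn j).trans (hcpow j hj.le)
      refine (Finset.sum_le_sum this).trans (le_of_eq ?_)
      rw [Finset.sum_const, Finset.card_range, nsmul_eq_mul]; ring
    have hqp : q = p := by
      refine D.inj' ?_ hp hq1
      have h1 : ‖q‖ ≤ ‖q - ∑ j ∈ Finset.range n, (Q ^ j) w‖ +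
          ‖∑ j ∈ Finset.range n, (Q ^ j) w‖ := by
        calc ‖q‖ = ‖(q - ∑ j ∈ Finset.range n, (Q ^ j) w) + ∑ j ∈ Finset.range n, (Q ^ j) w‖ := by
              rw [sub_add_cancel]
          _ ≤ _ := norm_add_le _ _
      nlinarith
    rw [hqp] at hq2
    rw [Finset.sum_congr rfl (fun j _ => by rw [← hQpow j])]
    exact hq2.trans hb
  -- pass to the limit
  have hw : ∀ n : ℕ, ∃ w : E, 0 < n → ‖w - (n : ℝ)⁻¹ • v‖ ≤ (1 / (n : ℝ)) ^ 2 ∧
      ‖p - ∑ j ∈ Finset.range n, D.Ad (D.exp (((j : ℝ) / n) • (-x))) w‖ ≤ ‖v‖ ^ 2 / 10 := by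
    intro n
    by_cases hn : 0 < n
    · obtain ⟨w, hw⟩ := main n hn
      exact ⟨w, fun _ => hw⟩
    · exact ⟨0, fun h => absurd h hn⟩
  choose w hw using hw
  have hcont : Continuous fun s : ℝ => D.Ad (D.exp (s • (-x))) := D.Ad_line_cont (-x)
  have hlim : Tendsto (fun n : ℕ => ∑ j ∈ Finset.range n, D.Ad (D.exp (((j : ℝ) / n) • (-x))) (w n))
      atTop (𝓝 (D.Phi x v)) := by
    rw [tendsto_iff_norm_sub_tendsto_zero]
    have h0 : Tendsto (fun n : ℕ => 2 * (1 / (n : ℝ)) + (‖x‖ / n) * ‖v‖) atTop (𝓝 0) := by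
      have h1 := tendsto_const_div_atTop_nhds_zero_nat (𝕜 := ℝ) 1
      have h2 := (tendsto_const_div_atTop_nhds_zero_nat (𝕜 := ℝ) ‖x‖).mul_const ‖v‖
      have h3 := (h1.const_mul 2).add h2
      simpa using h3
    refine squeeze_zero' (Eventually.of_forall fun n => norm_nonneg _) ?_ h0
    filter_upwards [eventually_ge_atTop 1] with n hn
    have hn' : (0 : ℝ) < n := by exact_mod_cast hn
    obtain ⟨hw1, -⟩ := hw n hn
    have hr := riemann_sum (fun s : ℝ => D.Ad (D.exp (s • (-x)))) hcont ‖x‖ hx0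
      (D.Ad_lip_line (by linarith)) n hn
    set S : E →L[ℝ] E := ∑ j ∈ Finset.range n, D.Ad (D.exp (((j : ℝ) / n) • (-x))) with hS
    have e1 : ∑ j ∈ Finset.range n, D.Ad (D.exp (((j : ℝ) / n) • (-x))) (w n) = S (w n) := by
      rw [hS, sum_apply]
    rw [e1]
    have hSn : ‖S‖ ≤ n * 2 := by
      rw [hS]
      refine (norm_sum_le _ _).trans ?_
      have : ∀ j ∈ Finset.range n, ‖D.Ad (D.exp (((j : ℝ) / n) • (-x)))‖ ≤ 2 := by
        intro j hj
        rw [Finset.mem_range] at hj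
        have hj1 : (j : ℝ) / n ≤ 1 := by
          rw [div_le_one hn']; exact_mod_cast hj.le
        have hj0 : (0 : ℝ) ≤ (j : ℝ) / n := by positivity
        have hb : ‖((j : ℝ) / n) • (-x)‖ ≤ 1 / 4 := by
          rw [norm_smul, norm_neg, Real.norm_of_nonneg hj0]; nlinarith
        exact (D.Ad_norm_le (by linarith)).trans (by linarith)
      refine (Finset.sum_le_sum this).trans (le_of_eq ?_)
      rw [Finset.sum_const, Finset.card_range, nsmul_eq_mul]
    have e2 : S (w n) - D.Phi x v = S (w n - (n : ℝ)⁻¹ • v) -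
        ((∫ s in (0 : ℝ)..1, D.Ad (D.exp (s • (-x)))) - (n : ℝ)⁻¹ • S) v := by
      rw [map_sub]
      have : ((∫ s in (0 : ℝ)..1, D.Ad (D.exp (s • (-x)))) - (n : ℝ)⁻¹ • S) v =
          D.Phi x v - (n : ℝ)⁻¹ • S v := rfl
      rw [this, map_smul]; abel
    rw [e2]
    refine (norm_sub_le _ _).trans (add_le_add ?_ ?_)
    · refine (S.le_opNorm _).trans ?_
      calc ‖S‖ * ‖w n - (n : ℝ)⁻¹ • v‖ ≤ (n * 2) * (1 / (n : ℝ)) ^ 2 :=
            mul_le_mul hSn hw1 (norm_nonneg _) (by positivity)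
        _ = 2 * (1 / (n : ℝ)) := by field_simp
    · exact (ContinuousLinearMap.le_opNorm _ _).trans (mul_le_mul_of_nonneg_right hr hv0)
  have h3 := ((tendsto_const_nhds (x := p)).sub hlim).norm
  refine le_of_tendsto h3 ?_
  filter_upwards [eventually_ge_atTop 1] with n hn
  exact (hw n hn).2

end ExpData

end Pool.Agent.H72.ProLie
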