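import Pool.Agent.H72.ProLie.NoCircle2
import Pool.Agent.ProLieAlg.Rad

/-! Facts about radicals, from `Pool.Agent.ProLieAlg.Rad`. -/

set_option linter.unusedSectionVars false

namespace Pool.Agent.H72.ProLie

variable {E : Type*} [NormedAddCommGroup E] [NormedSpace ℝ E] [FiniteDimensional ℝ E]
  {br : E →L[ℝ] E →L[ℝ] E} (hL : LieBr br) {h : Submodule ℝ E} (hh : ∀ x ∈ h, ∀ y ∈ h, br x y ∈ h)

include hL hh

theorem rad_idl : IsLieIdl br h (Rad br h) := ProLieAlg.rad_idl hL hh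
theorem rad_solv : IsSolv br (Rad br h) := ProLieAlg.rad_solv hL hh
theorem levi' : ∃ π : E →L[ℝ] E, (∀ x ∈ h, π x ∈ h) ∧
    (∀ x ∈ h, ∀ y ∈ h, π (br x y) = br (π x) (π y)) ∧ (∀ x ∈ h, π (π x) = π x) ∧
    (∀ x ∈ h, π x = 0 ↔ x ∈ Rad br h) := ProLieAlg.levi' hL hh
theorem nil_series : ∃ n : ℕ → Submodule ℝ E, n 0 = bs br h (Rad br h) ∧ (∀ i, IsLieIdl br h (n i)) ∧
    (∀ i, ∀ u ∈ n 0, ∀ v ∈ n i, br u v ∈ n (i + 1)) ∧ (∀ i, n (i + 1) ≤ n i) ∧ ∃ k, n k = ⊥ :=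
  ProLieAlg.nil_series hL hh
theorem ad_nil : ∀ x ∈ bs br h (Rad br h), ∃ k : ℕ, ∀ y ∈ h, ((br x) ^ k) y = 0 :=
  ProLieAlg.ad_nil hL hh
theorem h_le : h ≤ bs br h h ⊔ Rad br h := ProLieAlg.h_le hL hh

omit hL hh
variable {E' : Type*} [NormedAddCommGroup E'] [NormedSpace ℝ E'] [FiniteDimensional ℝ E']
  {br' : E' →L[ℝ] E' →L[ℝ] E'}

theorem map_rad (hL : LieBr br) (hL' : LieBr br') {h : Submodule ℝ E}
    (hh : ∀ x ∈ h, ∀ y ∈ h, br x y ∈ h) {h' : Submodule ℝ E'}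
    (hh' : ∀ x ∈ h', ∀ y ∈ h', br' x y ∈ h') (T : E →ₗ[ℝ] E')
    (hT : ∀ x ∈ h, ∀ y ∈ h, T (br x y) = br' (T x) (T y)) (hTh : h.map T = h') :
    ∀ x ∈ Rad br h, T x ∈ Rad br' h' := ProLieAlg.map_rad hL hh T hT hTh

end Pool.Agent.H72.ProLie
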