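import Pool.Agent.H72.ProLie.Phi

open Filter Topology Set Metric

namespace Pool.Agent.H72.ProLie

theorem exp_preserves {E : Type*} [NormedAddCommGroup E] [NormedSpace ℝ E] [FiniteDimensional ℝ E]
    (j : Submodule ℝ E) (B : E →L[ℝ] E) (hB : ∀ v ∈ j, B v ∈ j) {v : E} (hv : v ∈ j) :
    NormedSpace.exp B v ∈ j := by
  have h1 : HasSum (fun n : ℕ => ((n.factorial : ℝ)⁻¹) • B ^ n) (NormedSpace.exp B) :=
    NormedSpace.exp_series_hasSum_exp' (𝕂 := ℝ) B
  have h2 : HasSum (fun n : ℕ => (((n.factorial : ℝ)⁻¹) • B ^ n) v) (NormedSpace.exp B v) :=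
    (ContinuousLinearMap.apply ℝ E v).hasSum h1
  have hp : ∀ n : ℕ, (B ^ n) v ∈ j := by
    intro n
    induction n with
    | zero => simpa using hv
    | succ n ih => rw [pow_succ']; exact hB _ ih
  have hcl : IsClosed (j : Set E) := j.closed_of_finiteDimensional
  refine hcl.mem_of_tendsto h2 (Eventually.of_forall fun s => ?_)
  exact j.sum_mem (fun n _ => j.smul_mem _ (hp n))

namespace ExpData

variable {G : Type*} [Group G] [TopologicalSpace G] {E : Type*} [NormedAddCommGroup E]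
  [NormedSpace ℝ E] (D : ExpData G E) [IsTopologicalGroup G] [T2Space G] [FiniteDimensional ℝ E]

theorem exists_proj (j : Submodule ℝ E) : ∃ π : E →L[ℝ] E, (∀ v, π v = 0 ↔ v ∈ j) ∧
    ∀ v, π (π v) = π v := by
  obtain ⟨g, hg⟩ := j.mkQ.exists_rightInverse_of_surjective j.range_mkQ
  have hg' : ∀ q, j.mkQ (g q) = q := fun q => by
    have := LinearMap.congr_fun hg q
    simpa using this
  refine ⟨LinearMap.toContinuousLinearMap (g ∘ₗ j.mkQ), ?_, ?_⟩
  · intro v
    constructor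
    · intro h
      have h1 : j.mkQ (g (j.mkQ v)) = 0 := by
        have h2 : g (j.mkQ v) = 0 := h
        rw [h2, map_zero]
      rw [hg'] at h1
      exact (Submodule.Quotient.mk_eq_zero j).1 h1
    · intro h
      have : j.mkQ v = 0 := (Submodule.Quotient.mk_eq_zero j).2 h
      show g (j.mkQ v) = 0
      rw [this, map_zero]
  · intro v
    show g (j.mkQ (g (j.mkQ v))) = g (j.mkQ v)
    rw [hg']

theorem Ad_exp_mem (j : Submodule ℝ E) {b : E} (hb : ∀ v ∈ j, D.br b v ∈ j) {v : E} (hv : v ∈ j)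
    (s : ℝ) : D.Ad (D.exp (s • b)) v ∈ j := by
  rw [D.Ad_exp]
  exact exp_preserves j _ (fun w hw => j.smul_mem s (hb w hw)) hv

theorem Ad_exp_sub_mem (j : Submodule ℝ E) {b y : E} (hb : ∀ v ∈ j, D.br b v ∈ j)
    (hy : D.br b y ∈ j) (s : ℝ) : D.Ad (D.exp (s • b)) y - y ∈ j := by
  obtain ⟨π, hπ, hππ⟩ := exists_proj j
  have hder : ∀ t : ℝ, HasDerivAt (fun t : ℝ => π (D.Ad (D.exp (t • b)) y)) 0 t := by
    intro t
    have h1 := (π.comp (ContinuousLinearMap.apply ℝ E y)).hasFDerivAt.comp_hasDerivAt t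
      (D.br_hasDerivAt' b t)
    have h2 : (π.comp (ContinuousLinearMap.apply ℝ E y)) (D.Ad (D.exp (t • b)) * D.br b) = 0 := by
      show π (D.Ad (D.exp (t • b)) (D.br b y)) = 0
      rw [hπ]
      exact D.Ad_exp_mem j hb hy t
    rw [h2] at h1
    exact h1
  have hc := is_const_of_deriv_eq_zero (f := fun t : ℝ => π (D.Ad (D.exp (t • b)) y))
      (fun t => (hder t).differentiableAt) (fun t => (hder t).deriv) s 0
  simp only [zero_smul, D.exp_zero, D.Ad_one, one_apply_eq_self] at hc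
  rw [← hπ, map_sub, hc, sub_self]

theorem Phi_mem (j : Submodule ℝ E) {b : E} (hb : ∀ v ∈ j, D.br b v ∈ j) {v : E} (hv : v ∈ j) :
    D.Phi b v ∈ j := by
  obtain ⟨π, hπ, hππ⟩ := exists_proj j
  rw [← hπ]
  have hcont : Continuous fun s : ℝ => D.Ad (D.exp (s • (-b))) := D.Ad_line_cont (-b)
  have h1 := (π.comp (ContinuousLinearMap.apply ℝ E v)).intervalIntegral_comp_comm
    (hcont.intervalIntegrable (μ := MeasureTheory.volume) 0 1)
  have h2 : π (D.Phi b v) = ∫ s in (0 : ℝ)..1, (0 : E) := by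
    have h3 : ∀ s : ℝ, (π.comp (ContinuousLinearMap.apply ℝ E v)) (D.Ad (D.exp (s • (-b)))) = 0 := by
      intro s
      show π (D.Ad (D.exp (s • (-b))) v) = 0
      rw [hπ]
      refine D.Ad_exp_mem j (fun w hw => ?_) hv s
      rw [map_neg]
      exact j.neg_mem (hb w hw)
    simp only [h3] at h1
    exact h1.symm
  rw [h2]; simp

theorem Phi_sub_mem (j : Submodule ℝ E) {b y : E} (hb : ∀ v ∈ j, D.br b v ∈ j)
    (hy : D.br b y ∈ j) : D.Phi b y - y ∈ j := by
  obtain ⟨π, hπ, hππ⟩ := exists_proj j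
  rw [← hπ, map_sub]
  have hcont : Continuous fun s : ℝ => D.Ad (D.exp (s • (-b))) := D.Ad_line_cont (-b)
  have h1 := (π.comp (ContinuousLinearMap.apply ℝ E y)).intervalIntegral_comp_comm
    (hcont.intervalIntegrable (μ := MeasureTheory.volume) 0 1)
  have h2 : π (D.Phi b y) = ∫ s in (0 : ℝ)..1, π y := by
    have h3 : ∀ s : ℝ, (π.comp (ContinuousLinearMap.apply ℝ E y)) (D.Ad (D.exp (s • (-b)))) =
        π y := by
      intro s
      show π (D.Ad (D.exp (s • (-b))) y) = π y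
      rw [← sub_eq_zero, ← map_sub, hπ]
      refine D.Ad_exp_sub_mem j (fun w hw => ?_) ?_ s
      · rw [map_neg]; exact j.neg_mem (hb w hw)
      · rw [map_neg]; exact j.neg_mem hy
    simp only [h3] at h1
    exact h1.symm
  rw [h2]; simp

/-- Local BCH: the product of small elements modulo a subspace. -/
theorem mod_sub (j : Submodule ℝ E) : ∃ ε > 0, ε ≤ 1 / 100 ∧ ∀ x y z : E, ‖x‖ ≤ ε → ‖y‖ ≤ ε →
    (∀ v ∈ j, D.br x v ∈ j) → (∀ v ∈ j, D.br y v ∈ j) → (∀ u ∈ j, ∀ v ∈ j, D.br u v ∈ j) →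
    D.br x y ∈ j → ‖z‖ ≤ 9 → D.exp x * D.exp y = D.exp z → z - x - y ∈ j := by
  obtain ⟨π, hπ, hππ⟩ := exists_proj j
  set P : ℝ := ‖π‖ + 1 with hP
  have hP1 : 1 ≤ P := by rw [hP]; linarith [norm_nonneg π]
  have hπP : ∀ v, ‖π v‖ ≤ P * ‖v‖ := fun v => (π.le_opNorm v).trans
    (mul_le_mul_of_nonneg_right (by rw [hP]; linarith) (norm_nonneg _))
  set ε : ℝ := 1 / (100 * P) with hε
  have hε0 : 0 < ε := by positivity
  have hεP : ε * P = 1 / 100 := by rw [hε]; field_simp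
  have hε1 : ε ≤ 1 / 100 := by nlinarith
  refine ⟨ε, hε0, hε1, ?_⟩
  intro x y z hx hy hxj hyj hjj hxy hz hxyz
  have hx0 := norm_nonneg x
  have hy0 := norm_nonneg y
  -- the path
  have hex : ∀ t : ℝ, ∃ a, t ∈ Icc (0 : ℝ) 1 → D.exp x * D.exp (t • y) = D.exp a ∧
      ‖a - x - t • y‖ ≤ ‖x‖ * ‖y‖ / 100 ∧ ‖a‖ ≤ 3 * ε := by
    intro t
    by_cases ht : t ∈ Icc (0 : ℝ) 1
    · have hty : ‖t • y‖ ≤ ‖y‖ := by
        rw [norm_smul, Real.norm_of_nonneg ht.1]; nlinarith [ht.2]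
      obtain ⟨a, ha1, ha2, ha3⟩ := D.toC11.mul_ex (x := x) (y := t • y) (by linarith) (by linarith)
      rw [toC11_e] at ha1
      have h1 : ‖x‖ * ‖t • y‖ ≤ ‖x‖ * ‖y‖ := mul_le_mul_of_nonneg_left hty hx0
      refine ⟨a, fun _ => ⟨ha1, by linarith, ?_⟩⟩
      nlinarith
    · exact ⟨0, fun h => absurd h ht⟩
  choose f hf using hex
  have hz1 : f 1 = z := by
    obtain ⟨h1, -, h3⟩ := hf 1 ⟨zero_le_one, le_rfl⟩
    rw [one_smul, hxyz] at h1
    exact (D.inj' hz (by linarith) h1).symm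
  have h00 : f 0 = x := by
    obtain ⟨h1, -, h3⟩ := hf 0 ⟨le_rfl, zero_le_one⟩
    rw [zero_smul, D.exp_zero, mul_one] at h1
    exact (D.inj' (by linarith) (by linarith) h1).symm
  set u : ℝ → E := fun t => π (f t - x - t • y) with hu
  -- one step
  have step : ∀ t h' : ℝ, t ∈ Icc (0 : ℝ) 1 → t + h' ∈ Icc (0 : ℝ) 1 → 0 ≤ h' →
      ‖u (t + h')‖ ≤ (1 + h') * ‖u t‖ + h' ^ 2 := by
    intro t h' ht hth hh
    obtain ⟨a1, a2, a3⟩ := hf t ht
    obtain ⟨c1, c2, c3⟩ := hf (t + h') hth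
    set a := f t with ha
    set a' := f (t + h') with ha'
    have hh1 : h' ≤ 1 := by linarith [ht.1, hth.2]
    have hhy : ‖h' • y‖ = h' * ‖y‖ := by rw [norm_smul, Real.norm_of_nonneg hh]
    -- a' = a * (h' y)
    have e1 : D.exp a * D.exp (h' • y) = D.exp a' := by
      rw [← c1, ← a1, D.exp_add, mul_assoc]
    have e2 := D.toC11.mul' (x := a) (y := h' • y) (z := a') (by linarith)
      (by rw [hhy]; nlinarith) (by linarith) e1
    rw [hhy] at e2
    set Δ := a' - a with hΔ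
    have e3 : ‖Δ‖ ≤ 101 / 100 * (h' * ‖y‖) := by
      have : Δ = (a' - a - h' • y) + h' • y := by rw [hΔ]; abel
      rw [this]
      refine (norm_add_le _ _).trans ?_
      rw [hhy]
      have h3 : ‖a‖ * (h' * ‖y‖) ≤ 1 * (h' * ‖y‖) :=
        mul_le_mul_of_nonneg_right (by linarith) (by positivity)
      linarith
    have e4 : ‖h' • y - D.Phi a Δ‖ ≤ ‖Δ‖ ^ 2 / 10 := by
      refine D.phi_formula (by linarith) ?_ ?_ ?_
      · nlinarith
      · rw [hhy]; nlinarith
      · have : a + Δ = a' := by rw [hΔ]; abel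
        rw [this, D.exp_neg, ← e1, inv_mul_cancel_left]
    -- b
    set b := a - π (a - x - t • y) with hb
    have hbu : a - b = u t := by rw [hb, hu]; simp [ha]
    have hbj : b - (x + t • y) ∈ j := by
      have : b - (x + t • y) = (a - x - t • y) - π (a - x - t • y) := by rw [hb]; abel
      rw [this, ← hπ, map_sub, hππ, sub_self]
    obtain ⟨j0, hj0, hbj0⟩ : ∃ j0 ∈ j, b = x + t • y + j0 := ⟨_, hbj, by abel⟩
    have hbr : ∀ v, D.br b v = D.br x v + t • D.br y v + D.br j0 v := by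
      intro v; rw [hbj0]; simp
    have hbpres : ∀ v ∈ j, D.br b v ∈ j := by
      intro v hv
      rw [hbr]
      exact j.add_mem (j.add_mem (hxj v hv) (j.smul_mem _ (hyj v hv))) (hjj _ hj0 _ hv)
    have hby : D.br b y ∈ j := by
      rw [hbr, D.br_self, smul_zero, add_zero, D.br_skew j0 y]
      exact j.add_mem hxy (j.neg_mem (hyj _ hj0))
    have hun : ‖u t‖ ≤ P * (ε * ε / 100) := by
      have h1 : ‖u t‖ ≤ P * ‖a - x - t • y‖ := hπP _
      have h2 : ‖x‖ * ‖y‖ ≤ ε * ε := mul_le_mul hx hy hy0 hε0.le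
      refine h1.trans (mul_le_mul_of_nonneg_left (by linarith) (by linarith))
    have hun2 : ‖u t‖ ≤ ε := by
      have : P * (ε * ε / 100) = (ε * P) * ε / 100 := by ring
      rw [this, hεP] at hun
      linarith
    have hbn : ‖b‖ ≤ 4 * ε := by
      have : b = a - (a - b) := by abel
      rw [this, hbu]
      exact (norm_sub_le _ _).trans (by linarith)
    -- the key
    have k1 : π (D.Phi b (Δ - h' • y)) =
        π ((h' • y - D.Phi a Δ) + (D.Phi a - D.Phi b) Δ) + 0 - 2 • π (h' • y - D.Phi a Δ)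
          - 2 • π ((D.Phi a - D.Phi b) Δ) := by
      have h1 : D.Phi b (Δ - h' • y) = -(h' • (D.Phi b y - y)) - (h' • y - D.Phi a Δ) -
          (D.Phi a - D.Phi b) Δ := by
        simp only [map_sub, map_smul, sub_apply, smul_sub]; abel
      have h2 : π (h' • (D.Phi b y - y)) = 0 := by
        rw [hπ]; exact j.smul_mem _ (D.Phi_sub_mem j hbpres hby)
      rw [h1, map_sub, map_sub, map_neg, h2, map_add]
      simp only [two_smul]; abel
    have k2 : ‖π (D.Phi b (Δ - h' • y))‖ ≤ P * (‖Δ‖ ^ 2 / 10 + ‖u t‖ * ‖Δ‖) := by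
      have h1 : π (D.Phi b (Δ - h' • y)) = - π ((h' • y - D.Phi a Δ) + (D.Phi a - D.Phi b) Δ) := by
        rw [k1, map_add]; simp only [two_smul]; abel
      rw [h1, norm_neg]
      refine (hπP _).trans (mul_le_mul_of_nonneg_left ?_ (by linarith))
      refine (norm_add_le _ _).trans (add_le_add e4 ?_)
      refine (ContinuousLinearMap.le_opNorm _ _).trans (mul_le_mul_of_nonneg_right ?_ (norm_nonneg _))
      rw [← hbu]
      exact D.Phi_lip (by linarith) (by linarith)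
    have k3 : ∀ w : E, ‖π w‖ ≤ 2 * ‖π (D.Phi b w)‖ := by
      intro w
      have h1 : π (D.Phi b w) = π w + π ((D.Phi b - 1) (π w)) := by
        have h3 : w - π w ∈ j := by rw [← hπ, map_sub, hππ, sub_self]
        have h4 : π (D.Phi b (w - π w)) = 0 := (hπ _).2 (D.Phi_mem j hbpres h3)
        have h5 : D.Phi b w = D.Phi b (π w) + D.Phi b (w - π w) := by
          rw [← map_add]; congr 1; abel
        have h6 : (D.Phi b - 1) (π w) = D.Phi b (π w) - π w := rfl
        rw [h5, map_add, h4, add_zero, h6, map_sub, hππ]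
        abel
      have h6 : ‖π ((D.Phi b - 1) (π w))‖ ≤ (1 / 2) * ‖π w‖ := by
        refine (hπP _).trans ?_
        have h7 : ‖(D.Phi b - 1) (π w)‖ ≤ (‖b‖ / 40) * ‖π w‖ :=
          (ContinuousLinearMap.le_opNorm _ _).trans
            (mul_le_mul_of_nonneg_right (D.Phi_sub_one (by linarith)) (norm_nonneg _))
        calc P * ‖(D.Phi b - 1) (π w)‖ ≤ P * ((‖b‖ / 40) * ‖π w‖) :=
              mul_le_mul_of_nonneg_left h7 (by linarith)
          _ = (P * ‖b‖ / 40) * ‖π w‖ := by ring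
          _ ≤ (1 / 2) * ‖π w‖ := by
            refine mul_le_mul_of_nonneg_right ?_ (norm_nonneg _)
            have : P * ‖b‖ ≤ P * (4 * ε) := mul_le_mul_of_nonneg_left hbn (by linarith)
            have h8 : P * (4 * ε) = 4 * (ε * P) := by ring
            rw [h8, hεP] at this
            linarith
      have h9 : ‖π w‖ ≤ ‖π (D.Phi b w)‖ + ‖π ((D.Phi b - 1) (π w))‖ := by
        have : π w = π (D.Phi b w) - π ((D.Phi b - 1) (π w)) := by rw [h1]; abel
        calc ‖π w‖ = ‖π (D.Phi b w) - π ((D.Phi b - 1) (π w))‖ := by rw [← this]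
          _ ≤ _ := norm_sub_le _ _
      linarith
    have k4 : u (t + h') = u t + π (Δ - h' • y) := by
      rw [hu]
      simp only
      rw [← map_add]
      congr 1
      rw [← ha, ← ha', hΔ, add_smul]; abel
    rw [k4]
    refine (norm_add_le _ _).trans ?_
    have k3' := k3 (Δ - h' • y)
    have k5 : 2 * (P * (‖Δ‖ ^ 2 / 10 + ‖u t‖ * ‖Δ‖)) ≤ h' * ‖u t‖ + h' ^ 2 := by
      have h1 : P * ‖Δ‖ ≤ h' / 50 := by
        have h2 : P * ‖Δ‖ ≤ P * (101 / 100 * (h' * ε)) := by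
          refine mul_le_mul_of_nonneg_left (e3.trans ?_) (by linarith)
          exact mul_le_mul_of_nonneg_left (mul_le_mul_of_nonneg_left hy hh) (by norm_num)
        have h3 : P * (101 / 100 * (h' * ε)) = 101 / 100 * h' * (ε * P) := by ring
        rw [h3, hεP] at h2
        linarith
      have hΔ1 : ‖Δ‖ ≤ h' := by nlinarith [norm_nonneg Δ]
      have h4 : 2 * (P * (‖Δ‖ ^ 2 / 10 + ‖u t‖ * ‖Δ‖)) =
          2 * (P * ‖Δ‖) * (‖Δ‖ / 10) + 2 * (P * ‖Δ‖) * ‖u t‖ := by ring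
      rw [h4]
      have h5 : (P * ‖Δ‖) * ‖Δ‖ ≤ (h' / 50) * h' :=
        mul_le_mul h1 hΔ1 (norm_nonneg _) (by positivity)
      have h6 : (P * ‖Δ‖) * ‖u t‖ ≤ (h' / 50) * ‖u t‖ :=
        mul_le_mul_of_nonneg_right h1 (norm_nonneg _)
      have h7 : 0 ≤ h' * ‖u t‖ := by positivity
      have h8 : 0 ≤ h' ^ 2 := by positivity
      nlinarith
    linarith
  -- iterate
  have hu0 : u 0 = 0 := by simp [hu, h00]
  have fin : ∀ n : ℕ, 0 < n → ‖u 1‖ ≤ 3 / n := by
    intro n hn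
    have hn' : (0 : ℝ) < n := by exact_mod_cast hn
    have it : ∀ k : ℕ, k ≤ n → ‖u ((k : ℝ) / n)‖ ≤ k * (1 / (n : ℝ)) ^ 2 * (1 + 1 / (n : ℝ)) ^ k := by
      intro k
      induction k with
      | zero => intro _; simp [hu0]
      | succ k ih =>
        intro hk
        have h1 := ih (by omega)
        have hk1 : ((k : ℝ) + 1) / n ≤ 1 := by
          rw [div_le_one hn']; exact_mod_cast hk
        have e : (((k + 1 : ℕ) : ℝ)) / n = (k : ℝ) / n + 1 / n := by push_cast; ring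
        have h2 := step ((k : ℝ) / n) (1 / n) ⟨by positivity, by
            have : (k : ℝ) / n ≤ ((k : ℝ) + 1) / n := by gcongr; linarith
            linarith⟩ ⟨by positivity, by rw [← add_div]; exact hk1⟩ (by positivity)
        rw [e]
        refine h2.trans ?_
        push_cast
        have h3 : (1 : ℝ) ≤ (1 + 1 / (n : ℝ)) ^ (k + 1) := by
          refine one_le_pow₀ ?_
          have : (0 : ℝ) ≤ 1 / n := by positivity
          linarith
        calc (1 + 1 / (n : ℝ)) * ‖u ((k : ℝ) / n)‖ + (1 / (n : ℝ)) ^ 2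
            ≤ (1 + 1 / (n : ℝ)) * (k * (1 / (n : ℝ)) ^ 2 * (1 + 1 / (n : ℝ)) ^ k) +
              (1 / (n : ℝ)) ^ 2 * (1 + 1 / (n : ℝ)) ^ (k + 1) :=
              add_le_add (mul_le_mul_of_nonneg_left h1 (by positivity))
                (le_mul_of_one_le_right (by positivity) h3)
          _ = _ := by rw [pow_succ]; ring
    have h1 := it n le_rfl
    rw [div_self hn'.ne'] at h1
    have h2 : (1 + 1 / (n : ℝ)) ^ n ≤ 3 := by
      have h3 : (1 + 1 / (n : ℝ)) ≤ Real.exp (1 / n) := by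
        rw [add_comm]; exact Real.add_one_le_exp _
      have h4 := pow_le_pow_left₀ (by positivity) h3 n
      rw [← Real.exp_nat_mul, mul_one_div_cancel hn'.ne'] at h4
      exact h4.trans (by linarith [Real.exp_one_lt_d9])
    calc ‖u 1‖ ≤ n * (1 / (n : ℝ)) ^ 2 * (1 + 1 / (n : ℝ)) ^ n := h1
      _ ≤ n * (1 / (n : ℝ)) ^ 2 * 3 := mul_le_mul_of_nonneg_left h2 (by positivity)
      _ = 3 / n := by field_simp
  have hu1 : u 1 = 0 := by
    have h1 : Tendsto (fun n : ℕ => (3 : ℝ) / n) atTop (𝓝 0) :=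
      tendsto_const_div_atTop_nhds_zero_nat 3
    have h2 : ‖u 1‖ ≤ 0 := by
      refine ge_of_tendsto h1 ?_
      filter_upwards [eventually_gt_atTop 0] with n hn
      exact fin n hn
    exact norm_le_zero_iff.1 h2
  rw [← hπ, ← hu1, hu]
  simp [hz1]

end ExpData

end Pool.Agent.H72.ProLie
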