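import Pool.Agent.H72.ProLie.Defs
import Pool.Agent.H72.ProLie.Compat
import Pool.Agent.ProLieLim.Lim
import Pool.Agent.ProLieAlg.Glue

/-! Coordinates in a pro-Lie group. -/

set_option linter.unusedSectionVars false
set_option linter.unusedVariables false

open Filter Topology Set
open scoped commutatorElement

namespace Pool.Agent.H72.ProLie

section Sys

variable {G : Type*} [Group G] [TopologicalSpace G] [IsTopologicalGroup G] [T2Space G]
  {ι : Type*} {N : ι → Subgroup G} [hNn : ∀ i, (N i).Normal] [hNc : ∀ i, IsClosed (N i : Set G)]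
  {E : ι → Type*} [∀ i, NormedAddCommGroup (E i)] [∀ i, NormedSpace ℝ (E i)]
  [∀ i, FiniteDimensional ℝ (E i)] (D : ∀ i, ExpData (G ⧸ N i) (E i))

/-- The transition map between two quotients. -/
def trq {i j : ι} (hij : N i ≤ N j) : G ⧸ N i →* G ⧸ N j :=
  QuotientGroup.map (N i) (N j) (MonoidHom.id G) hij

omit [TopologicalSpace G] [IsTopologicalGroup G] [T2Space G] hNc in
@[simp] theorem trq_mk {i j : ι} (hij : N i ≤ N j) (a : G) : trq hij (a : G ⧸ N i) = (a : G ⧸ N j) := rfl

omit [T2Space G] hNc in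
theorem trq_cont {i j : ι} (hij : N i ≤ N j) : Continuous (trq (N := N) hij) := by
  rw [(QuotientGroup.isQuotientMap_mk (N i)).continuous_iff]
  exact QuotientGroup.continuous_mk

/-- `T` is the derivative of the transition map. -/
def IsTr {i j : ι} (hij : N i ≤ N j) (T : E i →L[ℝ] E j) : Prop :=
  ∀ (x : E i) (t : ℝ), trq hij ((D i).exp (t • x)) = (D j).exp (t • T x)

theorem exists_tr {i j : ι} (hij : N i ≤ N j) : ∃ T : E i →L[ℝ] E j, IsTr D hij T :=
  ExpData.exists_dmap (D i) (D j) (trq hij) (trq_cont hij)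

/-- `x` is the family of coordinates of `X`. -/
def IsCoord (X : LG G) (x : ∀ i, E i) : Prop :=
  ∀ i (t : ℝ), ((X.at t : G) : G ⧸ N i) = (D i).exp (t • x i)

theorem exists_isCoord (X : LG G) : ∃ x : ∀ i, E i, IsCoord D X x := by
  have := fun i => (exists_coord D hNc X i).exists
  choose x hx using this
  exact ⟨x, hx⟩

theorem IsCoord.unique {X : LG G} {x y : ∀ i, E i} (hx : IsCoord D X x) (hy : IsCoord D X y) :
    x = y := by
  funext i
  exact (D i).exp_line_unique' (fun t => by rw [← hx i t, ← hy i t])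

theorem IsCoord.tr {X : LG G} {x : ∀ i, E i} (hx : IsCoord D X x) {i j : ι} (hij : N i ≤ N j)
    {T : E i →L[ℝ] E j} (hT : IsTr D hij T) : T (x i) = x j := by
  refine (D j).exp_line_unique' (fun t => ?_)
  rw [← hT, ← hx i t, trq_mk, hx j t]

variable (hsmall : ∀ U ∈ 𝓝 (1 : G), ∃ i, (N i : Set G) ⊆ U)

omit D [IsTopologicalGroup G] in
include hsmall in
theorem LG_eq [IsTopologicalGroup G] {X Y : LG G} (h : ∀ i (t : ℝ), ((X.at t : G) : G ⧸ N i) = Y.at t) : X = Y := by
  refine DFunLike.ext _ _ (fun t => ?_)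
  exact eq_of_quot (N := N) hsmall (fun i => h i t.toAdd)

include hsmall in
theorem IsCoord.eq {X Y : LG G} {x : ∀ i, E i} (hx : IsCoord D X x) (hy : IsCoord D Y x) : X = Y :=
  LG_eq hsmall (fun i t => by rw [hx i t, hy i t])

variable (hcomp : IsCompleteGroup G)

include hsmall hcomp

theorem exists_of_coord (x : ∀ i, E i)
    (hx : ∀ i j, ∀ hij : N i ≤ N j, ∀ T : E i →L[ℝ] E j, IsTr D hij T → T (x i) = x j) :
    ∃ X : LG G, IsCoord D X x := by
  refine exists_oneParam D hNc hsmall hcomp x ?_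
  intro i j hij t a ha
  obtain ⟨T, hT⟩ := exists_tr D hij
  have := hT (x i) t
  rw [← ha, trq_mk, hx i j hij T hT] at this
  exact this

omit hcomp in
/-- Sums in coordinates. -/
theorem isSum_of_coord {X Y Z : LG G} {x y : ∀ i, E i} (hx : IsCoord D X x) (hy : IsCoord D Y y)
    (hz : IsCoord D Z (x + y)) : IsSum X Y Z := by
  intro t
  refine tendsto_of_quot (N := N) hsmall (fun i => ?_)
  rw [hz i t, Pi.add_apply, smul_add]
  refine ((D i).trotter (t • x i) (t • y i)).congr (fun n => ?_)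
  rw [QuotientGroup.mk_pow, QuotientGroup.mk_mul, hx, hy, smul_smul, smul_smul, div_eq_inv_mul]

omit hcomp in
/-- Brackets in coordinates. -/
theorem isBracket_of_coord {X Y Z : LG G} {x y : ∀ i, E i} (hx : IsCoord D X x)
    (hy : IsCoord D Y y) (hz : IsCoord D Z (fun i => (D i).br (x i) (y i))) : IsBracket X Y Z := by
  intro t
  refine tendsto_of_quot (N := N) hsmall (fun i => ?_)
  have e1 : t ^ 2 • (D i).br (x i) (y i) = (D i).br (t • x i) (t • y i) := by
    rw [map_smul, map_smul, smul_apply, smul_smul, pow_two]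
  rw [hz i (t ^ 2)]
  simp only [e1]
  refine ((D i).comm_limit (t • x i) (t • y i)).congr (fun n => ?_)
  have e2 : ∀ a b : G, ((⁅a, b⁆ : G) : G ⧸ N i) = ⁅(a : G ⧸ N i), (b : G ⧸ N i)⁆ := by
    intro a b; rfl
  rw [QuotientGroup.mk_pow, e2, hx, hy, smul_smul, smul_smul, div_eq_inv_mul]

include D in
/-- Sums exist. -/
theorem exists_isSum (X Y : LG G) : ∃! Z, IsSum X Y Z := by
  obtain ⟨x, hx⟩ := exists_isCoord D X
  obtain ⟨y, hy⟩ := exists_isCoord D Y
  obtain ⟨Z, hZ⟩ := exists_of_coord D hsmall hcomp (x + y) (fun i j hij T hT => by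
    rw [Pi.add_apply, map_add, hx.tr D hij hT, hy.tr D hij hT, Pi.add_apply])
  refine ⟨Z, isSum_of_coord D hsmall hx hy hZ, ?_⟩
  intro Z' hZ'
  refine DFunLike.ext _ _ (fun t => ?_)
  exact tendsto_nhds_unique (hZ' t.toAdd) (isSum_of_coord D hsmall hx hy hZ t.toAdd)

include D in
/-- Brackets exist. -/
theorem exists_isBracket (X Y : LG G) : ∃! Z, IsBracket X Y Z := by
  obtain ⟨x, hx⟩ := exists_isCoord D X
  obtain ⟨y, hy⟩ := exists_isCoord D Y
  obtain ⟨Z, hZ⟩ := exists_of_coord D hsmall hcomp (fun i => (D i).br (x i) (y i))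
    (fun i j hij T hT => by
      rw [ExpData.dmap_br hT, hx.tr D hij hT, hy.tr D hij hT])
  have hZ1 := isBracket_of_coord D hsmall hx hy hZ
  refine ⟨Z, hZ1, ?_⟩
  intro Z' hZ'
  have h1 : ∀ t : ℝ, 0 ≤ t → Z'.at t = Z.at t := by
    intro t ht
    have := tendsto_nhds_unique (hZ' (Real.sqrt t)) (hZ1 (Real.sqrt t))
    rwa [Real.sq_sqrt ht] at this
  have hinv : ∀ (X : LG G) (t : ℝ), X.at (-t) = (X.at t)⁻¹ := fun X t => map_inv X _
  refine DFunLike.ext _ _ (fun t => ?_)
  show Z'.at t.toAdd = Z.at t.toAdd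
  rcases le_total 0 t.toAdd with h | h
  · exact h1 _ h
  · have h2 := h1 (-t.toAdd) (by linarith)
    rw [hinv, hinv] at h2
    exact inv_injective h2

end Sys

end Pool.Agent.H72.ProLie
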